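import Pool.Agent.Lib.MP_93b649_gt.RD2

/-! # ROW RD3: `riemannianDist` is nonnegative, symmetric, satisfies the triangle inequality (`Real.sInf_nonneg`, `csInf_le`, `exists_lt_of_csInf_lt`). -/

open scoped ContDiff Topology ComplexConjugate
open Set Filter

noncomputable section

namespace Pool.Agent.KH

variable {M : Set (ℂ × ℂ)} {g : Form}

theorem riemannianDist_nonneg (x y : ℂ × ℂ) : 0 ≤ riemannianDist M g x y :=
  Real.sInf_nonneg fun _ hL => hL.mem.2.2

theorem riemannianDist_le {x y : ℂ × ℂ} {L : ℝ} (h : Joined M g x y L) : riemannianDist M g x y ≤ L :=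
  csInf_le ⟨0, fun _ hL => hL.mem.2.2⟩ h

theorem rd3_exists (hj : IsJoined M g) {x y : ℂ × ℂ} (hx : x ∈ M) (hy : y ∈ M) {ε : ℝ} (hε : 0 < ε) :
    ∃ L, Joined M g x y L ∧ L < riemannianDist M g x y + ε :=
  exists_lt_of_csInf_lt (hj x hx y hy) (lt_add_of_pos_right _ hε)

theorem riemannianDist_triangle (hj : IsJoined M g) {x y z : ℂ × ℂ} (hx : x ∈ M) (hy : y ∈ M) (hz : z ∈ M) :
    riemannianDist M g x z ≤ riemannianDist M g x y + riemannianDist M g y z := by
  refine le_of_forall_pos_le_add fun ε hε => ?_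
  obtain ⟨L, hL, hL'⟩ := rd3_exists hj hx hy (half_pos hε)
  obtain ⟨K, hK, hK'⟩ := rd3_exists hj hy hz (half_pos hε)
  have h := riemannianDist_le (hL.trans hK)
  linarith

theorem riemannianDist_symm (hg : IsMetric M g) (x y : ℂ × ℂ) :
    riemannianDist M g x y = riemannianDist M g y x := by
  unfold riemannianDist
  congr 1
  ext L
  exact ⟨fun h => h.symm hg, fun h => h.symm hg⟩

end Pool.Agent.KH
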