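import Pool.Agent.Lib.MP_93b649_gt.RD1
import Pool.Agent.Lib.MP_93b649_gt.RD3

/-! # ROW RD5: local upper bound by straight segments

`r, C` from `locally_bounded`; for `‖y-x‖ < r` the segment `γ s = y + s (x - y)` stays in the ball, `γ' = x - y`, and
`curveLength = ∫_0^1 √(g(γ s)(x-y)(x-y)) ≤ C ‖x-y‖` (`intervalIntegral.norm_integral_le_of_norm_le_const`). `Joined` from `y` to `x` by
`Joined.append y γ 0 (Joined.refl ..)`. `segment_joined`: the same for a segment contained in `M` (no bound on the length). -/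

open scoped ContDiff Topology ComplexConjugate
open Set Filter

noncomputable section

namespace Pool.Agent.KH

variable {M : Set (ℂ × ℂ)} {g : Form}

private def rd5_seg (x y : ℂ × ℂ) (s : ℝ) : ℂ × ℂ := y + s • (x - y)

private theorem rd5_contDiff (x y : ℂ × ℂ) : ContDiff ℝ 1 (rd5_seg x y) := by
  unfold rd5_seg
  exact contDiff_const.add (contDiff_id.smul contDiff_const)

private theorem rd5_deriv (x y : ℂ × ℂ) (s : ℝ) : deriv (rd5_seg x y) s = x - y := by
  have h : HasDerivAt (rd5_seg x y) ((1 : ℝ) • (x - y)) s :=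
    ((hasDerivAt_id s).smul_const (x - y)).const_add y
  rw [one_smul] at h
  exact h.deriv

private theorem rd5_joined {x y : ℂ × ℂ} (h : ∀ s ∈ Icc (0 : ℝ) 1, y + s • (x - y) ∈ M) :
    Joined M g y x (0 + curveLength g (rd5_seg x y)) := by
  have h0 : rd5_seg x y 0 = y := by simp [rd5_seg]
  have h1 : rd5_seg x y 1 = x := by simp [rd5_seg]
  have hy : y ∈ M := by
    have := h 0 (by simp)
    simpa using this
  have hj := Joined.append (M := M) (g := g) y (rd5_seg x y) 0 (by rw [h0]; exact Joined.refl y hy)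
    (rd5_contDiff x y) h
  rw [h1] at hj
  exact hj

theorem segment_joined {x y : ℂ × ℂ} (h : ∀ s ∈ Icc (0 : ℝ) 1, y + s • (x - y) ∈ M) : ∃ L, Joined M g y x L :=
  ⟨_, rd5_joined h⟩

theorem dist_le_of_near (hg : IsMetric M g) {x : ℂ × ℂ} (hx : x ∈ M) :
    ∃ r > 0, ∃ C > 0, ∀ y, ‖y - x‖ < r → y ∈ M ∧ riemannianDist M g y x ≤ C * ‖y - x‖ := by
  obtain ⟨r, hr, C, hC, hball, hb⟩ := hg.locally_bounded hx
  refine ⟨r, hr, C, hC, fun y hy => ?_⟩
  have hyb : y ∈ Metric.ball x r := by rw [mem_ball_iff_norm]; exact hy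
  have hseg : ∀ s ∈ Icc (0 : ℝ) 1, y + s • (x - y) ∈ Metric.ball x r := by
    intro s hs
    rw [mem_ball_iff_norm]
    have e : y + s • (x - y) - x = (1 - s) • (y - x) := by module
    rw [e, norm_smul, Real.norm_eq_abs, abs_of_nonneg (by linarith [hs.2])]
    have h1 : (1 - s) * ‖y - x‖ ≤ 1 * ‖y - x‖ :=
      mul_le_mul_of_nonneg_right (by linarith [hs.1]) (norm_nonneg _)
    linarith
  refine ⟨hball hyb, ?_⟩
  have hj := rd5_joined (M := M) (g := g) (fun s hs => hball (hseg s hs))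
  refine (riemannianDist_le hj).trans ?_
  rw [zero_add]
  have hle : ‖∫ s in (0 : ℝ)..1, Real.sqrt (g (rd5_seg x y s) (deriv (rd5_seg x y) s)
      (deriv (rd5_seg x y) s))‖ ≤ (C * ‖y - x‖) * |(1 : ℝ) - 0| := by
    apply intervalIntegral.norm_integral_le_of_norm_le_const
    intro s hs
    rw [uIoc_of_le zero_le_one] at hs
    rw [rd5_deriv, Real.norm_eq_abs, abs_of_nonneg (Real.sqrt_nonneg _)]
    have h1 := hb _ (hseg s ⟨hs.1.le, hs.2⟩) (x - y)
    have h2 : Real.sqrt (g (rd5_seg x y s) (x - y) (x - y)) ≤ Real.sqrt (C ^ 2 * ‖x - y‖ ^ 2) :=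
      Real.sqrt_le_sqrt h1
    have h3 : Real.sqrt (C ^ 2 * ‖x - y‖ ^ 2) = C * ‖x - y‖ := by
      rw [← mul_pow]
      exact Real.sqrt_sq (mul_nonneg hC.le (norm_nonneg _))
    rw [h3, norm_sub_rev] at h2
    exact h2
  rw [sub_zero, abs_one, mul_one] at hle
  exact (le_abs_self _).trans hle

end Pool.Agent.KH
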