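import Pool.Agent.Lib.MP_93b649_gt.RD4
import Pool.Agent.Lib.MP_93b649_gt.RD5

/-! # ROW RD6: completeness criterion

`x_n` Cauchy: `f(x_n)` is bounded (`IsLip.dist`: `|f(x_n) - f(x_N)| ≤ C ε` for `n ≥ N`), so `x_n ∈ K` compact, `K ⊆ M` for `n ≥ N`; a subsequence `x_{φ n}`
converges (Euclidean topology) to `y ∈ K` (`IsCompact.tendsto_subseq` for the sequence `n ↦ x (n+N)`); by `dist_le_of_near`
`dist(x_{φ n}, y) → 0`; by the triangle inequality `dist(x_n, y) ≤ dist(x_n, x_{φ k}) + dist(x_{φ k}, y)`, `→ 0`. -/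

open scoped ContDiff Topology ComplexConjugate
open Set Filter

noncomputable section

namespace Pool.Agent.KH

variable {M : Set (ℂ × ℂ)} {g : Form}

theorem complete_of_proper (hg : IsMetric M g) (hj : IsJoined M g) {C : ℝ} (hC : 0 ≤ C) {f : ℂ × ℂ → ℝ}
    (hf : IsLip M g C f) (hproper : ∀ R : ℝ, ∃ K ⊆ M, IsCompact K ∧ ∀ x ∈ M, f x ≤ R → x ∈ K) :
    IsCompleteMetric M g := by
  intro x hx hcau
  obtain ⟨N, hN⟩ := hcau 1 one_pos
  obtain ⟨K, hKM, hKc, hK⟩ := hproper (f (x N) + C)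
  have hmem : ∀ n, x (n + N) ∈ K := by
    intro n
    apply hK _ (hx _)
    have h1 := hf.dist hg hj hC (hx N) (hx (n + N))
    have h2 := hN N le_rfl (n + N) (Nat.le_add_left _ _)
    have h3 : C * riemannianDist M g (x N) (x (n + N)) ≤ C * 1 :=
      mul_le_mul_of_nonneg_left h2.le hC
    have h4 := le_abs_self (f (x (n + N)) - f (x N))
    linarith
  obtain ⟨y, hyK, φ, hφ, hlim⟩ := hKc.tendsto_subseq hmem
  have hyM : y ∈ M := hKM hyK
  refine ⟨y, hyM, ?_⟩
  obtain ⟨r, hr, D, hD, hnear⟩ := dist_le_of_near hg hyM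
  rw [Metric.tendsto_atTop]
  intro ε hε
  obtain ⟨N1, hN1⟩ := hcau (ε / 2) (half_pos hε)
  -- a late member of the subsequence close to `y`
  have hball : ∀ᶠ k in atTop, dist ((fun n => x (n + N)) (φ k)) y < min r (ε / 2 / D) := by
    have hpos : 0 < min r (ε / 2 / D) := lt_min hr (div_pos (half_pos hε) hD)
    exact (Metric.tendsto_nhds.mp hlim) _ hpos
  have hlate : ∀ᶠ k in atTop, N1 ≤ φ k := hφ.tendsto_atTop.eventually_ge_atTop N1
  obtain ⟨k, hk1, hk2⟩ := (hball.and hlate).exists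
  have hk1' : ‖x (φ k + N) - y‖ < min r (ε / 2 / D) := by
    rw [← dist_eq_norm]; exact hk1
  have hd1 := (hnear (x (φ k + N)) (lt_of_lt_of_le hk1' (min_le_left _ _))).2
  have hd2 : D * ‖x (φ k + N) - y‖ < ε / 2 := by
    have := lt_of_lt_of_le hk1' (min_le_right _ _)
    rw [lt_div_iff₀ hD] at this
    linarith
  refine ⟨N1, fun n hn => ?_⟩
  have h1 := hN1 n hn (φ k + N) (le_trans hk2 (Nat.le_add_right _ _))
  have h2 := riemannianDist_triangle hj (hx n) (hx (φ k + N)) hyM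
  have h0 := riemannianDist_nonneg (M := M) (g := g) (x n) y
  rw [Real.dist_eq, sub_zero, abs_of_nonneg h0]
  linarith

end Pool.Agent.KH
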