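import Pool.Agent.Lib.MP_93b649_gt.RG5

/-! # ROW RG6: local description of the manifold

For `x ∈ M`: (a) if `inDisc k x` (an open condition): `A = Ak k`, `b = bk k`; near `x` use `in_disc` and openness of `MS` (`D.isOpen_MS`, continuity of
`z ↦ A z + b`); `lev x = (Sk k x).2.re`. (b) no disc contains `x`: by `outside_nhds` (continuity of `Prod.fst`) near `x` all points satisfy
the hypothesis of `out_disc`; `0 < Y x`, `Y` continuous, so near `x`: `0 < Y z`, `G z = hyp z`. Take `p = 0` and `l > 0` with `l² < Y x/4` small, more precisely such that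
`(Alin 0 l x + btr 0 l).2.re = x.2.re/l² < -1`: possible since `x.2.re ≤ -Y x/2 < 0` (`S_snd_re`). Then `A x + b` is in the exact zone, in
`MS` (`mem_exact`, `Y_S`), and near `x` (still `ℓ < -1`): `hyp z u v = pull A b hyp z u v = pull A b T.metric z u v` (`hyp_pull`, `metric_exact`); `T.y = 0` at levels `≤ -1` (`T.neg`),
and `lev x ≤ -1` by `out_disc`. -/

open scoped ContDiff Topology ComplexConjugate
open Set Filter

noncomputable section

namespace Pool.Agent.KH

variable {m : ℕ} (T : Template m)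

theorem local_model {x : ℂ × ℂ} (hx : x ∈ M T) :
    ∃ (A : (ℂ × ℂ) ≃L[ℂ] (ℂ × ℂ)) (b : ℂ × ℂ), A x + b ∈ T.MS ∧ T.y (A x + b).2.re = T.y (lev x) ∧
      ∀ᶠ z in 𝓝 x, z ∈ M T ∧ A z + b ∈ T.MS ∧ ∀ u v, G T z u v = pull A b T.metric z u v := by
  by_cases h : ∃ k, inDisc k x
  · obtain ⟨k, hk⟩ := h
    have h1 := in_disc T hk
    have hopen : ∀ᶠ z in 𝓝 x, inDisc k z := by
      have hc : Continuous fun z : ℂ × ℂ => ‖z.1 - (pt k : ℂ)‖ := by fun_prop
      exact (hc.tendsto x).eventually_lt_const hk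
    have hS : Continuous fun z : ℂ × ℂ => Ak k z + bk k := (Ak k).continuous.add continuous_const
    have hxS : Ak k x + bk k ∈ T.MS := h1.1.1 hx
    have hMS : ∀ᶠ z in 𝓝 x, Ak k z + bk k ∈ T.MS :=
      (hS.tendsto x).eventually (T.toCData.isOpen_MS.mem_nhds hxS)
    refine ⟨Ak k, bk k, hxS, ?_, ?_⟩
    · rw [h1.2.2]; rfl
    · filter_upwards [hopen, hMS] with z hz hz'
      have h2 := in_disc T hz
      refine ⟨h2.1.2 hz', hz', fun u v => ?_⟩
      rw [h2.2.1]
  · have h' : ∀ k, 2 * sc k ≤ ‖x.1 - (pt k : ℂ)‖ := fun k => by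
      by_contra hk
      exact h ⟨k, not_le.1 hk⟩
    have hn : ∀ᶠ z in 𝓝 x, ∀ k, Real.sqrt 2 * sc k < ‖z.1 - (pt k : ℂ)‖ :=
      (continuous_fst.tendsto x).eventually (outside_nhds h')
    have hox := out_disc T fun k => (hn.self_of_nhds k).le
    have hYx : 0 < Y x := hox.1.1 hx
    have hre : x.2.re < 0 := by
      have h0 := Complex.normSq_nonneg x.1
      unfold Y at hYx
      linarith
    set l : ℝ := Real.sqrt (-x.2.re / 2) with hl
    have hlpos : 0 < l := Real.sqrt_pos.2 (by linarith)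
    have hl0 : l ≠ 0 := hlpos.ne'
    have hl2 : l ^ 2 = -x.2.re / 2 := Real.sq_sqrt (by linarith)
    have hA : Continuous fun z : ℂ × ℂ => Alin 0 l hl0 z + btr 0 l := (Alin 0 l hl0).continuous.add continuous_const
    have hc : Continuous fun z : ℂ × ℂ => (Alin 0 l hl0 z + btr 0 l).2.re :=
      Complex.continuous_re.comp (continuous_snd.comp hA)
    have hxlt : (Alin 0 l hl0 x + btr 0 l).2.re < -1 := by
      rw [S_snd_re, hl2, div_lt_iff₀ (by linarith)]
      linarith
    have hlt : ∀ᶠ z in 𝓝 x, (Alin 0 l hl0 z + btr 0 l).2.re < -1 := (hc.tendsto x).eventually_lt_const hxlt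
    have hYc : Continuous Y := by
      unfold Y
      exact (continuous_const.mul (Complex.continuous_re.comp continuous_snd)).sub
        (Complex.continuous_normSq.comp continuous_fst)
    have hYn : ∀ᶠ z in 𝓝 x, 0 < Y z := (hYc.tendsto x).eventually_const_lt hYx
    have hmem : ∀ z : ℂ × ℂ, (Alin 0 l hl0 z + btr 0 l).2.re < -1 → 0 < Y z → Alin 0 l hl0 z + btr 0 l ∈ T.MS := by
      intro z h1 h2
      rw [mem_exact T _ h1.le]
      rw [Y_S 0 l hl0 z] at h2
      exact (mul_pos_iff_of_pos_left (by positivity)).1 h2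
    refine ⟨Alin 0 l hl0, btr 0 l, hmem x hxlt hYx, ?_, ?_⟩
    · rw [(T.neg _ hxlt.le).2.1, (T.neg _ (hox.2.2 hYx)).2.1]
    · filter_upwards [hn, hlt, hYn] with z h1 h2 h3
      have h4 := out_disc T fun k => (h1 k).le
      refine ⟨h4.1.2 h3, hmem z h2 h3, fun u v => ?_⟩
      rw [h4.2.1 h3 u v, ← hyp_pull 0 l hl0 z h3 u v]
      unfold pull
      rw [metric_exact T _ h2.le (hmem z h2 h3)]

theorem isOpen_M : IsOpen (M T) := by
  rw [isOpen_iff_mem_nhds]
  intro x hx
  obtain ⟨A, b, -, -, h⟩ := local_model T hx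
  filter_upwards [h] with z hz using hz.1

end Pool.Agent.KH
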