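import Pool.Agent.Lib.MP_93b649_gt.BGlue

/-! # ROW RG2: the affine maps, general `p`, `l ≠ 0`: `S x = Alin p l x + btr p l`

* `S_fst`, `S_snd`: unfold (`Alin_apply`, `btr`), `field_simp`.
* `Y_S`: with `t = (z-p)/l`, `W' = (W + p z - p²/2)/l²`: `l²(-2 Re W' - |t|²) = -2Re W - 2p Re z + p² - |z|² + 2p Re z - p² = Y` (`Complex.normSq_apply`,
  real and imaginary parts).
* `hyp_pull`: `pull (Alin p l) (btr p l) hyp x u v = hyp x u v` for `0 < Y x`: with `u' = (u_z/l, (u_W+p u_z)/l²)`: `Y' = Y/l²`,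
  `u'_W + conj t u'_z = (u_W + p u_z + conj(z-p) u_z)/l² = (u_W + conj z u_z)/l²`, so both terms agree (`field_simp`). -/

open scoped ContDiff Topology ComplexConjugate
open Set Filter

noncomputable section

namespace Pool.Agent.KH

theorem S_fst (p l : ℝ) (hl : l ≠ 0) (x : ℂ × ℂ) : (Alin p l hl x + btr p l).1 = (x.1 - p) / l := by
  show x.1 / (l : ℂ) + -(p : ℂ) / l = (x.1 - p) / l
  ring

theorem S_snd (p l : ℝ) (hl : l ≠ 0) (x : ℂ × ℂ) :
    (Alin p l hl x + btr p l).2 = (x.2 + p * x.1 - (p : ℂ) ^ 2 / 2) / (l : ℂ) ^ 2 := by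
  show (x.2 + p * x.1) / (l : ℂ) ^ 2 + -((p : ℂ) ^ 2 / 2) / (l : ℂ) ^ 2 = _
  ring

/-- the real part of the second component -/
theorem S_snd_re (p l : ℝ) (hl : l ≠ 0) (x : ℂ × ℂ) :
    (Alin p l hl x + btr p l).2.re = (x.2.re + p * x.1.re - p ^ 2 / 2) / l ^ 2 := by
  rw [S_snd]
  have h1 : ((l : ℂ) ^ 2) = ((l ^ 2 : ℝ) : ℂ) := by push_cast; rfl
  have h2 : ((p : ℂ) ^ 2 / 2) = ((p ^ 2 / 2 : ℝ) : ℂ) := by push_cast; rfl
  rw [h1, h2, Complex.div_ofReal_re, Complex.sub_re, Complex.add_re, Complex.re_ofReal_mul, Complex.ofReal_re]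

theorem Y_S (p l : ℝ) (hl : l ≠ 0) (x : ℂ × ℂ) : Y x = l ^ 2 * Y (Alin p l hl x + btr p l) := by
  unfold Y
  rw [S_snd_re, S_fst, Complex.normSq_div, Complex.normSq_ofReal]
  have h3 : Complex.normSq (x.1 - (p : ℂ)) = Complex.normSq x.1 - 2 * p * x.1.re + p ^ 2 := by
    rw [Complex.normSq_apply, Complex.normSq_apply, Complex.sub_re, Complex.sub_im, Complex.ofReal_re, Complex.ofReal_im]
    ring
  rw [h3]
  field_simp
  ring

theorem hyp_pull (p l : ℝ) (hl : l ≠ 0) (x : ℂ × ℂ) (hx : 0 < Y x) (u v : ℂ × ℂ) :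
    pull (Alin p l hl) (btr p l) hyp x u v = hyp x u v := by
  have hlc : (l : ℂ) ≠ 0 := by exact_mod_cast hl
  have hY : Y (Alin p l hl x + btr p l) = Y x / l ^ 2 := by
    rw [Y_S p l hl x]; field_simp
  have hYc : (Y x : ℂ) ≠ 0 := by exact_mod_cast hx.ne'
  unfold pull hyp
  rw [hY, S_fst, Alin_apply, Alin_apply]
  congr 1
  have e1 : conj ((x.1 - (p : ℂ)) / (l : ℂ)) = (conj x.1 - p) / l := by
    rw [map_div₀, map_sub, Complex.conj_ofReal, Complex.conj_ofReal]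
  have e2 : conj (v.1 / (l : ℂ)) = conj v.1 / l := by rw [map_div₀, Complex.conj_ofReal]
  have e3 : ∀ w : ℂ × ℂ, (w.2 + p * w.1) / (l : ℂ) ^ 2 + (conj x.1 - p) / l * (w.1 / l) = (w.2 + conj x.1 * w.1) / (l : ℂ) ^ 2 := by
    intro w; field_simp; ring
  simp only [e1, e2]
  rw [e3 u, e3 v, map_div₀, map_pow, Complex.conj_ofReal]
  push_cast
  field_simp

end Pool.Agent.KH
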