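import Pool.Agent.Lib.MP_93b649_gt.BModel

/-! # ROW RM1: algebraic facts about the model

`N x = |t|² F(Re W)`, `MS = {N < 1}`, `X = N/(1-N)`, `G_H = P + X L`, `G_V = F (1+X)²`, `c2 x u = u_t + e t u_W`.
* `isOpen_MS`: `N` is continuous (`D.sF.continuous`, `Complex.continuous_normSq`, ...).
* `basic`: `N ≥ 0`, `1 - N > 0`; `(1+X)(1-N) = 1` by `field_simp`.
* `metric x v v = G_H |v_W|² + G_V |c2 x v|²` (`metric_self`), positive for `v ≠ 0`: if `v_W = 0` then `c2 x v = v_t`.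
* the rest: unfold and compare real parts (`Complex.ext_iff`, `simp`, `ring`); `c2` is additive, and complex homogeneous, in `u`.
-/

open scoped ContDiff Topology ComplexConjugate
open Set

noncomputable section

namespace Pool.Agent.KH

namespace CData

variable (D : CData)

theorem isOpen_MS : IsOpen D.MS := by
  have h1 : Continuous D.F := D.sF.continuous
  have h2 : Continuous D.N := by
    unfold N
    exact (Complex.continuous_normSq.comp continuous_fst).mul (h1.comp (Complex.continuous_re.comp continuous_snd))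
  exact isOpen_lt h2 continuous_const

/-- on `MS`: `0 ≤ X`, `0 < G_H`, `0 < G_V`, `(1+X)(1-N) = 1`, `0 ≤ N < 1`. -/
theorem basic {x : ℂ × ℂ} (hx : x ∈ D.MS) :
    0 ≤ D.X x ∧ 0 < D.GH x ∧ 0 < D.GV x ∧ (1 + D.X x) * (1 - D.N x) = 1 ∧ 0 ≤ D.N x ∧ D.N x < 1 := by
  have hN1 : D.N x < 1 := hx
  have hN0 : 0 ≤ D.N x := mul_nonneg (Complex.normSq_nonneg _) (D.F_pos _).le
  have h1 : 0 < 1 - D.N x := by linarith
  have hX : 0 ≤ D.X x := div_nonneg hN0 h1.le
  refine ⟨hX, ?_, ?_, ?_, hN0, hN1⟩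
  · have h2 := D.P_pos x.2.re
    have h3 := mul_nonneg hX (D.L_pos x.2.re).le
    unfold GH
    linarith
  · have h2 : 0 < 1 + D.X x := by linarith
    exact mul_pos (D.F_pos _) (pow_pos h2 2)
  · unfold X
    field_simp
    ring

/-- `t conj t F (1+X) = X` on `MS`, as complex numbers -/
theorem rel {x : ℂ × ℂ} (hx : x ∈ D.MS) :
    x.1 * conj x.1 * (D.F x.2.re : ℂ) * (1 + (D.X x : ℂ)) = (D.X x : ℂ) := by
  obtain ⟨_, _, _, h4, _, h6⟩ := D.basic hx
  have h1 : (1 - D.N x) ≠ 0 := by linarith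
  have h2 : D.N x * (1 + D.X x) = D.X x := by linear_combination -h4
  have h3 : x.1 * conj x.1 = ((Complex.normSq x.1 : ℝ) : ℂ) := Complex.mul_conj x.1
  rw [h3]
  have h5 : ((D.N x * (1 + D.X x) : ℝ) : ℂ) = ((D.X x : ℝ) : ℂ) := by rw [h2]
  refine Eq.trans ?_ h5
  unfold N
  push_cast
  ring

theorem c2_add (x u v : ℂ × ℂ) : D.c2 x (u + v) = D.c2 x u + D.c2 x v := by
  simp only [c2, Prod.fst_add, Prod.snd_add]
  ring

theorem c2_smul (x : ℂ × ℂ) (c : ℂ) (u : ℂ × ℂ) : D.c2 x (c • u) = c * D.c2 x u := by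
  simp only [c2, Prod.smul_fst, Prod.smul_snd, smul_eq_mul]
  ring

theorem rm1_c2_rsmul (x : ℂ × ℂ) (r : ℝ) (u : ℂ × ℂ) : D.c2 x (r • u) = r * D.c2 x u := by
  simp only [c2, Prod.smul_fst, Prod.smul_snd, Complex.real_smul]
  ring

theorem metric_self (x v : ℂ × ℂ) :
    D.metric x v v = D.GH x * Complex.normSq v.2 + D.GV x * Complex.normSq (D.c2 x v) := by
  have h : D.hm x v v = ((D.GH x * Complex.normSq v.2 + D.GV x * Complex.normSq (D.c2 x v) : ℝ) : ℂ) := by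
    unfold hm
    rw [mul_assoc, mul_assoc, Complex.mul_conj, Complex.mul_conj]
    push_cast
    ring
  unfold metric
  rw [h, Complex.ofReal_re]

theorem metric_pos {x : ℂ × ℂ} (hx : x ∈ D.MS) (v : ℂ × ℂ) (hv : v ≠ 0) : 0 < D.metric x v v := by
  obtain ⟨_, h2, h3, _, _, _⟩ := D.basic hx
  rw [metric_self]
  by_cases h : v.2 = 0
  · have h4 : v.1 ≠ 0 := fun h5 => hv (Prod.ext h5 h)
    have h6 : D.c2 x v = v.1 := by rw [c2, h, mul_zero, add_zero]
    rw [h6, h, Complex.normSq_zero, mul_zero, zero_add]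
    exact mul_pos h3 (Complex.normSq_pos.2 h4)
  · exact add_pos_of_pos_of_nonneg (mul_pos h2 (Complex.normSq_pos.2 h)) (mul_nonneg h3.le (Complex.normSq_nonneg _))

theorem metric_add (x u v w : ℂ × ℂ) : D.metric x (u + v) w = D.metric x u w + D.metric x v w := by
  have h : D.hm x (u + v) w = D.hm x u w + D.hm x v w := by
    simp only [hm, c2_add, Prod.snd_add]
    ring
  unfold metric
  rw [h, Complex.add_re]

theorem metric_smul (x : ℂ × ℂ) (r : ℝ) (u v : ℂ × ℂ) : D.metric x (r • u) v = r * D.metric x u v := by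
  have h : D.hm x (r • u) v = r * D.hm x u v := by
    simp only [hm, rm1_c2_rsmul, Prod.smul_snd, Complex.real_smul]
    ring
  unfold metric
  rw [h, Complex.re_ofReal_mul]

theorem metric_symm (x u v : ℂ × ℂ) : D.metric x u v = D.metric x v u := by
  have h : D.hm x v u = conj (D.hm x u v) := by
    simp only [hm, map_add, map_mul, Complex.conj_conj, Complex.conj_ofReal]
    ring
  unfold metric
  rw [h, Complex.conj_re]

theorem metric_I (x u v : ℂ × ℂ) : D.metric x (Complex.I • u) (Complex.I • v) = D.metric x u v := by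
  have h : D.hm x (Complex.I • u) (Complex.I • v) = D.hm x u v := by
    simp only [hm, c2_smul, Prod.smul_snd, smul_eq_mul, map_mul, Complex.conj_I]
    linear_combination -(D.GH x * u.2 * conj v.2 + D.GV x * D.c2 x u * conj (D.c2 x v)) * Complex.I_sq
  unfold metric
  rw [h]

theorem rm1_ΓW_symm (x u v : ℂ × ℂ) : D.ΓW x u v = D.ΓW x v u := by
  unfold ΓW
  ring

theorem rm1_ΓV_symm (x u v : ℂ × ℂ) : D.ΓV x u v = D.ΓV x v u := by
  unfold ΓV
  ring

theorem rm1_ΓW_add (x u v w : ℂ × ℂ) : D.ΓW x (u + v) w = D.ΓW x u w + D.ΓW x v w := by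
  simp only [ΓW, c2_add, Prod.snd_add]
  ring

theorem rm1_ΓV_add (x u v w : ℂ × ℂ) : D.ΓV x (u + v) w = D.ΓV x u w + D.ΓV x v w := by
  simp only [ΓV, c2_add, Prod.snd_add]
  ring

theorem rm1_ΓW_smul (x : ℂ × ℂ) (c : ℂ) (u v : ℂ × ℂ) : D.ΓW x u (c • v) = c * D.ΓW x u v := by
  simp only [ΓW, c2_smul, Prod.smul_snd, smul_eq_mul]
  ring

theorem rm1_ΓV_smul (x : ℂ × ℂ) (c : ℂ) (u v : ℂ × ℂ) : D.ΓV x u (c • v) = c * D.ΓV x u v := by
  simp only [ΓV, c2_smul, Prod.smul_snd, smul_eq_mul]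
  ring

theorem rm1_Γ_smul (x : ℂ × ℂ) (c : ℂ) (u v : ℂ × ℂ) : D.Γ x u (c • v) = c • D.Γ x u v := by
  refine Prod.ext ?_ ?_
  · simp only [Γ, rm1_ΓW_smul, rm1_ΓV_smul, Prod.smul_fst, smul_eq_mul]
    ring
  · simp only [Γ, rm1_ΓW_smul, Prod.smul_snd, smul_eq_mul]

theorem Γ_symm (x u v : ℂ × ℂ) : D.Γ x u v = D.Γ x v u := by
  unfold Γ
  rw [rm1_ΓW_symm D x u v, rm1_ΓV_symm D x u v]

theorem Γ_add (x u v w : ℂ × ℂ) : D.Γ x (u + v) w = D.Γ x u w + D.Γ x v w := by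
  refine Prod.ext ?_ ?_
  · simp only [Γ, rm1_ΓW_add, rm1_ΓV_add, Prod.fst_add]
    ring
  · simp only [Γ, rm1_ΓW_add, Prod.snd_add]

theorem Γ_smul (x : ℂ × ℂ) (r : ℝ) (u v : ℂ × ℂ) : D.Γ x (r • u) v = r • D.Γ x u v := by
  have h : r • u = ((r : ℂ)) • u := by
    refine Prod.ext ?_ ?_ <;> simp
  have h' : r • D.Γ x u v = ((r : ℂ)) • D.Γ x u v := by
    refine Prod.ext ?_ ?_ <;> simp
  rw [h, h', Γ_symm, rm1_Γ_smul, Γ_symm]

theorem Γ_I (x u v : ℂ × ℂ) : D.Γ x u (Complex.I • v) = Complex.I • D.Γ x u v :=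
  D.rm1_Γ_smul x Complex.I u v

end CData

end Pool.Agent.KH
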