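import Pool.Agent.Lib.MP_93b649_gt.BGlue
import Pool.Agent.Lib.MP_93b649_gt.RM1

/-! # ROW RG3: the exact zone `ℓ = Re W ≤ -1` of the model

There (`T.neg`): `g = -ℓ`, `y = 0`, `e = F = -1/(2ℓ)`, `P = L = 1/(4ℓ²)` (`T.P_eq`, `T.L_eq`). `N = |t|²/(-2ℓ)`, `1 - N = Y/(-2ℓ)`, so
`x ∈ MS ↔ 0 < Y x` (`mem_exact`), `1 + X = 1/(1-N) = -2ℓ/Y`, `G_H = (1+X)/(4ℓ²) = 1/(-2ℓY)`, `G_V = F(1+X)² = -2ℓ/Y²`.
* `metric_exact`: `G_H u_W conj v_W + G_V (u_t + e t u_W) conj(v_t + e t v_W) = u_t conj v_t/Y + (u_W + conj t u_t) conj(v_W + conj t v_t)/Y²`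
  as complex numbers: coefficients of `u_W conj v_W`: `1/(-2ℓY) + (-2ℓ/Y²)|t|²/(4ℓ²) = (Y + |t|²)/(-2ℓ Y²) = 1/Y²`; of `u_t conj v_W`:
  `(-2ℓ/Y²) conj t/(-2ℓ) = conj t/Y²`; of `u_t conj v_t`: `-2ℓ/Y² = 1/Y + |t|²/Y²`. (`field_simp`, `t conj t = |t|²`, `-2ℓ = Y + |t|²`.)
* `mem_outer`: `|t|² ≥ 2`: if `x ∈ MS` then `F(ℓ) < 1/2 = F(-1)`, so `ℓ < -1` (`T.F_mono`), use `mem_exact`; if `0 < Y x` then `-2ℓ > 2`.
* `mem_of_Y`: `-2ℓ ≥ Y > 2`. -/

open scoped ContDiff Topology ComplexConjugate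
open Set Filter

noncomputable section

namespace Pool.Agent.KH

variable {m : ℕ} (T : Template m)

theorem rg3_vals (l : ℝ) (hl : l ≤ -1) : T.P l = 1 / (-2 * l) ^ 2 ∧ T.L l = 1 / (-2 * l) ^ 2 ∧
    T.e l = 1 / (-2 * l) ∧ T.F l = 1 / (-2 * l) := by
  obtain ⟨h1, h2, h3, h4⟩ := T.neg l hl
  have hl0 : l ≠ 0 := by linarith
  refine ⟨?_, ?_, ?_, ?_⟩
  · rw [T.P_eq, h1]; congr 1; ring
  · rw [T.L_eq, h1, h2, add_zero, one_pow, mul_one]; congr 1; ring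
  · rw [h3]; field_simp
  · rw [h4]; field_simp

theorem rg3_N (x : ℂ × ℂ) (hx : x.2.re ≤ -1) : T.N x = Complex.normSq x.1 / (-2 * x.2.re) := by
  obtain ⟨-, -, -, h4⟩ := rg3_vals T x.2.re hx
  unfold CData.N
  rw [h4]; ring

theorem mem_exact (x : ℂ × ℂ) (hx : x.2.re ≤ -1) : x ∈ T.MS ↔ 0 < Y x := by
  have ha : 0 < -2 * x.2.re := by linarith
  change T.N x < 1 ↔ 0 < Y x
  rw [rg3_N T x hx, div_lt_one ha]
  unfold Y
  constructor <;> intro h <;> linarith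

theorem rg3_id (t t' y u1 u2 v1 v2 : ℂ) (hy : y ≠ 0) (ha : y + t * t' ≠ 0) :
    1 / ((y + t * t') * y) * u2 * v2 + (y + t * t') / y ^ 2 * (u1 + 1 / (y + t * t') * t * u2) *
      (v1 + 1 / (y + t * t') * t' * v2) =
    u1 * v1 / y + (u2 + t' * u1) * (v2 + t * v1) / y ^ 2 := by
  field_simp
  ring

theorem metric_exact (x : ℂ × ℂ) (hx : x.2.re ≤ -1) (hN : x ∈ T.MS) (u v : ℂ × ℂ) : T.metric x u v = hyp x u v := by
  have hY : 0 < Y x := (mem_exact T x hx).1 hN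
  have ha : 0 < -2 * x.2.re := by linarith
  obtain ⟨hP, hL, he, hF⟩ := rg3_vals T x.2.re hx
  have haY : -2 * x.2.re = Y x + Complex.normSq x.1 := by unfold Y; ring
  have hX : T.X x = Complex.normSq x.1 / Y x := by
    unfold CData.X
    rw [rg3_N T x hx, haY]
    have h1 : Y x + Complex.normSq x.1 ≠ 0 := by rw [← haY]; exact ha.ne'
    have h2 : 1 - Complex.normSq x.1 / (Y x + Complex.normSq x.1) = Y x / (Y x + Complex.normSq x.1) := by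
      field_simp; ring
    rw [h2]
    field_simp
  have hne : Y x + Complex.normSq x.1 ≠ 0 := by rw [← haY]; exact ha.ne'
  have hGH : T.GH x = 1 / ((Y x + Complex.normSq x.1) * Y x) := by
    unfold CData.GH
    rw [hX, hP, hL, haY]
    field_simp
  have hGV : T.GV x = (Y x + Complex.normSq x.1) / Y x ^ 2 := by
    unfold CData.GV
    rw [hX, hF, haY]
    field_simp
  have hn : (Complex.normSq x.1 : ℂ) = x.1 * conj x.1 := (Complex.mul_conj x.1).symm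
  have hYc : (Y x : ℂ) ≠ 0 := by exact_mod_cast hY.ne'
  have hac : (Y x : ℂ) + x.1 * conj x.1 ≠ 0 := by
    rw [← hn]; exact_mod_cast hne
  unfold CData.metric hyp CData.hm CData.c2
  congr 1
  rw [hGH, hGV, he, haY]
  push_cast
  rw [hn]
  simp only [map_add, map_mul, map_div₀, map_one, Complex.conj_conj, Complex.conj_ofReal]
  rw [mul_comm (conj x.1) x.1]
  exact rg3_id x.1 (conj x.1) (Y x) u.1 u.2 (conj v.1) (conj v.2) hYc hac

theorem mem_outer (x : ℂ × ℂ) (hx : 2 ≤ Complex.normSq x.1) :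
    (x ∈ T.MS ↔ 0 < Y x) ∧ (x ∈ T.MS → x.2.re < -1) := by
  have hF1 : T.F (-1) = 1 / 2 := by
    obtain ⟨-, -, -, h4⟩ := T.neg (-1) le_rfl
    rw [h4]; norm_num
  have h1 : x ∈ T.MS → x.2.re < -1 := by
    intro h
    have h' : Complex.normSq x.1 * T.F x.2.re < 1 := h
    have hFp := T.F_pos x.2.re
    have h2 : T.F x.2.re < T.F (-1) := by
      rw [hF1]
      nlinarith
    exact (T.F_mono.lt_iff_lt).1 h2
  refine ⟨⟨fun h => (mem_exact T x (h1 h).le).1 h, fun h => ?_⟩, h1⟩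
  have h3 : x.2.re ≤ -1 := by
    unfold Y at h
    linarith
  exact (mem_exact T x h3).2 h

theorem mem_of_Y (x : ℂ × ℂ) (hx : 2 < Y x) : x.2.re < -1 ∧ x ∈ T.MS := by
  have h0 := Complex.normSq_nonneg x.1
  have h1 : x.2.re < -1 := by
    unfold Y at hx
    linarith
  exact ⟨h1, (mem_exact T x h1.le).2 (by linarith)⟩

end Pool.Agent.KH
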