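import Pool.Agent.Lib.MP_93b649_gt.RG1
import Pool.Agent.Lib.MP_93b649_gt.RG2
import Pool.Agent.Lib.MP_93b649_gt.RG3

/-! # ROW RG5: values of `M`, `G`, `lev` in and outside the discs

* `in_disc`: if `inDisc k x` then the chosen index is `k` (`disc_unique`), unfold.
* `out_disc`: `x` with `√2 λ_k ≤ |z-p_k|` for all `k`. If no disc contains `x`: unfold, `lev = -2`. If `inDisc k x`: `|t|² = |z-p_k|²/λ_k² ≥ 2`, so
  by `mem_outer`: `Sk k x ∈ MS ↔ 0 < Y (Sk k x) ↔ 0 < Y x` (`Y_S`), and then `ℓ < -1`, `G x u v = T.metric (Sk k x) (Ak u) (Ak v) = hyp (Sk k x) (Ak u) (Ak v)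
  = hyp x u v` (`metric_exact`, `hyp_pull`); `lev x = (Sk k x).2.re < -1`.
* `line_mem`: `|p_k - p_k| = 0 < 2λ_k`, `(Sk k x).1 = 0`, `N = 0 < 1`.
* `mem_of_Y_M`: if `inDisc k x`: `Y (Sk k x) = Y x/λ_k² > 2` (`λ_k ≤ 1/200`), `mem_of_Y`.
* `down_mem`: `Re W' ≤ Re W`: in a disc: `ℓ' ≤ ℓ` (`S_snd_re`) and `T.F_mono` (`N' ≤ N`); outside: `Y` increases. -/

open scoped ContDiff Topology ComplexConjugate
open Set Filter

noncomputable section

namespace Pool.Agent.KH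

variable {m : ℕ} (T : Template m)

theorem rg5_uniq {j k : ℕ} {x : ℂ × ℂ} (hj : inDisc j x) (hk : inDisc k x) : j = k :=
  disc_unique (le_of_lt hj) (le_of_lt hk)

theorem in_disc {k : ℕ} {x : ℂ × ℂ} (h : inDisc k x) :
    (x ∈ M T ↔ Sk k x ∈ T.MS) ∧ G T x = pull (Ak k) (bk k) T.metric x ∧ lev x = (Sk k x).2.re := by
  have hex : ∃ k, inDisc k x := ⟨k, h⟩
  have hc : hex.choose = k := rg5_uniq hex.choose_spec h
  refine ⟨⟨?_, ?_⟩, ?_, ?_⟩
  · rintro (⟨j, hj, hm⟩ | ⟨hn, -⟩)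
    · rw [rg5_uniq hj h] at hm
      exact hm
    · exact absurd h (hn k)
  · intro hm
    exact Or.inl ⟨k, h, hm⟩
  · unfold G
    rw [dif_pos hex, hc]
  · unfold lev
    rw [dif_pos hex, hc]

theorem rg5_S (k : ℕ) (x : ℂ × ℂ) : Sk k x = Alin (pt k) (sc k) (sc_pos k).ne' x + btr (pt k) (sc k) := rfl

theorem rg5_Y (k : ℕ) (x : ℂ × ℂ) : Y x = sc k ^ 2 * Y (Sk k x) := Y_S (pt k) (sc k) (sc_pos k).ne' x

theorem rg5_Yiff (k : ℕ) (x : ℂ × ℂ) : 0 < Y x ↔ 0 < Y (Sk k x) := by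
  rw [rg5_Y k x]
  exact mul_pos_iff_of_pos_left (pow_pos (sc_pos k) 2)

theorem out_disc {x : ℂ × ℂ} (h : ∀ k, Real.sqrt 2 * sc k ≤ ‖x.1 - (pt k : ℂ)‖) :
    (x ∈ M T ↔ 0 < Y x) ∧ (0 < Y x → ∀ u v, G T x u v = hyp x u v) ∧ (0 < Y x → lev x ≤ -1) := by
  by_cases hex : ∃ k, inDisc k x
  · obtain ⟨k, hk⟩ := hex
    obtain ⟨h1, h2, h3⟩ := in_disc T hk
    have hsc := sc_pos k
    have ht : 2 ≤ Complex.normSq (Sk k x).1 := by
      rw [rg5_S, S_fst, Complex.normSq_div, Complex.normSq_ofReal, Complex.normSq_eq_norm_sq, ← sq,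
        le_div_iff₀ (pow_pos hsc 2)]
      have h4 : (Real.sqrt 2 * sc k) ^ 2 ≤ ‖x.1 - (pt k : ℂ)‖ ^ 2 :=
        pow_le_pow_left₀ (mul_nonneg (Real.sqrt_nonneg 2) hsc.le) (h k) 2
      rw [mul_pow, Real.sq_sqrt (by norm_num)] at h4
      exact h4
    obtain ⟨m1, m2⟩ := mem_outer T (Sk k x) ht
    have hY := rg5_Yiff k x
    refine ⟨h1.trans (m1.trans hY.symm), ?_, ?_⟩
    · intro hx u v
      have hms : Sk k x ∈ T.MS := m1.2 (hY.1 hx)
      have hre := m2 hms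
      rw [h2]
      change T.metric (Sk k x) (Ak k u) (Ak k v) = hyp x u v
      rw [metric_exact T (Sk k x) hre.le hms]
      exact hyp_pull (pt k) (sc k) hsc.ne' x hx u v
    · intro hx
      rw [h3]
      exact (m2 (m1.2 (hY.1 hx))).le
  · have hn : ∀ k, ¬ inDisc k x := fun k hk => hex ⟨k, hk⟩
    refine ⟨⟨?_, ?_⟩, ?_, ?_⟩
    · rintro (⟨k, hk, -⟩ | ⟨-, hY⟩)
      · exact absurd hk (hn k)
      · exact hY
    · intro hY
      exact Or.inr ⟨hn, hY⟩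
    · intro _ u v
      unfold G
      rw [dif_neg hex]
    · intro _
      unfold lev
      rw [dif_neg hex]
      norm_num

theorem line_mem (k : ℕ) (W : ℂ) : ((pt k : ℂ), W) ∈ M T := by
  have hk : inDisc k ((pt k : ℂ), W) := by
    change ‖(pt k : ℂ) - (pt k : ℂ)‖ < 2 * sc k
    rw [sub_self, norm_zero]
    exact mul_pos two_pos (sc_pos k)
  refine (in_disc T hk).1.2 ?_
  change Complex.normSq (Sk k ((pt k : ℂ), W)).1 * T.F (Sk k ((pt k : ℂ), W)).2.re < 1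
  rw [rg5_S, S_fst, sub_self, zero_div, map_zero, zero_mul]
  exact one_pos

theorem mem_of_Y_M {x : ℂ × ℂ} (hx : 1 / 2 < Y x) : x ∈ M T := by
  by_cases hex : ∃ k, inDisc k x
  · obtain ⟨k, hk⟩ := hex
    refine (in_disc T hk).1.2 (mem_of_Y T (Sk k x) ?_).2
    have h1 := rg5_Y k x
    have h2 := sc_le k
    have h3 := sc_pos k
    have h4 : sc k ^ 2 ≤ (1 / 200) ^ 2 := pow_le_pow_left₀ h3.le h2 2
    by_contra hcon
    have h5 : Y (Sk k x) ≤ 2 := not_lt.1 hcon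
    have h6 : sc k ^ 2 * Y (Sk k x) ≤ sc k ^ 2 * 2 := mul_le_mul_of_nonneg_left h5 (sq_nonneg _)
    rw [← h1] at h6
    norm_num at h4
    linarith only [h6, h4, hx]
  · exact Or.inr ⟨fun k hk => hex ⟨k, hk⟩, by linarith only [hx]⟩

theorem down_mem {z W W' : ℂ} (h : (z, W) ∈ M T) (hW : W'.re ≤ W.re) : (z, W') ∈ M T := by
  by_cases hex : ∃ k, inDisc k (z, W)
  · obtain ⟨k, hk⟩ := hex
    have hk' : inDisc k (z, W') := hk
    have h1 : T.N (Sk k (z, W)) < 1 := (in_disc T hk).1.1 h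
    refine (in_disc T hk').1.2 ?_
    change T.N (Sk k (z, W')) < 1
    refine lt_of_le_of_lt ?_ h1
    unfold CData.N
    have e1 : (Sk k (z, W')).1 = (Sk k (z, W)).1 := by
      rw [rg5_S, rg5_S, S_fst, S_fst]
    rw [e1]
    refine mul_le_mul_of_nonneg_left (T.F_mono.monotone ?_) (Complex.normSq_nonneg _)
    rw [rg5_S, rg5_S, S_snd_re, S_snd_re]
    refine div_le_div_of_nonneg_right ?_ (sq_nonneg _)
    change W'.re + pt k * z.re - pt k ^ 2 / 2 ≤ W.re + pt k * z.re - pt k ^ 2 / 2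
    linarith only [hW]
  · have hn : ∀ k, ¬ inDisc k (z, W) := fun k hk => hex ⟨k, hk⟩
    have hn' : ∀ k, ¬ inDisc k (z, W') := hn
    rcases h with ⟨k, hk, -⟩ | ⟨-, hY⟩
    · exact absurd hk (hn k)
    · refine Or.inr ⟨hn', ?_⟩
      have h1 : 0 < -2 * W.re - Complex.normSq z := hY
      change 0 < -2 * W'.re - Complex.normSq z
      linarith only [h1, hW]

end Pool.Agent.KH
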