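import Pool.Agent.Lib.MP_93b649_gt.RM1

/-! # ROW RA6: norm estimates (`metric_self`, `G_H ≥ P`, `G_V = F(1+X)²`). -/

open scoped ContDiff Topology ComplexConjugate
open Set

noncomputable section

namespace Pool.Agent.KH

namespace CData

variable (D : CData)

theorem norm_est {x : ℂ × ℂ} (hx : x ∈ D.MS) (v : ℂ × ℂ) :
    D.P x.2.re * ‖v.2‖ ^ 2 ≤ D.metric x v v ∧ D.F x.2.re * (1 + D.X x) ^ 2 * ‖D.c2 x v‖ ^ 2 ≤ D.metric x v v := by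
  obtain ⟨hX, hGH, hGV, -, -, -⟩ := D.basic hx
  have h1 : (0 : ℝ) ≤ ‖v.2‖ ^ 2 := sq_nonneg _
  have h2 : (0 : ℝ) ≤ ‖D.c2 x v‖ ^ 2 := sq_nonneg _
  rw [D.metric_self, Complex.normSq_eq_norm_sq, Complex.normSq_eq_norm_sq]
  have h3 : D.GH x = D.P x.2.re + D.X x * D.L x.2.re := rfl
  have h4 : D.GV x = D.F x.2.re * (1 + D.X x) ^ 2 := rfl
  have h5 : 0 ≤ D.X x * D.L x.2.re * ‖v.2‖ ^ 2 :=
    mul_nonneg (mul_nonneg hX (D.L_pos _).le) h1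
  have h6 : 0 ≤ D.GV x * ‖D.c2 x v‖ ^ 2 := mul_nonneg hGV.le h2
  have h7 : 0 ≤ D.GH x * ‖v.2‖ ^ 2 := mul_nonneg hGH.le h1
  constructor
  · have h8 : D.GH x * ‖v.2‖ ^ 2 = D.P x.2.re * ‖v.2‖ ^ 2 + D.X x * D.L x.2.re * ‖v.2‖ ^ 2 := by
      rw [h3]; ring
    linarith
  · rw [← h4]
    linarith

end CData

end Pool.Agent.KH
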