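import Pool.Agent.Lib.MP_93b649_gt.BProper
import Pool.Agent.Lib.MP_93b649_gt.RA6

/-! # ROW RP1: norm estimates on the model (`x = (t,W) ∈ MS`, `ℓ = Re W`, `|v| = √(metric x v v)`)

* `|v_W| ≤ 2g|v|`: `norm_est` and `P = 1/(4g²)`.
* `|c2 x v| ≤ √(2g) |v|/(1+X)`, in particular `|c2 x v| ≤ √(2g)|v|`: `norm_est`, `1/F ≤ 2g` (`T.gF_le`).
* `|v_t| ≤ |c2 x v| + e|t||v_W| ≤ √(2g)|v| + e √(2g) 2g |v| ≤ 2√(2g)|v|` (`T.ge_le`: `2 g e ≤ 1`; `|t|² < 1/F ≤ 2g` from `N < 1`). -/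

open scoped ContDiff Topology ComplexConjugate
open Set Filter

noncomputable section

namespace Pool.Agent.KH

variable {m : ℕ} (T : Template m)

theorem model_t {x : ℂ × ℂ} (hx : x ∈ T.MS) :
    Complex.normSq x.1 < 1 / T.F x.2.re ∧ 1 / T.F x.2.re ≤ 2 * T.g x.2.re := by
  have hF := T.F_pos x.2.re
  have hN : Complex.normSq x.1 * T.F x.2.re < 1 := hx
  refine ⟨?_, ?_⟩
  · rw [lt_div_iff₀ hF]; exact hN
  · rw [div_le_iff₀ hF]; exact T.gF_le x.2.re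

theorem model_norms {x : ℂ × ℂ} (hx : x ∈ T.MS) (v : ℂ × ℂ) :
    ‖v.2‖ ≤ 2 * T.g x.2.re * Real.sqrt (T.metric x v v) ∧
    ‖v.1‖ ≤ 2 * Real.sqrt (2 * T.g x.2.re) * Real.sqrt (T.metric x v v) := by
  obtain ⟨h1, h2⟩ := T.norm_est hx v
  obtain ⟨t1, t2⟩ := model_t T hx
  have hg := T.g_pos x.2.re
  have hF := T.F_pos x.2.re
  have he := T.e_pos x.2.re
  have hge := T.ge_le x.2.re
  have hgF := T.gF_le x.2.re
  have hN1 : T.N x < 1 := hx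
  have hN0 : 0 ≤ T.N x := mul_nonneg (Complex.normSq_nonneg _) hF.le
  have hX : 0 ≤ T.X x := div_nonneg hN0 (by linarith)
  rw [T.P_eq] at h1
  set M := T.metric x v v with hM
  set g := T.g x.2.re with hg'
  set F := T.F x.2.re with hF'
  set e := T.e x.2.re with he'
  have hM0 : 0 ≤ M := le_trans (by positivity) h1
  have sM := Real.sq_sqrt hM0
  have sM0 := Real.sqrt_nonneg M
  have sg := Real.sq_sqrt (show (0:ℝ) ≤ 2 * g by positivity)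
  have sg0 := Real.sqrt_nonneg (2 * g)
  have a1 : ‖v.2‖ ≤ 2 * g * Real.sqrt M := by
    apply le_of_sq_le_sq _ (by positivity)
    have : 1 / (4 * g ^ 2) * ‖v.2‖ ^ 2 * (4 * g ^ 2) ≤ M * (4 * g ^ 2) :=
      mul_le_mul_of_nonneg_right h1 (by positivity)
    have e1 : 1 / (4 * g ^ 2) * ‖v.2‖ ^ 2 * (4 * g ^ 2) = ‖v.2‖ ^ 2 := by field_simp
    rw [e1] at this
    calc ‖v.2‖ ^ 2 ≤ M * (4 * g ^ 2) := this
      _ = (2 * g * Real.sqrt M) ^ 2 := by rw [mul_pow, sM]; ring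
  have a2 : ‖T.c2 x v‖ ≤ Real.sqrt (2 * g) * Real.sqrt M := by
    apply le_of_sq_le_sq _ (by positivity)
    have b1 : F * ‖T.c2 x v‖ ^ 2 ≤ M := by
      refine le_trans ?_ h2
      have : F * ‖T.c2 x v‖ ^ 2 * 1 ≤ F * ‖T.c2 x v‖ ^ 2 * (1 + T.X x) ^ 2 := by
        apply mul_le_mul_of_nonneg_left _ (by positivity)
        nlinarith
      calc F * ‖T.c2 x v‖ ^ 2 = F * ‖T.c2 x v‖ ^ 2 * 1 := by ring
        _ ≤ _ := this
        _ = F * (1 + T.X x) ^ 2 * ‖T.c2 x v‖ ^ 2 := by ring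
    have b2 : ‖T.c2 x v‖ ^ 2 * 1 ≤ ‖T.c2 x v‖ ^ 2 * (2 * g * F) :=
      mul_le_mul_of_nonneg_left hgF (by positivity)
    calc ‖T.c2 x v‖ ^ 2 = ‖T.c2 x v‖ ^ 2 * 1 := by ring
      _ ≤ ‖T.c2 x v‖ ^ 2 * (2 * g * F) := b2
      _ = 2 * g * (F * ‖T.c2 x v‖ ^ 2) := by ring
      _ ≤ 2 * g * M := mul_le_mul_of_nonneg_left b1 (by positivity)
      _ = (Real.sqrt (2 * g) * Real.sqrt M) ^ 2 := by rw [mul_pow, sM, sg]
  have a3 : ‖x.1‖ ≤ Real.sqrt (2 * g) := by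
    apply le_of_sq_le_sq _ (by positivity)
    rw [sg, ← Complex.normSq_eq_norm_sq]
    linarith
  have e2 : v.1 = T.c2 x v - (e : ℂ) * x.1 * v.2 := by
    rw [CData.c2]; ring
  refine ⟨a1, ?_⟩
  have n1 : ‖v.1‖ ≤ ‖T.c2 x v‖ + e * ‖x.1‖ * ‖v.2‖ := by
    refine (congrArg norm e2).le.trans ((norm_sub_le _ _).trans (le_of_eq ?_))
    rw [norm_mul, norm_mul, Complex.norm_real, Real.norm_of_nonneg he.le]
  have n2 : e * ‖x.1‖ * ‖v.2‖ ≤ e * Real.sqrt (2 * g) * (2 * g * Real.sqrt M) := by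
    gcongr
  have n3 : e * Real.sqrt (2 * g) * (2 * g * Real.sqrt M) ≤ Real.sqrt (2 * g) * Real.sqrt M := by
    calc e * Real.sqrt (2 * g) * (2 * g * Real.sqrt M) = (2 * g * e) * (Real.sqrt (2 * g) * Real.sqrt M) := by ring
      _ ≤ 1 * (Real.sqrt (2 * g) * Real.sqrt M) := mul_le_mul_of_nonneg_right hge (by positivity)
      _ = _ := by ring
  linarith

end Pool.Agent.KH
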