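import Pool.Agent.Lib.MP_93b649_gt.BProper
import Pool.Agent.Lib.MP_93b649_gt.RG5
import Pool.Agent.Lib.MP_93b649_gt.RP1

/-! # ROW RP8: values and estimates of `W#`, `Ya`, `RR`

* `vals_in`: in the disc `k` the chosen index is `k` (`disc_unique`), unfold.
* `vals_out`: hypothesis as in `out_disc`, and `0 < Y x`. If no disc contains `x`: unfold (`lev = -2`, `T.y (-2) = 0`). If `inDisc k x`: then `Sk k x ∈ MS`
  has level `ℓ < -1` (`mem_outer`, `Y_S`), so `g = -ℓ`, `1/F = -2ℓ`, `y = 0` (`T.neg`): `W# = W`, `Ya = λ²(-2ℓ - |t|²) = Y` (`Y_S`), `RR = 1`.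
* `est_in`: `x ∈ M`, `inDisc k x`, `ℓ = (Sk k x).2.re`, `t = (Sk k x).1`: `-2 Re W# - |z|² = λ²(2g - |t|²)`, since `Re W# = Re W - λ²(ℓ+g)` and
  `Y x = λ²(-2ℓ-|t|²)`. By `model_t`: `0 < Ya = λ²(1/F - |t|²) ≤ λ²(2g - |t|²)`.
* `Wsharp_est`: in a disc from `est_in`; outside all discs `W# = W`, `Ya = Y = -2Re W - |z|²`. In both cases `0 < Ya ≤ -2 Re W# - |z|²`; so `Re W# ≤ 0`,
  `Ya ≤ 2|Re W#| ≤ 2|1-W#|`, `|z|² ≤ 2|Re W#| ≤ 4|1-W#|`, `1 ≤ |1-W#|`. -/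

open scoped ContDiff Topology ComplexConjugate
open Set Filter

noncomputable section

namespace Pool.Agent.KH

variable {m : ℕ} (T : Template m)

theorem rp8_uniq {j k : ℕ} {x : ℂ × ℂ} (hj : inDisc j x) (hk : inDisc k x) : j = k :=
  disc_unique (le_of_lt hj) (le_of_lt hk)

theorem rp8_Y (k : ℕ) (x : ℂ × ℂ) :
    Y x = sc k ^ 2 * (-2 * (Sk k x).2.re - Complex.normSq (Sk k x).1) :=
  Y_S (pt k) (sc k) (sc_pos k).ne' x

theorem vals_in {k : ℕ} {x : ℂ × ℂ} (h : inDisc k x) :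
    Wsharp T x = x.2 - ((sc k ^ 2 * ((Sk k x).2.re + T.g (Sk k x).2.re) : ℝ) : ℂ) ∧
    Ya T x = sc k ^ 2 * (1 / T.F (Sk k x).2.re - Complex.normSq (Sk k x).1) ∧
    RR T x = (1 + T.y (Sk k x).2.re) ^ m := by
  have hex : ∃ k, inDisc k x := ⟨k, h⟩
  have hc : hex.choose = k := rp8_uniq hex.choose_spec h
  refine ⟨?_, ?_, ?_⟩
  · unfold Wsharp
    rw [dif_pos hex, hc]
  · unfold Ya
    rw [dif_pos hex, hc]
  · unfold RR
    rw [(in_disc T h).2.2]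

theorem rp8_exact {k : ℕ} {x : ℂ × ℂ} (h : inDisc k x) (hx : (Sk k x).2.re ≤ -1) :
    Wsharp T x = x.2 ∧ Ya T x = Y x ∧ RR T x = 1 := by
  obtain ⟨h1, h2, h3⟩ := vals_in T h
  obtain ⟨g1, g2, -, g4⟩ := T.neg _ hx
  refine ⟨?_, ?_, ?_⟩
  · rw [h1, g1, add_neg_cancel, mul_zero, Complex.ofReal_zero, sub_zero]
  · have h5 : 1 / (-1 / (2 * (Sk k x).2.re)) = -2 * (Sk k x).2.re := by
      have h6 : (Sk k x).2.re ≠ 0 := by intro h0; rw [h0] at hx; linarith only [hx]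
      field_simp
    rw [h2, g4, rp8_Y k x, h5]
  · rw [h3, g2, add_zero, one_pow]

theorem vals_out {x : ℂ × ℂ} (h : ∀ k, Real.sqrt 2 * sc k ≤ ‖x.1 - (pt k : ℂ)‖) (hY : 0 < Y x) :
    Wsharp T x = x.2 ∧ Ya T x = Y x ∧ RR T x = 1 := by
  by_cases hex : ∃ k, inDisc k x
  · obtain ⟨k, hk⟩ := hex
    apply rp8_exact T hk
    have h1 := (out_disc T h).2.2 hY
    rwa [(in_disc T hk).2.2] at h1
  · refine ⟨?_, ?_, ?_⟩
    · unfold Wsharp
      rw [dif_neg hex]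
    · unfold Ya
      rw [dif_neg hex]
    · unfold RR lev
      rw [dif_neg hex, (T.neg (-2) (by norm_num)).2.1, add_zero, one_pow]

/-- also in a disc: at levels `ℓ ≤ -1` everything is as on the Siegel domain -/
theorem vals_exact {k : ℕ} {x : ℂ × ℂ} (h : inDisc k x) (hx : (Sk k x).2.re ≤ -1) :
    Wsharp T x = x.2 ∧ Ya T x = Y x ∧ RR T x = 1 := rp8_exact T h hx

theorem rp8_aux {W z : ℂ} {a : ℝ} (h1 : 0 < a) (h2 : a ≤ -2 * W.re - Complex.normSq z) :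
    W.re ≤ 0 ∧ 0 < a ∧ a ≤ -2 * W.re - Complex.normSq z ∧
    a ≤ 2 * ‖1 - W‖ ∧ ‖z‖ ^ 2 ≤ 4 * ‖1 - W‖ ∧ 1 ≤ ‖1 - W‖ := by
  have h3 := Complex.normSq_nonneg z
  have h4 : 1 - W.re ≤ ‖1 - W‖ := by
    have := Complex.re_le_norm (1 - W)
    rwa [Complex.sub_re, Complex.one_re] at this
  have h5 : W.re ≤ 0 := by linarith only [h1, h2, h3]
  refine ⟨h5, h1, h2, ?_, ?_, ?_⟩
  · linarith only [h2, h3, h4]
  · rw [← Complex.normSq_eq_norm_sq]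
    linarith only [h1, h2, h3, h4, h5]
  · linarith only [h4, h5]

theorem Wsharp_est {x : ℂ × ℂ} (hx : x ∈ M T) :
    (Wsharp T x).re ≤ 0 ∧ 0 < Ya T x ∧ Ya T x ≤ -2 * (Wsharp T x).re - Complex.normSq x.1 ∧
    Ya T x ≤ 2 * ‖1 - Wsharp T x‖ ∧ ‖x.1‖ ^ 2 ≤ 4 * ‖1 - Wsharp T x‖ ∧ 1 ≤ ‖1 - Wsharp T x‖ := by
  by_cases hex : ∃ k, inDisc k x
  · obtain ⟨k, hk⟩ := hex
    obtain ⟨h1, h2, -⟩ := vals_in T hk
    obtain ⟨t1, t2⟩ := model_t T ((in_disc T hk).1.1 hx)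
    have hl : 0 < sc k ^ 2 := pow_pos (sc_pos k) 2
    apply rp8_aux
    · rw [h2]
      exact mul_pos hl (sub_pos.2 t1)
    · have h3 := rp8_Y k x
      unfold Y at h3
      have h4 : sc k ^ 2 * (1 / T.F (Sk k x).2.re) ≤ sc k ^ 2 * (2 * T.g (Sk k x).2.re) :=
        mul_le_mul_of_nonneg_left t2 hl.le
      rw [h1, h2, Complex.sub_re, Complex.ofReal_re]
      linarith only [h3, h4]
  · have hn : ∀ k, ¬ inDisc k x := fun k hk => hex ⟨k, hk⟩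
    have hY : 0 < Y x := by
      rcases hx with ⟨k, hk, -⟩ | ⟨-, hY⟩
      · exact absurd hk (hn k)
      · exact hY
    have h1 : Wsharp T x = x.2 := by
      unfold Wsharp
      rw [dif_neg hex]
    have h2 : Ya T x = Y x := by
      unfold Ya
      rw [dif_neg hex]
    apply rp8_aux
    · rw [h2]; exact hY
    · rw [h1, h2]
      exact le_refl _

end Pool.Agent.KH
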