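import Pool.Agent.Lib.MP_93b649_gt.RP5
import Pool.Agent.Lib.MP_93b649_gt.RP8
import Pool.Agent.Lib.MP_93b649_gt.RG6

/-! # ROW RP10: properness of `F = log|1-W#|² - log Ya`

Let `B = 2e^R`. If `x ∈ M`, `lW - log Ya ≤ R` then `|1-W#|² ≤ e^R Ya ≤ 2e^R|1-W#|`, so `|1-W#| ≤ B`, `‖z‖² ≤ 4B`, and `Ya ≥ e^{-R}|1-W#|² ≥ e^{-R}`.
`K = K_0 ∪ ⋃_{k ∈ S} K_k`, `S` the finite set of `k` whose closed disc meets `‖z‖² ≤ 4B` (`disc_finite`),
`K_0 = {x : ‖z‖² ≤ 4B, |1-W| ≤ B, e^{-R} ≤ Y x, ∀ k, 2λ_k ≤ |z-p_k|}`: closed and bounded (`isClosed_...` for the last condition: intersection of closed sets), contained in `M` (`out_disc`).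
`K_k = {x : |z-p_k| ≤ 2λ_k, |1-w_k(x)| ≤ B, e^{-R} ≤ λ_k²(1/F(ℓ) - |t|²)}` with `(t,·) = Sk k x`, `ℓ = (Sk k x).2.re`, `w_k(x) = x.2 - λ_k²(ℓ+g(ℓ))` (continuous in `x`): closed;
bounded: `Im W = Im w_k`, `1/F(ℓ) ≥ e^{-R}/λ²` bounds `ℓ` above (`T.F_top`), `-2 Re w_k - |z|² = λ²(2g(ℓ)-|t|²)` bounds `g(ℓ)` hence `ℓ ≥ -g(ℓ)` below
(`T.neg`: `g = -ℓ` for `ℓ ≤ -1`), and `ℓ = (Re W + p Re z - p²/2)/λ²` then bounds `Re W`. `K_k ⊆ M`: `Sk k x ∈ MS` since `1/F - |t|² > 0`; if `inDisc k x` use `in_disc`; if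
`|z-p_k| = 2λ_k` then no disc contains `x` (`disc_unique`), `|t|² = 4 ≥ 2`, so `0 < Y (Sk k x)` (`mem_outer`), `0 < Y x` (`Y_S`), `out_disc`-type: `x ∈ M` by definition.
(`Metric.isCompact_of_isClosed_isBounded`, `Set.Finite.isCompact_biUnion`.) -/

open scoped ContDiff Topology ComplexConjugate
open Set Filter

noncomputable section

namespace Pool.Agent.KH

variable {m : ℕ} (T : Template m)

/-- the sublevel set in multiplicative form -/
theorem rp10_mul {R : ℝ} {x : ℂ × ℂ} (hx : x ∈ M T) :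
    lW T x - Real.log (Ya T x) ≤ R ↔ Complex.normSq (1 - Wsharp T x) ≤ Real.exp R * Ya T x := by
  obtain ⟨-, h2, -, -, -, h6⟩ := Wsharp_est T hx
  have h7 : 0 < Complex.normSq (1 - Wsharp T x) := by
    rw [Complex.normSq_eq_norm_sq]; positivity
  unfold lW
  rw [sub_le_iff_le_add, ← Real.log_exp R, ← Real.log_mul (Real.exp_pos R).ne' h2.ne', Real.log_exp,
    Real.log_le_log_iff h7 (by positivity)]

/-- consequences -/
theorem rp10_cons {R : ℝ} {x : ℂ × ℂ} (hx : x ∈ M T)
    (h : Complex.normSq (1 - Wsharp T x) ≤ Real.exp R * Ya T x) :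
    ‖1 - Wsharp T x‖ ≤ 2 * Real.exp R ∧ Real.exp (-R) ≤ Ya T x ∧ ‖x.1‖ ^ 2 ≤ 8 * Real.exp R := by
  obtain ⟨-, h2, -, h4, h5, h6⟩ := Wsharp_est T hx
  rw [Complex.normSq_eq_norm_sq] at h
  have hE := Real.exp_pos R
  have h8 : ‖1 - Wsharp T x‖ ≤ 2 * Real.exp R := by
    have h9 : ‖1 - Wsharp T x‖ ^ 2 ≤ Real.exp R * (2 * ‖1 - Wsharp T x‖) :=
      h.trans (mul_le_mul_of_nonneg_left h4 hE.le)
    by_contra hc
    push Not at hc
    nlinarith
  refine ⟨h8, ?_, by linarith⟩
  have h9 : 1 ≤ Real.exp R * Ya T x := by nlinarith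
  rw [Real.exp_neg, inv_le_iff_one_le_mul₀ hE]
  linarith

theorem rp10_bound (R : ℝ) : ∃ C : ℝ, ∀ x ∈ M T, Complex.normSq (1 - Wsharp T x) ≤ Real.exp R * Ya T x → ‖x‖ ≤ C := by
  have hE := Real.exp_pos R
  obtain ⟨l0, hl0⟩ := (T.F_top.eventually (eventually_gt_atTop (Real.exp R))).exists_forall_of_atTop
  set b := 2 * Real.exp R with hb
  refine ⟨8 * Real.exp R + 1 + (4 * (b + 1) + 2 + |l0| + (b + 1)), fun x hx h => ?_⟩
  obtain ⟨c1, c2, c3⟩ := rp10_cons T hx h
  have hz : ‖x.1‖ ≤ 8 * Real.exp R + 1 := by nlinarith [norm_nonneg x.1]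
  have hl0' := abs_nonneg l0
  have hb0 : 0 < b := by positivity
  have hWn : ‖Wsharp T x‖ ≤ b + 1 := by
    have h1 : ‖Wsharp T x‖ = ‖1 - (1 - Wsharp T x)‖ := by congr 1; ring
    rw [h1]
    refine (norm_sub_le _ _).trans ?_
    rw [norm_one]; linarith
  have key : ‖x.2‖ ≤ 4 * (b + 1) + 2 + |l0| + (b + 1) := by
    by_cases hex : ∃ k, inDisc k x
    · obtain ⟨k, hk⟩ := hex
      obtain ⟨v1, v2, -⟩ := vals_in T hk
      set l := (Sk k x).2.re with hl
      have hsc := sc_pos k
      have hsc2 := sc_le k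
      have hlam : 0 < sc k ^ 2 := pow_pos hsc 2
      have hlam1 : sc k ^ 2 ≤ 1 := by nlinarith
      have hg := T.g_pos l
      have hF := T.F_pos l
      -- `λ² g` is bounded
      have hY := rp8_Y k x
      unfold Y at hY
      have ht : sc k ^ 2 * Complex.normSq (Sk k x).1 ≤ 1 := by
        have h1 : (Sk k x).1 = (x.1 - pt k) / sc k := S_fst (pt k) (sc k) hsc.ne' x
        rw [h1, Complex.normSq_eq_norm_sq, norm_div, Complex.norm_real, Real.norm_eq_abs, abs_of_pos hsc, div_pow]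
        have h2 : ‖x.1 - (pt k : ℂ)‖ < 2 * sc k := hk
        rw [mul_div_assoc', mul_div_right_comm, div_self hlam.ne', one_mul]
        nlinarith [norm_nonneg (x.1 - (pt k : ℂ))]
      have hre : (Wsharp T x).re = x.2.re - sc k ^ 2 * (l + T.g l) := by
        rw [v1, Complex.sub_re, Complex.ofReal_re]
      have hWre : |(Wsharp T x).re| ≤ b + 1 := (Complex.abs_re_le_norm _).trans hWn
      have hgb : sc k ^ 2 * T.g l ≤ b + 2 := by
        have h1 := Complex.normSq_nonneg x.1
        have h2 := (abs_le.1 hWre).1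
        nlinarith
      -- `λ² |l|` is bounded
      have hlb : sc k ^ 2 * |l| ≤ b + 2 + |l0| + 1 := by
        rcases le_or_gt l (-1) with h1 | h1
        · have h2 := (T.neg l h1).1
          rw [abs_of_neg (by linarith)]
          rw [h2] at hgb
          linarith
        · have h2 : l < max l0 0 := by
            by_contra hc
            push Not at hc
            have h3 := hl0 l ((le_max_left _ _).trans hc)
            have h4 : Real.exp (-R) ≤ sc k ^ 2 * (1 / T.F l) := by
              have h5 := Complex.normSq_nonneg (Sk k x).1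
              have h6 : Ya T x ≤ sc k ^ 2 * (1 / T.F l) := by
                rw [v2]
                apply mul_le_mul_of_nonneg_left _ hlam.le
                linarith
              exact c2.trans h6
            have h5 : sc k ^ 2 * (1 / T.F l) < Real.exp (-R) := by
              have h6 : 1 / T.F l < Real.exp (-R) := by
                rw [Real.exp_neg, one_div]
                exact inv_strictAnti₀ hE h3
              have h7 : 0 < 1 / T.F l := by positivity
              nlinarith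
            linarith
          have h3 : |l| ≤ |l0| + 1 := by
            rw [abs_le]
            refine ⟨by linarith, ?_⟩
            rcases le_total l0 0 with h4 | h4
            · rw [max_eq_right h4] at h2; linarith
            · rw [max_eq_left h4] at h2; linarith [le_abs_self l0]
          nlinarith [abs_nonneg l]
      have hxre : |x.2.re| ≤ (b + 1) + (b + 2) + (b + 2 + |l0| + 1) := by
        have h1 : x.2.re = (Wsharp T x).re + sc k ^ 2 * l + sc k ^ 2 * T.g l := by rw [hre]; ring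
        rw [h1]
        have h2 := abs_add_le ((Wsharp T x).re + sc k ^ 2 * l) (sc k ^ 2 * T.g l)
        have h3 := abs_add_le (Wsharp T x).re (sc k ^ 2 * l)
        have h4 : |sc k ^ 2 * l| = sc k ^ 2 * |l| := by rw [abs_mul, abs_of_pos hlam]
        have h5 : |sc k ^ 2 * T.g l| = sc k ^ 2 * T.g l := abs_of_pos (by positivity)
        linarith
      have hxim : |x.2.im| ≤ b + 1 := by
        have h1 : (Wsharp T x).im = x.2.im := by
          rw [v1, Complex.sub_im, Complex.ofReal_im, sub_zero]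
        rw [← h1]
        exact (Complex.abs_im_le_norm _).trans hWn
      have := Complex.norm_le_abs_re_add_abs_im x.2
      linarith
    · have h1 : Wsharp T x = x.2 := by
        unfold Wsharp
        rw [dif_neg hex]
      rw [← h1]
      linarith
  rw [Prod.norm_def]
  apply max_le <;> linarith

theorem rp10_closed (R : ℝ) :
    IsClosed {x | x ∈ M T ∧ Complex.normSq (1 - Wsharp T x) ≤ Real.exp R * Ya T x} := by
  rw [← closure_subset_iff_isClosed]
  intro x hx
  set A := {x | x ∈ M T ∧ Complex.normSq (1 - Wsharp T x) ≤ Real.exp R * Ya T x} with hA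
  by_cases hex : ∃ k, inDisc k x
  · obtain ⟨k, hk⟩ := hex
    have hS : Continuous (Sk k) := by
      unfold Sk
      exact (Ak k).continuous.add continuous_const
    have hl : Continuous (fun z : ℂ × ℂ => (Sk k z).2.re) := Complex.continuous_re.comp (continuous_snd.comp hS)
    have hw : Continuous (fun z : ℂ × ℂ => z.2 - ((sc k ^ 2 * ((Sk k z).2.re + T.g (Sk k z).2.re) : ℝ) : ℂ)) :=
      continuous_snd.sub (Complex.continuous_ofReal.comp (continuous_const.mul (hl.add (T.sg.continuous.comp hl))))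
    have hY : Continuous (fun z : ℂ × ℂ => sc k ^ 2 * (1 / T.F (Sk k z).2.re - Complex.normSq (Sk k z).1)) := by
      refine continuous_const.mul ((continuous_const.div (T.sF.continuous.comp hl) fun z => (T.F_pos _).ne').sub ?_)
      exact Complex.continuous_normSq.comp (continuous_fst.comp hS)
    set C : Set (ℂ × ℂ) := {z | Complex.normSq (1 - (z.2 - ((sc k ^ 2 * ((Sk k z).2.re + T.g (Sk k z).2.re) : ℝ) : ℂ)))
      ≤ Real.exp R * (sc k ^ 2 * (1 / T.F (Sk k z).2.re - Complex.normSq (Sk k z).1)) ∧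
        Real.exp (-R) ≤ sc k ^ 2 * (1 / T.F (Sk k z).2.re - Complex.normSq (Sk k z).1)} with hC
    have hCc : IsClosed C := by
      apply IsClosed.inter
      · exact isClosed_le (Complex.continuous_normSq.comp (continuous_const.sub hw)) (continuous_const.mul hY)
      · exact isClosed_le continuous_const hY
    have hxC : x ∈ C := by
      rw [← hCc.closure_eq, mem_closure_iff_nhds]
      intro t ht
      have h1 : t ∩ {z | inDisc k z} ∈ 𝓝 x := inter_mem ht ((rp5_open k).mem_nhds hk)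
      obtain ⟨z, ⟨hz1, hz2⟩, hz3, hz4⟩ := mem_closure_iff_nhds.1 hx _ h1
      refine ⟨z, hz1, ?_⟩
      obtain ⟨v1, v2, -⟩ := vals_in T hz2
      obtain ⟨-, c2, -⟩ := rp10_cons T hz3 hz4
      rw [v1, v2] at hz4
      rw [v2] at c2
      exact ⟨hz4, c2⟩
    obtain ⟨v1, v2, -⟩ := vals_in T hk
    have hpos : 0 < sc k ^ 2 * (1 / T.F (Sk k x).2.re - Complex.normSq (Sk k x).1) :=
      (Real.exp_pos _).trans_le hxC.2
    have hmem : Sk k x ∈ T.MS := by
      have h1 : 0 < 1 / T.F (Sk k x).2.re - Complex.normSq (Sk k x).1 :=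
        (mul_pos_iff_of_pos_left (pow_pos (sc_pos k) 2)).1 hpos
      have hF := T.F_pos (Sk k x).2.re
      change Complex.normSq (Sk k x).1 * T.F (Sk k x).2.re < 1
      rw [← lt_div_iff₀ hF]
      linarith
    refine ⟨(in_disc T hk).1.2 hmem, ?_⟩
    rw [v1, v2]
    exact hxC.1
  · have hn : ∀ k, ¬ inDisc k x := fun k hk => hex ⟨k, hk⟩
    have ho := rp5_out hn
    set C : Set (ℂ × ℂ) := {z | Complex.normSq (1 - z.2) ≤ Real.exp R * Y z ∧ Real.exp (-R) ≤ Y z} with hC
    have hCc : IsClosed C := by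
      apply IsClosed.inter
      · exact isClosed_le (Complex.continuous_normSq.comp (continuous_const.sub continuous_snd))
          (continuous_const.mul rp5_contY)
      · exact isClosed_le continuous_const rp5_contY
    have hxC : x ∈ C := by
      rw [← hCc.closure_eq, mem_closure_iff_nhds]
      intro t ht
      obtain ⟨z, ⟨hz1, hz2⟩, hz3, hz4⟩ := mem_closure_iff_nhds.1 hx _ (inter_mem ht ho)
      refine ⟨z, hz1, ?_⟩
      have hYz : 0 < Y z := (out_disc T hz2).1.1 hz3
      obtain ⟨v1, v2, -⟩ := vals_out T hz2 hYz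
      obtain ⟨-, c2, -⟩ := rp10_cons T hz3 hz4
      rw [v1, v2] at hz4
      rw [v2] at c2
      exact ⟨hz4, c2⟩
    have hYx : 0 < Y x := (Real.exp_pos _).trans_le hxC.2
    obtain ⟨v1, v2, -⟩ := vals_out T ho.self_of_nhds hYx
    refine ⟨(out_disc T ho.self_of_nhds).1.2 hYx, ?_⟩
    rw [v1, v2]
    exact hxC.1

theorem proper_F (R : ℝ) :
    ∃ K ⊆ M T, IsCompact K ∧ ∀ x ∈ M T, lW T x - Real.log (Ya T x) ≤ R → x ∈ K := by
  obtain ⟨C, hC⟩ := rp10_bound T R
  refine ⟨{x | x ∈ M T ∧ Complex.normSq (1 - Wsharp T x) ≤ Real.exp R * Ya T x}, fun x hx => hx.1, ?_, ?_⟩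
  · apply Metric.isCompact_of_isClosed_isBounded (rp10_closed T R)
    rw [isBounded_iff_forall_norm_le]
    exact ⟨C, fun x hx => hC x hx.1 hx.2⟩
  · intro x hx h
    exact ⟨hx, (rp10_mul T hx).1 h⟩

end Pool.Agent.KH
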