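import Pool.Agent.Lib.MP_93b649_gt.BDist

/-! # ROW RD2: the relation `Joined`

* `Joined.mem`: induction; `curveLength ≥ 0` (`intervalIntegral.integral_nonneg`, `Real.sqrt_nonneg`).
* `Joined.trans`: induction on the second argument.
* `Joined.symm`: induction; for `append x γ L h`: the reversed curve `γ'(s) = γ(1-s)` joins `γ 1` to `γ 0` and has the same length
  (`deriv (fun s => γ (1-s)) s = -deriv γ (1-s)`, `g p (-v) (-v) = g p v v` for `p ∈ M`, change of variables
  `intervalIntegral.integral_comp_sub_left`; only `s ∈ [0,1]` matters: `intervalIntegral.integral_congr`); then `trans`. -/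

open scoped ContDiff Topology ComplexConjugate
open Set Filter

noncomputable section

namespace Pool.Agent.KH

variable {M : Set (ℂ × ℂ)} {g : Form}

theorem rd2_length_nonneg (γ : ℝ → ℂ × ℂ) : 0 ≤ curveLength g γ :=
  intervalIntegral.integral_nonneg zero_le_one fun _ _ => Real.sqrt_nonneg _

theorem Joined.mem {x y : ℂ × ℂ} {L : ℝ} (h : Joined M g x y L) : x ∈ M ∧ y ∈ M ∧ 0 ≤ L := by
  induction h with
  | refl hx => exact ⟨hx, hx, le_rfl⟩
  | append γ L _ hγ hM ih =>
    exact ⟨ih.1, hM 1 (right_mem_Icc.2 zero_le_one), add_nonneg ih.2.2 (rd2_length_nonneg γ)⟩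

theorem Joined.trans {x y z : ℂ × ℂ} {L L' : ℝ} (h : Joined M g x y L) (h' : Joined M g y z L') :
    Joined M g x z (L + L') := by
  induction h' with
  | refl hx => simpa using h
  | append γ L2 _ hγ hM ih =>
    have h2 := Joined.append x γ (L + L2) ih hγ hM
    rwa [add_assoc] at h2

theorem rd2_neg (hg : IsMetric M g) {p : ℂ × ℂ} (hp : p ∈ M) (v : ℂ × ℂ) : g p (-v) (-v) = g p v v := by
  have h1 : ∀ w u, g p (-w) u = - g p w u := by
    intro w u
    have h2 := hg.smul p hp (-1) w u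
    rwa [neg_one_smul, neg_one_mul] at h2
  rw [h1, hg.symm p hp v (-v), h1, neg_neg]

theorem rd2_rev (hg : IsMetric M g) (γ : ℝ → ℂ × ℂ) (hM : ∀ s ∈ Icc (0 : ℝ) 1, γ s ∈ M) :
    curveLength g (fun s => γ (1 - s)) = curveLength g γ := by
  unfold curveLength
  have h1 : ∫ s in (0 : ℝ)..1, Real.sqrt (g ((fun s => γ (1 - s)) s) (deriv (fun s => γ (1 - s)) s)
      (deriv (fun s => γ (1 - s)) s)) =
      ∫ s in (0 : ℝ)..1, (fun s => Real.sqrt (g (γ s) (deriv γ s) (deriv γ s))) (1 - s) := by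
    refine intervalIntegral.integral_congr fun s hs => ?_
    rw [uIcc_of_le zero_le_one] at hs
    have hs' : 1 - s ∈ Icc (0 : ℝ) 1 := ⟨by linarith [hs.2], by linarith [hs.1]⟩
    have h2 : deriv (fun s => γ (1 - s)) s = - deriv γ (1 - s) := deriv_comp_const_sub γ 1 s
    show Real.sqrt (g (γ (1 - s)) (deriv (fun s => γ (1 - s)) s) (deriv (fun s => γ (1 - s)) s)) =
      Real.sqrt (g (γ (1 - s)) (deriv γ (1 - s)) (deriv γ (1 - s)))
    rw [h2, rd2_neg hg (hM _ hs')]
  refine h1.trans ?_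
  have h3 := intervalIntegral.integral_comp_sub_left (a := (0 : ℝ)) (b := 1)
    (fun s => Real.sqrt (g (γ s) (deriv γ s) (deriv γ s))) (1 : ℝ)
  rw [sub_self, sub_zero] at h3
  exact h3

theorem Joined.symm (hg : IsMetric M g) {x y : ℂ × ℂ} {L : ℝ} (h : Joined M g x y L) : Joined M g y x L := by
  induction h with
  | refl hx => exact Joined.refl _ hx
  | append γ L _ hγ hM ih =>
    have hM' : ∀ s ∈ Icc (0 : ℝ) 1, (fun s => γ (1 - s)) s ∈ M := fun s hs =>
      hM _ ⟨by linarith [hs.2], by linarith [hs.1]⟩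
    have hγ' : ContDiff ℝ 1 (fun s => γ (1 - s)) := hγ.comp (contDiff_const.sub contDiff_id)
    have h1 : Joined M g (γ 1) ((fun s => γ (1 - s)) 0) 0 := by
      have : (fun s => γ (1 - s)) 0 = γ 1 := by simp
      rw [this]
      exact Joined.refl _ (hM 1 (right_mem_Icc.2 zero_le_one))
    have h2 := Joined.append (γ 1) (fun s => γ (1 - s)) 0 h1 hγ' hM'
    rw [rd2_rev hg γ hM, zero_add] at h2
    simp only [sub_self] at h2
    have h4 := h2.trans ih
    rwa [add_comm] at h4

end Pool.Agent.KH
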