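import Pool.Agent.Lib.MP_93b649_gt.RG7
import Pool.Agent.Lib.MP_93b649_gt.RD5
import Pool.Agent.Lib.MP_93b649_gt.RD2

/-! # ROW RP11: any two points of `M` are joined

`IsMetric` from `IsKahler.isMetric (isOpen_M T) (isKahler_M T)`. From `x = (z,W) ∈ M` go down by the segment to `x' = (z, W - c)`, `c = |Re W| + |z|²/2 + 1`
(inside `M` by `down_mem`; `segment_joined`), `Y x' ≥ 2 > 1/2`; the set `{1/2 < Y}` is convex (`Y` is concave: `Complex.normSq` of a convex combination) and contained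
in `M` (`mem_of_Y_M`), so `x'` and `y'` are joined by a segment; then back up to `y` (`Joined.symm`, `Joined.trans`). -/

open scoped ContDiff Topology ComplexConjugate
open Set Filter

noncomputable section

namespace Pool.Agent.KH

variable {m : ℕ} (T : Template m)

theorem isMetric_M : IsMetric (M T) (G T) := IsKahler.isMetric (isOpen_M T) (isKahler_M T)

theorem rp11_Y_eq (a b : ℂ × ℂ) (s : ℝ) :
    Y (b + s • (a - b)) = (1 - s) * Y b + s * Y a + s * (1 - s) * Complex.normSq (a.1 - b.1) := by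
  have h1 : (b + s • (a - b)).2.re = b.2.re + s * (a.2.re - b.2.re) := by simp
  have h2 : (b + s • (a - b)).1.re = b.1.re + s * (a.1.re - b.1.re) := by simp
  have h3 : (b + s • (a - b)).1.im = b.1.im + s * (a.1.im - b.1.im) := by simp
  unfold Y
  rw [Complex.normSq_apply, Complex.normSq_apply, Complex.normSq_apply, Complex.normSq_apply, h1, h2, h3,
    Complex.sub_re, Complex.sub_im]
  ring

theorem rp11_Y_lt {a b : ℂ × ℂ} (ha : 1 / 2 < Y a) (hb : 1 / 2 < Y b) {s : ℝ} (hs : s ∈ Icc (0 : ℝ) 1) :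
    1 / 2 < Y (b + s • (a - b)) := by
  obtain ⟨h0, h1⟩ := hs
  have h1' : 0 ≤ 1 - s := by linarith
  have h2 : 0 ≤ s * (1 - s) * Complex.normSq (a.1 - b.1) :=
    mul_nonneg (mul_nonneg h0 h1') (Complex.normSq_nonneg _)
  have h3 : 1 / 2 < min (Y a) (Y b) := lt_min ha hb
  have h4 : (1 - s) * min (Y a) (Y b) ≤ (1 - s) * Y b := mul_le_mul_of_nonneg_left (min_le_right _ _) h1'
  have h5 : s * min (Y a) (Y b) ≤ s * Y a := mul_le_mul_of_nonneg_left (min_le_left _ _) h0
  rw [rp11_Y_eq]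
  have h6 : (1 - s) * min (Y a) (Y b) + s * min (Y a) (Y b) = min (Y a) (Y b) := by ring
  linarith

/-- every point is joined to a point with `Y > 1/2` -/
theorem rp11_down {x : ℂ × ℂ} (hx : x ∈ M T) :
    ∃ (x' : ℂ × ℂ) (L : ℝ), 1 / 2 < Y x' ∧ Joined (M T) (G T) x x' L := by
  obtain ⟨z, W⟩ := x
  obtain ⟨c, hc⟩ : ∃ c : ℝ, c = |W.re| + Complex.normSq z / 2 + 1 := ⟨_, rfl⟩
  have hn : 0 ≤ Complex.normSq z := Complex.normSq_nonneg z
  have ha : 0 ≤ |W.re| := abs_nonneg _
  have hc0 : 0 ≤ c := by rw [hc]; linarith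
  refine ⟨(z, W - (c : ℂ)), ?_⟩
  have hY : 1 / 2 < Y (z, W - (c : ℂ)) := by
    have h1 : (W - (c : ℂ)).re = W.re - c := by simp
    have h2 : W.re ≤ |W.re| := le_abs_self _
    unfold Y
    show 1 / 2 < -2 * (W - (c : ℂ)).re - Complex.normSq z
    rw [h1, hc]
    linarith
  obtain ⟨L, hL⟩ := segment_joined (M := M T) (g := G T) (x := (z, W - (c : ℂ))) (y := (z, W)) (by
    intro s hs
    have h1 : ((z, W) : ℂ × ℂ) + s • ((z, W - (c : ℂ)) - (z, W)) = (z, W - ((s * c : ℝ) : ℂ)) := by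
      ext
      · simp
      · simp
        ring
    rw [h1]
    refine down_mem T hx ?_
    have h2 : (W - ((s * c : ℝ) : ℂ)).re = W.re - s * c := by simp
    rw [h2]
    have := mul_nonneg hs.1 hc0
    linarith)
  exact ⟨L, hY, hL⟩

theorem isJoined_M : IsJoined (M T) (G T) := by
  intro x hx y hy
  obtain ⟨x', L, hx', hL⟩ := rp11_down T hx
  obtain ⟨y', K, hy', hK⟩ := rp11_down T hy
  obtain ⟨N, hN⟩ := segment_joined (M := M T) (g := G T) (x := y') (y := x')
    (fun s hs => mem_of_Y_M T (rp11_Y_lt hy' hx' hs))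
  exact ⟨_, (hL.trans hN).trans (hK.symm (isMetric_M T))⟩

end Pool.Agent.KH
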