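import Pool.Agent.Lib.MP_93b649_gt.RM1

/-! # ROW RM3: derivatives of `N`, `X`, `G_H`, `G_V`, `c2` and of the metric

Use the calculus `HasD` of `BModel.lean` (`HasD.fst`, `.mul`, `.conjD`, `.real (D.hP _)`, ..., `.congr'`). Write `t = x.1`,
`b_W = b.2`, `c = c2 x b`, `Re b_W = (b_W + conj b_W)/2` (`Complex.re_eq_add_conj`).
* `N = t · conj t · F` (`Complex.mul_conj`): derivative `b_t conj t F + t conj b_t F + t conj t · 2 e F Re b_W
  = F (conj t · c + t · conj c)`  (`hasD_N`).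
* `X = N/(1-N)`: derivative `N'/(1-N)² = (1+X)² N'` (`hasD_X`).
* `G_H = P + X L`: derivative `P1 Re b_W + X' L + X L1 Re b_W = (P1 + X L1) Re b_W + L (1+X)² F (conj t c + t conj c)`
  `= G_H (k b_W + q c + conj (k b_W + q c))` because `2 G_H k = P1 + X L1`, `G_H q = conj t G_V L`, `G_V = F (1+X)²` (`hasD_GH`).
* `G_V = F (1+X)²`: derivative `2 e F Re b_W (1+X)² + 2 F (1+X) X'`
  `= G_V (e b_W + 2 (1+X) F conj t c + conj(...))` (`hasD_GV`).
* `c2 y a = a_t + e t a_W`: derivative `(2 L Re b_W t + e b_t) a_W = (et1 x b + L t conj b_W) a_W`, where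
  `et1 x b = e c + (L - e²) t b_W = e b_t + L t b_W` (`hasD_c2`).
* `compat`: `hm y u v = G_H u_W conj v_W + G_V c2(u) conj c2(v)`; its derivative in the direction `w` is
  `hm x (Γ x w u) v + hm x u (Γ x w v)` (complex identity!; then take real parts, `HasD.re`). Here
  `c2 x (Γ x w u) = ΓV x w u`, `(Γ x w u).2 = ΓW x w u`. With `w_1 = w.2`, `w_2 = c2 x w`, `u_1`, `u_2`, `v_1`, `v_2`:
  `hm (Γ w u) v = G_H ΓW(w,u) conj v_1 + G_V ΓV(w,u) conj v_2`, and
  `G_H ΓW(w,u) = G_H k w_1u_1 + conj t G_V L (w_1u_2 + w_2u_1)`,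
  `ΓV(w,u) = (L-e²) t w_1u_1 + e (w_1u_2+w_2u_1) + 2 conj t F (1+X) w_2u_2`.
  Derivative of `G_H u_1 conj v_1`: `G_H(k w_1 + q w_2 + conj ..) u_1 conj v_1`; of `G_V u_2 conj v_2`:
  `G_V (e w_1 + 2(1+X)F conj t w_2 + conj ..) u_2 conj v_2 + G_V (e w_2 + (L-e²) t w_1 + L t conj w_1) u_1 conj v_2
   + G_V u_2 conj(e w_2 + (L-e²) t w_1 + L t conj w_1) conj v_1`. Compare with the sum above: `ring` after
  `G_H q = conj t G_V L` (prove by `field_simp` with `G_H ≠ 0`). -/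

open scoped ContDiff Topology ComplexConjugate
open Set

noncomputable section

namespace Pool.Agent.KH

namespace CData

variable (D : CData)

private theorem rm3_N (y : ℂ × ℂ) : ((D.N y : ℝ) : ℂ) = y.1 * conj y.1 * (D.F y.2.re : ℂ) := by
  unfold N
  rw [Complex.ofReal_mul, ← Complex.mul_conj]

private theorem rm3_one {x : ℂ × ℂ} (hx : x ∈ D.MS) :
    (1 + (D.X x : ℂ)) * (1 - (D.N x : ℂ)) = 1 := by
  have h := (D.basic hx).2.2.2.1
  exact_mod_cast h

private theorem rm3_GV (y : ℂ × ℂ) : ((D.GV y : ℝ) : ℂ) =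
    (D.F y.2.re : ℂ) * (1 + (D.X y : ℂ)) * (1 + (D.X y : ℂ)) := by
  unfold GV
  push_cast
  ring

private theorem rm3_GH (y : ℂ × ℂ) : ((D.GH y : ℝ) : ℂ) =
    (D.P y.2.re : ℂ) + (D.X y : ℂ) * (D.L y.2.re : ℂ) := by
  unfold GH
  push_cast
  ring

private theorem rm3_GH_ne {x : ℂ × ℂ} (hx : x ∈ D.MS) : ((D.GH x : ℝ) : ℂ) ≠ 0 := by
  have h := (D.basic hx).2.1
  exact_mod_cast h.ne'

private theorem rm3_k {x : ℂ × ℂ} (hx : x ∈ D.MS) : (D.GH x : ℂ) * (D.k x : ℂ) =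
    ((D.P1 x.2.re : ℂ) + (D.X x : ℂ) * (D.L1 x.2.re : ℂ)) / 2 := by
  have h := D.rm3_GH_ne hx
  unfold k
  push_cast
  field_simp

private theorem rm3_q {x : ℂ × ℂ} (hx : x ∈ D.MS) : (D.GH x : ℂ) * D.q x =
    conj x.1 * (D.GV x : ℂ) * (D.L x.2.re : ℂ) := by
  have h := D.rm3_GH_ne hx
  unfold q
  field_simp

private theorem rm3_q' {x : ℂ × ℂ} (hx : x ∈ D.MS) : (D.GH x : ℂ) * conj (D.q x) =
    x.1 * (D.GV x : ℂ) * (D.L x.2.re : ℂ) := by
  have h := congrArg (starRingEnd ℂ) (D.rm3_q hx)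
  simpa only [map_mul, Complex.conj_ofReal, Complex.conj_conj] using h

private theorem rm3_re (z : ℂ) : ((z.re : ℝ) : ℂ) = (z + conj z) / 2 := Complex.re_eq_add_conj z

private theorem rm3_c2conj (x b : ℂ × ℂ) : conj (D.c2 x b) =
    conj b.1 + (D.e x.2.re : ℂ) * conj x.1 * conj b.2 := by
  unfold c2
  simp only [map_add, map_mul, Complex.conj_ofReal]

theorem hasD_N (x : ℂ × ℂ) : HasD (fun y => ((D.N y : ℝ) : ℂ)) x
    (fun b => (D.F x.2.re : ℂ) * (conj x.1 * D.c2 x b + x.1 * conj (D.c2 x b))) := by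
  refine (((HasD.fst.mul HasD.fst.conjD).mul (HasD.real (D.hF x.2.re))).congr' fun b => ?_).congr_fun
    fun y => D.rm3_N y
  rw [D.rm3_c2conj, rm3_re]
  unfold c2
  push_cast
  ring

theorem hasD_X {x : ℂ × ℂ} (hx : x ∈ D.MS) : HasD (fun y => ((D.X y : ℝ) : ℂ)) x
    (fun b => (1 + (D.X x : ℂ)) ^ 2 * (D.F x.2.re : ℂ) * (conj x.1 * D.c2 x b + x.1 * conj (D.c2 x b))) := by
  have h1 := D.rm3_one hx
  have h0 : (1 - (D.N x : ℂ)) ≠ 0 := right_ne_zero_of_mul (h1.trans_ne one_ne_zero)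
  refine (((D.hasD_N x).div ((HasD.const 1).sub (D.hasD_N x)) h0).congr' fun b => ?_).congr_fun
    fun y => ?_
  · rw [div_eq_iff (pow_ne_zero 2 h0)]
    generalize (conj x.1 * D.c2 x b + x.1 * conj (D.c2 x b)) = n
    linear_combination (-((D.F x.2.re : ℂ) * n * ((1 + (D.X x : ℂ)) * (1 - (D.N x : ℂ)) + 1))) * h1
  · unfold X
    push_cast
    rfl

theorem hasD_GH {x : ℂ × ℂ} (hx : x ∈ D.MS) : HasD (fun y => ((D.GH y : ℝ) : ℂ)) x
    (fun b => (D.GH x : ℂ) * ((D.k x : ℂ) * b.2 + D.q x * D.c2 x b + conj ((D.k x : ℂ) * b.2 + D.q x * D.c2 x b))) := by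
  refine (((HasD.real (D.hP x.2.re)).add ((D.hasD_X hx).mul (HasD.real (D.hL x.2.re)))).congr'
    fun b => ?_).congr_fun fun y => D.rm3_GH y
  have hk := D.rm3_k hx
  have hq := D.rm3_q hx
  have hq' := D.rm3_q' hx
  rw [D.rm3_GV] at hq hq'
  simp only [map_add, map_mul, Complex.conj_ofReal]
  rw [rm3_re]
  generalize conj (D.c2 x b) = c'
  generalize D.c2 x b = c at *
  generalize conj (D.q x) = q' at *
  linear_combination (-(b.2 + conj b.2)) * hk - c * hq - c' * hq'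

theorem hasD_GV {x : ℂ × ℂ} (hx : x ∈ D.MS) : HasD (fun y => ((D.GV y : ℝ) : ℂ)) x
    (fun b => (D.GV x : ℂ) * ((D.e x.2.re : ℂ) * b.2 + 2 * (1 + (D.X x : ℂ)) * D.F x.2.re * conj x.1 * D.c2 x b
      + conj ((D.e x.2.re : ℂ) * b.2 + 2 * (1 + (D.X x : ℂ)) * D.F x.2.re * conj x.1 * D.c2 x b))) := by
  have hX := (HasD.const (x := x) 1).add (D.hasD_X hx)
  refine ((((HasD.real (D.hF x.2.re)).mul hX).mul hX).congr' fun b => ?_).congr_fun
    fun y => D.rm3_GV y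
  rw [D.rm3_GV]
  simp only [map_add, map_mul, Complex.conj_ofReal, Complex.conj_conj, map_one, map_ofNat]
  rw [rm3_re]
  generalize conj (D.c2 x b) = c'
  generalize D.c2 x b = c
  push_cast
  ring

theorem hasD_c2 (x a : ℂ × ℂ) : HasD (fun y => D.c2 y a) x
    (fun b => (D.et1 x b + (D.L x.2.re : ℂ) * x.1 * conj b.2) * a.2) := by
  refine ((HasD.const a.1).add (((HasD.real (D.he x.2.re)).mul HasD.fst).mul
    (HasD.const a.2))).congr' fun b => ?_
  rw [rm3_re]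
  unfold et1 c2
  push_cast
  ring

theorem hasD_hm {x : ℂ × ℂ} (hx : x ∈ D.MS) (u v : ℂ × ℂ) : HasD (fun y => D.hm y u v) x
    (fun w => D.hm x (D.Γ x w u) v + D.hm x u (D.Γ x w v)) := by
  have hH := ((D.hasD_GH hx).mul (HasD.const u.2)).mul (HasD.const (conj v.2))
  have hV := ((D.hasD_GV hx).mul (D.hasD_c2 x u)).mul (D.hasD_c2 x v).conjD
  refine (hH.add hV).congr' fun w => ?_
  have hq := D.rm3_q hx
  have hq' := D.rm3_q' hx
  have e1 : ∀ a c : ℂ × ℂ, D.c2 x (D.Γ x a c) = D.ΓV x a c := fun a c => by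
    unfold Γ c2
    ring
  have e2 : ∀ a c : ℂ × ℂ, (D.Γ x a c).2 = D.ΓW x a c := fun a c => rfl
  unfold hm
  rw [e1, e1, e2, e2]
  unfold ΓW ΓV et1
  simp only [map_add, map_sub, map_mul, map_pow, Complex.conj_ofReal, Complex.conj_conj, map_one,
    map_ofNat]
  generalize conj (D.c2 x w) = w2' at *
  generalize D.c2 x w = w2 at *
  generalize conj (D.c2 x v) = v2' at *
  generalize D.c2 x v = v2 at *
  generalize conj (D.c2 x u) = u2' at *
  generalize D.c2 x u = u2 at *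
  generalize conj (D.q x) = q' at *
  generalize D.q x = q at *
  linear_combination (-(w.2 * u2 * conj v.2)) * hq - (conj w.2 * v2' * u.2) * hq'

theorem compat {x : ℂ × ℂ} (hx : x ∈ D.MS) (w u v : ℂ × ℂ) :
    DifferentiableAt ℝ (fun y => D.metric y u v) x ∧
    fderiv ℝ (fun y => D.metric y u v) x w = D.metric x (D.Γ x w u) v + D.metric x u (D.Γ x w v) := by
  have h := (D.hasD_hm hx u v).re
  refine ⟨h.1, ?_⟩
  have h2 := h.2 w
  rw [Complex.add_re] at h2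
  exact h2

end CData

end Pool.Agent.KH
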