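import Pool.Agent.Lib.MP_93b649_gt.RP1
import Pool.Agent.Lib.MP_93b649_gt.RM3

/-! # ROW RP3: `log (1/F(Re W) - |t|²)` is `4`-Lipschitz for the model

On `MS`: `1/F - |t|² = (1-N)/F > 0`, so the function is `log(1-N) - log F`. Derivatives (direction `v`): `D log F = 2 e Re v_W` (`D.hF`), absolute value
`≤ 2e · 2g|v| ≤ 2|v|` (`T.ge_le`). `DN(v) = 2 F Re(conj t c2 x v)` (`hasD_N`, `HasD.of_real`), `|D log(1-N)(v)| = |DN(v)|/(1-N) ≤ 2F|t||c2 x v|(1+X)`
`≤ 2 √F |t| · √F(1+X)|c2 x v| ≤ 2|v|` since `F|t|² = N < 1` and `norm_est` (`√F (1+X) |c2| ≤ |v|`). -/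

open scoped ContDiff Topology ComplexConjugate
open Set Filter

noncomputable section

namespace Pool.Agent.KH

variable {m : ℕ} (T : Template m)

private theorem rp3_re (x : ℂ × ℂ) : HasFDerivAt (fun y : ℂ × ℂ => y.2.re)
    (Complex.reCLM.comp (ContinuousLinearMap.snd ℝ ℂ ℂ)) x :=
  Complex.reCLM.hasFDerivAt.comp x (hasFDerivAt_snd)

private theorem rp3_re1 (x : ℂ × ℂ) : HasFDerivAt (fun y : ℂ × ℂ => y.1.re)
    (Complex.reCLM.comp (ContinuousLinearMap.fst ℝ ℂ ℂ)) x :=
  Complex.reCLM.hasFDerivAt.comp x (hasFDerivAt_fst)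

private theorem rp3_im1 (x : ℂ × ℂ) : HasFDerivAt (fun y : ℂ × ℂ => y.1.im)
    (Complex.imCLM.comp (ContinuousLinearMap.fst ℝ ℂ ℂ)) x :=
  Complex.imCLM.hasFDerivAt.comp x (hasFDerivAt_fst)

theorem model_lip_log : IsLip T.MS T.metric 4 (fun x => Real.log (1 / T.F x.2.re - Complex.normSq x.1)) := by
  intro x hx
  have hF := T.F_pos x.2.re
  have hFne := hF.ne'
  have hu : 0 < 1 / T.F x.2.re - Complex.normSq x.1 := by
    have := (model_t T hx).1
    linarith
  have h1 : HasDerivAt (fun l => 1 / T.F l)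
      (-(2 * T.e x.2.re * T.F x.2.re) / T.F x.2.re ^ 2) x.2.re := by
    have := (T.hF x.2.re).fun_inv hFne
    simpa only [one_div] using this
  have h2 := h1.comp_hasFDerivAt x (rp3_re x)
  have h3 := ((rp3_re1 x).mul (rp3_re1 x)).add ((rp3_im1 x).mul (rp3_im1 x))
  have h4 := (h2.sub h3).log (by
    show 1 / T.F x.2.re - (x.1.re * x.1.re + x.1.im * x.1.im) ≠ 0
    exact hu.ne')
  have h5 : HasFDerivAt (fun x : ℂ × ℂ => Real.log (1 / T.F x.2.re - Complex.normSq x.1)) _ x := h4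
  refine ⟨h5.differentiableAt, fun v => ?_⟩
  rw [h5.fderiv]
  set u : ℝ := 1 / T.F x.2.re - Complex.normSq x.1 with hudef
  set S : ℝ := Real.sqrt (T.metric x v v) with hSdef
  have hS : 0 ≤ S := Real.sqrt_nonneg _
  set c : ℂ := T.c2 x v with hc
  have hD : ∀ (A B C D : ℝ), A = -(2 * T.e x.2.re * T.F x.2.re) / T.F x.2.re ^ 2 * v.2.re →
      B = x.1.re * v.1.re → C = x.1.im * v.1.im → D = u⁻¹ * (A - ((B + B) + (C + C))) →
      |D| ≤ 4 * S := by
    intro A B C D hA hB hC hDD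
    have hv1 : v.1 = c - T.e x.2.re * x.1 * v.2 := by
      rw [hc]
      unfold CData.c2
      ring
    have hre : v.1.re = c.re - T.e x.2.re * (x.1.re * v.2.re - x.1.im * v.2.im) := by
      rw [hv1]
      simp [Complex.mul_re, Complex.mul_im]
      ring
    have him : v.1.im = c.im - T.e x.2.re * (x.1.re * v.2.im + x.1.im * v.2.re) := by
      rw [hv1]
      simp [Complex.mul_re, Complex.mul_im]
      ring
    have hA' : A = -(2 * T.e x.2.re) * (1 / T.F x.2.re) * v.2.re := by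
      rw [hA]
      field_simp
    have hsum : A - ((B + B) + (C + C)) =
        -(2 * T.e x.2.re * v.2.re) * u - 2 * (x.1.re * c.re + x.1.im * c.im) := by
      rw [hA', hB, hC, hre, him, hudef, Complex.normSq_apply]
      ring
    have hDe : D = -(2 * T.e x.2.re * v.2.re) - 2 * (x.1.re * c.re + x.1.im * c.im) * u⁻¹ := by
      rw [hDD, hsum, mul_sub, mul_comm u⁻¹ (-(2 * T.e x.2.re * v.2.re) * u), mul_assoc _ u u⁻¹,
        mul_inv_cancel₀ hu.ne', mul_one]
      ring
    have hp1 : |2 * T.e x.2.re * v.2.re| ≤ 2 * S := by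
      have he := T.e_pos x.2.re
      have h6 := T.ge_le x.2.re
      have hv := (model_norms T hx v).1
      rw [abs_mul, abs_of_nonneg (by positivity : 0 ≤ 2 * T.e x.2.re)]
      calc 2 * T.e x.2.re * |v.2.re| ≤ 2 * T.e x.2.re * (2 * T.g x.2.re * S) :=
            mul_le_mul_of_nonneg_left ((Complex.abs_re_le_norm _).trans hv) (by positivity)
        _ = 2 * (2 * T.g x.2.re * T.e x.2.re) * S := by ring
        _ ≤ 2 * 1 * S := mul_le_mul_of_nonneg_right (mul_le_mul_of_nonneg_left h6 (by norm_num)) hS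
        _ = 2 * S := by ring
    obtain ⟨hX, hG, hV, hXN, hN0, hN1⟩ := T.basic hx
    have huinv : u⁻¹ = T.F x.2.re * (1 + T.X x) := by
      apply inv_eq_of_mul_eq_one_left
      have h7 : (1 + T.X x) * (1 - Complex.normSq x.1 * T.F x.2.re) = 1 := hXN
      rw [hudef, mul_sub]
      have h8 : T.F x.2.re * (1 + T.X x) * (1 / T.F x.2.re) = 1 + T.X x := by field_simp
      rw [h8]
      linear_combination h7
    have hp2 : |2 * (x.1.re * c.re + x.1.im * c.im) * u⁻¹| ≤ 2 * S := by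
      have h9 : |x.1.re * c.re + x.1.im * c.im| ≤ ‖x.1‖ * ‖c‖ := by
        have h10 : x.1.re * c.re + x.1.im * c.im = (x.1 * conj c).re := by
          simp [Complex.mul_re]
        rw [h10]
        refine (Complex.abs_re_le_norm _).trans ?_
        rw [norm_mul, Complex.norm_conj]
      have hFX : 0 ≤ T.F x.2.re * (1 + T.X x) := by positivity
      rw [huinv, abs_mul, abs_mul, abs_of_nonneg hFX, abs_two]
      have h11 : T.F x.2.re * ‖x.1‖ ^ 2 ≤ 1 := by
        rw [← Complex.normSq_eq_norm_sq, mul_comm]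
        exact hN1.le
      have h12 : T.F x.2.re * (1 + T.X x) ^ 2 * ‖c‖ ^ 2 ≤ S ^ 2 := by
        have h13 : 0 ≤ T.metric x v v := by
          have := T.metric_self x v
          rw [this]
          have := Complex.normSq_nonneg v.2
          have := Complex.normSq_nonneg (T.c2 x v)
          positivity
        rw [hSdef, Real.sq_sqrt h13]
        exact (T.norm_est hx v).2
      have h14 : ‖x.1‖ * ‖c‖ * (T.F x.2.re * (1 + T.X x)) ≤ S := by
        refine le_of_sq_le_sq ?_ hS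
        calc (‖x.1‖ * ‖c‖ * (T.F x.2.re * (1 + T.X x))) ^ 2
            = (T.F x.2.re * ‖x.1‖ ^ 2) * (T.F x.2.re * (1 + T.X x) ^ 2 * ‖c‖ ^ 2) := by ring
          _ ≤ 1 * S ^ 2 := mul_le_mul h11 h12 (by positivity) (by norm_num)
          _ = S ^ 2 := one_mul _
      calc 2 * |x.1.re * c.re + x.1.im * c.im| * (T.F x.2.re * (1 + T.X x))
          ≤ 2 * (‖x.1‖ * ‖c‖) * (T.F x.2.re * (1 + T.X x)) :=
            mul_le_mul_of_nonneg_right (mul_le_mul_of_nonneg_left h9 (by norm_num)) hFX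
        _ = 2 * (‖x.1‖ * ‖c‖ * (T.F x.2.re * (1 + T.X x))) := by ring
        _ ≤ 2 * S := mul_le_mul_of_nonneg_left h14 (by norm_num)
    rw [hDe]
    refine (abs_sub _ _).trans ?_
    rw [abs_neg]
    linarith
  exact hD _ _ _ _ rfl rfl rfl rfl

end Pool.Agent.KH
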