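import Pool.Agent.Lib.MP_93b649_gt.BDist

/-! # ROW RP4: Lipschitz functions: pull-back, locality, logarithm of `|1-w|²`

* `IsLip.pull`: chain rule, as `fderiv ℝ (fun x => f (A x + b)) x v = fderiv ℝ f (A x + b) (A v)`.
* `IsLip.congr`: `EventuallyEq.fderiv_eq`.
* `lip_log_aux`: `w : ℂ² → ℂ` real differentiable at `x`, `w x ≠ 1`: `f = log |1-w|²` has derivative
  `v ↦ 2 Re(conj(1 - w x) (-Dw(v)))/|1-w x|²`, absolute value `≤ 2‖Dw(v)‖/‖1-w x‖`. (`Complex.normSq z = re² + im²`, chain rule.) -/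

open scoped ContDiff Topology ComplexConjugate
open Set Filter

noncomputable section

namespace Pool.Agent.KH

theorem IsLip.pull {U : Set (ℂ × ℂ)} {g : Form} {C : ℝ} {f : ℂ × ℂ → ℝ} (hf : IsLip U g C f)
    (A : (ℂ × ℂ) ≃L[ℂ] (ℂ × ℂ)) (b : ℂ × ℂ) :
    IsLip ((fun x => A x + b) ⁻¹' U) (KH.pull A b g) C (fun x => f (A x + b)) := by
  intro x hx
  obtain ⟨h1, h2⟩ := hf (A x + b) hx
  have hA : HasFDerivAt (𝕜 := ℝ) (fun x : ℂ × ℂ => A x + b)
      ((A : (ℂ × ℂ) →L[ℂ] (ℂ × ℂ)).restrictScalars ℝ) x :=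
    ((((A : (ℂ × ℂ) →L[ℂ] (ℂ × ℂ)).restrictScalars ℝ).hasFDerivAt (x := x)).add_const b)
  have h3 := h1.hasFDerivAt.comp x hA
  refine ⟨h3.differentiableAt, fun v => ?_⟩
  have h4 : fderiv ℝ (fun x => f (A x + b)) x = _ := h3.fderiv
  rw [h4]
  exact h2 (A v)

theorem IsLip.congr {U : Set (ℂ × ℂ)} {g : Form} {C : ℝ} {f : ℂ × ℂ → ℝ}
    (h : ∀ x ∈ U, ∃ (V : Set (ℂ × ℂ)) (g' : Form) (f' : ℂ × ℂ → ℝ), x ∈ V ∧ IsLip V g' C f' ∧
      (∀ᶠ z in 𝓝 x, f z = f' z) ∧ ∀ v, g x v v = g' x v v) : IsLip U g C f := by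
  intro x hx
  obtain ⟨V, g', f', hxV, hlip, heq, hg⟩ := h x hx
  obtain ⟨h1, h2⟩ := hlip x hxV
  have heq' : f =ᶠ[𝓝 x] f' := heq
  refine ⟨h1.congr_of_eventuallyEq heq', fun v => ?_⟩
  rw [heq'.fderiv_eq, hg v]
  exact h2 v

theorem IsLip.mono {U : Set (ℂ × ℂ)} {g : Form} {C C' : ℝ} {f : ℂ × ℂ → ℝ} (hf : IsLip U g C f) (h : C ≤ C') :
    IsLip U g C' f := by
  intro x hx
  obtain ⟨h1, h2⟩ := hf x hx
  exact ⟨h1, fun v => (h2 v).trans (mul_le_mul_of_nonneg_right h (Real.sqrt_nonneg _))⟩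

theorem rp4_inner (a b : ℂ) : |a.re * b.re + a.im * b.im| ≤ ‖a‖ * ‖b‖ := by
  have h1 : a.re * b.re + a.im * b.im = (a * conj b).re := by
    simp [Complex.mul_re]
  rw [h1]
  refine (Complex.abs_re_le_norm _).trans ?_
  rw [norm_mul, Complex.norm_conj]

theorem lip_log_aux {w : ℂ × ℂ → ℂ} {x : ℂ × ℂ} (hw : DifferentiableAt ℝ w x) (h1 : w x ≠ 1) :
    DifferentiableAt ℝ (fun z => Real.log (Complex.normSq (1 - w z))) x ∧
      ∀ v, |fderiv ℝ (fun z => Real.log (Complex.normSq (1 - w z))) x v| ≤ 2 * ‖fderiv ℝ w x v‖ / ‖1 - w x‖ := by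
  have hne : 1 - w x ≠ 0 := sub_ne_zero.2 (Ne.symm h1)
  have hn0 : 0 < ‖1 - w x‖ := norm_pos_iff.2 hne
  have hu : HasFDerivAt (fun z => 1 - w z) (-(fderiv ℝ w x)) x := hw.hasFDerivAt.const_sub 1
  have hre : HasFDerivAt (fun z => (1 - w z).re) (Complex.reCLM.comp (-(fderiv ℝ w x))) x :=
    (Complex.reCLM.hasFDerivAt (x := 1 - w x)).comp x hu
  have him : HasFDerivAt (fun z => (1 - w z).im) (Complex.imCLM.comp (-(fderiv ℝ w x))) x :=
    (Complex.imCLM.hasFDerivAt (x := 1 - w x)).comp x hu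
  have hsq : HasFDerivAt (fun z => Complex.normSq (1 - w z))
      (((1 - w x).re • Complex.reCLM.comp (-(fderiv ℝ w x)) +
        (1 - w x).re • Complex.reCLM.comp (-(fderiv ℝ w x))) +
      ((1 - w x).im • Complex.imCLM.comp (-(fderiv ℝ w x)) +
        (1 - w x).im • Complex.imCLM.comp (-(fderiv ℝ w x)))) x := by
    have h := (hre.mul hre).add (him.mul him)
    refine h.congr_of_eventuallyEq (Filter.Eventually.of_forall fun z => ?_)
    exact Complex.normSq_apply _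
  have hN : Complex.normSq (1 - w x) ≠ 0 := (Complex.normSq_pos.2 hne).ne'
  have hlog := hsq.log hN
  refine ⟨hlog.differentiableAt, fun v => ?_⟩
  rw [hlog.fderiv]
  have hval : ((Complex.normSq (1 - w x))⁻¹ • ((((1 - w x).re • Complex.reCLM.comp (-(fderiv ℝ w x)) +
        (1 - w x).re • Complex.reCLM.comp (-(fderiv ℝ w x))) +
      ((1 - w x).im • Complex.imCLM.comp (-(fderiv ℝ w x)) +
        (1 - w x).im • Complex.imCLM.comp (-(fderiv ℝ w x)))) : (ℂ × ℂ) →L[ℝ] ℝ)) v =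
      -(2 * ((1 - w x).re * (fderiv ℝ w x v).re + (1 - w x).im * (fderiv ℝ w x v).im)) /
        Complex.normSq (1 - w x) := by
    simp only [_root_.smul_apply, _root_.add_apply,
      ContinuousLinearMap.comp_apply, _root_.neg_apply, Complex.reCLM_apply,
      Complex.imCLM_apply, Complex.neg_re, Complex.neg_im, smul_eq_mul]
    field_simp
    ring
  have hsq0 : (0 : ℝ) < ‖1 - w x‖ ^ 2 := by positivity
  rw [hval, abs_div, abs_neg, abs_mul, abs_two, Complex.normSq_eq_norm_sq, abs_of_pos hsq0]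
  have h3 := rp4_inner (1 - w x) (fderiv ℝ w x v)
  rw [div_le_div_iff₀ hsq0 hn0]
  calc 2 * |(1 - w x).re * (fderiv ℝ w x v).re + (1 - w x).im * (fderiv ℝ w x v).im| * ‖1 - w x‖ ≤
        2 * (‖1 - w x‖ * ‖fderiv ℝ w x v‖) * ‖1 - w x‖ := by gcongr
    _ = 2 * ‖fderiv ℝ w x v‖ * ‖1 - w x‖ ^ 2 := by ring

end Pool.Agent.KH
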