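import Pool.Agent.Lib.MP_93b649_gt.BConn

/-! # Distance: definitions (no sorry) -/

open scoped ContDiff Topology
open Set Filter

noncomputable section

namespace Pool.Agent.KH

/-- `M` is open and `g` is a continuous field of inner products on `M` -/
structure IsMetric (M : Set (ℂ × ℂ)) (g : Form) : Prop where
  isOpen : IsOpen M
  add : ∀ x ∈ M, ∀ u v w, g x (u + v) w = g x u w + g x v w
  smul : ∀ x ∈ M, ∀ (r : ℝ) (u v), g x (r • u) v = r * g x u v
  symm : ∀ x ∈ M, ∀ u v, g x u v = g x v u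
  pos : ∀ x ∈ M, ∀ v, v ≠ 0 → 0 < g x v v
  cont : ∀ u v, ContinuousOn (fun x => g x u v) M

/-- every two points of `M` are joined by a piecewise `C¹` curve -/
def IsJoined (M : Set (ℂ × ℂ)) (g : Form) : Prop := ∀ x ∈ M, ∀ y ∈ M, ∃ L, Joined M g x y L

/-- `f` is `C`-Lipschitz on `M`: differentiable with `|Df(v)| ≤ C |v|_g`. -/
def IsLip (M : Set (ℂ × ℂ)) (g : Form) (C : ℝ) (f : ℂ × ℂ → ℝ) : Prop :=
  ∀ x ∈ M, DifferentiableAt ℝ f x ∧ ∀ v, |fderiv ℝ f x v| ≤ C * Real.sqrt (g x v v)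

/-- the metric `τ g` -/
def scale (τ : ℝ) (g : Form) : Form := fun x u v => τ * g x u v

theorem IsKahler.isMetric {M : Set (ℂ × ℂ)} {g : Form} (hM : IsOpen M) (h : IsKahler M g) : IsMetric M g where
  isOpen := hM
  add := h.add
  smul := h.smul
  symm := h.symm
  pos := h.pos
  cont := fun u v => (h.smooth u v).continuousOn

end Pool.Agent.KH
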