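import Pool.Agent.Lib.MP_93b649_gt.BGlue
import Pool.Agent.Lib.MP_93b649_gt.BDist

/-! # The functions used for the distance and for completeness: definitions (no sorry) -/

open scoped ContDiff Topology ComplexConjugate
open Set Filter

noncomputable section

namespace Pool.Agent.KH

variable {m : ℕ} (T : Template m)

open Classical in
/-- `W# = W - λ_k² (ℓ + g(ℓ))` on the arms, `W` elsewhere -/
def Wsharp (x : ℂ × ℂ) : ℂ :=
  if h : ∃ k, inDisc k x then
    x.2 - ((sc h.choose ^ 2 * ((Sk h.choose x).2.re + T.g (Sk h.choose x).2.re) : ℝ) : ℂ)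
  else x.2

open Classical in
/-- `Ya = λ_k² (1/F(ℓ) - |t|²)` on the arms, `Y` elsewhere -/
def Ya (x : ℂ × ℂ) : ℝ :=
  if h : ∃ k, inDisc k x then
    sc h.choose ^ 2 * (1 / T.F (Sk h.choose x).2.re - Complex.normSq (Sk h.choose x).1)
  else Y x

/-- `R = (1+y(ℓ))^m` -/
def RR (x : ℂ × ℂ) : ℝ := (1 + T.y (lev x)) ^ m

/-- `log |1 - W#|²` -/
def lW (x : ℂ × ℂ) : ℝ := Real.log (Complex.normSq (1 - Wsharp T x))

end Pool.Agent.KH
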