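import Pool.Agent.Lib.MP_93b649_gt.RP4
import Pool.Agent.Lib.MP_93b649_gt.BProper

/-! # ROW RP7: Lipschitz functions on the Siegel domain `{0 < Y}` with the metric `hyp`

`hyp x v v = |v_z|²/Y + |v_W + conj z v_z|²/Y²`. Write `|v| = √(hyp x v v)`: `|v_z| ≤ √Y |v|`, `|v_W + conj z v_z| ≤ Y|v|`.
* `log Y`: `DY(v) = -2 Re(v_W + conj z v_z)`, so `|D log Y(v)| ≤ 2|v|`.
* `log|1-W|²`: by `lip_log_aux` (`w x = x.2`, `Re W < 0`): `≤ 2|v_W|/|1-W|`, `|v_W| ≤ (Y + |z|√Y)|v|`, and `|1-W| ≥ 1 - Re W = 1 + (Y+|z|²)/2`,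
  `Y + |z|√Y ≤ (3/2)(Y+|z|²) ≤ 3|1-W|`; so `≤ 6|v|`. -/

open scoped ContDiff Topology ComplexConjugate
open Set Filter

noncomputable section

namespace Pool.Agent.KH

theorem rp7_hyp (x v : ℂ × ℂ) :
    hyp x v v = ‖v.1‖ ^ 2 / Y x + ‖v.2 + conj x.1 * v.1‖ ^ 2 / Y x ^ 2 := by
  have h1 : ∀ z : ℂ, z * conj z = ((‖z‖ ^ 2 : ℝ) : ℂ) := by
    intro z
    rw [Complex.mul_conj, Complex.normSq_eq_norm_sq]
  unfold hyp
  rw [h1, h1, ← Complex.ofReal_pow, ← Complex.ofReal_div, ← Complex.ofReal_div, ← Complex.ofReal_add,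
    Complex.ofReal_re]

theorem rp7_bounds {x : ℂ × ℂ} (hx : 0 < Y x) (v : ℂ × ℂ) :
    ‖v.1‖ ≤ Real.sqrt (Y x) * Real.sqrt (hyp x v v) ∧
      ‖v.2 + conj x.1 * v.1‖ ≤ Y x * Real.sqrt (hyp x v v) := by
  rw [rp7_hyp]
  set a := ‖v.1‖ with ha
  set b := ‖v.2 + conj x.1 * v.1‖ with hb
  have ha0 : 0 ≤ a := norm_nonneg _
  have hb0 : 0 ≤ b := norm_nonneg _
  have h2 : 0 ≤ a ^ 2 / Y x := by positivity
  have h3 : 0 ≤ b ^ 2 / Y x ^ 2 := by positivity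
  constructor
  · rw [← Real.sqrt_mul hx.le]
    apply Real.le_sqrt_of_sq_le
    have h4 : Y x * (a ^ 2 / Y x + b ^ 2 / Y x ^ 2) = a ^ 2 + Y x * (b ^ 2 / Y x ^ 2) := by
      field_simp
    rw [h4]
    have h5 : 0 ≤ Y x * (b ^ 2 / Y x ^ 2) := by positivity
    linarith
  · have h6 : Y x * Real.sqrt (a ^ 2 / Y x + b ^ 2 / Y x ^ 2)
        = Real.sqrt (Y x ^ 2 * (a ^ 2 / Y x + b ^ 2 / Y x ^ 2)) := by
      rw [Real.sqrt_mul (by positivity), Real.sqrt_sq hx.le]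
    rw [h6]
    apply Real.le_sqrt_of_sq_le
    have h4 : Y x ^ 2 * (a ^ 2 / Y x + b ^ 2 / Y x ^ 2) = Y x ^ 2 * (a ^ 2 / Y x) + b ^ 2 := by
      field_simp
    rw [h4]
    have h5 : 0 ≤ Y x ^ 2 * (a ^ 2 / Y x) := by positivity
    linarith

theorem rp7_fderiv (x : ℂ × ℂ) :
    HasFDerivAt Y ((-2 : ℝ) • (Complex.reCLM ∘L (ContinuousLinearMap.snd ℝ ℂ ℂ))
      - ((x.1.re • (Complex.reCLM ∘L (ContinuousLinearMap.fst ℝ ℂ ℂ))
            + x.1.re • (Complex.reCLM ∘L (ContinuousLinearMap.fst ℝ ℂ ℂ)))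
        + (x.1.im • (Complex.imCLM ∘L (ContinuousLinearMap.fst ℝ ℂ ℂ))
            + x.1.im • (Complex.imCLM ∘L (ContinuousLinearMap.fst ℝ ℂ ℂ))))) x := by
  have h1 : HasFDerivAt (fun x : ℂ × ℂ => x.2.re)
      (Complex.reCLM ∘L (ContinuousLinearMap.snd ℝ ℂ ℂ)) x :=
    (Complex.reCLM ∘L (ContinuousLinearMap.snd ℝ ℂ ℂ)).hasFDerivAt
  have h2 : HasFDerivAt (fun x : ℂ × ℂ => x.1.re)
      (Complex.reCLM ∘L (ContinuousLinearMap.fst ℝ ℂ ℂ)) x :=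
    (Complex.reCLM ∘L (ContinuousLinearMap.fst ℝ ℂ ℂ)).hasFDerivAt
  have h3 : HasFDerivAt (fun x : ℂ × ℂ => x.1.im)
      (Complex.imCLM ∘L (ContinuousLinearMap.fst ℝ ℂ ℂ)) x :=
    (Complex.imCLM ∘L (ContinuousLinearMap.fst ℝ ℂ ℂ)).hasFDerivAt
  have h4 := (h1.const_mul (-2)).fun_sub ((h2.mul h2).fun_add (h3.mul h3))
  exact h4

theorem rp7_fderiv_apply (x v : ℂ × ℂ) :
    fderiv ℝ Y x v = -2 * (v.2 + conj x.1 * v.1).re := by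
  rw [(rp7_fderiv x).fderiv]
  simp
  ring

theorem lip_hyp_Y : IsLip {x | 0 < Y x} hyp 4 (fun x => Real.log (Y x)) := by
  intro x hx
  have hx' : 0 < Y x := hx
  have hd : HasFDerivAt Y (fderiv ℝ Y x) x := (rp7_fderiv x).differentiableAt.hasFDerivAt
  have hl := hd.log hx'.ne'
  refine ⟨hl.differentiableAt, fun v => ?_⟩
  rw [hl.fderiv]
  have h1 : ((Y x)⁻¹ • fderiv ℝ Y x) v = (Y x)⁻¹ * fderiv ℝ Y x v := rfl
  rw [h1, rp7_fderiv_apply, abs_mul, abs_mul, abs_of_pos (inv_pos.mpr hx')]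
  have h2 := Complex.abs_re_le_norm (v.2 + conj x.1 * v.1)
  have h3 := (rp7_bounds hx' v).2
  have h4 : |(-2 : ℝ)| = 2 := by norm_num
  rw [h4]
  have h5 : |(v.2 + conj x.1 * v.1).re| ≤ Y x * Real.sqrt (hyp x v v) := h2.trans h3
  have h6 : 0 ≤ Real.sqrt (hyp x v v) := Real.sqrt_nonneg _
  rw [inv_mul_le_iff₀ hx']
  nlinarith [mul_nonneg hx'.le h6]

theorem lip_hyp_W : IsLip {x | 0 < Y x} hyp 8 (fun x => Real.log (Complex.normSq (1 - x.2))) := by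
  intro x hx
  have hx' : 0 < Y x := hx
  have hY : Y x = -2 * x.2.re - Complex.normSq x.1 := rfl
  rw [Complex.normSq_eq_norm_sq] at hY
  have h1 : 1 + (Y x + ‖x.1‖ ^ 2) / 2 ≤ ‖1 - x.2‖ := by
    have h2 := Complex.re_le_norm (1 - x.2)
    have h3 : (1 - x.2).re = 1 - x.2.re := by simp
    rw [h3] at h2
    linarith
  have hne : x.2 ≠ 1 := by
    intro h
    rw [h] at h1
    simp at h1
    nlinarith [sq_nonneg ‖x.1‖]
  have hw : DifferentiableAt ℝ (fun z : ℂ × ℂ => z.2) x := differentiableAt_snd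
  obtain ⟨h5, h6⟩ := lip_log_aux hw hne
  refine ⟨h5, fun v => (h6 v).trans ?_⟩
  have h7 : fderiv ℝ (fun z : ℂ × ℂ => z.2) x v = v.2 := by
    have : fderiv ℝ (fun z : ℂ × ℂ => z.2) x = ContinuousLinearMap.snd ℝ ℂ ℂ :=
      (ContinuousLinearMap.snd ℝ ℂ ℂ).hasFDerivAt.fderiv
    rw [this]
    rfl
  rw [h7]
  obtain ⟨h8, h9⟩ := rp7_bounds hx' v
  set s := Real.sqrt (hyp x v v) with hs
  have hs0 : 0 ≤ s := Real.sqrt_nonneg _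
  set r := Real.sqrt (Y x) with hr
  have hr0 : 0 ≤ r := Real.sqrt_nonneg _
  have hrr : r ^ 2 = Y x := Real.sq_sqrt hx'.le
  have h10 : ‖v.2‖ ≤ Y x * s + ‖x.1‖ * (r * s) := by
    have h11 : v.2 = (v.2 + conj x.1 * v.1) - conj x.1 * v.1 := by ring
    have h12 : ‖v.2‖ ≤ ‖v.2 + conj x.1 * v.1‖ + ‖conj x.1 * v.1‖ := by
      conv_lhs => rw [h11]
      exact norm_sub_le _ _
    have h13 : ‖conj x.1 * v.1‖ = ‖x.1‖ * ‖v.1‖ := by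
      rw [norm_mul, RCLike.norm_conj]
    rw [h13] at h12
    have h14 := mul_le_mul_of_nonneg_left h8 (norm_nonneg x.1)
    linarith
  have hpos : 0 < ‖1 - x.2‖ := by
    have : 0 ≤ ‖x.1‖ ^ 2 := by positivity
    linarith
  rw [div_le_iff₀ hpos]
  have h15 : ‖x.1‖ * r ≤ (Y x + ‖x.1‖ ^ 2) / 2 := by
    nlinarith [sq_nonneg (‖x.1‖ - r)]
  have h16 : Y x + ‖x.1‖ * r ≤ 3 * ‖1 - x.2‖ := by
    have : 0 ≤ ‖x.1‖ ^ 2 := by positivity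
    linarith
  have h17 := mul_le_mul_of_nonneg_right h16 hs0
  nlinarith [mul_nonneg hpos.le hs0]

end Pool.Agent.KH
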