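import Pool.Agent.Lib.MP_93b649_gt.RP2
import Pool.Agent.Lib.MP_93b649_gt.RP3
import Pool.Agent.Lib.MP_93b649_gt.RP4
import Pool.Agent.Lib.MP_93b649_gt.RP7
import Pool.Agent.Lib.MP_93b649_gt.RP8
import Pool.Agent.Lib.MP_93b649_gt.RG6

/-! # ROW RP5: `RR` and `log Ya` are `4`-Lipschitz on `M`

`IsLip.congr`. For `x ∈ M` with `inDisc k x` (open condition): `V = (fun z => Ak k z + bk k) ⁻¹' MS`, `g' = pull (Ak k) (bk k) T.metric`, `f' = ` the model function composed
with `Sk k` (`IsLip.pull` of `model_lip_R`, `model_lip_log`); for `Ya`: `log (λ²(1/F - |t|²)) = log λ² + log(1/F - |t|²)` on `MS` (near `x`), an additive constant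
does not matter. Values by `vals_in`, `in_disc`. Otherwise (no disc contains `x`) near `x` the hypothesis of `out_disc`/`vals_out` holds (`outside_nhds`)
and `0 < Y`: `V = {0 < Y}`, `g' = hyp`, `f' = 1` resp. `log Y` (`lip_hyp_Y`). -/

open scoped ContDiff Topology ComplexConjugate
open Set Filter

noncomputable section

namespace Pool.Agent.KH

variable {m : ℕ} (T : Template m)

theorem rp5_open (k : ℕ) : IsOpen {x : ℂ × ℂ | inDisc k x} :=
  isOpen_lt ((continuous_fst.sub continuous_const).norm) continuous_const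

theorem rp5_in {k : ℕ} {x : ℂ × ℂ} (h : inDisc k x) : ∀ᶠ z in 𝓝 x, inDisc k z :=
  (rp5_open k).mem_nhds h

theorem rp5_contY : Continuous Y := by
  unfold Y
  exact ((continuous_const.mul (Complex.continuous_re.comp continuous_snd))).sub
    (Complex.continuous_normSq.comp continuous_fst)

theorem rp5_out {x : ℂ × ℂ} (h : ∀ k, ¬ inDisc k x) :
    ∀ᶠ z : ℂ × ℂ in 𝓝 x, ∀ k, Real.sqrt 2 * sc k ≤ ‖z.1 - (pt k : ℂ)‖ := by
  have h1 : ∀ k, 2 * sc k ≤ ‖x.1 - (pt k : ℂ)‖ := fun k => not_lt.1 (h k)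
  have h2 := (continuous_fst.tendsto x).eventually (outside_nhds h1)
  exact h2.mono fun z hz k => (hz k).le

theorem rp5_lip_const {U : Set (ℂ × ℂ)} {g : Form} {C : ℝ} (hC : 0 ≤ C) (c : ℝ) : IsLip U g C (fun _ => c) := by
  intro x _
  refine ⟨differentiableAt_const c, fun v => ?_⟩
  rw [fderiv_fun_const]
  simp only [Pi.zero_apply, zero_apply, abs_zero]
  exact mul_nonneg hC (Real.sqrt_nonneg _)

theorem rp5_lip_add {U : Set (ℂ × ℂ)} {g : Form} {C : ℝ} {f : ℂ × ℂ → ℝ} (hf : IsLip U g C f) (c : ℝ) :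
    IsLip U g C (fun z => c + f z) := by
  intro x hx
  obtain ⟨h1, h2⟩ := hf x hx
  refine ⟨h1.const_add c, fun v => ?_⟩
  rw [fderiv_const_add]
  exact h2 v

theorem lip_RR : IsLip (M T) (G T) 4 (RR T) := by
  refine IsLip.congr fun x hx => ?_
  by_cases hex : ∃ k, inDisc k x
  · obtain ⟨k, hk⟩ := hex
    refine ⟨(fun z => Ak k z + bk k) ⁻¹' T.MS, pull (Ak k) (bk k) T.metric,
      fun z => (1 + T.y (Ak k z + bk k).2.re) ^ m, (in_disc T hk).1.1 hx, (model_lip_R T).pull (Ak k) (bk k), ?_, ?_⟩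
    · exact (rp5_in hk).mono fun z hz => (vals_in T hz).2.2
    · intro v
      rw [(in_disc T hk).2.1]
  · have hn : ∀ k, ¬ inDisc k x := fun k hk => hex ⟨k, hk⟩
    have ho := rp5_out hn
    have hY : 0 < Y x := (out_disc T ho.self_of_nhds).1.1 hx
    have hY2 : ∀ᶠ z in 𝓝 x, 0 < Y z := rp5_contY.continuousAt.eventually (lt_mem_nhds hY)
    refine ⟨{z | 0 < Y z}, hyp, fun _ => 1, hY, rp5_lip_const (by norm_num) 1, ?_, ?_⟩
    · filter_upwards [ho, hY2] with z h1 h2
      exact (vals_out T h1 h2).2.2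
    · intro v
      exact (out_disc T ho.self_of_nhds).2.1 hY v v

theorem lip_Ya : IsLip (M T) (G T) 4 (fun x => Real.log (Ya T x)) := by
  refine IsLip.congr fun x hx => ?_
  by_cases hex : ∃ k, inDisc k x
  · obtain ⟨k, hk⟩ := hex
    refine ⟨(fun z => Ak k z + bk k) ⁻¹' T.MS, pull (Ak k) (bk k) T.metric,
      fun z => Real.log (sc k ^ 2) +
        Real.log (1 / T.F (Ak k z + bk k).2.re - Complex.normSq (Ak k z + bk k).1), (in_disc T hk).1.1 hx,
      rp5_lip_add ((model_lip_log T).pull (Ak k) (bk k)) _, ?_, ?_⟩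
    · have hM : ∀ᶠ z in 𝓝 x, z ∈ M T := (isOpen_M T).mem_nhds hx
      filter_upwards [rp5_in hk, hM] with z h1 h2
      have h3 : Sk k z ∈ T.MS := (in_disc T h1).1.1 h2
      have h4 := (model_t T h3).1
      rw [(vals_in T h1).2.1, Real.log_mul (pow_pos (sc_pos k) 2).ne' (sub_pos.2 h4).ne']
      rfl
    · intro v
      rw [(in_disc T hk).2.1]
  · have hn : ∀ k, ¬ inDisc k x := fun k hk => hex ⟨k, hk⟩
    have ho := rp5_out hn
    have hY : 0 < Y x := (out_disc T ho.self_of_nhds).1.1 hx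
    have hY2 : ∀ᶠ z in 𝓝 x, 0 < Y z := rp5_contY.continuousAt.eventually (lt_mem_nhds hY)
    refine ⟨{z | 0 < Y z}, hyp, fun z => Real.log (Y z), hY, lip_hyp_Y, ?_, ?_⟩
    · filter_upwards [ho, hY2] with z h1 h2
      rw [(vals_out T h1 h2).2.1]
    · intro v
      exact (out_disc T ho.self_of_nhds).2.1 hY v v

end Pool.Agent.KH
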