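import Pool.Agent.Lib.MP_93b649_gt.RP4
import Pool.Agent.Lib.MP_93b649_gt.RP5
import Pool.Agent.Lib.MP_93b649_gt.RP7
import Pool.Agent.Lib.MP_93b649_gt.RP8
import Pool.Agent.Lib.MP_93b649_gt.RG6

/-! # ROW RP9: `lW = log |1-W#|²` is `8`-Lipschitz on `M`

Pointwise at `x ∈ M`. (a) No disc contains `x`: near `x` `W# = W`, `G x v v = hyp x v v` (`outside_nhds`, `vals_out`, `out_disc`), `lip_hyp_W`.
(b) `inDisc k x`, `ℓ = (Sk k x).2.re < -1` : near `x` still, `W# = W` (`vals_exact`), `G x v v = hyp x v v` (`in_disc`, `metric_exact`, `hyp_pull`), `lip_hyp_W`.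
(c) `inDisc k x`, `ℓ ≥ -1`: then `g ≤ 1` (`T.hg`: `g` decreasing, `g(-1) = 1`). Near `x`: `W#(z) = z.2 - λ²(ℓ(z) + g(ℓ(z)))`, `ℓ(z) = (Sk k z).2.re` real-affine in `z`
(`S_snd_re`); derivative in the direction `v`, with `v' = Ak k v`, i.e. `v_z = λ v'_t`, `v_W = λ² v'_W - p λ v'_t`:
`DW#(v) = λ² v'_W - pλ v'_t - λ²(1 + g'(ℓ)) Re v'_W`, `-1 ≤ g' ≤ 0` (`T.hg`), so `‖DW#(v)‖ ≤ 2λ²|v'_W| + pλ|v'_t| ≤ (4λ² g + 2√2 p λ √g)|v| ≤ (4λ² + 3pλ)|v|`
(`model_norms` at `Sk k x`, `|v|² = T.metric (Sk k x) v' v'`), `λ ≤ 1/200`, `p ≤ ‖z‖ + 2λ ≤ ‖z‖ + 1`, `‖z‖² ≤ 4|1-W#|`, `1 ≤ |1-W#|` (`Wsharp_est`): `p ≤ 4|1-W#|`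
and `‖DW#(v)‖ ≤ |1-W#||v|`; conclude with `lip_log_aux` (`W# ≠ 1` as `Re W# ≤ 0`). -/

open scoped ContDiff Topology ComplexConjugate
open Set Filter

noncomputable section

namespace Pool.Agent.KH

variable {m : ℕ} (T : Template m)

theorem rp9_g_le {l : ℝ} (hl : -1 ≤ l) : T.g l ≤ 1 := by
  have h1 : Antitone T.g := by
    apply antitone_of_deriv_nonpos
    · intro s; exact (T.hg s).differentiableAt
    · intro s
      rw [(T.hg s).deriv]
      have : 0 < (1 + T.y s) ^ m := pow_pos (by linarith [T.y_nonneg s]) m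
      rw [neg_nonpos]; positivity
  have h2 := h1 hl
  rw [(T.neg (-1) le_rfl).1] at h2
  linarith

/-- the arm version of `W#` -/
def rp9_w (k : ℕ) (z : ℂ × ℂ) : ℂ :=
  z.2 - ((sc k ^ 2 * ((Sk k z).2.re + T.g (Sk k z).2.re) : ℝ) : ℂ)

theorem rp9_deriv (k : ℕ) (x : ℂ × ℂ) : DifferentiableAt ℝ (rp9_w T k) x ∧ ∀ v,
    fderiv ℝ (rp9_w T k) x v = v.2 - ((sc k ^ 2 * ((Ak k v).2.re
      + -(1 / (1 + T.y (Sk k x).2.re) ^ m) * (Ak k v).2.re) : ℝ) : ℂ) := by
  set LL : (ℂ × ℂ) →L[ℝ] ℝ := Complex.reCLM.comp ((ContinuousLinearMap.snd ℝ ℂ ℂ).comp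
    ((Ak k).toContinuousLinearMap.restrictScalars ℝ)) with hLL
  have h1 : HasFDerivAt (fun z : ℂ × ℂ => (Sk k z).2.re) LL x := by
    have h2 : (fun z : ℂ × ℂ => (Sk k z).2.re) = fun z => LL z + (bk k).2.re := by
      funext z
      simp [Sk, hLL]
    rw [h2]
    exact LL.hasFDerivAt.add_const _
  have h3 := (T.hg (Sk k x).2.re).comp_hasFDerivAt x h1
  have h4 := (h1.add h3).const_mul (sc k ^ 2)
  have h5 := Complex.ofRealCLM.hasFDerivAt.comp x h4
  have h6 := (hasFDerivAt_snd (𝕜 := ℝ) (E := ℂ) (F := ℂ) (p := x)).sub h5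
  refine ⟨h6.differentiableAt, fun v => ?_⟩
  have h7 : fderiv ℝ (rp9_w T k) x = _ := h6.fderiv
  rw [h7]
  simp [hLL]
  ring

theorem lip_lW : IsLip (M T) (G T) 8 (lW T) := by
  refine IsLip.congr fun x hx => ?_
  by_cases hex : ∃ k, inDisc k x
  · obtain ⟨k, hk⟩ := hex
    have hmem : Sk k x ∈ T.MS := (in_disc T hk).1.1 hx
    have hcont : Continuous (fun z : ℂ × ℂ => (Sk k z).2.re) := by
      unfold Sk
      exact Complex.continuous_re.comp (continuous_snd.comp ((Ak k).continuous.add continuous_const))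
    rcases lt_or_ge (Sk k x).2.re (-1) with hl | hl
    · -- exact zone
      have hY : 0 < Y x := by
        have h1 := (mem_exact T (Sk k x) hl.le).1 hmem
        have h2 : Y x = sc k ^ 2 * Y (Sk k x) := Y_S (pt k) (sc k) (sc_pos k).ne' x
        rw [h2]; exact mul_pos (pow_pos (sc_pos k) 2) h1
      refine ⟨{z | 0 < Y z}, hyp, fun z => Real.log (Complex.normSq (1 - z.2)), hY, lip_hyp_W, ?_, ?_⟩
      · filter_upwards [rp5_in hk, hcont.continuousAt.eventually (gt_mem_nhds hl)] with z hz1 hz2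
        unfold lW
        rw [(vals_exact T hz1 (le_of_lt hz2)).1]
      · intro v
        rw [(in_disc T hk).2.1]
        change T.metric (Sk k x) (Ak k v) (Ak k v) = _
        rw [metric_exact T (Sk k x) hl.le hmem]
        exact hyp_pull (pt k) (sc k) (sc_pos k).ne' x hY v v
    · -- the arm
      refine ⟨{x}, G T, fun z => Real.log (Complex.normSq (1 - rp9_w T k z)), rfl, ?_, ?_, fun v => rfl⟩
      · rintro z rfl
        obtain ⟨hd, hdv⟩ := rp9_deriv T k z
        have hW : rp9_w T k z = Wsharp T z := ((vals_in T hk).1).symm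
        obtain ⟨e1, -, -, -, e5, e6⟩ := Wsharp_est T hx
        have hne : rp9_w T k z ≠ 1 := by
          rw [hW]; intro h; rw [h] at e1; norm_num at e1
        obtain ⟨a1, a2⟩ := lip_log_aux hd hne
        refine ⟨a1, fun v => (a2 v).trans ?_⟩
        rw [hW, hdv]
        set B := ‖1 - Wsharp T z‖ with hB
        have hG : G T z v v = T.metric (Sk k z) (Ak k v) (Ak k v) := by rw [(in_disc T hk).2.1]; rfl
        rw [hG]
        obtain ⟨n1, n2⟩ := model_norms T hmem (Ak k v)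
        set S := Real.sqrt (T.metric (Sk k z) (Ak k v) (Ak k v)) with hS
        have hS0 : 0 ≤ S := Real.sqrt_nonneg _
        have hg1 := rp9_g_le T hl
        have hg0 := T.g_pos (Sk k z).2.re
        have hsc := sc_pos k
        have hsc2 := sc_le k
        have hpt := one_le_pt k
        have hsq : Real.sqrt (2 * T.g (Sk k z).2.re) ≤ 3 / 2 := by
          rw [show (3 : ℝ) / 2 = Real.sqrt ((3 / 2) ^ 2) by rw [Real.sqrt_sq (by norm_num)]]
          apply Real.sqrt_le_sqrt; nlinarith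
        have m2 : ‖(Ak k v).2‖ ≤ 2 * S := by nlinarith
        have m1 : ‖(Ak k v).1‖ ≤ 3 * S := by nlinarith
        have hv : v.2 = (sc k : ℂ) ^ 2 * (Ak k v).2 - pt k * sc k * (Ak k v).1 := by
          have h0 : (sc k : ℂ) ≠ 0 := by exact_mod_cast hsc.ne'
          unfold Ak
          rw [Alin_apply]
          field_simp
          ring
        set d := (1 / (1 + T.y (Sk k z).2.re) ^ m) with hd'
        have hy1 : 1 ≤ (1 + T.y (Sk k z).2.re) ^ m := one_le_pow₀ (by linarith [T.y_nonneg (Sk k z).2.re])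
        have hd0 : 0 < d := by rw [hd']; positivity
        have hd1 : d ≤ 1 := by rw [hd', div_le_one (by positivity)]; exact hy1
        have key : ‖v.2 - ((sc k ^ 2 * ((Ak k v).2.re + -d * (Ak k v).2.re) : ℝ) : ℂ)‖
            ≤ sc k ^ 2 * ‖(Ak k v).2‖ + pt k * sc k * ‖(Ak k v).1‖ + sc k ^ 2 * ‖(Ak k v).2‖ := by
          have hre := Complex.abs_re_le_norm (Ak k v).2
          have h1 : ‖((sc k ^ 2 * ((Ak k v).2.re + -d * (Ak k v).2.re) : ℝ) : ℂ)‖ ≤ sc k ^ 2 * ‖(Ak k v).2‖ := by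
            rw [Complex.norm_real, Real.norm_eq_abs, abs_mul, abs_of_pos (pow_pos hsc 2)]
            apply mul_le_mul_of_nonneg_left _ (pow_pos hsc 2).le
            rw [show (Ak k v).2.re + -d * (Ak k v).2.re = (1 - d) * (Ak k v).2.re by ring, abs_mul,
              abs_of_nonneg (by linarith : (0:ℝ) ≤ 1 - d)]
            nlinarith [abs_nonneg (Ak k v).2.re, norm_nonneg (Ak k v).2]
          have h2 : ‖v.2‖ ≤ sc k ^ 2 * ‖(Ak k v).2‖ + pt k * sc k * ‖(Ak k v).1‖ := by
            rw [hv]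
            refine (norm_sub_le _ _).trans ?_
            rw [norm_mul, norm_mul, norm_mul, norm_pow, Complex.norm_real, Complex.norm_real, Real.norm_eq_abs,
              Real.norm_eq_abs, abs_of_pos hsc, abs_of_pos (by linarith : 0 < pt k)]
          exact (norm_sub_le _ _).trans (add_le_add h2 h1)
        have hpB : pt k ≤ 3 * B := by
          have h1 : ‖z.1 - (pt k : ℂ)‖ < 2 * sc k := hk
          have h2 : pt k ≤ ‖z.1‖ + 2 * sc k := by
            have h3 : ‖(pt k : ℂ)‖ ≤ ‖z.1‖ + ‖z.1 - (pt k : ℂ)‖ := by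
              have := norm_sub_le z.1 (z.1 - (pt k : ℂ))
              simpa using this
            rw [Complex.norm_real, Real.norm_eq_abs, abs_of_pos (by linarith : 0 < pt k)] at h3
            linarith
          have h4 : ‖z.1‖ ≤ 2 * B := by
            have h5 : ‖z.1‖ ^ 2 ≤ (2 * B) ^ 2 := by nlinarith
            exact (abs_le_of_sq_le_sq' h5 (by linarith)).2
          linarith
        have hB1 : 1 ≤ B := e6
        have hfin : ‖v.2 - ((sc k ^ 2 * ((Ak k v).2.re + -d * (Ak k v).2.re) : ℝ) : ℂ)‖ ≤ B * S := by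
          refine key.trans ?_
          have h1 : sc k ^ 2 ≤ 1 / 200 := by nlinarith
          have h2 : sc k ^ 2 * ‖(Ak k v).2‖ ≤ 1 / 200 * (2 * S) :=
            mul_le_mul h1 m2 (norm_nonneg _) (by norm_num)
          have h3 : pt k * sc k ≤ 3 * B * (1 / 200) := mul_le_mul hpB hsc2 hsc.le (by linarith)
          have h4 : pt k * sc k * ‖(Ak k v).1‖ ≤ 3 * B * (1 / 200) * (3 * S) :=
            mul_le_mul h3 m1 (norm_nonneg _) (by positivity)
          nlinarith
        rw [div_le_iff₀ (by linarith)]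
        nlinarith
      · filter_upwards [rp5_in hk] with z hz
        unfold lW
        rw [(vals_in T hz).1]
        rfl
  · have hn : ∀ k, ¬ inDisc k x := fun k hk => hex ⟨k, hk⟩
    have ho := rp5_out hn
    have hY : 0 < Y x := (out_disc T ho.self_of_nhds).1.1 hx
    have hY2 : ∀ᶠ z in 𝓝 x, 0 < Y z := rp5_contY.continuousAt.eventually (lt_mem_nhds hY)
    refine ⟨{z | 0 < Y z}, hyp, fun z => Real.log (Complex.normSq (1 - z.2)), hY, lip_hyp_W, ?_, ?_⟩
    · filter_upwards [ho, hY2] with z h1 h2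
      unfold lW
      rw [(vals_out T h1 h2).1]
    · intro v
      exact (out_disc T ho.self_of_nhds).2.1 hY v v

end Pool.Agent.KH
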