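import Pool.Agent.Lib.MP_93b649_gt.RP5
import Pool.Agent.Lib.MP_93b649_gt.RP9
import Pool.Agent.Lib.MP_93b649_gt.RP10
import Pool.Agent.Lib.MP_93b649_gt.RP11
import Pool.Agent.Lib.MP_93b649_gt.RD6

/-! # completeness (no sorry here) -/

open scoped ContDiff Topology ComplexConjugate
open Set Filter

noncomputable section

namespace Pool.Agent.KH

variable {m : ℕ} (T : Template m)

/-- completeness -/
theorem complete_M : IsCompleteMetric (M T) (G T) := by
  refine complete_of_proper (isMetric_M T) (isJoined_M T) (C := 12) (by norm_num)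
    (f := fun x => lW T x - Real.log (Ya T x)) ?_ (proper_F T)
  intro x hx
  obtain ⟨h1, h2⟩ := lip_lW T x hx
  obtain ⟨h3, h4⟩ := lip_Ya T x hx
  refine ⟨h1.sub h3, fun v => ?_⟩
  have h5 : fderiv ℝ (fun x => lW T x - Real.log (Ya T x)) x
      = fderiv ℝ (lW T) x - fderiv ℝ (fun x => Real.log (Ya T x)) x := fderiv_fun_sub h1 h3
  rw [h5]
  have h6 := h2 v
  have h7 := h4 v
  have h8 : |(fderiv ℝ (lW T) x - fderiv ℝ (fun x => Real.log (Ya T x)) x) v|
      ≤ |fderiv ℝ (lW T) x v| + |fderiv ℝ (fun x => Real.log (Ya T x)) x v| := abs_sub _ _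
  nlinarith [Real.sqrt_nonneg (G T x v v)]

end Pool.Agent.KH
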