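import Pool.Agent.Lib.MP_93b649_gt.Defs

/-! # Definitions: connections, affine pull-backs (no sorry) -/

open scoped ContDiff Topology
open Set

noncomputable section

namespace Pool.Agent.KH

/-- fields of real bilinear forms on `ℂ²` -/
abbrev Form := ℂ × ℂ → ℂ × ℂ → ℂ × ℂ → ℝ

/-- fields of bilinear maps `ℂ² × ℂ² → ℂ²` -/
abbrev Conn := ℂ × ℂ → ℂ × ℂ → ℂ × ℂ → ℂ × ℂ

/-- `g` is, at the points of the open set `U`, symmetric, bilinear, positive definite, and `Γ` is a symmetric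
connection compatible with `g` on `U`. -/
structure IsConn (U : Set (ℂ × ℂ)) (g : Form) (Γ : Conn) : Prop where
  isOpen : IsOpen U
  add : ∀ x ∈ U, ∀ u v w, g x (u + v) w = g x u w + g x v w
  smul : ∀ x ∈ U, ∀ (r : ℝ) (u v), g x (r • u) v = r * g x u v
  symm : ∀ x ∈ U, ∀ u v, g x u v = g x v u
  pos : ∀ x ∈ U, ∀ v, v ≠ 0 → 0 < g x v v
  gsymm : ∀ x ∈ U, ∀ u v, Γ x u v = Γ x v u
  gadd : ∀ x ∈ U, ∀ u v w, Γ x (u + v) w = Γ x u w + Γ x v w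
  gsmul : ∀ x ∈ U, ∀ (r : ℝ) (u v), Γ x (r • u) v = r • Γ x u v
  gdiff : ∀ x ∈ U, ∀ u v, DifferentiableAt ℝ (fun y => Γ y u v) x
  diff : ∀ x ∈ U, ∀ u v, DifferentiableAt ℝ (fun y => g y u v) x
  compat : ∀ x ∈ U, ∀ w u v, fderiv ℝ (fun y => g y u v) x w = g x (Γ x w u) v + g x u (Γ x w v)

/-- pull-back of a field of forms under the affine map `x ↦ A x + b` -/
def pull (A : (ℂ × ℂ) ≃L[ℂ] (ℂ × ℂ)) (b : ℂ × ℂ) (g : Form) : Form := fun x u v => g (A x + b) (A u) (A v)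

/-- pull-back of a connection -/
def pullC (A : (ℂ × ℂ) ≃L[ℂ] (ℂ × ℂ)) (b : ℂ × ℂ) (Γ : Conn) : Conn :=
  fun x u v => A.symm (Γ (A x + b) (A u) (A v))

end Pool.Agent.KH
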