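import Pool.Agent.Lib.MP_93b649_gt.BTemp

/-! # The manifold `M`: definitions (no sorry) -/

open scoped ContDiff Topology ComplexConjugate
open Set Filter

noncomputable section

namespace Pool.Agent.KH

/-- the points `p_k = (k+1)^{1/3}` -/
def pt (k : ℕ) : ℝ := ((k : ℝ) + 1) ^ ((1 : ℝ) / 3)

/-- the scales `λ_k = 1/(100(k+2))` -/
def sc (k : ℕ) : ℝ := 1 / (100 * ((k : ℝ) + 2))

theorem sc_pos (k : ℕ) : 0 < sc k := by unfold sc; positivity

/-- the disc `|z - p_k| < 2 λ_k` as a condition on `x = (z,W)` -/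
def inDisc (k : ℕ) (x : ℂ × ℂ) : Prop := ‖x.1 - (pt k : ℂ)‖ < 2 * sc k

/-- `Y = -2 Re W - |z|²` -/
def Y (x : ℂ × ℂ) : ℝ := -2 * x.2.re - Complex.normSq x.1

/-- the linear part `(u_z, u_W) ↦ (u_z/λ, (u_W + p u_z)/λ²)` of the affine maps -/
def Alin (p l : ℝ) (hl : l ≠ 0) : (ℂ × ℂ) ≃L[ℂ] (ℂ × ℂ) :=
  LinearEquiv.toContinuousLinearEquiv
    { toFun := fun u => (u.1 / l, (u.2 + p * u.1) / l ^ 2)
      invFun := fun u => (l * u.1, l ^ 2 * u.2 - p * l * u.1)
      map_add' := by intro u v; ext <;> simp <;> ring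
      map_smul' := by intro r u; ext <;> simp <;> ring
      left_inv := by
        intro u
        have : (l : ℂ) ≠ 0 := by exact_mod_cast hl
        ext <;> simp <;> field_simp; ring
      right_inv := by
        intro u
        have : (l : ℂ) ≠ 0 := by exact_mod_cast hl
        ext <;> simp <;> field_simp; ring }

theorem Alin_apply (p l : ℝ) (hl : l ≠ 0) (u : ℂ × ℂ) : Alin p l hl u = (u.1 / l, (u.2 + p * u.1) / l ^ 2) := rfl

/-- the translation part -/
def btr (p l : ℝ) : ℂ × ℂ := (-(p : ℂ) / l, -((p : ℂ) ^ 2 / 2) / l ^ 2)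

/-- the linear part of `S_k` -/
def Ak (k : ℕ) : (ℂ × ℂ) ≃L[ℂ] (ℂ × ℂ) := Alin (pt k) (sc k) (sc_pos k).ne'

/-- the translation part of `S_k` -/
def bk (k : ℕ) : ℂ × ℂ := btr (pt k) (sc k)

/-- `S_k(z,W) = ((z-p_k)/λ_k, (W + p_k z - p_k²/2)/λ_k²)` -/
def Sk (k : ℕ) (x : ℂ × ℂ) : ℂ × ℂ := Ak k x + bk k

/-- the metric of the Siegel domain: `u_z conj v_z / Y + (u_W + conj z u_z) conj(v_W + conj z v_z)/Y²` -/
def hyp : Form := fun x u v => (u.1 * conj v.1 / Y x + (u.2 + conj x.1 * u.1) * conj (v.2 + conj x.1 * v.1) / Y x ^ 2).re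

variable {m : ℕ} (T : Template m)

/-- the manifold -/
def M : Set (ℂ × ℂ) :=
  {x | (∃ k, inDisc k x ∧ Sk k x ∈ T.MS) ∨ ((∀ k, ¬ inDisc k x) ∧ 0 < Y x)}

open Classical in
/-- the metric of the manifold -/
def G : Form := fun x => if h : ∃ k, inDisc k x then pull (Ak h.choose) (bk h.choose) T.metric x else hyp x

open Classical in
/-- `ℓ = Re W'` on the arms, `-2` elsewhere -/
def lev (x : ℂ × ℂ) : ℝ := if h : ∃ k, inDisc k x then (Sk h.choose x).2.re else -2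

/-- the function `h` of the curvature bound -/
def HH (x : ℂ × ℂ) : ℝ := 1 / (1 + T.y (lev x)) ^ (m + 1)

end Pool.Agent.KH
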