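import Pool.Agent.Lib.MP_93b649_gt.Defs

/-! # Function theory: hypotheses (no sorry) -/

open scoped Topology
open Set Filter

noncomputable section

namespace Pool.Agent.KH

/-- the properties of `M` used for the function theory -/
structure HoloHyp (M : Set (ℂ × ℂ)) (p : ℕ → ℝ) : Prop where
  isOpen : IsOpen M
  line : ∀ k, ∀ W : ℂ, ((p k : ℂ), W) ∈ M
  big : ∀ x : ℂ × ℂ, 1 / 2 < -2 * x.2.re - Complex.normSq x.1 → x ∈ M
  down : ∀ z W W' : ℂ, (z, W) ∈ M → W'.re ≤ W.re → (z, W') ∈ M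
  inj : Function.Injective p
  count : ∀ (R : ℝ), 0 ≤ R → ∀ k : ℕ, (k : ℝ) + 1 ≤ R ^ 3 → 0 ≤ p k ∧ p k ≤ R

end Pool.Agent.KH
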