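import Pool.Agent.Lib.MP_93b649_gt.BConn

/-! # The Calabi metrics over the `W`-plane: definitions (no sorry) -/

open scoped ContDiff Topology ComplexConjugate
open Set

noncomputable section

namespace Pool.Agent.KH

/-- Data of a Calabi metric: real functions of `ℓ = Re W` with `e' = 2 L`, `F' = 2 e F`; `P1, P2`, `L1, L2` are the first and
second derivatives of `P`, `L`. -/
structure CData where
  P : ℝ → ℝ
  P1 : ℝ → ℝ
  P2 : ℝ → ℝ
  L : ℝ → ℝ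
  L1 : ℝ → ℝ
  L2 : ℝ → ℝ
  e : ℝ → ℝ
  F : ℝ → ℝ
  P_pos : ∀ l, 0 < P l
  L_pos : ∀ l, 0 < L l
  F_pos : ∀ l, 0 < F l
  hP : ∀ l, HasDerivAt P (P1 l) l
  hP1 : ∀ l, HasDerivAt P1 (P2 l) l
  hL : ∀ l, HasDerivAt L (L1 l) l
  hL1 : ∀ l, HasDerivAt L1 (L2 l) l
  he : ∀ l, HasDerivAt e (2 * L l) l
  hF : ∀ l, HasDerivAt F (2 * e l * F l) l
  sP : ContDiff ℝ ∞ P
  sL : ContDiff ℝ ∞ L
  se : ContDiff ℝ ∞ e
  sF : ContDiff ℝ ∞ F

namespace CData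

variable (D : CData)

/-- `N = |t|² F(Re W)` for `x = (t, W)` -/
def N (x : ℂ × ℂ) : ℝ := Complex.normSq x.1 * D.F x.2.re

/-- the model domain -/
def MS : Set (ℂ × ℂ) := {x | D.N x < 1}

/-- `X = N/(1-N)` -/
def X (x : ℂ × ℂ) : ℝ := D.N x / (1 - D.N x)

/-- horizontal coefficient `P + X L` -/
def GH (x : ℂ × ℂ) : ℝ := D.P x.2.re + D.X x * D.L x.2.re

/-- vertical coefficient `F (1+X)^2` -/
def GV (x : ℂ × ℂ) : ℝ := D.F x.2.re * (1 + D.X x) ^ 2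

/-- the vertical component `u_t + e t u_W` of `u = (u_t, u_W)` -/
def c2 (x u : ℂ × ℂ) : ℂ := u.1 + D.e x.2.re * x.1 * u.2

/-- the Hermitian form -/
def hm (x u v : ℂ × ℂ) : ℂ := D.GH x * u.2 * conj v.2 + D.GV x * D.c2 x u * conj (D.c2 x v)

/-- the metric -/
def metric (x u v : ℂ × ℂ) : ℝ := (D.hm x u v).re

/-- `k = (P' + X L')/(2 G_H)` -/
def k (x : ℂ × ℂ) : ℝ := (D.P1 x.2.re + D.X x * D.L1 x.2.re) / (2 * D.GH x)

/-- `q = conj t G_V L / G_H` -/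
def q (x : ℂ × ℂ) : ℂ := conj x.1 * D.GV x * D.L x.2.re / D.GH x

/-- `W`-component of the connection -/
def ΓW (x a c : ℂ × ℂ) : ℂ := D.k x * a.2 * c.2 + D.q x * (a.2 * D.c2 x c + D.c2 x a * c.2)

/-- vertical component of the connection -/
def ΓV (x a c : ℂ × ℂ) : ℂ := (D.L x.2.re - D.e x.2.re ^ 2) * x.1 * a.2 * c.2
  + D.e x.2.re * (a.2 * D.c2 x c + D.c2 x a * c.2)
  + 2 * conj x.1 * D.F x.2.re * (1 + D.X x) * D.c2 x a * D.c2 x c

/-- the connection -/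
def Γ (x a c : ℂ × ℂ) : ℂ × ℂ := (D.ΓV x a c - D.e x.2.re * x.1 * D.ΓW x a c, D.ΓW x a c)

/-- `½ L' - k L` -/
def m (x : ℂ × ℂ) : ℝ := D.L1 x.2.re / 2 - D.k x * D.L x.2.re

/-- the `x`-frozen second logarithmic derivative of `P + X L` -/
def lg (x : ℂ × ℂ) : ℝ := ((D.P2 x.2.re + D.X x * D.L2 x.2.re) / D.GH x
  - ((D.P1 x.2.re + D.X x * D.L1 x.2.re) / D.GH x) ^ 2) / 4

/-- `W`-component of `∂̄_b Γ(a,c)` -/
def ZW (x b a c : ℂ × ℂ) : ℂ :=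
  (D.lg x + 2 * D.X x * (1 + D.X x) * D.L x.2.re ^ 2 / D.GH x) * conj b.2 * (a.2 * c.2)
  + D.m x / D.GH x * x.1 * D.GV x * conj (D.c2 x b) * (a.2 * c.2)
  + D.GV x * (((1 + 2 * D.X x) * D.L x.2.re / D.GH x
      - D.X x * (1 + D.X x) * D.L x.2.re ^ 2 / D.GH x ^ 2) * conj (D.c2 x b)
    + conj x.1 * D.m x / D.GH x * conj b.2) * (a.2 * D.c2 x c + D.c2 x a * c.2)

/-- vertical component of `∂̄_b Γ(a,c)` -/
def ZV (x b a c : ℂ × ℂ) : ℂ :=
  D.m x * x.1 * conj b.2 * (a.2 * c.2)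
  + D.L x.2.re * (1 + 2 * D.X x - D.X x * (1 + D.X x) * D.L x.2.re / D.GH x) * conj b.2
    * (a.2 * D.c2 x c + D.c2 x a * c.2)
  + 2 * D.GV x * conj (D.c2 x b) * (D.c2 x a * D.c2 x c)

/-- `∂̄_b Γ(a,c)` -/
def Z (x b a c : ℂ × ℂ) : ℂ × ℂ := (D.ZV x b a c - D.e x.2.re * x.1 * D.ZW x b a c, D.ZW x b a c)

/-- `∂_b (e t) = e b_2 + (L - e²) t b_W` -/
def et1 (x b : ℂ × ℂ) : ℂ := D.e x.2.re * D.c2 x b + (D.L x.2.re - D.e x.2.re ^ 2) * x.1 * b.2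

/-- `∂_b k` -/
def k1 (x b : ℂ × ℂ) : ℂ := ((D.P2 x.2.re + D.X x * D.L2 x.2.re) / 2 * b.2
    + D.L1 x.2.re * (1 + D.X x) ^ 2 * conj x.1 * D.F x.2.re * D.c2 x b) / (2 * D.GH x)
  - D.k x * (D.k x * b.2 + D.q x * D.c2 x b)

/-- `∂_b q` -/
def q1 (x b : ℂ × ℂ) : ℂ := D.q x * (D.e x.2.re * b.2 + 2 * (1 + D.X x) * conj x.1 * D.F x.2.re * D.c2 x b
    - D.k x * b.2 - D.q x * D.c2 x b) + conj x.1 * D.GV x * D.L1 x.2.re / (2 * D.GH x) * b.2

/-- `W`-component of `∂_b Γ(a,c)` -/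
def HW (x b a c : ℂ × ℂ) : ℂ := D.k1 x b * a.2 * c.2 + D.q1 x b * (a.2 * D.c2 x c + D.c2 x a * c.2)
  + 2 * D.q x * D.et1 x b * a.2 * c.2

/-- `∂_b Γ^V(a,c)` -/
def HV (x b a c : ℂ × ℂ) : ℂ := (D.L1 x.2.re / 2 - 2 * D.e x.2.re * D.L x.2.re) * b.2 * x.1 * a.2 * c.2
  + (D.L x.2.re - D.e x.2.re ^ 2) * b.1 * a.2 * c.2
  + D.L x.2.re * b.2 * (a.2 * D.c2 x c + D.c2 x a * c.2)
  + 2 * D.e x.2.re * D.et1 x b * a.2 * c.2
  + 2 * (conj x.1 * D.e x.2.re * D.F x.2.re * b.2 * (1 + D.X x)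
    + (conj x.1 * D.F x.2.re * (1 + D.X x)) ^ 2 * D.c2 x b) * D.c2 x a * D.c2 x c
  + 2 * conj x.1 * D.F x.2.re * (1 + D.X x) * D.et1 x b * (a.2 * D.c2 x c + D.c2 x a * c.2)

/-- `∂_b Γ(a,c)` (the complex linear part of the derivative of the connection) -/
def H (x b a c : ℂ × ℂ) : ℂ × ℂ :=
  (D.HV x b a c - D.et1 x b * D.ΓW x a c - D.e x.2.re * x.1 * D.HW x b a c, D.HW x b a c)

/-! ### algebraic coefficients of the curvature -/

/-- `α = T(H,H;H,H)` -/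
def α (x : ℂ × ℂ) : ℝ := D.GH x * D.lg x + 2 * D.X x * (1 + D.X x) * D.L x.2.re ^ 2

/-- `β = T(H,V;H,V)` -/
def β (x : ℂ × ℂ) : ℝ := D.GV x * D.L x.2.re * (1 + 2 * D.X x - D.X x * (1 + D.X x) * D.L x.2.re / D.GH x)

/-- `γ = T(V,V;V,V)` -/
def γ (x : ℂ × ℂ) : ℝ := 2 * D.GV x ^ 2

/-- `σ = T(H,H;H,V)` -/
def σ (x : ℂ × ℂ) : ℂ := D.GV x * x.1 * D.m x

/-- `-2 g(R(u,v)v,u)` in terms of the components `a = u_W`, `a' = u_2`, `b = v_W`, `b' = v_2` -/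
def Q (α β γ : ℝ) (σ a a' b b' : ℂ) : ℝ :=
  α * (2 * (a * conj b).im) ^ 2 + γ * (2 * (a' * conj b').im) ^ 2
    + 2 * β * (2 * (a * conj b).im) * (2 * (a' * conj b').im)
    + 2 * β * Complex.normSq (a * conj b' - b * conj a')
    + 4 * (2 * (a * conj b).im) * (σ * (a * conj b' - b * conj a')).im

/-- curvature conditions: `L ≤ P`, `λ ≥ 0`, `κ > (h² + h e_h)/2` -/
structure Good : Prop where
  le : ∀ l, D.L l ≤ D.P l
  lam : ∀ l, 0 ≤ D.L2 l / D.L l - (D.L1 l / D.L l) ^ 2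
  kap : ∀ l, (D.L l / D.P l) ^ 2 / 2
    + D.L l / D.P l * ((D.L1 l / D.L l - D.P1 l / D.P l) ^ 2 / (4 * D.P l)) / 2
    < (D.P2 l / D.P l - (D.P1 l / D.P l) ^ 2) / (4 * D.P l)

end CData

/-! ### a small derivative calculus: `HasD f x f'`: `f : ℂ² → ℂ` is real differentiable at `x`, with derivative `b ↦ f' b` -/

/-- `f` is real differentiable at `x` and its derivative in the direction `b` is `f' b` -/
structure HasD (f : ℂ × ℂ → ℂ) (x : ℂ × ℂ) (f' : ℂ × ℂ → ℂ) : Prop where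
  diff : DifferentiableAt ℝ f x
  eq : ∀ b, fderiv ℝ f x b = f' b

namespace HasD

variable {f g : ℂ × ℂ → ℂ} {x : ℂ × ℂ} {f' g' : ℂ × ℂ → ℂ}

theorem congr' (h : HasD f x f') (h' : ∀ b, f' b = g' b) : HasD f x g' := ⟨h.diff, fun b => (h.eq b).trans (h' b)⟩

theorem congr_fun (h : HasD f x f') (h' : ∀ y, g y = f y) : HasD g x f' := by
  have : g = f := funext h'
  rw [this]; exact h

theorem const (c : ℂ) : HasD (fun _ => c) x (fun _ => 0) := ⟨differentiableAt_const c, fun b => by simp⟩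

theorem add (hf : HasD f x f') (hg : HasD g x g') : HasD (fun y => f y + g y) x (fun b => f' b + g' b) :=
  ⟨hf.diff.add hg.diff, fun b => by
    rw [fderiv_fun_add hf.diff hg.diff]; simp [hf.eq, hg.eq]⟩

theorem sub (hf : HasD f x f') (hg : HasD g x g') : HasD (fun y => f y - g y) x (fun b => f' b - g' b) :=
  ⟨hf.diff.sub hg.diff, fun b => by
    rw [fderiv_fun_sub hf.diff hg.diff]; simp [hf.eq, hg.eq]⟩

theorem neg (hf : HasD f x f') : HasD (fun y => - f y) x (fun b => - f' b) :=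
  ⟨hf.diff.neg, fun b => by
    rw [fderiv_fun_neg]; simp [hf.eq]⟩

theorem mul (hf : HasD f x f') (hg : HasD g x g') :
    HasD (fun y => f y * g y) x (fun b => f' b * g x + f x * g' b) :=
  ⟨hf.diff.mul hg.diff, fun b => by
    rw [fderiv_fun_mul hf.diff hg.diff]; simp [hf.eq, hg.eq]; ring⟩

theorem inv (hf : HasD f x f') (h0 : f x ≠ 0) : HasD (fun y => (f y)⁻¹) x (fun b => - f' b / f x ^ 2) :=
  ⟨hf.diff.inv h0, fun b => by
    have h1 : HasDerivAt (fun z : ℂ => z⁻¹) (-(f x ^ 2)⁻¹) (f x) := hasDerivAt_inv h0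
    have h2 := h1.comp_hasFDerivAt_of_eq (𝕜 := ℝ) (𝕜' := ℂ) x hf.diff.hasFDerivAt rfl
    rw [show (fun y => (f y)⁻¹) = (fun z : ℂ => z⁻¹) ∘ f from rfl, h2.fderiv]
    simp [hf.eq]; field_simp⟩

theorem div (hf : HasD f x f') (hg : HasD g x g') (h0 : g x ≠ 0) :
    HasD (fun y => f y / g y) x (fun b => (f' b * g x - f x * g' b) / g x ^ 2) :=
  ((hf.mul (hg.inv h0)).congr' fun b => by field_simp; ring).congr_fun fun y => by rw [div_eq_mul_inv]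

theorem fst : HasD (fun y => y.1) x (fun b => b.1) :=
  ⟨differentiableAt_fst, fun b => by rw [fderiv_fst]; simp⟩

theorem snd : HasD (fun y => y.2) x (fun b => b.2) :=
  ⟨differentiableAt_snd, fun b => by rw [fderiv_snd]; simp⟩

theorem conjD (hf : HasD f x f') : HasD (fun y => (starRingEnd ℂ) (f y)) x (fun b => (starRingEnd ℂ) (f' b)) := by
  have h := (Complex.conjCLE.toContinuousLinearMap.hasFDerivAt (x := f x)).comp x hf.diff.hasFDerivAt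
  refine ⟨h.differentiableAt, fun b => ?_⟩
  have h' : fderiv ℝ (fun y => (starRingEnd ℂ) (f y)) x
      = Complex.conjCLE.toContinuousLinearMap.comp (fderiv ℝ f x) := h.fderiv
  rw [h']
  simp [hf.eq]

/-- real functions of `Re W` -/
theorem real {φ : ℝ → ℝ} {d : ℝ} (h : HasDerivAt φ d x.2.re) :
    HasD (fun y => ((φ y.2.re : ℝ) : ℂ)) x (fun b => (d : ℂ) * ((b.2.re : ℝ) : ℂ)) := by
  have h1 : HasFDerivAt (fun y : ℂ × ℂ => y.2.re) (Complex.reCLM.comp (ContinuousLinearMap.snd ℝ ℂ ℂ)) x :=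
    Complex.reCLM.hasFDerivAt.comp x (hasFDerivAt_snd)
  have h2 := h.comp_hasFDerivAt x h1
  have h3 := (Complex.ofRealCLM.hasFDerivAt).comp x h2
  refine ⟨h3.differentiableAt, fun b => ?_⟩
  have h' : fderiv ℝ (fun y : ℂ × ℂ => ((φ y.2.re : ℝ) : ℂ)) x = _ := h3.fderiv
  rw [h']
  simp

/-- from a complex valued statement to a real function -/
theorem of_real {φ : ℂ × ℂ → ℝ} {d : ℂ × ℂ → ℝ} (h : HasD (fun y => ((φ y : ℝ) : ℂ)) x (fun b => ((d b : ℝ) : ℂ))) :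
    DifferentiableAt ℝ φ x ∧ ∀ b, fderiv ℝ φ x b = d b := by
  have h1 := (Complex.reCLM.hasFDerivAt (x := ((φ x : ℝ) : ℂ))).comp x h.diff.hasFDerivAt
  have h2 : HasFDerivAt φ (Complex.reCLM.comp (fderiv ℝ (fun y => ((φ y : ℝ) : ℂ)) x)) x := by
    refine h1.congr_of_eventuallyEq (Filter.Eventually.of_forall fun y => ?_)
    simp
  refine ⟨h2.differentiableAt, fun b => ?_⟩
  rw [h2.fderiv]
  simp [h.eq]

/-- the real part -/
theorem re (h : HasD f x f') : DifferentiableAt ℝ (fun y => (f y).re) x ∧ ∀ b, fderiv ℝ (fun y => (f y).re) x b = (f' b).re := by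
  have h1 := (Complex.reCLM.hasFDerivAt (x := f x)).comp x h.diff.hasFDerivAt
  refine ⟨h1.differentiableAt, fun b => ?_⟩
  have h' : fderiv ℝ (fun y => (f y).re) x = _ := h1.fderiv
  rw [h']
  simp [h.eq]

/-- pairs -/
theorem prod (hf : HasD f x f') (hg : HasD g x g') :
    DifferentiableAt ℝ (fun y => (f y, g y)) x ∧ ∀ b, fderiv ℝ (fun y => (f y, g y)) x b = (f' b, g' b) := by
  have h := hf.diff.hasFDerivAt.prodMk hg.diff.hasFDerivAt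
  refine ⟨h.differentiableAt, fun b => ?_⟩
  rw [h.fderiv]
  simp [hf.eq, hg.eq]

end HasD

end Pool.Agent.KH
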