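import Pool.Agent.Lib.MP_93b649_gt.RM4a

/-! # ROW RM4: derivative of the connection

Calculus `HasD`; facts `hasD_k`, `hasD_q`, `hasD_c2`, `hasD_X`, `rel`, `basic`. `c = c2 x b`, `t = x.1`, `a_1 = a.2`, `a_2 = c2 x a`,
`c_1`, `c_2` similarly for the vector `c`. Derivative of `c2 y a` is `(et1 x b + L t conj b_W) a_1`.
* `ΓW = k a_1c_1 + q (a_1c_2 + a_2c_1)`: derivative `(k1 + conj k1) a_1c_1 + (q1 + q2)(a_1c_2+a_2c_1) + 2 q (et1 + L t conj b_W) a_1c_1`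
  `= HW x b a c + ZW x b a c`: the conjugate part is `conj(k1) a_1c_1 + 2 q L t conj b_W a_1c_1 + q2 (a_1c_2+a_2c_1)` with
  `conj k1 = (lg) conj b_W + m t G_V/G conj c` [`lg = (P2+X L2)/(4G) - k²`, `G_V = F(1+X)²`, `conj q = t G_V L/G`] and
  `q t = X(1+X) L/G` (by `rel`).
* `conj y.1 F(y) (1+X(y))`: derivative `conj b_t F (1+X) + conj t 2 e F Re b_W (1+X) + conj t F X'(b)`
  `= [conj t e F b_W (1+X) + (conj t F (1+X))² c] + G_V conj c` (by `rel`).
* `ΓV = (L-e²) t a_1c_1 + e (a_1c_2+a_2c_1) + 2 conj t F (1+X) a_2c_2`: derivative `= HV x b a c + (V-part)`, V-part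
  `= (L1/2 - 2eL) conj b_W t a_1c_1 + L conj b_W (a_1c_2+a_2c_1) + 2 e L t conj b_W a_1c_1 + 2 G_V conj c a_2c_2
     + 2 X L conj b_W (a_1c_2+a_2c_1)`, which equals `ZV x b a c + L t conj b_W ΓW x a c` [use `q t = X(1+X)L/G`].
* first component of `Γ`: `ΓV - e t ΓW`, derivative `ΓV' - (et1 + L t conj b_W) ΓW - e t ΓW'` `= (H x b a c + Z x b a c).1`.
  Use `HasD.prod` at the end. The formulas were checked numerically. -/

open scoped ContDiff Topology ComplexConjugate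
open Set

noncomputable section

namespace Pool.Agent.KH

namespace CData

variable (D : CData)

/-- real part as a complex number -/
theorem rm4_re (z : ℂ) : ((z.re : ℝ) : ℂ) = (z + conj z) / 2 := by
  rw [Complex.add_conj, Complex.ofReal_mul, Complex.ofReal_ofNat]; ring

/-- `q t = X (1 + X) L / G` -/
theorem rm4_qt {x : ℂ × ℂ} (hx : x ∈ D.MS) :
    D.q x * x.1 = (D.X x : ℂ) * (1 + (D.X x : ℂ)) * (D.L x.2.re : ℂ) / (D.GH x : ℂ) := by
  have hr := D.rel hx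
  have hV : (D.GV x : ℂ) = (D.F x.2.re : ℂ) * (1 + (D.X x : ℂ)) ^ 2 := by
    simp only [GV, Complex.ofReal_mul, Complex.ofReal_pow, Complex.ofReal_add, Complex.ofReal_one]
  simp only [q]
  rw [hV]
  linear_combination ((1 + (D.X x : ℂ)) * (D.L x.2.re : ℂ) / (D.GH x : ℂ)) * hr

/-- `conj k1` -/
theorem rm4_k1 {x : ℂ × ℂ} (hx : x ∈ D.MS) (b : ℂ × ℂ) :
    conj (D.k1 x b) = (D.lg x : ℂ) * conj b.2 + D.m x / D.GH x * x.1 * D.GV x * conj (D.c2 x b) := by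
  have hG : (D.GH x : ℂ) ≠ 0 := by exact_mod_cast (D.basic hx).2.1.ne'
  have hV : (D.GV x : ℂ) = (D.F x.2.re : ℂ) * (1 + (D.X x : ℂ)) ^ 2 := by
    simp only [GV, Complex.ofReal_mul, Complex.ofReal_pow, Complex.ofReal_add, Complex.ofReal_one]
  have hm : (D.m x : ℂ) = (D.L1 x.2.re : ℂ) / 2 - (D.k x : ℂ) * (D.L x.2.re : ℂ) := by
    simp only [m, Complex.ofReal_mul, Complex.ofReal_sub, Complex.ofReal_div, Complex.ofReal_ofNat]
  have hk : (D.k x : ℂ) = ((D.P1 x.2.re : ℂ) + (D.X x : ℂ) * (D.L1 x.2.re : ℂ)) / (2 * (D.GH x : ℂ)) := by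
    simp only [k, Complex.ofReal_mul, Complex.ofReal_add, Complex.ofReal_div, Complex.ofReal_ofNat]
  have hl : (D.lg x : ℂ) = (((D.P2 x.2.re : ℂ) + (D.X x : ℂ) * (D.L2 x.2.re : ℂ)) / (D.GH x : ℂ)
      - (((D.P1 x.2.re : ℂ) + (D.X x : ℂ) * (D.L1 x.2.re : ℂ)) / (D.GH x : ℂ)) ^ 2) / 4 := by
    simp only [lg, Complex.ofReal_mul, Complex.ofReal_add, Complex.ofReal_div, Complex.ofReal_ofNat,
      Complex.ofReal_sub, Complex.ofReal_pow]
  have hq : conj (D.q x) = x.1 * (D.GV x : ℂ) * (D.L x.2.re : ℂ) / (D.GH x : ℂ) := by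
    simp only [q, map_mul, map_div₀, Complex.conj_conj, Complex.conj_ofReal]
  simp only [k1, map_sub, map_mul, map_div₀, map_add, map_pow, Complex.conj_ofReal, Complex.conj_conj,
    map_ofNat, map_one]
  rw [hq, hl, hm, hk, hV]
  field_simp
  ring

/-- the derivative of `ΓW` -/
theorem rm4_W {x : ℂ × ℂ} (hx : x ∈ D.MS) (a c : ℂ × ℂ) :
    HasD (fun y => D.ΓW y a c) x (fun b => D.HW x b a c + D.ZW x b a c) := by
  have h1 := ((D.hasD_k hx).mul (HasD.const a.2)).mul (HasD.const c.2)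
  have h2 := (D.hasD_q hx).mul (((HasD.const a.2).mul (D.hasD_c2 x c)).add
    ((D.hasD_c2 x a).mul (HasD.const c.2)))
  refine (h1.add h2).congr' fun b => ?_
  have e1 := D.rm4_k1 hx b
  have e2 := D.rm4_qt hx
  simp only [HW, ZW, q2, et1] at *
  linear_combination a.2 * c.2 * e1 + 2 * (D.L x.2.re : ℂ) * conj b.2 * a.2 * c.2 * e2

/-- the derivative of `e t` -/
theorem rm4_et (x : ℂ × ℂ) : HasD (fun y => (D.e y.2.re : ℂ) * y.1) x
    (fun b => D.et1 x b + (D.L x.2.re : ℂ) * x.1 * conj b.2) := by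
  refine ((HasD.real (D.he x.2.re)).mul HasD.fst).congr' fun b => ?_
  rw [rm4_re]
  simp only [et1, c2, Complex.ofReal_mul, Complex.ofReal_ofNat]
  ring

/-- the derivative of `conj t F (1 + X)` -/
theorem rm4_F {x : ℂ × ℂ} (hx : x ∈ D.MS) :
    HasD (fun y => conj y.1 * (D.F y.2.re : ℂ) * (1 + (D.X y : ℂ))) x
    (fun b => conj x.1 * D.e x.2.re * D.F x.2.re * b.2 * (1 + D.X x)
      + (conj x.1 * D.F x.2.re * (1 + D.X x)) ^ 2 * D.c2 x b + D.GV x * conj (D.c2 x b)) := by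
  refine (((HasD.fst.conjD).mul (HasD.real (D.hF x.2.re))).mul
    ((HasD.const 1).add (D.hasD_X hx))).congr' fun b => ?_
  have hr := D.rel hx
  have hV : (D.GV x : ℂ) = (D.F x.2.re : ℂ) * (1 + (D.X x : ℂ)) ^ 2 := by
    simp only [GV, Complex.ofReal_mul, Complex.ofReal_pow, Complex.ofReal_add, Complex.ofReal_one]
  have hc : conj b.1 = conj (D.c2 x b) - (D.e x.2.re : ℂ) * conj x.1 * conj b.2 := by
    simp only [c2, map_add, map_mul, Complex.conj_ofReal]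
    ring
  rw [hc, rm4_re, hV]
  simp only [Complex.ofReal_mul, Complex.ofReal_ofNat]
  linear_combination ((D.F x.2.re : ℂ) * (1 + (D.X x : ℂ)) * conj (D.c2 x b)) * hr

/-- the derivative of `ΓV` -/
theorem rm4_V {x : ℂ × ℂ} (hx : x ∈ D.MS) (a c : ℂ × ℂ) :
    HasD (fun y => D.ΓV y a c) x (fun b => D.HV x b a c + D.ZV x b a c
      + (D.L x.2.re : ℂ) * x.1 * conj b.2 * D.ΓW x a c) := by
  have h1 := ((((HasD.real (D.hL x.2.re)).sub ((HasD.real (D.he x.2.re)).mul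
    (HasD.real (D.he x.2.re)))).mul HasD.fst).mul (HasD.const a.2)).mul (HasD.const c.2)
  have h2 := (HasD.real (D.he x.2.re)).mul (((HasD.const a.2).mul (D.hasD_c2 x c)).add
    ((D.hasD_c2 x a).mul (HasD.const c.2)))
  have h3 := (((HasD.const 2).mul (D.rm4_F hx)).mul (D.hasD_c2 x a)).mul (D.hasD_c2 x c)
  refine (((h1.add h2).add h3).congr_fun fun y => ?_).congr' fun b => ?_
  · simp only [ΓV]
    ring
  have hr := D.rel hx
  have e2 := D.rm4_qt hx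
  have hm : (D.m x : ℂ) = (D.L1 x.2.re : ℂ) / 2 - (D.k x : ℂ) * (D.L x.2.re : ℂ) := by
    simp only [m, Complex.ofReal_mul, Complex.ofReal_sub, Complex.ofReal_div, Complex.ofReal_ofNat]
  simp only [HV, ZV, ΓW, rm4_re, Complex.ofReal_mul, Complex.ofReal_ofNat, hm]
  linear_combination (2 * (D.L x.2.re : ℂ) * conj b.2 * (a.2 * D.c2 x c + D.c2 x a * c.2)) * hr
    - ((D.L x.2.re : ℂ) * conj b.2 * (a.2 * D.c2 x c + D.c2 x a * c.2)) * e2

theorem Γ_deriv {x : ℂ × ℂ} (hx : x ∈ D.MS) (b a c : ℂ × ℂ) :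
    DifferentiableAt ℝ (fun y => D.Γ y a c) x ∧
      fderiv ℝ (fun y => D.Γ y a c) x b = D.H x b a c + D.Z x b a c := by
  have h1 := (D.rm4_V hx a c).sub ((D.rm4_et x).mul (D.rm4_W hx a c))
  obtain ⟨h2, h3⟩ := h1.prod (D.rm4_W hx a c)
  refine ⟨h2, (h3 b).trans ?_⟩
  simp only [H, Z, Prod.mk_add_mk]
  refine Prod.ext ?_ rfl
  simp only
  ring

end CData

end Pool.Agent.KH
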