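import Pool.Agent.Lib.MP_93b649_gt.RM1

/-! # ROW RM5: flatness of the holomorphic part (pure algebra)

`H x u v w - H x v u w + Γ x u (Γ x v w) - Γ x v (Γ x u w) = 0` on `MS`. (Checked numerically.) Everything is a polynomial in
`t = x.1`, `conj t`, `F, e, L, L1, L2, P1, P2, X`, `1/G_H` (`k`, `q`, `G_V` unfolded as far as needed), the second components
`u_W, v_W, w_W` and `c2 x u, c2 x v, c2 x w`; relations: `t conj t F (1+X) = X` (`rel`), `G_V = F(1+X)²`, `G_H q = conj t G_V L`,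
`2 G_H k = P1 + X L1`. Suggested: (i) use `c2 x (Γ x a c) = ΓV x a c`, `(Γ x a c).2 = ΓW x a c`; (ii) the second component:
`HW(u,v,w) - HW(v,u,w) + ΓW(u,Γ(v,w)) - ΓW(v,Γ(u,w)) = 0`, where with `v_1 = v.2`, `v_2 = c2 x v`, ...
`ΓW(u,Γ(v,w)) = k u_1 ΓW(v,w) + q (u_1 ΓV(v,w) + u_2 ΓW(v,w))`. Terms: `k1 x u = A u_1 + B u_2 - k(k u_1 + q u_2)` with
`A = (P2+X L2)/(4 G_H)`, `B = L1 (1+X)² conj t F/(2 G_H)`; the antisymmetrisation in `u, v` kills every term symmetric in `(u,v)`, and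
one compares the coefficients of `(u_2v_1 - u_1v_2) w_1` and `(u_2v_1 - u_1v_2) w_2`:
   coefficient of `w_1`: `B - k q - [q(e - k) + conj t G_V L1/(2G_H)] + 2 q e - q e + ...` etc. (a `ring` identity after the relations);
(iii) the first component: multiply out `c2`: it suffices that
`HV(u,v,w) - et1(u) ΓW(v,w) - (u ↔ v) + ΓV(u,Γ(v,w)) - ΓV(v,Γ(u,w)) - (e t)(second component) = 0` in the same way.
If `ring` is slow: `generalize` the atoms, or prove the four scalar identities (coefficients) separately: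
write `q = conj t F (1+X)² L/G_H` only at the end. -/

open scoped ContDiff Topology ComplexConjugate
open Set

noncomputable section

namespace Pool.Agent.KH

namespace CData

variable (D : CData)

private theorem rm5_c2Γ (x a c : ℂ × ℂ) : D.c2 x (D.Γ x a c) = D.ΓV x a c := by
  simp only [c2, Γ]
  ring

private theorem rm5_fst (x u : ℂ × ℂ) : u.1 = D.c2 x u - D.e x.2.re * x.1 * u.2 := by
  simp only [c2]
  ring

private theorem rm5_W (x u v : ℂ × ℂ) (w : ℂ × ℂ) : D.ΓW x u (D.Γ x v w) =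
    D.k x * u.2 * D.ΓW x v w + D.q x * (u.2 * D.ΓV x v w + D.c2 x u * D.ΓW x v w) := by
  have e : (D.Γ x v w).2 = D.ΓW x v w := rfl
  conv_lhs => unfold ΓW
  rw [rm5_c2Γ, e]

private theorem rm5_V (x u v : ℂ × ℂ) (w : ℂ × ℂ) : D.ΓV x u (D.Γ x v w) =
    (D.L x.2.re - D.e x.2.re ^ 2) * x.1 * u.2 * D.ΓW x v w
      + D.e x.2.re * (u.2 * D.ΓV x v w + D.c2 x u * D.ΓW x v w)
      + 2 * conj x.1 * D.F x.2.re * (1 + D.X x) * D.c2 x u * D.ΓV x v w := by
  have e : (D.Γ x v w).2 = D.ΓW x v w := rfl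
  conv_lhs => unfold ΓV
  rw [rm5_c2Γ, e]

private theorem rm5_two (x u v w : ℂ × ℂ) :
    D.HW x u v w - D.HW x v u w + D.ΓW x u (D.Γ x v w) - D.ΓW x v (D.Γ x u w) = 0 := by
  rw [rm5_W, rm5_W]
  simp only [HW, k1, q1, et1, ΓW, ΓV, GV, Complex.ofReal_mul, Complex.ofReal_pow,
    Complex.ofReal_add, Complex.ofReal_one]
  generalize D.c2 x u = u2
  generalize D.c2 x v = v2
  generalize D.c2 x w = w2
  generalize (D.k x : ℂ) = k
  generalize D.q x = q
  generalize conj x.1 = tb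
  ring

private theorem rm5_one (x u v w : ℂ × ℂ) :
    D.HV x u v w - D.et1 x u * D.ΓW x v w - (D.HV x v u w - D.et1 x v * D.ΓW x u w)
      + D.ΓV x u (D.Γ x v w) - D.ΓV x v (D.Γ x u w) = 0 := by
  rw [rm5_V, rm5_V]
  simp only [HV]
  rw [D.rm5_fst x u, D.rm5_fst x v]
  simp only [et1, ΓW, ΓV]
  generalize D.c2 x u = u2
  generalize D.c2 x v = v2
  generalize D.c2 x w = w2
  generalize (D.k x : ℂ) = k
  generalize D.q x = q
  generalize conj x.1 = tb
  ring

theorem flat {x : ℂ × ℂ} (hx : x ∈ D.MS) (u v w : ℂ × ℂ) :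
    D.H x u v w - D.H x v u w + D.Γ x u (D.Γ x v w) - D.Γ x v (D.Γ x u w) = 0 := by
  have h2 := D.rm5_two x u v w
  have h1 := D.rm5_one x u v w
  refine Prod.ext ?_ ?_
  · show (D.HV x u v w - D.et1 x u * D.ΓW x v w - D.e x.2.re * x.1 * D.HW x u v w)
      - (D.HV x v u w - D.et1 x v * D.ΓW x u w - D.e x.2.re * x.1 * D.HW x v u w)
      + (D.ΓV x u (D.Γ x v w) - D.e x.2.re * x.1 * D.ΓW x u (D.Γ x v w))
      - (D.ΓV x v (D.Γ x u w) - D.e x.2.re * x.1 * D.ΓW x v (D.Γ x u w)) = 0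
    linear_combination h1 - D.e x.2.re * x.1 * h2
  · exact h2

end CData

end Pool.Agent.KH
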