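import Pool.Agent.Lib.MP_93b649_gt.RM1

/-! # ROW RM6: pairing (pure algebra)

`metric x (Z x u v v - Z x v u v) u = - Q(α,β,γ,σ; u_W, c2 u, v_W, c2 v)/2`. (Checked numerically.)
`c2 x (Z x b a c) = ZV x b a c`, `(Z x b a c).2 = ZW x b a c`, `metric x z u = Re (G_H z.2 conj u_W + G_V (c2 x z) conj (c2 x u))`.
For `T(a,c;b,d) := G_H ZW(b,a,c) conj d_1 + G_V ZV(b,a,c) conj d_2` (`d_1 = d.2`, `d_2 = c2 x d`) one has, from the definitions
(`basic`: `G_H ≠ 0`), with `M_{ac} = a_1c_2 + a_2c_1`, `A_{ac} = a_1c_1`: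
  `T = α A_{ac} conj(b_1d_1) + β M_{ac} conj(b_1d_2 + b_2d_1) + γ a_2c_2 conj(b_2d_2)
      + σ A_{ac} conj(b_1 d_2 + b_2 d_1) + conj σ M_{ac} conj(b_1d_1)`
[`G_H ZW`: coefficient of `A conj b_1` is `G_H lg + 2X(1+X)L² = α`; of `A conj b_2`: `m t G_V = σ`; of `M conj b_2`:
`G_V((1+2X)L - X(1+X)L²/G_H) = β`; of `M conj b_1`: `conj t m G_V = conj σ`. `G_V ZV`: `A conj b_1`: `G_V m t = σ`; `M conj b_1`: `β`;
`a_2c_2 conj b_2`: `2G_V² = γ`.] Then `Re[T(v,v;u,u) - T(u,v;v,u)] = -Q/2` is a polynomial identity in real and imaginary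
parts (`Complex.ext_iff`/`simp`, `ring`) for `Q` as defined in `BModel`. -/

open scoped ContDiff Topology ComplexConjugate
open Set

noncomputable section

namespace Pool.Agent.KH

/-- the final polynomial identity -/
private theorem rm6_alg (α β γ : ℝ) (σ a a' b b' : ℂ) :
    (((α : ℂ) * (b * b) * conj (a * a) + β * (b * b' + b' * b) * conj (a * a' + a' * a)
      + γ * (b' * b') * conj (a' * a') + σ * (b * b) * conj (a * a' + a' * a)
      + conj σ * (b * b' + b' * b) * conj (a * a))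
    - ((α : ℂ) * (a * b) * conj (b * a) + β * (a * b' + a' * b) * conj (b * a' + b' * a)
      + γ * (a' * b') * conj (b' * a') + σ * (a * b) * conj (b * a' + b' * a)
      + conj σ * (a * b' + a' * b) * conj (b * a))).re
    = - CData.Q α β γ σ a a' b b' / 2 := by
  obtain ⟨s1, s2⟩ := σ
  obtain ⟨a1, a2⟩ := a
  obtain ⟨c1, c2⟩ := a'
  obtain ⟨b1, b2⟩ := b
  obtain ⟨d1, d2⟩ := b'
  simp only [CData.Q, Complex.mul_re, Complex.mul_im, Complex.add_re, Complex.add_im,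
    Complex.sub_re, Complex.sub_im, Complex.conj_re, Complex.conj_im, Complex.ofReal_re,
    Complex.ofReal_im, Complex.normSq_apply]
  ring

namespace CData

variable (D : CData)

private theorem rm6_c2sub (x u v : ℂ × ℂ) : D.c2 x (u - v) = D.c2 x u - D.c2 x v := by
  simp only [c2, Prod.fst_sub, Prod.snd_sub]
  ring

private theorem rm6_c2Z (x b a c : ℂ × ℂ) : D.c2 x (D.Z x b a c) = D.ZV x b a c := by
  simp only [c2, Z]
  ring

private theorem rm6_W (x b a c : ℂ × ℂ) (hG : (D.GH x : ℂ) ≠ 0) :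
    (D.GH x : ℂ) * D.ZW x b a c = (D.α x : ℂ) * conj b.2 * (a.2 * c.2)
      + D.σ x * conj (D.c2 x b) * (a.2 * c.2)
      + ((D.β x : ℂ) * conj (D.c2 x b) + conj (D.σ x) * conj b.2)
        * (a.2 * D.c2 x c + D.c2 x a * c.2) := by
  simp only [ZW, α, β, σ, map_mul, Complex.conj_ofReal, Complex.ofReal_add, Complex.ofReal_mul,
    Complex.ofReal_sub, Complex.ofReal_div, Complex.ofReal_pow, Complex.ofReal_one,
    Complex.ofReal_ofNat]
  generalize conj (D.c2 x b) = B2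
  generalize conj b.2 = B1
  generalize conj x.1 = tb
  generalize D.c2 x a = a2
  generalize D.c2 x c = c2'
  generalize (D.GH x : ℂ) = G at hG ⊢
  generalize (D.GV x : ℂ) = V
  generalize (D.X x : ℂ) = X
  generalize (D.L x.2.re : ℂ) = L
  generalize (D.m x : ℂ) = m
  generalize (D.lg x : ℂ) = lg
  field_simp

private theorem rm6_V (x b a c : ℂ × ℂ) :
    (D.GV x : ℂ) * D.ZV x b a c = D.σ x * conj b.2 * (a.2 * c.2)
      + (D.β x : ℂ) * conj b.2 * (a.2 * D.c2 x c + D.c2 x a * c.2)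
      + (D.γ x : ℂ) * conj (D.c2 x b) * (D.c2 x a * D.c2 x c) := by
  simp only [ZV, β, σ, γ, Complex.ofReal_add, Complex.ofReal_mul,
    Complex.ofReal_sub, Complex.ofReal_div, Complex.ofReal_pow, Complex.ofReal_one,
    Complex.ofReal_ofNat]
  ring

theorem pairing {x : ℂ × ℂ} (hx : x ∈ D.MS) (u v : ℂ × ℂ) :
    D.metric x (D.Z x u v v - D.Z x v u v) u
      = - Q (D.α x) (D.β x) (D.γ x) (D.σ x) u.2 (D.c2 x u) v.2 (D.c2 x v) / 2 := by
  have hG : (D.GH x : ℂ) ≠ 0 := by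
    have := (D.basic hx).2.1
    exact_mod_cast this.ne'
  rw [← rm6_alg]
  unfold metric
  congr 1
  have e1 : (D.Z x u v v - D.Z x v u v).2 = D.ZW x u v v - D.ZW x v u v := rfl
  have e2 : D.c2 x (D.Z x u v v - D.Z x v u v) = D.ZV x u v v - D.ZV x v u v := by
    rw [rm6_c2sub, rm6_c2Z, rm6_c2Z]
  have e3 : D.hm x (D.Z x u v v - D.Z x v u v) u =
      ((D.GH x : ℂ) * D.ZW x u v v - (D.GH x : ℂ) * D.ZW x v u v) * conj u.2
      + ((D.GV x : ℂ) * D.ZV x u v v - (D.GV x : ℂ) * D.ZV x v u v) * conj (D.c2 x u) := by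
    unfold hm
    rw [e1, e2]
    ring
  rw [e3, D.rm6_W x u v v hG, D.rm6_W x v u v hG, D.rm6_V x u v v, D.rm6_V x v u v]
  simp only [map_mul, map_add]
  ring

end CData

end Pool.Agent.KH
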