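import Pool.Agent.Lib.MP_93b649_gt.RC1
import Pool.Agent.Lib.MP_93b649_gt.RM4
import Pool.Agent.Lib.MP_93b649_gt.RM5
import Pool.Agent.Lib.MP_93b649_gt.RM6

/-! # the connection data and the curvature of the model (no sorry here) -/

open scoped ContDiff Topology ComplexConjugate
open Set

noncomputable section

namespace Pool.Agent.KH

namespace CData

variable (D : CData)

/-- the connection data -/
theorem isConn : IsConn D.MS D.metric D.Γ where
  isOpen := D.isOpen_MS
  add := fun x _ u v w => D.metric_add x u v w
  smul := fun x _ r u v => D.metric_smul x r u v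
  symm := fun x _ u v => D.metric_symm x u v
  pos := fun _ hx v hv => D.metric_pos hx v hv
  gsymm := fun x _ u v => D.Γ_symm x u v
  gadd := fun x _ u v w => D.Γ_add x u v w
  gsmul := fun x _ r u v => D.Γ_smul x r u v
  gdiff := fun _ hx u v => (D.Γ_deriv hx 0 u v).1
  diff := fun _ hx u v => (D.compat hx 0 u v).1
  compat := fun _ hx w u v => (D.compat hx w u v).2

/-- the curvature of the model -/
theorem curvature {x : ℂ × ℂ} (hx : x ∈ D.MS) (u v : ℂ × ℂ) :
    D.metric x (riemann D.metric x u v v) u
      = - Q (D.α x) (D.β x) (D.γ x) (D.σ x) u.2 (D.c2 x u) v.2 (D.c2 x v) / 2 := by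
  rw [riemann_eq D.isConn hx, (D.Γ_deriv hx u v v).2, (D.Γ_deriv hx v u v).2, ← D.pairing hx]
  have h := D.flat hx u v v
  congr 1
  linear_combination (exp := 1) h

end CData

end Pool.Agent.KH
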