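import Pool.Agent.Lib.MP_93b649_gt.BModel

/-! # The template of the arm: definitions (no sorry) -/

open scoped ContDiff Topology
open Set Filter

noncomputable section

namespace Pool.Agent.KH

/-- `y = μ` as a function of `v = -log g`: `c · smoothTransition(v) · e^{v/m}`; it vanishes for `v ≤ 0`. -/
def yv (m : ℕ) (c v : ℝ) : ℝ := c * Real.smoothTransition v * Real.exp (v / m)

/-- first derivative -/
def yv1 (m : ℕ) (c v : ℝ) : ℝ := deriv (yv m c) v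

/-- second derivative -/
def yv2 (m : ℕ) (c v : ℝ) : ℝ := deriv (yv1 m c) v

/-- `κ` -/
def kapv (m : ℕ) (y y1 : ℝ) : ℝ := 2 * (1 + y - m * y1) / (1 + y) ^ (2 * m + 1)

/-- `λ` -/
def lamv (m : ℕ) (y y1 y2 : ℝ) : ℝ :=
  kapv m y y1 - ((m + 1) * (y2 / (1 + y) - y1 ^ 2 / (1 + y) ^ 2)
    + (m + 1) * y1 * (1 + y - m * y1) / (1 + y) ^ 2) / (1 + y) ^ (2 * m)

/-- `e_h` -/
def ehv (m : ℕ) (y y1 : ℝ) : ℝ := (m + 1) ^ 2 * y1 ^ 2 / (1 + y) ^ (2 * m + 2)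

/-- `T(v) = -1 + ∫_0^v (1+y)^m e^{-σ} dσ` (`ℓ` as a function of `v`) -/
def Tv (m : ℕ) (c v : ℝ) : ℝ := -1 + ∫ σ in (0 : ℝ)..v, (1 + yv m c σ) ^ m * Real.exp (-σ)

/-- `ν(v) = 1 + ∫_0^v e^σ/(1+y) dσ` -/
def nuv (m : ℕ) (c v : ℝ) : ℝ := 1 + ∫ σ in (0 : ℝ)..v, Real.exp σ / (1 + yv m c σ)

/-- `ε(v) = -log 2 + ∫_0^v ν (1+y)^m e^{-σ} dσ` -/
def epv (m : ℕ) (c v : ℝ) : ℝ :=
  - Real.log 2 + ∫ σ in (0 : ℝ)..v, nuv m c σ * ((1 + yv m c σ) ^ m * Real.exp (-σ))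

/-- The template: Calabi data together with the depth function `g` and `y = μ(g)`. -/
structure Template (m : ℕ) extends CData where
  g : ℝ → ℝ
  y : ℝ → ℝ
  y1 : ℝ → ℝ
  g_pos : ∀ l, 0 < g l
  y_nonneg : ∀ l, 0 ≤ y l
  sg : ContDiff ℝ ∞ g
  sy : ContDiff ℝ ∞ y
  hg : ∀ l, HasDerivAt g (-(1 / (1 + y l) ^ m)) l
  hy : ∀ l, HasDerivAt y (y1 l) l
  P_eq : ∀ l, P l = 1 / (4 * g l ^ 2)
  L_eq : ∀ l, L l = 1 / (4 * g l ^ 2 * (1 + y l) ^ (m + 1))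
  neg : ∀ l ≤ -1, g l = -l ∧ y l = 0 ∧ e l = -1 / (2 * l) ∧ F l = -1 / (2 * l)
  e_pos : ∀ l, 0 < e l
  ge_le : ∀ l, 2 * g l * e l ≤ 1
  gF_le : ∀ l, 1 ≤ 2 * g l * F l
  F_mono : StrictMono F
  F_top : Tendsto F atTop atTop
  y1_bound : ∀ l, 0 ≤ y1 l ∧ m * g l * (1 + y l) ^ (m - 1) * y1 l ≤ 2
  good : toCData.Good

end Pool.Agent.KH
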