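import Mathlib

/-!
# Statement-level definitions for MP_93b649_gt

Classical definitions for a (real) metric on an open subset `M` of `ℂ²`, in the global coordinates of `ℂ²`:
`g x u v` is the inner product of the tangent vectors `u, v ∈ ℂ²` at the point `x`.
-/

open scoped ContDiff Topology
open Set

noncomputable section

namespace Pool.Agent.KH

/-- `∂_u g(v,w)` at the point `x`. -/
def partialD (g : ℂ × ℂ → ℂ × ℂ → ℂ × ℂ → ℝ) (x u v w : ℂ × ℂ) : ℝ :=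
  fderiv ℝ (fun y => g y v w) x u

/-- Christoffel symbols of the first kind: `½ (∂_u g(v,w) + ∂_v g(u,w) - ∂_w g(u,v))`. -/
def christoffelLower (g : ℂ × ℂ → ℂ × ℂ → ℂ × ℂ → ℝ) (x u v w : ℂ × ℂ) : ℝ :=
  (partialD g x u v w + partialD g x v u w - partialD g x w u v) / 2

/-- Christoffel symbols of the second kind: the vector `a = Γ(u,v)` with
`g(a, w) = ½ (∂_u g(v,w) + ∂_v g(u,w) - ∂_w g(u,v))` for all `w`. -/
def christoffel (g : ℂ × ℂ → ℂ × ℂ → ℂ × ℂ → ℝ) (x u v : ℂ × ℂ) : ℂ × ℂ :=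
  Classical.epsilon fun a : ℂ × ℂ => ∀ w, g x a w = christoffelLower g x u v w

/-- Riemann curvature in coordinates:
`R(u,v)w = (∂_u Γ)(v,w) - (∂_v Γ)(u,w) + Γ(u,Γ(v,w)) - Γ(v,Γ(u,w))`. -/
def riemann (g : ℂ × ℂ → ℂ × ℂ → ℂ × ℂ → ℝ) (x u v w : ℂ × ℂ) : ℂ × ℂ :=
  fderiv ℝ (fun y => christoffel g y v w) x u - fderiv ℝ (fun y => christoffel g y u w) x v
    + christoffel g x u (christoffel g x v w) - christoffel g x v (christoffel g x u w)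

/-- `g` is a (smooth) Kähler metric on the open set `M ⊆ ℂ²`: at the points of `M` it is a real inner
product invariant under multiplication by `i`, its coefficients are smooth, and its Kähler form
`ω(u,v) = g(iu,v)` is closed. -/
structure IsKahler (M : Set (ℂ × ℂ)) (g : ℂ × ℂ → ℂ × ℂ → ℂ × ℂ → ℝ) : Prop where
  add : ∀ x ∈ M, ∀ u v w, g x (u + v) w = g x u w + g x v w
  smul : ∀ x ∈ M, ∀ (r : ℝ) (u v), g x (r • u) v = r * g x u v
  symm : ∀ x ∈ M, ∀ u v, g x u v = g x v u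
  pos : ∀ x ∈ M, ∀ v, v ≠ 0 → 0 < g x v v
  hermitian : ∀ x ∈ M, ∀ u v, g x (Complex.I • u) (Complex.I • v) = g x u v
  smooth : ∀ u v, ContDiffOn ℝ ∞ (fun x => g x u v) M
  closed : ∀ x ∈ M, ∀ u v w, partialD g x u (Complex.I • v) w + partialD g x v (Complex.I • w) u
    + partialD g x w (Complex.I • u) v = 0

/-- The sectional curvature is negative everywhere on `M`: `g(R(u,v)v,u) < 0` for all linearly independent
tangent vectors `u, v`. -/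
def NegativelyCurved (M : Set (ℂ × ℂ)) (g : ℂ × ℂ → ℂ × ℂ → ℂ × ℂ → ℝ) : Prop :=
  ∀ x ∈ M, ∀ u v, LinearIndependent ℝ ![u, v] → g x (riemann g x u v v) u < 0

/-- `Ric(v,v) ≤ c(x) g(v,v)` at all points `x` of `M`, where `Ric(v,v) = ∑ g(R(e_i,v)v,e_i)` for
an orthonormal basis `e_1, …, e_4` of the tangent space `ℂ²` at `x`. -/
def RicciLE (M : Set (ℂ × ℂ)) (g : ℂ × ℂ → ℂ × ℂ → ℂ × ℂ → ℝ) (c : ℂ × ℂ → ℝ) : Prop :=
  ∀ x ∈ M, ∀ e : Fin 4 → ℂ × ℂ, (∀ i j, g x (e i) (e j) = if i = j then 1 else 0) →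
    ∀ v, ∑ i, g x (riemann g x (e i) v v) (e i) ≤ c x * g x v v

/-- The length of the curve `γ : [0,1] → ℂ²`. -/
def curveLength (g : ℂ × ℂ → ℂ × ℂ → ℂ × ℂ → ℝ) (γ : ℝ → ℂ × ℂ) : ℝ :=
  ∫ s in (0 : ℝ)..1, Real.sqrt (g (γ s) (deriv γ s) (deriv γ s))

/-- `Joined M g x y L`: some piecewise `C¹` curve in `M` of length `L` joins `x` to `y`. -/
inductive Joined (M : Set (ℂ × ℂ)) (g : ℂ × ℂ → ℂ × ℂ → ℂ × ℂ → ℝ) : ℂ × ℂ → ℂ × ℂ → ℝ → Prop
  | refl (x : ℂ × ℂ) (hx : x ∈ M) : Joined M g x x 0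
  | append (x : ℂ × ℂ) (γ : ℝ → ℂ × ℂ) (L : ℝ) (h : Joined M g x (γ 0) L) (hγ : ContDiff ℝ 1 γ)
      (hM : ∀ s ∈ Icc (0 : ℝ) 1, γ s ∈ M) : Joined M g x (γ 1) (L + curveLength g γ)

/-- The Riemannian distance: the infimum of the lengths of piecewise `C¹` curves from `x` to `y` in `M`. -/
def riemannianDist (M : Set (ℂ × ℂ)) (g : ℂ × ℂ → ℂ × ℂ → ℂ × ℂ → ℝ) (x y : ℂ × ℂ) : ℝ :=
  sInf {L | Joined M g x y L}

/-- `(M, g)` is complete: every Cauchy sequence for the Riemannian distance converges. -/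
def IsCompleteMetric (M : Set (ℂ × ℂ)) (g : ℂ × ℂ → ℂ × ℂ → ℂ × ℂ → ℝ) : Prop :=
  ∀ x : ℕ → ℂ × ℂ, (∀ n, x n ∈ M) →
    (∀ ε > 0, ∃ N, ∀ m ≥ N, ∀ n ≥ N, riemannianDist M g (x m) (x n) < ε) →
    ∃ y ∈ M, Filter.Tendsto (fun n => riemannianDist M g (x n) y) Filter.atTop (𝓝 0)

/-- Every bounded holomorphic function on the open set `M` is constant. -/
def BoundedHolomorphicConstant (M : Set (ℂ × ℂ)) : Prop :=
  ∀ f : ℂ × ℂ → ℂ, DifferentiableOn ℂ f M → (∃ C : ℝ, ∀ x ∈ M, ‖f x‖ ≤ C) →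
    ∃ c : ℂ, ∀ x ∈ M, f x = c

end Pool.Agent.KH
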