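import Mathlib

/-! # ROW RA1: the real inequality behind `K < 0`

Put `h = L/P ∈ (0,1]`, `A = 1 + X h` (so `G = P + X L = P A`, `A ≥ 1`, `A - 1 = X h`), `κ = (P2/P - (P1/P)²)/(4P)`,
`λ = (L2/L - (L1/L)²)/(4P) ≥ 0`, `e = (L1/L - P1/P)²/(4P) ≥ 0`. Dividing by `G² = P²A²`, the expression of `real_ineq` is `G²(c11 - c12²/2 - 2τ²/c12)` with
  `c11 = [κ + (A-1)λ]/A² + e(A-1)/A³ + 2X(1+X)h²/A²`,   `c12 = h(1+X+XA)/A²`,   `2τ²/c12 = 2X(1+X)h e/(A³(1+X+XA))`,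
because `(P2 + X L2)/(4G²) - (P1+XL1)²/(4G³) = [κ+(A-1)λ]/A² + e(A-1)/A³`, `(L/G)(1+2X-X(1+X)L/G) = h(1+2X+X²h)/A² = c12` and
`X(1+X)(L1 - L(P1+XL1)/G)²/(4·…)`: `L1 - L(P1+XL1)/G = (L/A)(L1/L - P1/P)`. (Substitute `P1 = P a`, `L1 = L (a + b)`,
`P2 = P(4Pκ + a²)`, `L2 = L(4Pλ + (a+b)²)`, `b² = 4 P e`.)
Then `A³ (c11 - c12²/2 - 2τ²/c12)
  = Aκ + A(A-1)λ + (h²/(2A)) [X²(A-1)(3A+1) + 2X(A-1)(2A+1) - 1] + (A-1) e (X(A-1)-1)/(1+X+XA)`
  `≥ κ - h²/2 - h e/2 > 0`, using `A ≥ 1`, `λ ≥ 0` and `(A-1)/(1+X+XA) = Xh/(1+X+XA) ≤ h/2`.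
`real_ineq2`: multiply by `P + X L`: `P(1+2X)(P+XL) - PX(1+X)L - (P+XL)² = X(…) = 2X P(P-L)… ≥ 0`
(`= 2XP² - 2XPL + X²PL - X²L² = 2XP(P-L) + X²L(P-L)`). -/

open Set

namespace Pool.Agent.KH

/-- the `h` terms -/
private theorem ra1_h {h X A : ℝ} (hh : 0 < h) (hX : 0 ≤ X) (hA : A = 1 + X * h) :
    -(h ^ 2 / 2) ≤ 2 * X * (1 + X) * h ^ 2 - h ^ 2 / 2 * ((1 + X + X * A) / A) ^ 2 := by
  have hD : 0 ≤ X * h := mul_nonneg hX hh.le
  have hA1 : 1 ≤ A := by rw [hA]; linarith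
  have hA0 : 0 < A := by linarith
  have e1 : 2 * X * (1 + X) * h ^ 2 - h ^ 2 / 2 * ((1 + X + X * A) / A) ^ 2 + h ^ 2 / 2 =
      (h ^ 2 * (A ^ 2 - 1) + 2 * h * (X * h) * (2 * A ^ 2 - (A + 1)) +
        (X * h) ^ 2 * (4 * A ^ 2 - (A + 1) ^ 2)) / (2 * A ^ 2) := by
    field_simp
    rw [hA]
    ring
  have f1 : 0 ≤ A ^ 2 - 1 := by nlinarith
  have f2 : 0 ≤ 2 * A ^ 2 - (A + 1) := by nlinarith
  have f3 : 0 ≤ 4 * A ^ 2 - (A + 1) ^ 2 := by nlinarith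
  have f4 : 0 ≤ (h ^ 2 * (A ^ 2 - 1) + 2 * h * (X * h) * (2 * A ^ 2 - (A + 1)) +
        (X * h) ^ 2 * (4 * A ^ 2 - (A + 1) ^ 2)) / (2 * A ^ 2) := by
    apply div_nonneg _ (by positivity)
    have g1 := mul_nonneg (sq_nonneg h) f1
    have g2 := mul_nonneg (mul_nonneg (mul_nonneg zero_le_two hh.le) hD) f2
    have g3 := mul_nonneg (sq_nonneg (X * h)) f3
    linarith
  linarith

/-- the `e` terms -/
private theorem ra1_e {h X A e : ℝ} (hh : 0 < h) (hX : 0 ≤ X) (hA : A = 1 + X * h) (he : 0 ≤ e) :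
    -(h * e / 2) ≤ (A - 1) * e / A - 2 * X * (1 + X) * h * e / (A * (1 + X + X * A)) := by
  have hD : 0 ≤ X * h := mul_nonneg hX hh.le
  have hA1 : 1 ≤ A := by rw [hA]; linarith
  have hA0 : 0 < A := by linarith
  have hN : 0 < 1 + X + X * A := by
    have := mul_nonneg hX hA0.le
    linarith
  have e1 : (A - 1) * e / A - 2 * X * (1 + X) * h * e / (A * (1 + X + X * A)) + h * e / 2 =
      h * e * ((A - 1) * (1 + X) + X * (A * A - A) + 1 + (2 * X * X * (A - 1)) + X * (A - 1)) /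
        (2 * A * (1 + X + X * A)) := by
    field_simp
    rw [hA]
    ring
  have f1 : 0 ≤ A - 1 := by linarith
  have f2 : 0 ≤ A * A - A := by nlinarith
  have f3 : 0 ≤ h * e * ((A - 1) * (1 + X) + X * (A * A - A) + 1 + (2 * X * X * (A - 1)) + X * (A - 1)) /
        (2 * A * (1 + X + X * A)) := by
    apply div_nonneg _ (by positivity)
    apply mul_nonneg (mul_nonneg hh.le he)
    have g1 := mul_nonneg f1 (by linarith : 0 ≤ 1 + X)
    have g2 := mul_nonneg hX f2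
    have g3 := mul_nonneg (mul_nonneg (mul_nonneg zero_le_two hX) hX) f1
    have g4 := mul_nonneg hX f1
    linarith
  linarith

/-- the inequality in the variables `P, h, a, b, k, l, X` -/
private theorem ra1_core {P h a b k l X A e : ℝ} (hP : 0 < P) (hh : 0 < h) (hX : 0 ≤ X) (hA : A = 1 + X * h)
    (he : e = b ^ 2 / (4 * P)) (hl : 0 ≤ l) (hk : h ^ 2 / 2 + h * e / 2 < k) :
    0 < ((P * (4 * P * k + a ^ 2) + X * (P * h * (4 * P * l + (a + b) ^ 2))) -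
          (P * a + X * (P * h * (a + b))) ^ 2 / (P * A)) / 4 + 2 * X * (1 + X) * (P * h) ^ 2
      - (P * h) ^ 2 / 2 * ((1 + X + X * A) / A) ^ 2
      - X * (1 + X) * (P * h * b / A) ^ 2 / (2 * (P * h * ((1 + X + X * A) / A))) := by
  have hD : 0 ≤ X * h := mul_nonneg hX hh.le
  have hA1 : 1 ≤ A := by rw [hA]; linarith
  have hA0 : 0 < A := by linarith
  have hN : 0 < 1 + X + X * A := by
    have := mul_nonneg hX hA0.le
    linarith
  have he0 : 0 ≤ e := by rw [he]; positivity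
  have t1 : ((P * (4 * P * k + a ^ 2) + X * (P * h * (4 * P * l + (a + b) ^ 2))) -
          (P * a + X * (P * h * (a + b))) ^ 2 / (P * A)) / 4 =
      P ^ 2 * (k + (A - 1) * l + (A - 1) * e / A) := by
    rw [he]
    field_simp
    rw [hA]
    ring
  have t4 : X * (1 + X) * (P * h * b / A) ^ 2 / (2 * (P * h * ((1 + X + X * A) / A))) =
      P ^ 2 * (2 * X * (1 + X) * h * e / (A * (1 + X + X * A))) := by
    rw [he]
    field_simp
    ring
  rw [t1, t4]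
  have g1 := ra1_h hh hX hA
  have g2 := ra1_e hh hX hA he0
  have g3 : 0 ≤ (A - 1) * l := mul_nonneg (by linarith) hl
  have g4 : P ^ 2 * (k + (A - 1) * l + (A - 1) * e / A) + 2 * X * (1 + X) * (P * h) ^ 2
      - (P * h) ^ 2 / 2 * ((1 + X + X * A) / A) ^ 2 - P ^ 2 * (2 * X * (1 + X) * h * e / (A * (1 + X + X * A))) =
      P ^ 2 * (k + (A - 1) * l + ((A - 1) * e / A - 2 * X * (1 + X) * h * e / (A * (1 + X + X * A))) +
        (2 * X * (1 + X) * h ^ 2 - h ^ 2 / 2 * ((1 + X + X * A) / A) ^ 2)) := by ring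
  rw [g4]
  apply mul_pos (by positivity)
  linarith

theorem real_ineq {P P1 P2 L L1 L2 X : ℝ} (hP : 0 < P) (hL : 0 < L) (hLP : L ≤ P) (hX : 0 ≤ X)
    (lam : 0 ≤ L2 / L - (L1 / L) ^ 2)
    (kap : (L / P) ^ 2 / 2 + L / P * ((L1 / L - P1 / P) ^ 2 / (4 * P)) / 2
      < (P2 / P - (P1 / P) ^ 2) / (4 * P)) :
    0 < ((P2 + X * L2) - (P1 + X * L1) ^ 2 / (P + X * L)) / 4 + 2 * X * (1 + X) * L ^ 2
      - L ^ 2 / 2 * (1 + 2 * X - X * (1 + X) * L / (P + X * L)) ^ 2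
      - X * (1 + X) * (L1 - L * (P1 + X * L1) / (P + X * L)) ^ 2
        / (2 * (L * (1 + 2 * X - X * (1 + X) * L / (P + X * L)))) := by
  obtain ⟨h, hh⟩ : ∃ h, h = L / P := ⟨_, rfl⟩
  obtain ⟨a, ha⟩ : ∃ a, a = P1 / P := ⟨_, rfl⟩
  obtain ⟨b, hb⟩ : ∃ b, b = L1 / L - P1 / P := ⟨_, rfl⟩
  obtain ⟨k, hk⟩ : ∃ k, k = (P2 / P - (P1 / P) ^ 2) / (4 * P) := ⟨_, rfl⟩
  obtain ⟨l, hl⟩ : ∃ l, l = (L2 / L - (L1 / L) ^ 2) / (4 * P) := ⟨_, rfl⟩
  have h0 : 0 < h := by rw [hh]; positivity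
  have l0 : 0 ≤ l := by rw [hl]; exact div_nonneg lam (by positivity)
  have eL : L = P * h := by rw [hh]; field_simp
  have eP1 : P1 = P * a := by rw [ha]; field_simp
  have eL1 : L1 = P * h * (a + b) := by rw [← eL, ha, hb]; field_simp; ring
  have eP2 : P2 = P * (4 * P * k + a ^ 2) := by rw [hk, ha]; field_simp; ring
  have eL2 : L2 = P * h * (4 * P * l + (a + b) ^ 2) := by
    have e3 : a + b = L1 / L := by rw [ha, hb]; ring
    rw [← eL, hl, e3]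
    field_simp
    ring
  rw [← hk, ← hh, ← hb] at kap
  have hA0 : 0 < 1 + X * h := by
    have := mul_nonneg hX h0.le
    linarith
  have core := ra1_core (P := P) (h := h) (a := a) (b := b) (k := k) (l := l) (X := X) hP h0 hX rfl rfl l0 kap
  have eG : P + X * L = P * (1 + X * h) := by rw [eL]; ring
  have eC : 1 + 2 * X - X * (1 + X) * L / (P + X * L) = (1 + X + X * (1 + X * h)) / (1 + X * h) := by
    rw [eG, eL]
    field_simp
    ring
  have eT : L1 - L * (P1 + X * L1) / (P + X * L) = P * h * b / (1 + X * h) := by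
    rw [eG, eL1, eP1, eL]
    field_simp
    ring
  rw [eC, eT, eG, eP2, eL2, eP1, eL1, eL]
  exact core

theorem real_ineq2 {P L X : ℝ} (hP : 0 < P) (hL : 0 < L) (hLP : L ≤ P) (hX : 0 ≤ X) :
    P + X * L ≤ P * (1 + 2 * X - X * (1 + X) * L / (P + X * L)) := by
  have hG : 0 < P + X * L := by
    have := mul_nonneg hX hL.le
    linarith
  have e1 : P * (1 + 2 * X - X * (1 + X) * L / (P + X * L)) - (P + X * L) =
      (2 * X * P * (P - L) + X ^ 2 * L * (P - L)) / (P + X * L) := by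
    field_simp
    ring
  have e2 : 0 ≤ (2 * X * P * (P - L) + X ^ 2 * L * (P - L)) / (P + X * L) := by
    have h1 : 0 ≤ P - L := by linarith
    apply div_nonneg _ hG.le
    positivity
  linarith

end Pool.Agent.KH
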