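import Pool.Agent.Lib.MP_93b649_gt.RM1
import Pool.Agent.Lib.MP_93b649_gt.RA1

/-! # ROW RA2: consequences for the coefficients `α, β, γ, σ`

At `x ∈ MS`, `P = D.P x.2.re` etc., `X ≥ 0`, `G = G_H = P + X L`, `s := 1 + 2X - X(1+X)L/G`; `β = G_V L s`, `γ = 2 G_V²`,
`α = (P2+XL2 - (P1+XL1)²/G)/4 + 2X(1+X)L²`, `|σ|² = G_V² |t|² m²`, `G_V |t|² = X(1+X)` (from `rel`: `|t|² F (1+X) = X` and
`G_V = F(1+X)²`), `m = L1/2 - k L = (L1 - L(P1+XL1)/G)/2`. So `β²/γ = L² s²/2`, `2|σ|²/β = X(1+X)(2m)²/(2 L s)`, and the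
inequality is `real_ineq`. `s > 0` by `real_ineq2` (`P s ≥ G > 0`). Last claim: `β = G_V L s ≥ G_V L G/P`. -/

open scoped ContDiff Topology ComplexConjugate
open Set

noncomputable section

namespace Pool.Agent.KH

namespace CData

variable (D : CData)

theorem ra2_aux {P P1 P2 L L1 L2 X G V T s m : ℝ} (hP : 0 < P) (hL : 0 < L)
    (hG : 0 < G) (hV : 0 < V) (hGd : G = P + X * L)
    (hs : s = 1 + 2 * X - X * (1 + X) * L / G) (hs0 : 0 < s) (hT : V * T = X * (1 + X))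
    (hm : m = L1 / 2 - (P1 + X * L1) / (2 * G) * L)
    (h : 0 < ((P2 + X * L2) - (P1 + X * L1) ^ 2 / (P + X * L)) / 4 + 2 * X * (1 + X) * L ^ 2
      - L ^ 2 / 2 * (1 + 2 * X - X * (1 + X) * L / (P + X * L)) ^ 2
      - X * (1 + X) * (L1 - L * (P1 + X * L1) / (P + X * L)) ^ 2
        / (2 * (L * (1 + 2 * X - X * (1 + X) * L / (P + X * L))))) :
    (V * L * s) ^ 2 / (2 * V ^ 2) + 2 * (V ^ 2 * T * m ^ 2) / (V * L * s) <
      G * (((P2 + X * L2) / G - ((P1 + X * L1) / G) ^ 2) / 4) + 2 * X * (1 + X) * L ^ 2 := by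
  rw [← hGd, ← hs] at h
  have e1 : (V * L * s) ^ 2 / (2 * V ^ 2) = L ^ 2 / 2 * s ^ 2 := by
    field_simp
  have e2 : 2 * (V ^ 2 * T * m ^ 2) / (V * L * s) =
      X * (1 + X) * (L1 - L * (P1 + X * L1) / G) ^ 2 / (2 * (L * s)) := by
    have e3 : (L1 - L * (P1 + X * L1) / G) = 2 * m := by
      rw [hm]; field_simp
    rw [e3, ← hT]
    field_simp
  have e4 : G * (((P2 + X * L2) / G - ((P1 + X * L1) / G) ^ 2) / 4) =
      ((P2 + X * L2) - (P1 + X * L1) ^ 2 / G) / 4 := by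
    field_simp
  rw [e1, e2, e4]
  linarith

theorem coeff (hD : D.Good) {x : ℂ × ℂ} (hx : x ∈ D.MS) :
    0 < D.β x ∧ 0 < D.γ x ∧ D.β x ^ 2 / D.γ x + 2 * Complex.normSq (D.σ x) / D.β x < D.α x ∧
      D.L x.2.re / D.P x.2.re * D.GH x * D.GV x ≤ D.β x := by
  obtain ⟨hX, hG, hV, -, -, -⟩ := D.basic hx
  have hP := D.P_pos x.2.re
  have hL := D.L_pos x.2.re
  have hGd : D.GH x = D.P x.2.re + D.X x * D.L x.2.re := rfl
  have h2 := real_ineq2 hP hL (hD.le x.2.re) hX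
  rw [← hGd] at h2
  have hs0 : 0 < 1 + 2 * D.X x - D.X x * (1 + D.X x) * D.L x.2.re / D.GH x :=
    (pos_iff_pos_of_mul_pos (lt_of_lt_of_le hG h2)).1 hP
  have hβ : D.β x = D.GV x * D.L x.2.re *
      (1 + 2 * D.X x - D.X x * (1 + D.X x) * D.L x.2.re / D.GH x) := rfl
  have hβ0 : 0 < D.β x := by rw [hβ]; positivity
  have hγ : D.γ x = 2 * D.GV x ^ 2 := rfl
  have hγ0 : 0 < D.γ x := by rw [hγ]; positivity
  have hT : D.GV x * Complex.normSq x.1 = D.X x * (1 + D.X x) := by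
    have h3 := D.rel hx
    rw [Complex.mul_conj] at h3
    have h4 : Complex.normSq x.1 * D.F x.2.re * (1 + D.X x) = D.X x := by
      exact_mod_cast h3
    have h5 : D.GV x = D.F x.2.re * (1 + D.X x) ^ 2 := rfl
    rw [h5]
    linear_combination (1 + D.X x) * h4
  have hσ : Complex.normSq (D.σ x) = D.GV x ^ 2 * Complex.normSq x.1 * D.m x ^ 2 := by
    have h6 : D.σ x = D.GV x * x.1 * D.m x := rfl
    rw [h6, Complex.normSq_mul, Complex.normSq_mul, Complex.normSq_ofReal, Complex.normSq_ofReal]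
    ring
  refine ⟨hβ0, hγ0, ?_, ?_⟩
  · rw [hσ, hβ, hγ]
    exact ra2_aux hP hL hG hV hGd rfl hs0 hT rfl
      (real_ineq hP hL (hD.le x.2.re) hX (hD.lam x.2.re) (hD.kap x.2.re))
  · rw [hβ]
    have h7 : D.GH x / D.P x.2.re ≤
        1 + 2 * D.X x - D.X x * (1 + D.X x) * D.L x.2.re / D.GH x := by
      rw [div_le_iff₀ hP]
      linarith
    calc D.L x.2.re / D.P x.2.re * D.GH x * D.GV x
        = D.GV x * D.L x.2.re * (D.GH x / D.P x.2.re) := by ring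
      _ ≤ _ := mul_le_mul_of_nonneg_left h7 (mul_pos hV hL).le

end CData

end Pool.Agent.KH
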