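import Pool.Agent.Lib.MP_93b649_gt.BModel

/-! # ROW RA3: positivity of the form `Q` (pure algebra)

With `x1 = 2 Im(a conj b)`, `x2 = 2 Im(a' conj b')`, `ζ = a conj b' - b conj a'`:
`Q = α x1² + γ x2² + 2β x1x2 + 2β|ζ|² + 4 x1 Im(σζ)`. Since `|Im(σζ)| ≤ |σ||ζ|`, `2β|ζ|² + 4x1 Im(σζ) ≥ -2|σ|²x1²/β` and more
precisely `Q ≥ (α - β²/γ - 2|σ|²/β) x1² + γ(x2 + β x1/γ)² + 2β(|ζ| - |σ||x1|/β)²`. If `Q ≤ 0` then `x1 = 0`, `x2 = 0`, `ζ = 0`. Then
`(a,a')`, `(b,b')` are real-linearly dependent: `a conj b` and `a' conj b'` are real and `a conj b' = b conj a'`. If `(a,a') = 0`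
they are dependent. If `a ≠ 0`: `b = r a` with `r = b conj a/|a|²` real (`conj(a conj b) = a conj b`), and `a conj b' = b conj a' = r a conj a'` gives
`b' = r a'`. If `a' ≠ 0`: similarly `b' = r a'`, `r` real, and conjugating, `b conj a' = a conj b' = r a conj a'` gives `b = r a`.
(`LinearIndependent.pair_iff`.) -/

open scoped ContDiff Topology ComplexConjugate
open Set

noncomputable section

namespace Pool.Agent.KH

namespace CData

theorem ra3_T {β n s x I : ℝ} (hn : 0 ≤ n) (hs : 0 ≤ s) (hI : I ^ 2 ≤ s * n) :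
    0 ≤ β ^ 2 * n + 2 * β * x * I + s * x ^ 2 := by
  rcases hs.eq_or_lt with h0 | h0
  · subst h0
    have h1 : I = 0 := by
      have : I ^ 2 = 0 := le_antisymm (by linarith) (sq_nonneg I)
      exact pow_eq_zero_iff (two_ne_zero) |>.1 this
    rw [h1]
    have := mul_nonneg (sq_nonneg β) hn
    linarith
  · have h1 : 0 ≤ s * (β ^ 2 * n + 2 * β * x * I + s * x ^ 2) := by
      have h2 : β ^ 2 * I ^ 2 ≤ β ^ 2 * (s * n) := mul_le_mul_of_nonneg_left hI (sq_nonneg β)
      have h3 := sq_nonneg (β * I + s * x)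
      linarith
    exact nonneg_of_mul_nonneg_right h1 h0

theorem ra3_zero {α β γ x1 x2 n s I : ℝ} (hβ : 0 < β) (hγ : 0 < γ) (hα : β ^ 2 / γ + 2 * s / β < α)
    (hn : 0 ≤ n) (hs : 0 ≤ s) (hI : I ^ 2 ≤ s * n)
    (hQ : α * x1 ^ 2 + γ * x2 ^ 2 + 2 * β * x1 * x2 + 2 * β * n + 4 * x1 * I ≤ 0) :
    x1 = 0 ∧ x2 = 0 ∧ n = 0 := by
  have hT := ra3_T (x := x1) (β := β) hn hs hI
  have h1 : α * x1 ^ 2 + γ * x2 ^ 2 + 2 * β * x1 * x2 + 2 * β * n + 4 * x1 * I =
      (α - β ^ 2 / γ - 2 * s / β) * x1 ^ 2 + γ * (x2 + β * x1 / γ) ^ 2 +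
        2 / β * (β ^ 2 * n + 2 * β * x1 * I + s * x1 ^ 2) := by
    field_simp
    ring
  have h2 : 0 ≤ γ * (x2 + β * x1 / γ) ^ 2 := mul_nonneg hγ.le (sq_nonneg _)
  have h3 : 0 ≤ 2 / β * (β ^ 2 * n + 2 * β * x1 * I + s * x1 ^ 2) := mul_nonneg (by positivity) hT
  have hx1 : x1 = 0 := by
    by_contra hne
    have h4 : 0 < (α - β ^ 2 / γ - 2 * s / β) * x1 ^ 2 :=
      mul_pos (by linarith) (lt_of_le_of_ne (sq_nonneg _) (Ne.symm (pow_ne_zero 2 hne)))
    linarith
  rw [hx1] at hQ
  have h5 : 0 ≤ γ * x2 ^ 2 := mul_nonneg hγ.le (sq_nonneg _)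
  have h6 : 0 ≤ 2 * β * n := mul_nonneg (by positivity) hn
  have h7 : γ * x2 ^ 2 = 0 := le_antisymm (by linarith) h5
  have h8 : 2 * β * n = 0 := le_antisymm (by linarith) h6
  refine ⟨hx1, ?_, ?_⟩
  · rcases mul_eq_zero.1 h7 with h | h
    · exact absurd h hγ.ne'
    · exact (pow_eq_zero_iff two_ne_zero).1 h
  · rcases mul_eq_zero.1 h8 with h | h
    · exact absurd h (by positivity)
    · exact h

/-- for `a conj b` real, `|a|² b = Re(b conj a) a` -/
theorem ra3_real {a b : ℂ} (h : (a * conj b).im = 0) :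
    a * conj b = ((b * conj a).re : ℂ) ∧ b * conj a = ((b * conj a).re : ℂ) := by
  have h1 : (b * conj a).im = 0 := by
    have : b * conj a = conj (a * conj b) := by rw [map_mul, Complex.conj_conj, mul_comm]
    rw [this, Complex.conj_im, h, neg_zero]
  have h2 : b * conj a = ((b * conj a).re : ℂ) := by
    apply Complex.ext
    · simp
    · simp only [Complex.ofReal_im]
      exact h1
  refine ⟨?_, h2⟩
  have h3 : a * conj b = conj (b * conj a) := by rw [map_mul, Complex.conj_conj, mul_comm]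
  rw [h3, h2, Complex.conj_ofReal, Complex.ofReal_re]

theorem Q_pos {α β γ : ℝ} {σ a a' b b' : ℂ} (hβ : 0 < β) (hγ : 0 < γ)
    (hα : β ^ 2 / γ + 2 * Complex.normSq σ / β < α) (h : LinearIndependent ℝ ![(a, a'), (b, b')]) :
    0 < Q α β γ σ a a' b b' := by
  by_contra hQ
  rw [not_lt] at hQ
  unfold Q at hQ
  have hI : ((σ * (a * conj b' - b * conj a')).im) ^ 2 ≤
      Complex.normSq σ * Complex.normSq (a * conj b' - b * conj a') := by
    rw [← Complex.normSq_mul, Complex.normSq_apply]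
    linarith [mul_self_nonneg (σ * (a * conj b' - b * conj a')).re,
      sq (σ * (a * conj b' - b * conj a')).im]
  obtain ⟨h1, h2, h3⟩ := ra3_zero hβ hγ hα (Complex.normSq_nonneg _) (Complex.normSq_nonneg _) hI hQ
  have h1' : (a * conj b).im = 0 := by linarith
  have h2' : (a' * conj b').im = 0 := by linarith
  have h3' : a * conj b' = b * conj a' := sub_eq_zero.1 (Complex.normSq_eq_zero.1 h3)
  have h3c : conj a * b' = conj b * a' := by
    have := congrArg conj h3'
    rw [map_mul, map_mul, Complex.conj_conj, Complex.conj_conj] at this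
    exact this
  rw [LinearIndependent.pair_iff] at h
  by_cases ha : a = 0
  · by_cases ha' : a' = 0
    · have := (h 1 0 (by rw [ha, ha']; simp)).1
      exact one_ne_zero this
    · have hb : b = 0 := by
        rw [ha, zero_mul] at h3'
        rcases mul_eq_zero.1 h3'.symm with hb | hb
        · exact hb
        · exact absurd ((map_eq_zero _).1 hb) ha'
      obtain ⟨e1, e2⟩ := ra3_real h2'
      have := (h ((b' * conj a').re) (-Complex.normSq a') (by
        refine Prod.ext ?_ ?_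
        · simp [ha, hb]
        · show (b' * conj a').re • a' + (-Complex.normSq a') • b' = 0
          rw [Complex.real_smul, Complex.real_smul, ← e2, Complex.ofReal_neg, Complex.normSq_eq_conj_mul_self]
          ring)).2
      exact ha' (Complex.normSq_eq_zero.1 (neg_eq_zero.1 this))
  · obtain ⟨e1, e2⟩ := ra3_real h1'
    have := (h ((b * conj a).re) (-Complex.normSq a) (by
      refine Prod.ext ?_ ?_
      · show (b * conj a).re • a + (-Complex.normSq a) • b = 0
        rw [Complex.real_smul, Complex.real_smul, ← e2, Complex.ofReal_neg, Complex.normSq_eq_conj_mul_self]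
        ring
      · show (b * conj a).re • a' + (-Complex.normSq a) • b' = 0
        rw [Complex.real_smul, Complex.real_smul, ← e1, Complex.ofReal_neg, Complex.normSq_eq_conj_mul_self]
        linear_combination (-a) * h3c)).2
    exact ha (Complex.normSq_eq_zero.1 (neg_eq_zero.1 this))

end CData

end Pool.Agent.KH
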