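import Pool.Agent.Lib.MP_93b649_gt.BConn

/-! # ROW RC4: the trace in two orthonormal bases

`g` a real symmetric bilinear form on `ℂ²` (real dimension 4), `e`, `f : Fin 4 → ℂ²` orthonormal for `g`, `R` real linear.
Then `∑ g(R e_i, e_i) = ∑ g(R f_i, f_i)`. Proof: an orthonormal family is linearly independent, hence a basis
(`finrank ℝ (ℂ × ℂ) = 4`, `basisOfLinearIndependentOfCardEqFinrank`), with coordinates `u = ∑ g(u,e_i) e_i`; so both sums are
`LinearMap.trace ℝ _ R` (`LinearMap.trace_eq_matrix_trace`, `Matrix.trace`, `LinearMap.toMatrix_apply`).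
Or directly: `e_i = ∑_j O_ij f_j` with `O_ij = g(e_i,f_j)`, `O Oᵀ = 1`, so `Oᵀ O = 1` (`Matrix.mul_eq_one_comm`), and expand.
-/

open scoped ContDiff Topology
open Set

noncomputable section

namespace Pool.Agent.KH

theorem rc4_sum (g : ℂ × ℂ → ℂ × ℂ → ℝ) (gadd : ∀ u v w, g (u + v) w = g u w + g v w)
    (gsmul : ∀ (r : ℝ) u v, g (r • u) v = r * g u v)
    (e : Fin 4 → ℂ × ℂ) (he : ∀ i j, g (e i) (e j) = if i = j then 1 else 0) (c : Fin 4 → ℝ)
    (j : Fin 4) : g (∑ i, c i • e i) (e j) = c j := by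
  rw [Fin.sum_univ_four, gadd, gadd, gadd, gsmul, gsmul, gsmul, gsmul, he, he, he, he]
  fin_cases j <;> simp

theorem rc4_trace (g : ℂ × ℂ → ℂ × ℂ → ℝ) (gadd : ∀ u v w, g (u + v) w = g u w + g v w)
    (gsmul : ∀ (r : ℝ) u v, g (r • u) v = r * g u v)
    (R : (ℂ × ℂ) →ₗ[ℝ] (ℂ × ℂ)) (e : Fin 4 → ℂ × ℂ)
    (he : ∀ i j, g (e i) (e j) = if i = j then 1 else 0) :
    ∑ i, g (R (e i)) (e i) = LinearMap.trace ℝ (ℂ × ℂ) R := by
  have hli : LinearIndependent ℝ e := by
    rw [Fintype.linearIndependent_iff]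
    intro c hc j
    have h := rc4_sum g gadd gsmul e he c j
    have h0 : g 0 (e j) = 0 := by
      have := gsmul 0 0 (e j)
      rwa [zero_smul, zero_mul] at this
    rw [hc, h0] at h
    exact h.symm
  have hfr : Module.finrank ℝ (ℂ × ℂ) = 4 := by
    rw [Module.finrank_prod, Complex.finrank_real_complex]
  have hcard : Fintype.card (Fin 4) = Module.finrank ℝ (ℂ × ℂ) := by
    rw [hfr, Fintype.card_fin]
  let b := basisOfLinearIndependentOfCardEqFinrank hli hcard
  have hb : ∀ i, b i = e i := fun i => by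
    show (basisOfLinearIndependentOfCardEqFinrank hli hcard) i = e i
    rw [coe_basisOfLinearIndependentOfCardEqFinrank]
  have hrepr : ∀ (u : ℂ × ℂ) (j : Fin 4), g u (e j) = b.repr u j := by
    intro u j
    have h := rc4_sum g gadd gsmul e he (fun i => b.repr u i) j
    have h2 : ∑ i, b.repr u i • e i = u := by
      have := b.sum_repr u
      simp only [hb] at this
      exact this
    rw [h2] at h
    exact h
  rw [LinearMap.trace_eq_matrix_trace ℝ b R, Matrix.trace]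
  refine Finset.sum_congr rfl fun i _ => ?_
  rw [Matrix.diag_apply, LinearMap.toMatrix_apply, hb, hrepr]

theorem trace_orthonormal (g : ℂ × ℂ → ℂ × ℂ → ℝ) (gadd : ∀ u v w, g (u + v) w = g u w + g v w)
    (gsmul : ∀ (r : ℝ) u v, g (r • u) v = r * g u v) (gsymm : ∀ u v, g u v = g v u)
    (R : (ℂ × ℂ) →ₗ[ℝ] (ℂ × ℂ)) (e f : Fin 4 → ℂ × ℂ)
    (he : ∀ i j, g (e i) (e j) = if i = j then 1 else 0)
    (hf : ∀ i j, g (f i) (f j) = if i = j then 1 else 0) :
    ∑ i, g (R (e i)) (e i) = ∑ i, g (R (f i)) (f i) := by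
  rw [rc4_trace g gadd gsmul R e he, rc4_trace g gadd gsmul R f hf]

end Pool.Agent.KH
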