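import Pool.Agent.Lib.MP_93b649_gt.BModel2
import Pool.Agent.Lib.MP_93b649_gt.RA2
import Pool.Agent.Lib.MP_93b649_gt.RA3
import Pool.Agent.Lib.MP_93b649_gt.RC4

/-! # ROW RA4: negative curvature of the model; norm estimates; Ricci curvature

* `neg_curved`: `curvature` (BModel2), `coeff` (RA2) and `Q_pos` (RA3); the map `u ↦ (u.2, c2 x u)` is real linear and injective
  (`u.1 = c2 x u - e t u.2`), so linear independence of `u, v` gives that of the pairs (`LinearIndependent.pair_iff`).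
* `norm_est`: `metric_self`, `G_H ≥ P`.
* `ricci`: `riemann_linear D.isConn hx v v` gives `R` with `riemann u v v = R u`; `trace_orthonormal` with the basis
  `f = ![(-(e t)/√G_H, 1/√G_H), I • f 0, (1/√G_V, 0), I • f 2]`, so `f_0` has `(u_W, c2) = (1/√G_H, 0)`, `f_2` has `(0, 1/√G_V)`;
  orthonormal for `metric x`. By `curvature` the sum over `f` is `-½ ∑ Q(…)`; with `v_1 = v.2`, `v_2 = c2 x v`, `a = 1/√G_H`:
  `Q(a,0;v) + Q(ia,0;v) = 4a² [α|v_1|² + β|v_2|² + 2 Re(σ v_1 conj v_2)]`, and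
  `Q(0,b;v) + Q(0,ib;v) = 4b² [γ|v_2|² + β|v_1|²]`, `b = 1/√G_V` (`ring` in real and imaginary parts).
  So `Ric(v,v) = -2{(α/G_H + β/G_V)|v_1|² + (β/G_H + γ/G_V)|v_2|² + (2/G_H) Re(σ v_1 conj v_2)}` and with `h = L/P`:
  `β ≥ h G_H G_V` (coeff) gives `β/G_V ≥ h G_H`, `β/(2G_H) ≥ h G_V/2`; `α β/2 ≥ |σ|²` (coeff) gives
  `α|v_1|² + (β/2)|v_2|² + 2Re(σ v_1 conj v_2) ≥ 0`. Hence `Ric(v,v) ≤ -2{h G_H|v_1|² + (h/2) G_V|v_2|²} ≤ -h metric x v v`. -/

open scoped ContDiff Topology ComplexConjugate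
open Set

noncomputable section

namespace Pool.Agent.KH

namespace CData

/-- `Q` for the horizontal directions -/
theorem ra4_QH (α β γ a : ℝ) (σ v w : ℂ) :
    Q α β γ σ a 0 v w + Q α β γ σ (Complex.I * a) 0 v w =
      4 * (a * a) * (α * Complex.normSq v + β * Complex.normSq w + 2 * (σ * v * conj w).re) := by
  unfold Q
  simp only [Complex.normSq_apply, Complex.mul_re, Complex.mul_im, Complex.conj_re, Complex.conj_im,
    Complex.ofReal_re, Complex.ofReal_im, Complex.I_re, Complex.I_im, Complex.sub_re, Complex.sub_im,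
    Complex.zero_re, Complex.zero_im]
  ring

/-- `Q` for the vertical directions -/
theorem ra4_QV (α β γ b : ℝ) (σ v w : ℂ) :
    Q α β γ σ 0 b v w + Q α β γ σ 0 (Complex.I * b) v w =
      4 * (b * b) * (γ * Complex.normSq w + β * Complex.normSq v) := by
  unfold Q
  simp only [Complex.normSq_apply, Complex.mul_re, Complex.mul_im, Complex.conj_re, Complex.conj_im,
    Complex.ofReal_re, Complex.ofReal_im, Complex.I_re, Complex.I_im, Complex.sub_re, Complex.sub_im,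
    Complex.zero_re, Complex.zero_im]
  ring

/-- the quadratic form is not negative -/
theorem ra4_quad {α β γ : ℝ} {σ v w : ℂ} (hβ : 0 < β) (hγ : 0 < γ)
    (hα : β ^ 2 / γ + 2 * Complex.normSq σ / β < α) :
    0 ≤ α * Complex.normSq v + β / 2 * Complex.normSq w + 2 * (σ * v * conj w).re := by
  have h1 : 0 ≤ β ^ 2 / γ := div_nonneg (sq_nonneg _) hγ.le
  have h2 : 2 * Complex.normSq σ / β ≤ α := by linarith
  rw [div_le_iff₀ hβ] at h2
  have hσ := Complex.normSq_nonneg σ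
  have hv := Complex.normSq_nonneg v
  have hw := Complex.normSq_nonneg w
  have hα0 : 0 ≤ α := by
    have : 0 ≤ 2 * Complex.normSq σ / β := div_nonneg (mul_nonneg zero_le_two hσ) hβ.le
    linarith
  have h3 : (σ * v * conj w).re ^ 2 ≤ Complex.normSq σ * (Complex.normSq v * Complex.normSq w) := by
    have h4 := Complex.re_sq_le_normSq (σ * v * conj w)
    rw [map_mul, map_mul, Complex.normSq_conj, mul_assoc (Complex.normSq σ)] at h4
    rw [sq]
    exact h4
  set r := (σ * v * conj w).re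
  set p := Complex.normSq v
  set q := Complex.normSq w
  set s := Complex.normSq σ
  have hpq : 0 ≤ p * q := mul_nonneg hv hw
  have h5 : 0 ≤ α * p + β / 2 * q := add_nonneg (mul_nonneg hα0 hv) (mul_nonneg (by linarith) hw)
  have h6 : (2 * r) ^ 2 ≤ (α * p + β / 2 * q) ^ 2 := by
    have h7 : 2 * s * (p * q) ≤ α * β * (p * q) := mul_le_mul_of_nonneg_right h2 hpq
    have h8 : 0 ≤ (α * p - β / 2 * q) ^ 2 := sq_nonneg _
    have h9 : (α * p + β / 2 * q) ^ 2 = (α * p - β / 2 * q) ^ 2 + 2 * (α * β * (p * q)) := by ring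
    rw [h9]
    have h10 : (2 * r) ^ 2 = 4 * r ^ 2 := by ring
    rw [h10]
    linarith
  have h7 := abs_le_of_sq_le_sq' h6 h5
  linarith [h7.1]

/-- the final estimate -/
theorem ra4_real {α β γ GH GV h a b p q r : ℝ} (hH : 0 < GH) (hh : 0 < h) (hγ : 0 < γ) (hp : 0 ≤ p)
    (hq : 0 ≤ q) (ha : GH * (a * a) = 1) (hb : GV * (b * b) = 1) (hβ : h * GH * GV ≤ β)
    (hquad : 0 ≤ α * p + β / 2 * q + 2 * r) :
    -(4 * (a * a) * (α * p + β * q + 2 * r)) / 2 + -(4 * (b * b) * (γ * q + β * p)) / 2 ≤ -h * (GH * p + GV * q) := by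
  have ha0 : 0 ≤ a * a := mul_self_nonneg a
  have hb0 : 0 ≤ b * b := mul_self_nonneg b
  have h1 : h * GV ≤ (a * a) * β := by
    have := mul_le_mul_of_nonneg_left hβ ha0
    have e : a * a * (h * GH * GV) = h * GV * (GH * (a * a)) := by ring
    rw [e, ha, mul_one] at this
    exact this
  have h2 : h * GH ≤ (b * b) * β := by
    have := mul_le_mul_of_nonneg_left hβ hb0
    have e : b * b * (h * GH * GV) = h * GH * (GV * (b * b)) := by ring
    rw [e, hb, mul_one] at this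
    exact this
  have h3 : 0 ≤ (a * a) * (α * p + β / 2 * q + 2 * r) := mul_nonneg ha0 hquad
  have h4 : 0 ≤ (b * b) * (γ * q) := mul_nonneg hb0 (mul_nonneg hγ.le hq)
  have h5 : h * GV * q ≤ (a * a) * β * q := mul_le_mul_of_nonneg_right h1 hq
  have h6 : h * GH * p ≤ (b * b) * β * p := mul_le_mul_of_nonneg_right h2 hp
  have h7 : 0 ≤ h * GH * p := mul_nonneg (mul_nonneg hh.le hH.le) hp
  have e1 : -(4 * (a * a) * (α * p + β * q + 2 * r)) / 2 + -(4 * (b * b) * (γ * q + β * p)) / 2 =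
      -2 * ((a * a) * (α * p + β / 2 * q + 2 * r)) - (a * a) * β * q - 2 * ((b * b) * (γ * q)) - 2 * ((b * b) * β * p) := by
    ring
  rw [e1]
  have e2 : -h * (GH * p + GV * q) = -(h * GH * p) - h * GV * q := by ring
  rw [e2]
  linarith

variable (D : CData)

theorem neg_curved (hD : D.Good) {x : ℂ × ℂ} (hx : x ∈ D.MS) (u v : ℂ × ℂ)
    (h : LinearIndependent ℝ ![u, v]) : D.metric x (riemann D.metric x u v v) u < 0 := by
  obtain ⟨hβ, hγ, hα, -⟩ := D.coeff hD hx
  rw [D.curvature hx]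
  have hlin : LinearIndependent ℝ ![(u.2, D.c2 x u), (v.2, D.c2 x v)] := by
    rw [LinearIndependent.pair_iff] at h ⊢
    intro s t hst
    apply h s t
    have h1 : s • u.2 + t • v.2 = 0 := congrArg Prod.fst hst
    have h2 : s • D.c2 x u + t • D.c2 x v = 0 := congrArg Prod.snd hst
    have h3 : D.c2 x (s • u + t • v) = 0 := by
      rw [D.c2_add]
      have e1 : s • u = (s : ℂ) • u := (Complex.coe_smul s u).symm
      have e2 : t • v = (t : ℂ) • v := (Complex.coe_smul t v).symm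
      rw [e1, e2, D.c2_smul, D.c2_smul]
      simpa [Complex.real_smul] using h2
    have h4 : (s • u + t • v).2 = 0 := h1
    have h5 : (s • u + t • v).1 = 0 := by
      unfold c2 at h3
      rw [h4, mul_zero, add_zero] at h3
      exact h3
    exact Prod.ext h5 h4
  have := Q_pos hβ hγ hα hlin
  linarith

theorem ricci (hD : D.Good) {x : ℂ × ℂ} (hx : x ∈ D.MS) (e : Fin 4 → ℂ × ℂ)
    (he : ∀ i j, D.metric x (e i) (e j) = if i = j then 1 else 0) (v : ℂ × ℂ) :
    ∑ i, D.metric x (riemann D.metric x (e i) v v) (e i) ≤ - (D.L x.2.re / D.P x.2.re) * D.metric x v v := by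
  obtain ⟨hβ, hγ, hα, hβ'⟩ := D.coeff hD hx
  obtain ⟨-, hGH, hGV, -⟩ := D.basic hx
  obtain ⟨R, hR⟩ := riemann_linear D.isConn hx v v
  obtain ⟨a, ha⟩ : ∃ a : ℝ, D.GH x * (a * a) = 1 := by
    refine ⟨1 / Real.sqrt (D.GH x), ?_⟩
    rw [div_mul_div_comm, Real.mul_self_sqrt hGH.le, one_mul, mul_one_div_cancel hGH.ne']
  obtain ⟨b, hb⟩ : ∃ b : ℝ, D.GV x * (b * b) = 1 := by
    refine ⟨1 / Real.sqrt (D.GV x), ?_⟩
    rw [div_mul_div_comm, Real.mul_self_sqrt hGV.le, one_mul, mul_one_div_cancel hGV.ne']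
  obtain ⟨f0, hf0⟩ : ∃ f0 : ℂ × ℂ, f0 = (-(D.e x.2.re * x.1 * a), (a : ℂ)) := ⟨_, rfl⟩
  obtain ⟨f2, hf2⟩ : ∃ f2 : ℂ × ℂ, f2 = ((b : ℂ), 0) := ⟨_, rfl⟩
  have c0 : D.c2 x f0 = 0 := by
    rw [hf0]
    unfold c2
    ring
  have c1 : D.c2 x (Complex.I • f0) = 0 := by rw [D.c2_smul, c0, mul_zero]
  have c2' : D.c2 x f2 = b := by
    rw [hf2]
    unfold c2
    ring
  have c3 : D.c2 x (Complex.I • f2) = Complex.I * b := by rw [D.c2_smul, c2']
  have s0 : f0.2 = a := by rw [hf0]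
  have s1 : (Complex.I • f0).2 = Complex.I * a := by rw [hf0]; rfl
  have s2 : f2.2 = 0 := by rw [hf2]
  have s3 : (Complex.I • f2).2 = 0 := by rw [hf2]; simp
  have hm : ∀ u w : ℂ × ℂ, D.metric x u w = D.GH x * (u.2.re * w.2.re + u.2.im * w.2.im) +
      D.GV x * ((D.c2 x u).re * (D.c2 x w).re + (D.c2 x u).im * (D.c2 x w).im) := by
    intro u w
    unfold metric hm
    simp only [Complex.add_re, Complex.mul_re, Complex.mul_im, Complex.conj_re, Complex.conj_im,
      Complex.ofReal_re, Complex.ofReal_im]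
    ring
  have hf : ∀ i j, D.metric x ((![f0, Complex.I • f0, f2, Complex.I • f2] : Fin 4 → ℂ × ℂ) i)
      ((![f0, Complex.I • f0, f2, Complex.I • f2] : Fin 4 → ℂ × ℂ) j) = if i = j then 1 else 0 := by
    intro i j
    rw [hm]
    fin_cases i <;> fin_cases j <;>
      simp [c0, c1, c2', c3, s0, s1, s2, s3, ha, hb]
  have htr := trace_orthonormal (D.metric x) (D.metric_add x) (D.metric_smul x) (D.metric_symm x) R e _ he hf
  have h1 : ∑ i, D.metric x (riemann D.metric x (e i) v v) (e i) = ∑ i, D.metric x (R (e i)) (e i) :=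
    Finset.sum_congr rfl fun i _ => by rw [hR]
  rw [h1, htr, Fin.sum_univ_four]
  have k0 : ∀ w, D.metric x (R w) w = - Q (D.α x) (D.β x) (D.γ x) (D.σ x) w.2 (D.c2 x w) v.2 (D.c2 x v) / 2 := by
    intro w
    rw [← hR, D.curvature hx]
  have e1 : D.metric x (R f0) f0 + D.metric x (R (Complex.I • f0)) (Complex.I • f0) + D.metric x (R f2) f2 +
      D.metric x (R (Complex.I • f2)) (Complex.I • f2) =
      -(4 * (a * a) * (D.α x * Complex.normSq v.2 + D.β x * Complex.normSq (D.c2 x v) +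
        2 * (D.σ x * v.2 * conj (D.c2 x v)).re)) / 2 +
      -(4 * (b * b) * (D.γ x * Complex.normSq (D.c2 x v) + D.β x * Complex.normSq v.2)) / 2 := by
    rw [k0, k0, k0, k0, c0, c1, c2', c3, s0, s1, s2, s3, ← ra4_QH (D.α x) (D.β x) (D.γ x),
      ← ra4_QV (D.α x) (D.β x) (D.γ x) b (D.σ x)]
    ring
  have e2 : D.metric x (R ((![f0, Complex.I • f0, f2, Complex.I • f2] : Fin 4 → ℂ × ℂ) 0))
      ((![f0, Complex.I • f0, f2, Complex.I • f2] : Fin 4 → ℂ × ℂ) 0) +
      D.metric x (R ((![f0, Complex.I • f0, f2, Complex.I • f2] : Fin 4 → ℂ × ℂ) 1))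
      ((![f0, Complex.I • f0, f2, Complex.I • f2] : Fin 4 → ℂ × ℂ) 1) +
      D.metric x (R ((![f0, Complex.I • f0, f2, Complex.I • f2] : Fin 4 → ℂ × ℂ) 2))
      ((![f0, Complex.I • f0, f2, Complex.I • f2] : Fin 4 → ℂ × ℂ) 2) +
      D.metric x (R ((![f0, Complex.I • f0, f2, Complex.I • f2] : Fin 4 → ℂ × ℂ) 3))
      ((![f0, Complex.I • f0, f2, Complex.I • f2] : Fin 4 → ℂ × ℂ) 3) = D.metric x (R f0) f0 +
      D.metric x (R (Complex.I • f0)) (Complex.I • f0) + D.metric x (R f2) f2 +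
      D.metric x (R (Complex.I • f2)) (Complex.I • f2) := rfl
  rw [e2, e1, D.metric_self]
  exact ra4_real hGH (div_pos (D.L_pos _) (D.P_pos _)) hγ (Complex.normSq_nonneg _) (Complex.normSq_nonneg _)
    ha hb hβ' (ra4_quad hβ hγ hα)

end CData

end Pool.Agent.KH
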