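import Pool.Agent.Lib.MP_93b649_gt.BConn

/-! # ROW RC1: uniqueness of the Levi-Civita connection

All of `IsConn` is pointwise. Proofs:
* `christoffel_eq`: at `x ∈ U`, `christoffelLower g x u v w = g x (Γ x u v) w` for all `w`: insert `compat` (for the three
  derivatives `partialD`), use `symm` and `gsymm`; so `a = Γ x u v` satisfies the condition in the `epsilon`
  (`Classical.epsilon_spec`), and it is the only one: if `g x a w = g x a' w` for all `w` then `w = a - a'` gives
  `g x (a-a') (a-a') = 0` (`add`, `smul` with `r = -1`), so `a = a'` by `pos`.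
* `riemann_eq`: near `x` (`U` is open) `christoffel g y a b = Γ y a b`, so the derivatives agree
  (`Filter.EventuallyEq.fderiv_eq`).
* `riemann_linear`: by `riemann_eq`, `gsymm`, `gadd`, `gsmul` the right side is additive and homogeneous in `u`:
  `fderiv ℝ (fun y => Γ y v w) x u` is linear in `u`; near `x`, `Γ y (u+u') w = Γ y u w + Γ y u' w`, take derivatives
  (`fderiv_fun_add`, `gdiff`), etc.
* `riemann_congr`: if `g = g'` near `x` then `partialD`, `christoffelLower`, `christoffel` agree near `x`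
  (`Filter.Eventually.eventually_nhds`). (There is a similar proof in `Pool/Agent/Lib/MP_f72ae4_gt/Chr.lean`.)
-/

open scoped ContDiff Topology
open Set

noncomputable section

namespace Pool.Agent.KH

theorem rc1_lower {U : Set (ℂ × ℂ)} {g : Form} {Γ : Conn} (h : IsConn U g Γ)
    {x : ℂ × ℂ} (hx : x ∈ U) (u v w : ℂ × ℂ) : christoffelLower g x u v w = g x (Γ x u v) w := by
  unfold christoffelLower partialD
  rw [h.compat x hx u v w, h.compat x hx v u w, h.compat x hx w u v, h.gsymm x hx v u, h.gsymm x hx w u,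
    h.gsymm x hx w v, h.symm x hx v (Γ x u w)]
  ring

theorem rc1_sub {U : Set (ℂ × ℂ)} {g : Form} {Γ : Conn} (h : IsConn U g Γ)
    {x : ℂ × ℂ} (hx : x ∈ U) (a b w : ℂ × ℂ) : g x (a - b) w = g x a w - g x b w := by
  have e : a - b = a + (-1 : ℝ) • b := by
    rw [neg_one_smul, sub_eq_add_neg]
  rw [e, h.add x hx, h.smul x hx]
  ring

theorem christoffel_eq {U : Set (ℂ × ℂ)} {g : Form} {Γ : Conn} (h : IsConn U g Γ)
    {x : ℂ × ℂ} (hx : x ∈ U) (u v : ℂ × ℂ) : christoffel g x u v = Γ x u v := by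
  have h1 : ∀ w, g x (christoffel g x u v) w = christoffelLower g x u v w := by
    have h2 : ∃ a : ℂ × ℂ, ∀ w, g x a w = christoffelLower g x u v w :=
      ⟨Γ x u v, fun w => (rc1_lower h hx u v w).symm⟩
    exact Classical.epsilon_spec h2
  by_contra hne
  have h3 : christoffel g x u v - Γ x u v ≠ 0 := sub_ne_zero.2 hne
  have h4 := h.pos x hx _ h3
  rw [rc1_sub h hx, h1, rc1_lower h hx, sub_self] at h4
  exact lt_irrefl _ h4

theorem rc1_fderiv {U : Set (ℂ × ℂ)} {g : Form} {Γ : Conn} (h : IsConn U g Γ)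
    {x : ℂ × ℂ} (hx : x ∈ U) (v w : ℂ × ℂ) :
    fderiv ℝ (fun y => christoffel g y v w) x = fderiv ℝ (fun y => Γ y v w) x := by
  apply Filter.EventuallyEq.fderiv_eq
  filter_upwards [h.isOpen.mem_nhds hx] with y hy
  exact christoffel_eq h hy v w

theorem riemann_eq {U : Set (ℂ × ℂ)} {g : Form} {Γ : Conn} (h : IsConn U g Γ)
    {x : ℂ × ℂ} (hx : x ∈ U) (u v w : ℂ × ℂ) : riemann g x u v w =
      fderiv ℝ (fun y => Γ y v w) x u - fderiv ℝ (fun y => Γ y u w) x v
        + Γ x u (Γ x v w) - Γ x v (Γ x u w) := by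
  unfold riemann
  rw [rc1_fderiv h hx, rc1_fderiv h hx, christoffel_eq h hx v w, christoffel_eq h hx u w, christoffel_eq h hx u,
    christoffel_eq h hx v]

theorem rc1_fderiv_add {U : Set (ℂ × ℂ)} {g : Form} {Γ : Conn} (h : IsConn U g Γ)
    {x : ℂ × ℂ} (hx : x ∈ U) (u u' w v : ℂ × ℂ) :
    fderiv ℝ (fun y => Γ y (u + u') w) x v = fderiv ℝ (fun y => Γ y u w) x v + fderiv ℝ (fun y => Γ y u' w) x v := by
  have h1 : fderiv ℝ (fun y => Γ y (u + u') w) x = fderiv ℝ (fun y => Γ y u w + Γ y u' w) x := by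
    apply Filter.EventuallyEq.fderiv_eq
    filter_upwards [h.isOpen.mem_nhds hx] with y hy
    exact h.gadd y hy u u' w
  rw [h1, fderiv_fun_add (h.gdiff x hx u w) (h.gdiff x hx u' w)]
  rfl

theorem rc1_fderiv_smul {U : Set (ℂ × ℂ)} {g : Form} {Γ : Conn} (h : IsConn U g Γ)
    {x : ℂ × ℂ} (hx : x ∈ U) (r : ℝ) (u w v : ℂ × ℂ) :
    fderiv ℝ (fun y => Γ y (r • u) w) x v = r • fderiv ℝ (fun y => Γ y u w) x v := by
  have h1 : fderiv ℝ (fun y => Γ y (r • u) w) x = fderiv ℝ (fun y => r • Γ y u w) x := by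
    apply Filter.EventuallyEq.fderiv_eq
    filter_upwards [h.isOpen.mem_nhds hx] with y hy
    exact h.gsmul y hy r u w
  rw [h1, fderiv_fun_const_smul (h.gdiff x hx u w)]
  rfl

theorem riemann_linear {U : Set (ℂ × ℂ)} {g : Form} {Γ : Conn} (h : IsConn U g Γ)
    {x : ℂ × ℂ} (hx : x ∈ U) (v w : ℂ × ℂ) : ∃ R : (ℂ × ℂ) →ₗ[ℝ] (ℂ × ℂ), ∀ u, riemann g x u v w = R u := by
  refine ⟨{ toFun := fun u => riemann g x u v w, map_add' := ?_, map_smul' := ?_ }, fun u => rfl⟩
  · intro u u'
    show riemann g x (u + u') v w = riemann g x u v w + riemann g x u' v w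
    rw [riemann_eq h hx, riemann_eq h hx, riemann_eq h hx, map_add, rc1_fderiv_add h hx, h.gadd x hx u u' (Γ x v w),
      h.gadd x hx u u' w, h.gsymm x hx v (Γ x u w + Γ x u' w), h.gadd x hx (Γ x u w) (Γ x u' w) v,
      h.gsymm x hx (Γ x u w) v, h.gsymm x hx (Γ x u' w) v]
    abel
  · intro r u
    show riemann g x (r • u) v w = r • riemann g x u v w
    rw [riemann_eq h hx, riemann_eq h hx, map_smul, rc1_fderiv_smul h hx, h.gsmul x hx r u (Γ x v w),
      h.gsmul x hx r u w, h.gsymm x hx v (r • Γ x u w), h.gsmul x hx r (Γ x u w) v,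
      h.gsymm x hx (Γ x u w) v]
    rw [smul_sub, smul_add, smul_sub]

theorem rc1_partialD {g g' : Form} {y : ℂ × ℂ} (h : ∀ᶠ z in 𝓝 y, ∀ u v, g z u v = g' z u v) (u v w : ℂ × ℂ) :
    partialD g y u v w = partialD g' y u v w := by
  unfold partialD
  have h1 : fderiv ℝ (fun z => g z v w) y = fderiv ℝ (fun z => g' z v w) y := by
    apply Filter.EventuallyEq.fderiv_eq
    filter_upwards [h] with z hz
    exact hz v w
  rw [h1]

theorem rc1_christoffel {g g' : Form} {y : ℂ × ℂ} (h : ∀ᶠ z in 𝓝 y, ∀ u v, g z u v = g' z u v) (u v : ℂ × ℂ) :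
    christoffel g y u v = christoffel g' y u v := by
  unfold christoffel
  congr 1
  funext a
  refine propext (forall_congr' fun w => ?_)
  unfold christoffelLower
  rw [rc1_partialD h, rc1_partialD h, rc1_partialD h, h.self_of_nhds a w]

theorem riemann_congr {g g' : Form} {x : ℂ × ℂ} (h : ∀ᶠ y in 𝓝 x, ∀ u v, g y u v = g' y u v) (u v w : ℂ × ℂ) :
    riemann g x u v w = riemann g' x u v w := by
  have h1 : ∀ a b : ℂ × ℂ, fderiv ℝ (fun y => christoffel g y a b) x = fderiv ℝ (fun y => christoffel g' y a b) x := by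
    intro a b
    apply Filter.EventuallyEq.fderiv_eq
    filter_upwards [h.eventually_nhds] with y hy
    exact rc1_christoffel hy a b
  unfold riemann
  rw [h1, h1, rc1_christoffel h v w, rc1_christoffel h u w, rc1_christoffel h u, rc1_christoffel h v]

end Pool.Agent.KH
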