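import Pool.Agent.Lib.MP_93b649_gt.RC1

/-! # ROW RC2: affine pull-backs

`pull A b g x u v = g (A x + b) (A u) (A v)`, `pullC A b Γ x u v = A⁻¹ Γ (A x + b) (A u) (A v)` with `A` complex linear
(real scalars: `A (r • u) = r • A u` via `((r : ℝ) : ℂ)`, e.g. `(A.restrictScalars ℝ)`).
* `IsConn.pull`: each field at `x` is the field of `h` at `A x + b` for the vectors `A u`, ...; derivatives by the chain rule:
  `fderiv ℝ (fun y => f (A y + b)) x w = fderiv ℝ f (A x + b) (A w)` for `f` differentiable at `A x + b`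
  (`fderiv_comp`, the derivative of `y ↦ A y + b` is `A` restricted to `ℝ`), and
  `fderiv ℝ (fun y => A.symm (f y)) x w = A.symm (fderiv ℝ f x w)`. `isOpen`: preimage of an open set under a continuous map.
* `riemann_pull`: `riemann_eq` for both metrics and the chain rule.
* `closed_of_conn`: `partialD g x u (I•v) w = g (Γ u (I•v)) w + g (I•v) (Γ u w)` by `compat`; `Γ u (I•v) = I • Γ u v`;
  `g (I•a) b = - g a (I•b)` (from `hI` applied to `a`, `I•b`: `g (I•a) (I•(I•b)) = g a (I•b)` and `I•I•b = -b`). The sum of the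
  six terms is `g(IΓ(u,v),w)+g(Iv,Γ(u,w)) + g(IΓ(v,w),u)+g(Iw,Γ(v,u)) + g(IΓ(w,u),v)+g(Iu,Γ(w,v))`; with `symm`, `gsymm`:
  `g(Iw,Γ(v,u)) = -g(w,IΓ(u,v)) = -g(IΓ(u,v),w)` etc. cancel in pairs.
-/

open scoped ContDiff Topology
open Set

noncomputable section

namespace Pool.Agent.KH

theorem rc2_hasF (A : (ℂ × ℂ) ≃L[ℂ] (ℂ × ℂ)) (b x : ℂ × ℂ) :
    HasFDerivAt (fun y => A y + b) ((A : (ℂ × ℂ) →L[ℂ] (ℂ × ℂ)).restrictScalars ℝ) x :=
  ((A : (ℂ × ℂ) →L[ℂ] (ℂ × ℂ)).restrictScalars ℝ).hasFDerivAt.add_const b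

theorem rc2_comp {E : Type*} [NormedAddCommGroup E] [NormedSpace ℝ E] (A : (ℂ × ℂ) ≃L[ℂ] (ℂ × ℂ)) (b x : ℂ × ℂ)
    {f : ℂ × ℂ → E} (hf : DifferentiableAt ℝ f (A x + b)) :
    HasFDerivAt (fun y => f (A y + b))
      ((fderiv ℝ f (A x + b)).comp ((A : (ℂ × ℂ) →L[ℂ] (ℂ × ℂ)).restrictScalars ℝ)) x :=
  HasFDerivAt.comp x hf.hasFDerivAt (rc2_hasF A b x)

theorem rc2_comp_apply {E : Type*} [NormedAddCommGroup E] [NormedSpace ℝ E] (A : (ℂ × ℂ) ≃L[ℂ] (ℂ × ℂ))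
    (b x : ℂ × ℂ) {f : ℂ × ℂ → E} (hf : DifferentiableAt ℝ f (A x + b)) (w : ℂ × ℂ) :
    fderiv ℝ (fun y => f (A y + b)) x w = fderiv ℝ f (A x + b) (A w) := by
  rw [(rc2_comp A b x hf).fderiv]
  rfl

theorem rc2_symm (A : (ℂ × ℂ) ≃L[ℂ] (ℂ × ℂ)) (x : ℂ × ℂ) {f : ℂ × ℂ → ℂ × ℂ} (hf : DifferentiableAt ℝ f x) :
    HasFDerivAt (fun y => A.symm (f y))
      (((A.symm : (ℂ × ℂ) →L[ℂ] (ℂ × ℂ)).restrictScalars ℝ).comp (fderiv ℝ f x)) x :=
  HasFDerivAt.comp x ((A.symm : (ℂ × ℂ) →L[ℂ] (ℂ × ℂ)).restrictScalars ℝ).hasFDerivAt hf.hasFDerivAt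

theorem rc2_symm_apply (A : (ℂ × ℂ) ≃L[ℂ] (ℂ × ℂ)) (x : ℂ × ℂ) {f : ℂ × ℂ → ℂ × ℂ}
    (hf : DifferentiableAt ℝ f x) (w : ℂ × ℂ) :
    fderiv ℝ (fun y => A.symm (f y)) x w = A.symm (fderiv ℝ f x w) := by
  rw [(rc2_symm A x hf).fderiv]
  rfl

theorem rc2_smul (A : (ℂ × ℂ) ≃L[ℂ] (ℂ × ℂ)) (r : ℝ) (u : ℂ × ℂ) : A (r • u) = r • A u :=
  (A : (ℂ × ℂ) →ₗ[ℂ] (ℂ × ℂ)).map_smul_of_tower r u

theorem IsConn.pull {U : Set (ℂ × ℂ)} {g : Form} {Γ : Conn} (h : IsConn U g Γ)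
    (A : (ℂ × ℂ) ≃L[ℂ] (ℂ × ℂ)) (b : ℂ × ℂ) :
    IsConn ((fun x => A x + b) ⁻¹' U) (KH.pull A b g) (pullC A b Γ) where
  isOpen := h.isOpen.preimage (A.continuous.add continuous_const)
  add := fun x hx u v w => by
    simp only [KH.pull, map_add]
    exact h.add _ hx _ _ _
  smul := fun x hx r u v => by
    simp only [KH.pull, rc2_smul]
    exact h.smul _ hx _ _ _
  symm := fun x hx u v => h.symm _ hx _ _
  pos := fun x hx v hv => h.pos _ hx _ (by simpa using hv)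
  gsymm := fun x hx u v => by
    simp only [pullC]
    rw [h.gsymm _ hx]
  gadd := fun x hx u v w => by
    simp only [pullC, map_add]
    rw [h.gadd _ hx, map_add]
  gsmul := fun x hx r u v => by
    simp only [pullC, rc2_smul]
    rw [h.gsmul _ hx, rc2_smul]
  gdiff := fun x hx u v => by
    have h1 := rc2_comp A b x (h.gdiff _ hx (A u) (A v))
    exact (rc2_symm A x h1.differentiableAt).differentiableAt
  diff := fun x hx u v => (rc2_comp A b x (h.diff _ hx (A u) (A v))).differentiableAt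
  compat := fun x hx w u v => by
    have h1 := rc2_comp_apply A b x (h.diff _ hx (A u) (A v)) w
    simp only [KH.pull, pullC, ContinuousLinearEquiv.apply_symm_apply]
    rw [h1]
    exact h.compat _ hx _ _ _

theorem rc2_fderiv {U : Set (ℂ × ℂ)} {g : Form} {Γ : Conn} (h : IsConn U g Γ)
    (A : (ℂ × ℂ) ≃L[ℂ] (ℂ × ℂ)) (b : ℂ × ℂ) {x : ℂ × ℂ} (hx : A x + b ∈ U) (u v w : ℂ × ℂ) :
    fderiv ℝ (fun y => pullC A b Γ y v w) x u = A.symm (fderiv ℝ (fun y => Γ y (A v) (A w)) (A x + b) (A u)) := by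
  have h1 := rc2_comp A b x (h.gdiff _ hx (A v) (A w))
  have h2 := rc2_symm_apply A x h1.differentiableAt u
  have h3 := rc2_comp_apply A b x (h.gdiff _ hx (A v) (A w)) u
  rw [h3] at h2
  exact h2

theorem riemann_pull {U : Set (ℂ × ℂ)} {g : Form} {Γ : Conn} (h : IsConn U g Γ)
    (A : (ℂ × ℂ) ≃L[ℂ] (ℂ × ℂ)) (b : ℂ × ℂ) {x : ℂ × ℂ} (hx : A x + b ∈ U) (u v w : ℂ × ℂ) :
    riemann (KH.pull A b g) x u v w = A.symm (riemann g (A x + b) (A u) (A v) (A w)) := by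
  rw [riemann_eq (h.pull A b) (x := x) hx, riemann_eq h hx, rc2_fderiv h A b hx, rc2_fderiv h A b hx]
  simp only [pullC, ContinuousLinearEquiv.apply_symm_apply, map_add, map_sub]

theorem closed_of_conn {U : Set (ℂ × ℂ)} {g : Form} {Γ : Conn} (h : IsConn U g Γ)
    {x : ℂ × ℂ} (hx : x ∈ U)
    (hI : ∀ u v, g x (Complex.I • u) (Complex.I • v) = g x u v)
    (hΓ : ∀ u v, Γ x u (Complex.I • v) = Complex.I • Γ x u v) (u v w : ℂ × ℂ) :
    partialD g x u (Complex.I • v) w + partialD g x v (Complex.I • w) u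
    + partialD g x w (Complex.I • u) v = 0 := by
  have hneg : ∀ a c : ℂ × ℂ, g x (-a) c = - g x a c := by
    intro a c
    have h1 := h.smul x hx (-1) a c
    rw [neg_one_smul] at h1
    linarith
  have hneg' : ∀ a c : ℂ × ℂ, g x a (-c) = - g x a c := by
    intro a c
    rw [h.symm x hx, hneg, h.symm x hx]
  have hII : ∀ c : ℂ × ℂ, Complex.I • (Complex.I • c) = -c := by
    intro c
    rw [smul_smul, Complex.I_mul_I, neg_one_smul]
  have hJ : ∀ a c : ℂ × ℂ, g x (Complex.I • a) c = - g x a (Complex.I • c) := by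
    intro a c
    have h1 := hI a (Complex.I • c)
    rw [hII, hneg'] at h1
    linarith
  unfold partialD
  rw [h.compat x hx, h.compat x hx, h.compat x hx, hΓ, hΓ, hΓ, hJ (Γ x u v) w, hJ (Γ x v w) u, hJ (Γ x w u) v,
    hJ v, hJ w, hJ u, h.gsymm x hx w u, h.gsymm x hx v u, h.gsymm x hx w v]
  have e1 := h.symm x hx (Γ x u v) (Complex.I • w)
  have e2 := h.symm x hx (Γ x v w) (Complex.I • u)
  have e3 := h.symm x hx (Γ x u w) (Complex.I • v)
  have f1 := hJ w (Γ x u v)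
  have f2 := hJ u (Γ x v w)
  have f3 := hJ v (Γ x u w)
  linarith

end Pool.Agent.KH
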