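import Pool.Agent.Lib.MP_93b649_gt.BDist

/-! # ROW RD1: joint continuity and local boundedness

Expand in the real basis `(1,0), (i,0), (0,1), (0,i)` of `ℂ²`: `g x u v = ∑_{ij} u_i v_j g x e_i e_j` on `M` (by `add`, `smul`, `symm`), so
`(x,u,v) ↦ g x u v` is continuous on `M × ℂ² × ℂ²` (finite sum of products of continuous functions). `locally_bounded`: on a compact
ball around `x` inside `M` the 16 coefficients are bounded by some `B`; `|u_i| ≤ ‖u‖`, so `g y v v ≤ 16 B ‖v‖² ≤ C²‖v‖²`.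
`curve_cont`: for a `C¹` curve `γ` with `γ s ∈ M` on `[0,1]` the speed `s ↦ √(g(γ s)(γ' s)(γ' s))` is continuous on `[0,1]`. -/

open scoped ContDiff Topology ComplexConjugate
open Set Filter

noncomputable section

namespace Pool.Agent.KH

variable {M : Set (ℂ × ℂ)} {g : Form}

/-- real coordinates on `ℂ²` -/
def rd1_cc (i : Fin 4) (u : ℂ × ℂ) : ℝ := ![u.1.re, u.1.im, u.2.re, u.2.im] i

/-- the real basis of `ℂ²` -/
def rd1_ee (i : Fin 4) : ℂ × ℂ := ![(1, 0), (Complex.I, 0), (0, 1), (0, Complex.I)] i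

theorem rd1_decomp (u : ℂ × ℂ) :
    u = rd1_cc 0 u • rd1_ee 0 + rd1_cc 1 u • rd1_ee 1 + rd1_cc 2 u • rd1_ee 2 + rd1_cc 3 u • rd1_ee 3 := by
  obtain ⟨a, b⟩ := u
  ext <;> simp [rd1_cc, rd1_ee]

theorem rd1_left (h : IsMetric M g) {x : ℂ × ℂ} (hx : x ∈ M) (u v : ℂ × ℂ) :
    g x u v = ∑ i, rd1_cc i u * g x (rd1_ee i) v := by
  rw [Fin.sum_univ_four]
  conv_lhs => rw [rd1_decomp u]
  rw [h.add x hx, h.add x hx, h.add x hx, h.smul x hx, h.smul x hx, h.smul x hx, h.smul x hx]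

theorem rd1_sum (h : IsMetric M g) {x : ℂ × ℂ} (hx : x ∈ M) (u v : ℂ × ℂ) :
    g x u v = ∑ i, ∑ j, rd1_cc i u * (rd1_cc j v * g x (rd1_ee i) (rd1_ee j)) := by
  rw [rd1_left h hx u v]
  refine Finset.sum_congr rfl fun i _ => ?_
  rw [h.symm x hx (rd1_ee i) v, rd1_left h hx v (rd1_ee i), Finset.mul_sum]
  refine Finset.sum_congr rfl fun j _ => ?_
  rw [h.symm x hx (rd1_ee j) (rd1_ee i)]

theorem rd1_cont (i : Fin 4) : Continuous (rd1_cc i) := by
  fin_cases i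
  · exact Complex.continuous_re.comp continuous_fst
  · exact Complex.continuous_im.comp continuous_fst
  · exact Complex.continuous_re.comp continuous_snd
  · exact Complex.continuous_im.comp continuous_snd

theorem rd1_abs (i : Fin 4) (u : ℂ × ℂ) : |rd1_cc i u| ≤ ‖u‖ := by
  fin_cases i
  · exact (Complex.abs_re_le_norm _).trans (norm_fst_le u)
  · exact (Complex.abs_im_le_norm _).trans (norm_fst_le u)
  · exact (Complex.abs_re_le_norm _).trans (norm_snd_le u)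
  · exact (Complex.abs_im_le_norm _).trans (norm_snd_le u)

theorem IsMetric.cont_joint (h : IsMetric M g) :
    ContinuousOn (fun p : (ℂ × ℂ) × (ℂ × ℂ) × (ℂ × ℂ) => g p.1 p.2.1 p.2.2) (M ×ˢ univ) := by
  have h1 : ContinuousOn (fun p : (ℂ × ℂ) × (ℂ × ℂ) × (ℂ × ℂ) =>
      ∑ i, ∑ j, rd1_cc i p.2.1 * (rd1_cc j p.2.2 * g p.1 (rd1_ee i) (rd1_ee j))) (M ×ˢ univ) := by
    refine continuousOn_finsetSum _ fun i _ => continuousOn_finsetSum _ fun j _ => ?_
    refine ContinuousOn.mul ?_ (ContinuousOn.mul ?_ ?_)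
    · exact ((rd1_cont i).comp (continuous_fst.comp continuous_snd)).continuousOn
    · exact ((rd1_cont j).comp (continuous_snd.comp continuous_snd)).continuousOn
    · exact (h.cont (rd1_ee i) (rd1_ee j)).comp continuous_fst.continuousOn fun p hp => hp.1
  refine h1.congr fun p hp => ?_
  exact rd1_sum h hp.1 p.2.1 p.2.2

theorem IsMetric.locally_bounded (h : IsMetric M g) {x : ℂ × ℂ} (hx : x ∈ M) :
    ∃ r > 0, ∃ C > 0, Metric.ball x r ⊆ M ∧ ∀ y ∈ Metric.ball x r, ∀ v, g y v v ≤ C ^ 2 * ‖v‖ ^ 2 := by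
  have h1 : ContinuousOn (fun y : ℂ × ℂ => ∑ i, ∑ j, |g y (rd1_ee i) (rd1_ee j)|) M :=
    continuousOn_finsetSum _ fun i _ => continuousOn_finsetSum _ fun j _ => (h.cont _ _).abs
  have h2 : ContinuousAt (fun y : ℂ × ℂ => ∑ i, ∑ j, |g y (rd1_ee i) (rd1_ee j)|) x :=
    h1.continuousAt (h.isOpen.mem_nhds hx)
  set B : ℝ := (∑ i, ∑ j, |g x (rd1_ee i) (rd1_ee j)|) + 1 with hB
  have hB0 : 0 < B := by
    have : 0 ≤ ∑ i, ∑ j, |g x (rd1_ee i) (rd1_ee j)| :=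
      Finset.sum_nonneg fun i _ => Finset.sum_nonneg fun j _ => abs_nonneg _
    linarith
  have h3 : ∀ᶠ y in 𝓝 x, ∑ i, ∑ j, |g y (rd1_ee i) (rd1_ee j)| < B :=
    h2.eventually_lt_const (by rw [hB]; linarith)
  obtain ⟨r, hr, hball⟩ := Metric.eventually_nhds_iff_ball.1 (h3.and (h.isOpen.eventually_mem hx))
  refine ⟨r, hr, Real.sqrt B, Real.sqrt_pos.2 hB0, fun y hy => (hball y hy).2, fun y hy v => ?_⟩
  obtain ⟨hyB, hyM⟩ := hball y hy
  rw [Real.sq_sqrt hB0.le, rd1_sum h hyM v v]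
  have h4 : ∑ i, ∑ j, rd1_cc i v * (rd1_cc j v * g y (rd1_ee i) (rd1_ee j)) ≤
      ∑ i, ∑ j, |g y (rd1_ee i) (rd1_ee j)| * ‖v‖ ^ 2 := by
    refine Finset.sum_le_sum fun i _ => Finset.sum_le_sum fun j _ => ?_
    refine (le_abs_self _).trans ?_
    rw [abs_mul, abs_mul]
    have a1 := rd1_abs i v
    have a2 := rd1_abs j v
    calc |rd1_cc i v| * (|rd1_cc j v| * |g y (rd1_ee i) (rd1_ee j)|)
        = |g y (rd1_ee i) (rd1_ee j)| * (|rd1_cc i v| * |rd1_cc j v|) := by ring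
      _ ≤ |g y (rd1_ee i) (rd1_ee j)| * (‖v‖ * ‖v‖) :=
          mul_le_mul_of_nonneg_left (mul_le_mul a1 a2 (abs_nonneg _) (norm_nonneg _)) (abs_nonneg _)
      _ = |g y (rd1_ee i) (rd1_ee j)| * ‖v‖ ^ 2 := by rw [sq]
  refine h4.trans ?_
  rw [← Finset.sum_congr rfl fun i _ => Finset.sum_mul Finset.univ _ (‖v‖ ^ 2), ← Finset.sum_mul]
  exact mul_le_mul_of_nonneg_right hyB.le (sq_nonneg _)

theorem IsMetric.curve_cont (h : IsMetric M g) {γ : ℝ → ℂ × ℂ} (hγ : ContDiff ℝ 1 γ) (hM : ∀ s ∈ Icc (0 : ℝ) 1, γ s ∈ M) :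
    ContinuousOn (fun s => Real.sqrt (g (γ s) (deriv γ s) (deriv γ s))) (Icc 0 1) := by
  have h1 : Continuous (fun s : ℝ => (γ s, (deriv γ s, deriv γ s))) :=
    hγ.continuous.prodMk ((hγ.continuous_deriv le_rfl).prodMk (hγ.continuous_deriv le_rfl))
  exact (h.cont_joint.comp h1.continuousOn fun s hs => ⟨hM s hs, mem_univ _⟩).sqrt

end Pool.Agent.KH
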