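import Pool.Agent.Lib.MP_93b649_gt.RD1
import Pool.Agent.Lib.MP_93b649_gt.RD3

/-! # ROW RD4: Lipschitz functions

* `IsLip.joined`: induction on `Joined`; for one curve `γ`: `φ = f ∘ γ` has derivative `fderiv ℝ f (γ s) (γ' s)` at `s ∈ [0,1]`, of absolute value
  `≤ C speed(s)`, and `B(s) = C ∫_0^s speed` has derivative `C speed(s)` (`speed` is continuous on `[0,1]`: `IsMetric.curve_cont`; extend it by
  `Set.IccExtend` or use within-derivatives). So `|f(γ 1) - f(γ 0)| ≤ C curveLength γ`: `image_norm_le_of_norm_deriv_right_le_deriv_boundary'` or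
  `image_le_of_deriv_right_le_deriv_boundary` for `±φ`.
* `IsLip.dist`: infimum over the nonempty set (`hj`) of lengths: `le_csInf` (treat `C = 0` separately or use `exists_lt_of_csInf_lt`). -/

open scoped ContDiff Topology ComplexConjugate
open Set Filter

noncomputable section

namespace Pool.Agent.KH

variable {M : Set (ℂ × ℂ)} {g : Form}

theorem rd4_curve (hg : IsMetric M g) {C : ℝ} {f : ℂ × ℂ → ℝ} (hf : IsLip M g C f)
    {γ : ℝ → ℂ × ℂ} (hγ : ContDiff ℝ 1 γ) (hM : ∀ s ∈ Icc (0 : ℝ) 1, γ s ∈ M) :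
    |f (γ 1) - f (γ 0)| ≤ C * curveLength g γ := by
  obtain ⟨v, hv⟩ : ∃ v : ℝ → ℝ, v = fun s => Real.sqrt (g (γ s) (deriv γ s) (deriv γ s)) := ⟨_, rfl⟩
  have hvc : ContinuousOn v (Icc 0 1) := by rw [hv]; exact hg.curve_cont hγ hM
  obtain ⟨σ, hσdef⟩ : ∃ σ : ℝ → ℝ, σ = Set.IccExtend (zero_le_one' ℝ) (Set.domRestrict (Icc 0 1) v) :=
    ⟨_, rfl⟩
  have hσc : Continuous σ := by
    rw [hσdef]
    exact (continuousOn_iff_continuous_domRestrict.1 hvc).Icc_extend'
  have hσ : ∀ s ∈ Icc (0 : ℝ) 1, σ s = v s := fun s hs => by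
    rw [hσdef]
    exact IccExtend_of_mem _ _ hs
  have hφ : ∀ s ∈ Icc (0 : ℝ) 1, HasDerivAt (fun s => f (γ s) - f (γ 0))
      (fderiv ℝ f (γ s) (deriv γ s)) s := by
    intro s hs
    have h1 : HasDerivAt γ (deriv γ s) s :=
      ((hγ.differentiable (by norm_num)) s).hasDerivAt
    have h2 := (hf (γ s) (hM s hs)).1.hasFDerivAt
    exact (h2.comp_hasDerivAt s h1).sub_const _
  have hB : ∀ s, HasDerivAt (fun s => C * ∫ t in (0 : ℝ)..s, σ t) (C * σ s) s := fun s =>
    (intervalIntegral.integral_hasDerivAt_right (hσc.intervalIntegrable _ _)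
      (hσc.stronglyMeasurableAtFilter _ _) hσc.continuousAt).const_mul C
  have key := image_norm_le_of_norm_deriv_right_le_deriv_boundary'
    (f := fun s => f (γ s) - f (γ 0)) (f' := fun s => fderiv ℝ f (γ s) (deriv γ s))
    (B := fun s => C * ∫ t in (0 : ℝ)..s, σ t) (B' := fun s => C * σ s) (a := 0) (b := 1)
    (fun s hs => (hφ s hs).continuousAt.continuousWithinAt)
    (fun s hs => (hφ s (Ico_subset_Icc_self hs)).hasDerivWithinAt)
    (by simp) (fun s _ => (hB s).continuousAt.continuousWithinAt)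
    (fun s _ => (hB s).hasDerivWithinAt)
    (fun s hs => by
      have hs' := Ico_subset_Icc_self hs
      rw [hσ s hs', hv, Real.norm_eq_abs]
      exact (hf (γ s) (hM s hs')).2 _)
    (right_mem_Icc.2 (zero_le_one' ℝ))
  have h3 : ∫ t in (0 : ℝ)..1, σ t = curveLength g γ := by
    unfold curveLength
    refine intervalIntegral.integral_congr fun t ht => ?_
    rw [uIcc_of_le (zero_le_one' ℝ)] at ht
    rw [hσ t ht, hv]
  rw [Real.norm_eq_abs, h3] at key
  exact key

theorem IsLip.joined (hg : IsMetric M g) {C : ℝ} (hC : 0 ≤ C) {f : ℂ × ℂ → ℝ} (hf : IsLip M g C f)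
    {x y : ℂ × ℂ} {L : ℝ} (h : Joined M g x y L) : |f y - f x| ≤ C * L := by
  induction h with
  | refl hx => simp
  | append γ L h hγ hM ih =>
    have h1 := rd4_curve hg hf hγ hM
    have h2 : f (γ 1) - f x = (f (γ 1) - f (γ 0)) + (f (γ 0) - f x) := by ring
    rw [h2, mul_add]
    refine (abs_add_le _ _).trans ?_
    linarith only [h1, ih]

theorem IsLip.dist (hg : IsMetric M g) (hj : IsJoined M g) {C : ℝ} (hC : 0 ≤ C) {f : ℂ × ℂ → ℝ}
    (hf : IsLip M g C f) {x y : ℂ × ℂ} (hx : x ∈ M) (hy : y ∈ M) :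
    |f y - f x| ≤ C * riemannianDist M g x y := by
  obtain ⟨L₀, hL₀⟩ := hj x hx y hy
  refine le_of_forall_pos_le_add fun ε hε => ?_
  have hC1 : 0 < C + 1 := by linarith only [hC]
  have h1 : sInf {L | Joined M g x y L} < riemannianDist M g x y + ε / (C + 1) :=
    lt_add_of_pos_right _ (div_pos hε hC1)
  obtain ⟨L, hL, hlt⟩ := exists_lt_of_csInf_lt ⟨L₀, hL₀⟩ h1
  have h2 := hf.joined hg hC hL
  have h3 : C * L ≤ C * (riemannianDist M g x y + ε / (C + 1)) :=
    mul_le_mul_of_nonneg_left hlt.le hC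
  have h4 : C * (ε / (C + 1)) ≤ ε := by
    rw [mul_div_assoc', div_le_iff₀ hC1]
    nlinarith only [hε, hC]
  rw [mul_add] at h3
  linarith only [h2, h3, h4]

end Pool.Agent.KH
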