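import Pool.Agent.Lib.MP_93b649_gt.RD3
import Pool.Agent.Lib.MP_93b649_gt.RC1

/-! # ROW RD7: scaling of the metric, `scale τ g = τ g`, `τ > 0`

* `partialD (scale τ g) = τ * partialD g` (also where `g` is not differentiable: `fderiv_const_smul_of_ne_zero`-type lemma, e.g.
  `fderiv_const_mul_field` / `fderiv_const_smul_field`), so `christoffelLower` scales by `τ`; the predicate in the `epsilon` of `christoffel` is equivalent, hence
  `christoffel (scale τ g) = christoffel g` (`funext`, `propext`), `riemann (scale τ g) = riemann g`.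
* `curveLength (scale τ g) γ = √τ curveLength g γ`; so `Joined M (scale τ g) x y (√τ L) ↔ Joined M g x y L` (induction both ways), and the infimum
  scales (`Real.sInf_smul_of_nonneg`: the set is the image of the other one under `√τ •`).
* `isKahler_scale`, `complete_scale` (Cauchy for one iff for the other), `negCurved_scale`: direct.
* `ricci_scale`: if `e` is orthonormal for `τ g` then `√τ e_i` is orthonormal for `g`; `R(√τ e_i) = √τ R(e_i)` by `hlin`;
  `∑ τ g(R e_i, e_i) = ∑ g(R(√τ e_i), √τ e_i) ≤ c g(v,v) = (c/τ) (τ g)(v,v)`. -/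

open scoped ContDiff Topology ComplexConjugate Pointwise
open Set Filter

noncomputable section

namespace Pool.Agent.KH

variable {M : Set (ℂ × ℂ)} {g : Form}

theorem rd7_partialD (τ : ℝ) (x u v w : ℂ × ℂ) : partialD (scale τ g) x u v w = τ * partialD g x u v w := by
  unfold partialD scale
  have h : (fun y => τ * g y v w) = τ • (fun y => g y v w) := rfl
  rw [h, fderiv_const_smul_field]
  rfl

theorem rd7_lower (τ : ℝ) (x u v w : ℂ × ℂ) :
    christoffelLower (scale τ g) x u v w = τ * christoffelLower g x u v w := by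
  unfold christoffelLower
  rw [rd7_partialD, rd7_partialD, rd7_partialD]
  ring

theorem rd7_christoffel {τ : ℝ} (hτ : 0 < τ) (x u v : ℂ × ℂ) :
    christoffel (scale τ g) x u v = christoffel g x u v := by
  unfold christoffel
  congr 1
  funext a
  apply propext
  refine forall_congr' fun w => ?_
  rw [rd7_lower]
  unfold scale
  exact mul_right_inj' hτ.ne'

theorem riemann_scale {τ : ℝ} (hτ : 0 < τ) (x u v w : ℂ × ℂ) :
    riemann (scale τ g) x u v w = riemann g x u v w := by
  unfold riemann
  simp only [rd7_christoffel hτ]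

theorem rd7_length {τ : ℝ} (hτ : 0 < τ) (γ : ℝ → ℂ × ℂ) :
    curveLength (scale τ g) γ = Real.sqrt τ * curveLength g γ := by
  unfold curveLength scale
  rw [← intervalIntegral.integral_const_mul]
  congr 1
  funext s
  exact Real.sqrt_mul hτ.le _

theorem rd7_joined {τ : ℝ} (hτ : 0 < τ) {x y : ℂ × ℂ} {L : ℝ} (h : Joined M g x y L) :
    Joined M (scale τ g) x y (Real.sqrt τ * L) := by
  induction h with
  | refl hx =>
    rw [mul_zero]
    exact Joined.refl _ hx
  | append γ L h hγ hM ih =>
    rw [mul_add, ← rd7_length hτ]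
    exact Joined.append _ γ _ ih hγ hM

theorem rd7_inv {τ : ℝ} (hτ : 0 < τ) : scale τ⁻¹ (scale τ g) = g := by
  funext x u v
  unfold scale
  exact inv_mul_cancel_left₀ hτ.ne' _

theorem rd7_joined' {τ : ℝ} (hτ : 0 < τ) {x y : ℂ × ℂ} {L : ℝ} (h : Joined M (scale τ g) x y L) :
    ∃ L', Joined M g x y L' ∧ L = Real.sqrt τ * L' := by
  have h1 := rd7_joined (inv_pos.2 hτ) h
  rw [rd7_inv hτ] at h1
  refine ⟨_, h1, ?_⟩
  rw [← mul_assoc, ← Real.sqrt_mul hτ.le, mul_inv_cancel₀ hτ.ne', Real.sqrt_one, one_mul]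

theorem dist_scale {τ : ℝ} (hτ : 0 < τ) (x y : ℂ × ℂ) :
    riemannianDist M (scale τ g) x y = Real.sqrt τ * riemannianDist M g x y := by
  unfold riemannianDist
  have h : {L | Joined M (scale τ g) x y L} = Real.sqrt τ • {L | Joined M g x y L} := by
    ext L
    constructor
    · intro hL
      obtain ⟨L', h1, h2⟩ := rd7_joined' hτ hL
      exact ⟨L', h1, h2.symm⟩
    · rintro ⟨L', h1, rfl⟩
      exact rd7_joined hτ h1
  rw [h, Real.sInf_smul_of_nonneg (Real.sqrt_nonneg τ), smul_eq_mul]

theorem isKahler_scale {τ : ℝ} (hτ : 0 < τ) (h : IsKahler M g) : IsKahler M (scale τ g) where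
  add := fun x hx u v w => by
    unfold scale
    rw [h.add x hx, mul_add]
  smul := fun x hx r u v => by
    unfold scale
    rw [h.smul x hx, mul_left_comm]
  symm := fun x hx u v => by
    unfold scale
    rw [h.symm x hx]
  pos := fun x hx v hv => mul_pos hτ (h.pos x hx v hv)
  hermitian := fun x hx u v => by
    unfold scale
    rw [h.hermitian x hx]
  smooth := fun u v => contDiffOn_const.mul (h.smooth u v)
  closed := fun x hx u v w => by
    rw [rd7_partialD, rd7_partialD, rd7_partialD, ← mul_add, ← mul_add, h.closed x hx, mul_zero]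

theorem complete_scale {τ : ℝ} (hτ : 0 < τ) (h : IsCompleteMetric M g) : IsCompleteMetric M (scale τ g) := by
  have hs : 0 < Real.sqrt τ := Real.sqrt_pos.2 hτ
  intro x hxM hC
  obtain ⟨y, hy, hlim⟩ := h x hxM fun ε hε => by
    obtain ⟨N, hN⟩ := hC (Real.sqrt τ * ε) (mul_pos hs hε)
    refine ⟨N, fun m hm n hn => ?_⟩
    have := hN m hm n hn
    rw [dist_scale hτ] at this
    exact lt_of_mul_lt_mul_left this hs.le
  refine ⟨y, hy, ?_⟩
  have h1 := hlim.const_mul (Real.sqrt τ)
  rw [mul_zero] at h1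
  refine h1.congr fun n => ?_
  rw [dist_scale hτ]

theorem negCurved_scale {τ : ℝ} (hτ : 0 < τ) (h : NegativelyCurved M g) : NegativelyCurved M (scale τ g) := by
  intro x hx u v huv
  rw [riemann_scale hτ]
  exact mul_neg_of_pos_of_neg hτ (h x hx u v huv)

theorem ricci_scale {τ : ℝ} (hτ : 0 < τ) {c : ℂ × ℂ → ℝ} (hg : IsMetric M g)
    (hlin : ∀ x ∈ M, ∀ v w, ∃ R : (ℂ × ℂ) →ₗ[ℝ] (ℂ × ℂ), ∀ u, riemann g x u v w = R u) (h : RicciLE M g c) :
    RicciLE M (scale τ g) (fun x => c x / τ) := by
  intro x hx e he v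
  obtain ⟨R, hR⟩ := hlin x hx v v
  have hss : Real.sqrt τ * Real.sqrt τ = τ := Real.mul_self_sqrt hτ.le
  have hsm : ∀ (r : ℝ) (u w : ℂ × ℂ), g x (r • u) (r • w) = r * r * g x u w := by
    intro r u w
    rw [hg.smul x hx, hg.symm x hx, hg.smul x hx, hg.symm x hx, mul_assoc]
  have h1 := h x hx (fun i => Real.sqrt τ • e i) (fun i j => by
    rw [hsm, hss]
    exact he i j) v
  have h2 : ∑ i, scale τ g x (riemann (scale τ g) x (e i) v v) (e i) =
      ∑ i, g x (riemann g x (Real.sqrt τ • e i) v v) (Real.sqrt τ • e i) := by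
    refine Finset.sum_congr rfl fun i _ => ?_
    rw [riemann_scale hτ, hR, hR, map_smul, hsm, hss]
    rfl
  rw [h2]
  refine h1.trans (le_of_eq ?_)
  unfold scale
  rw [← mul_assoc, div_mul_cancel₀ _ hτ.ne']

end Pool.Agent.KH
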