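import Pool.Agent.Lib.MP_93b649_gt.BGlue

/-! # ROW RG1: the discs

`p_k = (k+1)^{1/3}`, `λ_k = 1/(100(k+2))`, `p_k³ = k+1` (`Real.rpow_natCast`, `Real.rpow_mul`).
* `one_le_pt`: `Real.one_le_rpow`. `sc_le`: `k ≥ 0`.
* gap: for `j < k`: `p_k - p_j ≥ p_{j+1} - p_j = 1/(p_{j+1}² + p_{j+1}p_j + p_j²) ≥ 1/(3 p_{j+1}²) ≥ 1/(3(j+2))`
  (`p_{j+1} ≥ 1`, `p_{j+1}² ≤ p_{j+1}³ = j+2`), while `2λ_j + 2λ_k ≤ 4λ_j = 1/(25(j+2))`. Hence `disc_unique` (triangle inequality).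
* `disc_finite`: `|z| ≤ R`, `|z - p_k| ≤ 2λ_k ≤ 1` gives `p_k ≤ R + 1`, `k + 1 ≤ (R+1)³`: finitely many.
* `pt_count`: `(k+1)^{1/3} ≤ (R³)^{1/3} = R`.
* `outside_nhds`: on the ball of radius `1` around `z` only finitely many `k` matter (`disc_finite (‖z‖+1)`; for the others
  `‖w - p_k‖ > 2λ_k ≥ √2 λ_k` for all `w` in that ball), and for each of these finitely many `k`, `‖z-p_k‖ ≥ 2λ_k > √2 λ_k` is an open condition
  (`Filter.eventually_all_finite`). -/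

open scoped ContDiff Topology ComplexConjugate
open Set Filter

noncomputable section

namespace Pool.Agent.KH

theorem sc_le (k : ℕ) : sc k ≤ 1 / 200 := by
  unfold sc
  have hk : (0 : ℝ) ≤ k := Nat.cast_nonneg k
  exact one_div_le_one_div_of_le (by norm_num) (by linarith)

theorem one_le_pt (k : ℕ) : 1 ≤ pt k := by
  unfold pt
  have hk : (0 : ℝ) ≤ k := Nat.cast_nonneg k
  exact Real.one_le_rpow (by linarith) (by norm_num)

theorem rg1_cube (k : ℕ) : pt k ^ 3 = (k : ℝ) + 1 := by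
  unfold pt
  have hk : (0 : ℝ) ≤ (k : ℝ) + 1 := by positivity
  rw [← Real.rpow_natCast, ← Real.rpow_mul hk]
  norm_num

theorem rg1_mono {j k : ℕ} (h : j ≤ k) : pt j ≤ pt k := by
  unfold pt
  have hjk : (j : ℝ) ≤ k := by exact_mod_cast h
  exact Real.rpow_le_rpow (by positivity) (by linarith) (by norm_num)

theorem rg1_gap {j k : ℕ} (h : j < k) : 1 / (3 * ((j : ℝ) + 2)) ≤ pt k - pt j := by
  have h1 : pt (j + 1) ≤ pt k := rg1_mono h
  have ha := one_le_pt j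
  have hb := one_le_pt (j + 1)
  have hab : pt j ≤ pt (j + 1) := rg1_mono (Nat.le_succ j)
  have ca := rg1_cube j
  have cb := rg1_cube (j + 1)
  push_cast at cb
  have h2 : (pt (j + 1) - pt j) * (pt (j + 1) ^ 2 + pt (j + 1) * pt j + pt j ^ 2) = 1 := by
    linear_combination cb - ca
  have h3 : pt (j + 1) ^ 2 + pt (j + 1) * pt j + pt j ^ 2 ≤ 3 * ((j : ℝ) + 2) := by
    nlinarith [mul_nonneg (sub_nonneg.2 hab) (by linarith : (0 : ℝ) ≤ pt j),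
      mul_nonneg (sub_nonneg.2 hab) (by linarith : (0 : ℝ) ≤ pt (j + 1)),
      mul_nonneg (sub_nonneg.2 hb) (sq_nonneg (pt (j + 1)))]
  have h4 : (0 : ℝ) < 3 * ((j : ℝ) + 2) := by positivity
  rw [div_le_iff₀ h4]
  nlinarith [mul_nonneg (sub_nonneg.2 hab) (sub_nonneg.2 h3), mul_nonneg (sub_nonneg.2 h1) h4.le]

theorem rg1_sc_mono {j k : ℕ} (h : j ≤ k) : sc k ≤ sc j := by
  unfold sc
  have hjk : (j : ℝ) ≤ k := by exact_mod_cast h
  exact one_div_le_one_div_of_le (by positivity) (by linarith)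

theorem rg1_lt {j k : ℕ} (h : j < k) {z : ℂ} (hj : ‖z - (pt j : ℂ)‖ ≤ 2 * sc j)
    (hk : ‖z - (pt k : ℂ)‖ ≤ 2 * sc k) : False := by
  have h1 := rg1_gap h
  have h2 := rg1_sc_mono h.le
  have h3 : pt k - pt j ≤ ‖z - (pt j : ℂ)‖ + ‖z - (pt k : ℂ)‖ := by
    have h4 : ‖((pt k - pt j : ℝ) : ℂ)‖ ≤ ‖z - (pt j : ℂ)‖ + ‖z - (pt k : ℂ)‖ := by
      have h5 : ((pt k - pt j : ℝ) : ℂ) = (z - (pt j : ℂ)) - (z - (pt k : ℂ)) := by
        push_cast; ring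
      rw [h5]
      exact norm_sub_le _ _
    rw [Complex.norm_real, Real.norm_eq_abs] at h4
    exact (le_abs_self _).trans h4
  have h5 : 4 * sc j < 1 / (3 * ((j : ℝ) + 2)) := by
    unfold sc
    have hj2 : (0 : ℝ) < (j : ℝ) + 2 := by positivity
    have e1 : 4 * (1 / (100 * ((j : ℝ) + 2))) = 1 / (25 * ((j : ℝ) + 2)) := by
      field_simp; norm_num
    rw [e1]
    exact one_div_lt_one_div_of_lt (by positivity) (by linarith)
  linarith

/-- the closed discs of radius `2 λ_k` are disjoint -/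
theorem disc_unique {j k : ℕ} {z : ℂ} (hj : ‖z - (pt j : ℂ)‖ ≤ 2 * sc j) (hk : ‖z - (pt k : ℂ)‖ ≤ 2 * sc k) : j = k := by
  rcases lt_trichotomy j k with h | h | h
  · exact (rg1_lt h hj hk).elim
  · exact h
  · exact (rg1_lt h hk hj).elim

theorem pt_injective : Function.Injective pt := by
  intro j k h
  rcases lt_trichotomy j k with h' | h' | h'
  · have := rg1_gap h'
    have h2 : (0 : ℝ) < 1 / (3 * ((j : ℝ) + 2)) := by positivity
    linarith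
  · exact h'
  · have := rg1_gap h'
    have h2 : (0 : ℝ) < 1 / (3 * ((k : ℝ) + 2)) := by positivity
    linarith

/-- only finitely many discs meet a bounded set -/
theorem disc_finite (R : ℝ) : {k : ℕ | ∃ z : ℂ, ‖z‖ ≤ R ∧ ‖z - (pt k : ℂ)‖ ≤ 2 * sc k}.Finite := by
  refine (Set.finite_Iic ⌈(R + 1) ^ 3⌉₊).subset ?_
  rintro k ⟨z, hz, hk⟩
  have h1 := sc_le k
  have h2 := one_le_pt k
  have h3 : pt k ≤ R + 1 := by
    have h4 : ‖((pt k : ℝ) : ℂ)‖ ≤ ‖z‖ + ‖z - (pt k : ℂ)‖ := by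
      have h5 : ((pt k : ℝ) : ℂ) = z - (z - (pt k : ℂ)) := by ring
      calc ‖((pt k : ℝ) : ℂ)‖ = ‖z - (z - (pt k : ℂ))‖ := by rw [← h5]
        _ ≤ _ := norm_sub_le _ _
    rw [Complex.norm_real, Real.norm_eq_abs] at h4
    have h6 := le_abs_self (pt k)
    linarith
  have h4 : (k : ℝ) + 1 ≤ (R + 1) ^ 3 := by
    rw [← rg1_cube k]
    exact pow_le_pow_left₀ (by linarith) h3 3
  have h5 := Nat.le_ceil ((R + 1) ^ 3)
  rw [Set.mem_Iic]
  have h6 : (k : ℝ) ≤ (⌈(R + 1) ^ 3⌉₊ : ℝ) := by linarith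
  exact_mod_cast h6

theorem pt_count (R : ℝ) (hR : 0 ≤ R) (k : ℕ) (hk : (k : ℝ) + 1 ≤ R ^ 3) : pt k ≤ R := by
  by_contra h
  push Not at h
  have h1 := rg1_cube k
  have h2 : R ^ 3 < pt k ^ 3 := pow_lt_pow_left₀ h hR (by norm_num)
  linarith

/-- a point outside the open discs of radius `2 λ_k` has a neighbourhood outside the closed discs of radius `√2 λ_k` -/
theorem outside_nhds {z : ℂ} (hz : ∀ k, 2 * sc k ≤ ‖z - (pt k : ℂ)‖) :
    ∀ᶠ w : ℂ in 𝓝 z, ∀ k, Real.sqrt 2 * sc k < ‖w - (pt k : ℂ)‖ := by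
  have hs : Real.sqrt 2 < 2 := by
    rw [Real.sqrt_lt' (by norm_num)]
    norm_num
  have hfin := disc_finite (‖z‖ + 1)
  have h1 : ∀ᶠ w : ℂ in 𝓝 z, ∀ k ∈ {k : ℕ | ∃ z' : ℂ, ‖z'‖ ≤ ‖z‖ + 1 ∧ ‖z' - (pt k : ℂ)‖ ≤ 2 * sc k},
      Real.sqrt 2 * sc k < ‖w - (pt k : ℂ)‖ := by
    rw [Filter.eventually_all_finite hfin]
    intro k _
    have hc : ContinuousAt (fun w : ℂ => ‖w - (pt k : ℂ)‖) z := by fun_prop
    refine hc.eventually (lt_mem_nhds ?_)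
    exact lt_of_lt_of_le (mul_lt_mul_of_pos_right hs (sc_pos k)) (hz k)
  filter_upwards [h1, Metric.ball_mem_nhds z one_pos] with w hw hb k
  by_cases hk : k ∈ {k : ℕ | ∃ z' : ℂ, ‖z'‖ ≤ ‖z‖ + 1 ∧ ‖z' - (pt k : ℂ)‖ ≤ 2 * sc k}
  · exact hw k hk
  · have h2 : ‖w‖ ≤ ‖z‖ + 1 := by
      rw [Metric.mem_ball, dist_eq_norm] at hb
      have h3 := norm_add_le z (w - z)
      rw [add_sub_cancel] at h3
      linarith
    have h3 : ¬ ‖w - (pt k : ℂ)‖ ≤ 2 * sc k := fun h => hk ⟨w, h2, h⟩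
    push Not at h3
    exact lt_of_lt_of_le (mul_lt_mul_of_pos_right hs (sc_pos k)) h3.le

end Pool.Agent.KH
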