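import Pool.Agent.Lib.MP_93b649_gt.RM1

/-! # ROW RM2: smoothness of the metric on `MS`

`N` is smooth (`D.sF`, composition with `x ↦ x.2.re`, `Complex.normSq` is a polynomial in `re`, `im`), `1 - N > 0` on `MS`, so
`X`, `G_H`, `G_V` are `ContDiffOn ℝ ∞` on `MS` (`ContDiffOn.div`, `ContDiffOn.mul`, ...); `c2 x u` is smooth; `metric` is the
real part (`Complex.reCLM.contDiff.comp_contDiffOn`) of a product of smooth functions (`Complex.ofRealCLM.contDiff`,
`Complex.conjCLE.contDiff`). -/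

open scoped ContDiff Topology ComplexConjugate
open Set

noncomputable section

namespace Pool.Agent.KH

namespace CData

variable (D : CData)

theorem rm2_re : ContDiff ℝ ∞ (fun x : ℂ × ℂ => x.2.re) :=
  Complex.reCLM.contDiff.comp contDiff_snd

theorem rm2_normSq : ContDiff ℝ ∞ (fun x : ℂ × ℂ => Complex.normSq x.1) := by
  have h1 : ContDiff ℝ ∞ (fun x : ℂ × ℂ => x.1.re) := Complex.reCLM.contDiff.comp contDiff_fst
  have h2 : ContDiff ℝ ∞ (fun x : ℂ × ℂ => x.1.im) := Complex.imCLM.contDiff.comp contDiff_fst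
  have h3 : (fun x : ℂ × ℂ => Complex.normSq x.1) = fun x => x.1.re * x.1.re + x.1.im * x.1.im := by
    funext x; exact Complex.normSq_apply _
  rw [h3]
  exact (h1.mul h1).add (h2.mul h2)

theorem rm2_N : ContDiff ℝ ∞ D.N := rm2_normSq.mul (D.sF.comp rm2_re)

theorem rm2_X : ContDiffOn ℝ ∞ D.X D.MS :=
  (rm2_N D).contDiffOn.div (contDiffOn_const.sub (rm2_N D).contDiffOn) (fun x hx => by
    have h : D.N x < 1 := hx
    exact (sub_pos.2 h).ne')

theorem rm2_GH : ContDiffOn ℝ ∞ D.GH D.MS :=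
  (D.sP.comp rm2_re).contDiffOn.add ((rm2_X D).mul (D.sL.comp rm2_re).contDiffOn)

theorem rm2_GV : ContDiffOn ℝ ∞ D.GV D.MS :=
  (D.sF.comp rm2_re).contDiffOn.mul ((contDiffOn_const.add (rm2_X D)).pow 2)

theorem rm2_c2 (u : ℂ × ℂ) : ContDiff ℝ ∞ (fun x => D.c2 x u) :=
  contDiff_const.add (((Complex.ofRealCLM.contDiff.comp (D.se.comp rm2_re)).mul contDiff_fst).mul
    contDiff_const)

theorem metric_smooth (u v : ℂ × ℂ) : ContDiffOn ℝ ∞ (fun x => D.metric x u v) D.MS := by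
  have h1 : ContDiffOn ℝ ∞ (fun x => (D.GH x : ℂ)) D.MS :=
    Complex.ofRealCLM.contDiff.comp_contDiffOn (rm2_GH D)
  have h2 : ContDiffOn ℝ ∞ (fun x => (D.GV x : ℂ)) D.MS :=
    Complex.ofRealCLM.contDiff.comp_contDiffOn (rm2_GV D)
  have h3 : ContDiffOn ℝ ∞ (fun x => conj (D.c2 x v)) D.MS :=
    (Complex.conjCLE.contDiff.comp (rm2_c2 D v)).contDiffOn
  exact Complex.reCLM.contDiff.comp_contDiffOn
    (((h1.mul contDiffOn_const).mul contDiffOn_const).add ((h2.mul (rm2_c2 D u).contDiffOn).mul h3))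

end CData

end Pool.Agent.KH
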