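import Pool.Agent.Lib.MP_93b649_gt.RG6
import Pool.Agent.Lib.MP_93b649_gt.RA4
import Pool.Agent.Lib.MP_93b649_gt.RC2
import Pool.Agent.Lib.MP_93b649_gt.RM2

/-! # ROW RG7: `(M, G)` is Kähler, negatively curved, Ricci bound

Let `A, b` be as in `local_model`; `hc := (T.isConn).pull A b : IsConn _ (pull A b T.metric) (pullC A b T.Γ)`.
* `isKahler_M`: `add`, `smul`, `symm`, `pos` from `hc` at `x` (`G T x u v = pull ... x u v`, take the eventually statement at `x`:
  `Filter.Eventually.self_of_nhds`); `hermitian` from `T.metric_I`, `A (I • u) = I • A u`; `smooth`: near `x` `G T · u v` agrees with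
  `z ↦ T.metric (A z + b) (A u) (A v)`, smooth at `x` (`T.metric_smooth`, `ContDiffOn.contDiffAt`, composition with an affine map,
  `ContDiffAt.congr_of_eventuallyEq`); `closed`: `partialD` depends on the germ (`Filter.EventuallyEq.fderiv_eq`), then `closed_of_conn hc` with `T.Γ_I`.
* `riemann_linear_M`: `riemann_congr` + `riemann_linear hc`.
* `negCurved_M`: `riemann_congr`, `riemann_pull T.isConn`, `G x (A⁻¹ R) u = T.metric (Ax+b) R (A u)`, `neg_curved` for `A u, A v` (linearly independent: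
  `LinearIndependent.map'` with the injective real-linear map `A`).
* `ricci_M`: similarly, `e' i = A (e i)` is orthonormal for `T.metric (Ax+b)`; `ricci`; `L/P = 1/(1+y)^{m+1}` by `T.L_eq`, `T.P_eq`, and
  `T.y (A x + b).2.re = T.y (lev x)`. -/

open scoped ContDiff Topology ComplexConjugate
open Set Filter

noncomputable section

namespace Pool.Agent.KH

variable {m : ℕ} (T : Template m)

theorem rg7_pull_I (A : (ℂ × ℂ) ≃L[ℂ] (ℂ × ℂ)) (b x u v : ℂ × ℂ) :
    pull A b T.metric x (Complex.I • u) (Complex.I • v) = pull A b T.metric x u v := by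
  unfold pull
  rw [map_smul, map_smul, T.metric_I]

theorem rg7_pullC_I (A : (ℂ × ℂ) ≃L[ℂ] (ℂ × ℂ)) (b x u v : ℂ × ℂ) :
    pullC A b T.Γ x u (Complex.I • v) = Complex.I • pullC A b T.Γ x u v := by
  unfold pullC
  rw [map_smul, T.Γ_I, map_smul]

/-- the value of the curvature form -/
theorem rg7_val {x : ℂ × ℂ} {A : (ℂ × ℂ) ≃L[ℂ] (ℂ × ℂ)} {b : ℂ × ℂ} (hA : A x + b ∈ T.MS)
    (hev : ∀ᶠ z in 𝓝 x, z ∈ M T ∧ A z + b ∈ T.MS ∧ ∀ u v, G T z u v = pull A b T.metric z u v) (u v w : ℂ × ℂ) :
    G T x (riemann (G T) x u v v) w = T.metric (A x + b) (riemann T.metric (A x + b) (A u) (A v) (A v)) (A w) := by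
  have h0 := hev.self_of_nhds
  have h1 : ∀ᶠ z in 𝓝 x, ∀ u v, G T z u v = pull A b T.metric z u v := hev.mono fun z hz => hz.2.2
  rw [h0.2.2, riemann_congr h1, riemann_pull T.isConn A b hA]
  unfold pull
  rw [ContinuousLinearEquiv.apply_symm_apply]

theorem isKahler_M : IsKahler (M T) (G T) where
  add := by
    intro x hx u v w
    obtain ⟨A, b, hA, -, hev⟩ := local_model T hx
    have h0 := hev.self_of_nhds.2.2
    rw [h0, h0, h0]
    exact (T.isConn.pull A b).add x hA u v w
  smul := by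
    intro x hx r u v
    obtain ⟨A, b, hA, -, hev⟩ := local_model T hx
    have h0 := hev.self_of_nhds.2.2
    rw [h0, h0]
    exact (T.isConn.pull A b).smul x hA r u v
  symm := by
    intro x hx u v
    obtain ⟨A, b, hA, -, hev⟩ := local_model T hx
    have h0 := hev.self_of_nhds.2.2
    rw [h0, h0]
    exact (T.isConn.pull A b).symm x hA u v
  pos := by
    intro x hx v hv
    obtain ⟨A, b, hA, -, hev⟩ := local_model T hx
    have h0 := hev.self_of_nhds.2.2
    rw [h0]
    exact (T.isConn.pull A b).pos x hA v hv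
  hermitian := by
    intro x hx u v
    obtain ⟨A, b, hA, -, hev⟩ := local_model T hx
    have h0 := hev.self_of_nhds.2.2
    rw [h0, h0]
    exact rg7_pull_I T A b x u v
  smooth := by
    intro u v x hx
    obtain ⟨A, b, hA, -, hev⟩ := local_model T hx
    have h1 : ContDiffAt ℝ ∞ (fun y => T.metric y (A u) (A v)) (A x + b) :=
      (T.metric_smooth (A u) (A v)).contDiffAt (T.isOpen_MS.mem_nhds hA)
    have h2 : ContDiffAt ℝ ∞ (fun z : ℂ × ℂ => A z + b) x :=
      ((A : (ℂ × ℂ) →L[ℂ] (ℂ × ℂ)).restrictScalars ℝ).contDiff.contDiffAt.add contDiffAt_const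
    have h3 : ContDiffAt ℝ ∞ (fun z : ℂ × ℂ => T.metric (A z + b) (A u) (A v)) x :=
      ContDiffAt.comp (g := fun y => T.metric y (A u) (A v)) (f := fun z : ℂ × ℂ => A z + b) x h1 h2
    have h4 : ContDiffAt ℝ ∞ (fun z : ℂ × ℂ => G T z u v) x := by
      refine h3.congr_of_eventuallyEq ?_
      filter_upwards [hev] with z hz
      exact hz.2.2 u v
    exact h4.contDiffWithinAt
  closed := by
    intro x hx u v w
    obtain ⟨A, b, hA, -, hev⟩ := local_model T hx
    have h1 : ∀ u v w, partialD (G T) x u v w = partialD (pull A b T.metric) x u v w := by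
      intro u v w
      unfold partialD
      have h2 : (fun y => G T y v w) =ᶠ[𝓝 x] fun y => pull A b T.metric y v w := by
        filter_upwards [hev] with z hz
        exact hz.2.2 v w
      rw [h2.fderiv_eq]
    rw [h1, h1, h1]
    exact closed_of_conn (T.isConn.pull A b) hA (fun u v => rg7_pull_I T A b x u v)
      (fun u v => rg7_pullC_I T A b x u v) u v w

theorem riemann_linear_M {x : ℂ × ℂ} (hx : x ∈ M T) (v w : ℂ × ℂ) :
    ∃ R : (ℂ × ℂ) →ₗ[ℝ] (ℂ × ℂ), ∀ u, riemann (G T) x u v w = R u := by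
  obtain ⟨A, b, hA, -, hev⟩ := local_model T hx
  have h1 : ∀ᶠ z in 𝓝 x, ∀ u v, G T z u v = pull A b T.metric z u v := hev.mono fun z hz => hz.2.2
  obtain ⟨R, hR⟩ := riemann_linear (T.isConn.pull A b) (x := x) hA v w
  exact ⟨R, fun u => (riemann_congr h1 u v w).trans (hR u)⟩

theorem negCurved_M : NegativelyCurved (M T) (G T) := by
  intro x hx u v huv
  obtain ⟨A, b, hA, -, hev⟩ := local_model T hx
  rw [rg7_val T hA hev]
  refine T.neg_curved T.good hA (A u) (A v) ?_
  have h1 := huv.map' (((A : (ℂ × ℂ) →L[ℂ] (ℂ × ℂ)).restrictScalars ℝ).toLinearMap)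
    (LinearMap.ker_eq_bot.2 A.injective)
  have h2 : (⇑(((A : (ℂ × ℂ) →L[ℂ] (ℂ × ℂ)).restrictScalars ℝ).toLinearMap) ∘ ![u, v]) = ![A u, A v] := by
    funext i
    fin_cases i <;> rfl
  rwa [h2] at h1

theorem ricci_M : RicciLE (M T) (G T) (fun x => - HH T x) := by
  intro x hx e he v
  obtain ⟨A, b, hA, hy, hev⟩ := local_model T hx
  have h0 := hev.self_of_nhds.2.2
  have he' : ∀ i j, T.metric (A x + b) (A (e i)) (A (e j)) = if i = j then 1 else 0 := by
    intro i j
    rw [← he i j, h0]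
    rfl
  have h1 := T.ricci T.good hA (fun i => A (e i)) he' (A v)
  have h2 : ∀ i, G T x (riemann (G T) x (e i) v v) (e i) =
      T.metric (A x + b) (riemann T.metric (A x + b) (A (e i)) (A v) (A v)) (A (e i)) :=
    fun i => rg7_val T hA hev (e i) v (e i)
  simp only [h2]
  refine h1.trans (le_of_eq ?_)
  have h3 : T.L (A x + b).2.re / T.P (A x + b).2.re = HH T x := by
    rw [T.L_eq, T.P_eq, HH, hy]
    have hg := T.g_pos (A x + b).2.re
    have hyp : 0 < 1 + T.y (lev x) := by
      have := T.y_nonneg (lev x)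
      linarith
    have hpw : 0 < (1 + T.y (lev x)) ^ (m + 1) := pow_pos hyp _
    field_simp
  rw [h3, h0]
  rfl

end Pool.Agent.KH
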