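import Mathlib

/-! # ROW RH1: many zeros make a bounded function small

`φ` holomorphic on `B(0,R)`, `|φ| ≤ C`, zeros at the distinct points `p ∈ S`, `|p| ≤ R/4`, `|z| ≤ R/4`: `|φ(z)| ≤ C (2/3)^{#S}`.
Proof: by induction on `S` write `φ = ψ ∏_{p ∈ S}(z - p)` on the ball with `ψ` holomorphic there (`dslope φ p` is holomorphic on the ball:
`Complex.differentiableOn_dslope`; it still vanishes at the other points). For `R/2 < r < R`, on `|ζ| = r`: `|ψ(ζ)| ≤ C/∏(r-|p|) ≤ C/(r - R/4)^n`; maximum principle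
(`Complex.norm_le_of_forall_mem_frontier_norm_le` on `ball 0 r`), so `|φ(z)| ≤ C ∏|z-p|/(r-R/4)^n ≤ C ((R/2)/(r - R/4))^n`; let `r → R` (`le_of_tendsto`). -/

open scoped ContDiff Topology ComplexConjugate
open Set Filter

noncomputable section

namespace Pool.Agent.KH

theorem rh1_factor {φ : ℂ → ℂ} {R : ℝ} (hφ : DifferentiableOn ℂ φ (Metric.ball 0 R))
    (S : Finset ℂ) : (∀ p ∈ S, p ∈ Metric.ball (0 : ℂ) R ∧ φ p = 0) →
    ∃ ψ : ℂ → ℂ, DifferentiableOn ℂ ψ (Metric.ball 0 R) ∧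
      ∀ z ∈ Metric.ball (0 : ℂ) R, φ z = ψ z * ∏ p ∈ S, (z - p) := by
  induction S using Finset.induction_on with
  | empty => exact fun _ => ⟨φ, hφ, fun z _ => by simp⟩
  | insert p S hp ih =>
    intro hS
    obtain ⟨ψ, h1, h2⟩ := ih fun q hq => hS q (Finset.mem_insert_of_mem hq)
    obtain ⟨hpb, hp0⟩ := hS p (Finset.mem_insert_self p S)
    have hψ : ψ p = 0 := by
      have h3 := h2 p hpb
      rw [hp0] at h3
      rcases mul_eq_zero.1 h3.symm with h | h
      · exact h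
      · exfalso
        rw [Finset.prod_eq_zero_iff] at h
        obtain ⟨q, hq, hq'⟩ := h
        rw [sub_eq_zero] at hq'
        exact hp (hq' ▸ hq)
    refine ⟨dslope ψ p, (Complex.differentiableOn_dslope (Metric.isOpen_ball.mem_nhds hpb)).2 h1, ?_⟩
    intro z hz
    rw [h2 z hz, Finset.prod_insert hp]
    have h4 := sub_smul_dslope ψ p z
    rw [hψ, sub_zero, smul_eq_mul] at h4
    rw [← h4]
    ring

theorem rh1_r {φ : ℂ → ℂ} {R C : ℝ} (hφ : DifferentiableOn ℂ φ (Metric.ball 0 R))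
    (hC : ∀ z ∈ Metric.ball (0 : ℂ) R, ‖φ z‖ ≤ C) (S : Finset ℂ) (hS : ∀ p ∈ S, ‖p‖ ≤ R / 4 ∧ φ p = 0)
    {z : ℂ} (hz : ‖z‖ ≤ R / 4) {r : ℝ} (hr1 : R / 2 < r) (hr2 : r < R) :
    ‖φ z‖ ≤ C * ((R / 2) / (r - R / 4)) ^ S.card := by
  have hR : 0 < R := by linarith
  have hr : 0 < r := by linarith
  have hd : 0 < r - R / 4 := by linarith
  have hb : ∀ w : ℂ, ‖w‖ < R → w ∈ Metric.ball (0 : ℂ) R := fun w hw => by
    rwa [mem_ball_zero_iff]
  obtain ⟨ψ, h1, h2⟩ := rh1_factor hφ S fun p hp => ⟨hb p (by linarith [(hS p hp).1]), (hS p hp).2⟩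
  have hC0 : 0 ≤ C := (norm_nonneg _).trans (hC 0 (hb 0 (by rw [norm_zero]; exact hR)))
  have h3 : ∀ w ∈ frontier (Metric.ball (0 : ℂ) r), ‖ψ w‖ ≤ C / (r - R / 4) ^ S.card := by
    intro w hw
    rw [frontier_ball _ hr.ne', mem_sphere_zero_iff_norm] at hw
    rw [le_div_iff₀ (by positivity)]
    have h4 := hC w (hb w (by linarith))
    rw [h2 w (hb w (by linarith)), norm_mul, norm_prod] at h4
    refine le_trans (mul_le_mul_of_nonneg_left ?_ (norm_nonneg _)) h4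
    rw [← Finset.prod_const]
    apply Finset.prod_le_prod
    · intro p _; exact hd.le
    · intro p hp
      have h5 := norm_sub_norm_le w p
      linarith [(hS p hp).1]
  have hsub : Metric.closedBall (0 : ℂ) r ⊆ Metric.ball (0 : ℂ) R :=
    Metric.closedBall_subset_ball hr2
  have hdc : DiffContOnCl ℂ ψ (Metric.ball 0 r) := by
    refine ⟨h1.mono (Metric.ball_subset_ball hr2.le), ?_⟩
    rw [closure_ball _ hr.ne']
    exact h1.continuousOn.mono hsub
  have h6 : ‖ψ z‖ ≤ C / (r - R / 4) ^ S.card := by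
    apply Complex.norm_le_of_forall_mem_frontier_norm_le Metric.isBounded_ball hdc h3
    rw [closure_ball _ hr.ne', mem_closedBall_zero_iff]
    linarith
  rw [h2 z (hb z (by linarith)), norm_mul, norm_prod, div_pow]
  have h7 : ∏ p ∈ S, ‖z - p‖ ≤ (R / 2) ^ S.card := by
    rw [← Finset.prod_const]
    apply Finset.prod_le_prod
    · intro p _; exact norm_nonneg _
    · intro p hp
      have h5 := norm_sub_le z p
      linarith [(hS p hp).1]
  calc ‖ψ z‖ * ∏ p ∈ S, ‖z - p‖ ≤ C / (r - R / 4) ^ S.card * (R / 2) ^ S.card := by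
        apply mul_le_mul h6 h7 (Finset.prod_nonneg fun _ _ => norm_nonneg _)
        positivity
    _ = C * ((R / 2) ^ S.card / (r - R / 4) ^ S.card) := by ring

theorem bound_of_zeros {φ : ℂ → ℂ} {R C : ℝ} (hR : 0 < R) (hφ : DifferentiableOn ℂ φ (Metric.ball 0 R))
    (hC : ∀ z ∈ Metric.ball (0 : ℂ) R, ‖φ z‖ ≤ C) (S : Finset ℂ) (hS : ∀ p ∈ S, ‖p‖ ≤ R / 4 ∧ φ p = 0)
    {z : ℂ} (hz : ‖z‖ ≤ R / 4) : ‖φ z‖ ≤ C * (2 / 3) ^ S.card := by
  have hd : R - R / 4 ≠ 0 := by linarith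
  have h1 : Tendsto (fun r : ℝ => C * ((R / 2) / (r - R / 4)) ^ S.card) (𝓝[<] R)
      (𝓝 (C * ((R / 2) / (R - R / 4)) ^ S.card)) := by
    apply Tendsto.mono_left _ nhdsWithin_le_nhds
    apply ContinuousAt.tendsto
    apply ContinuousAt.mul continuousAt_const
    apply ContinuousAt.pow
    exact ContinuousAt.div continuousAt_const (continuousAt_id.sub continuousAt_const) hd
  have h2 : (R / 2) / (R - R / 4) = 2 / 3 := by
    field_simp
    norm_num
  rw [h2] at h1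
  refine ge_of_tendsto h1 ?_
  have h3 : Ioo (R / 2) R ∈ 𝓝[<] R := Ioo_mem_nhdsLT (by linarith)
  filter_upwards [h3] with r hr
  exact rh1_r hφ hC S hS hz hr.1 hr.2

end Pool.Agent.KH
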