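import Mathlib

/-! # ROW RH2: superexponential decay

Apply `PhragmenLindelof.eq_zero_on_right_half_plane_of_superexponential_decay` to `f ζ = u (-ζ - (|c| + 1))` (for `Re ζ ≥ 0`: `Re(-ζ - |c| - 1) ≤ -|c|-1 < -c`): holomorphic on a neighbourhood of
the closed half plane, bounded by `C` (so the growth condition holds with `c = 0`/`1`, any `B ≥ 0`, and the bound on the imaginary axis holds), and on the real
axis: `‖f x‖ ≤ C (2/3)^n` with `n ≥ a (x+|c|+1)^{3/2} - 1 ≥ a x^{3/2} - 1`, so `(exp x)^k ‖f x‖ ≤ (3/2) C exp(kx - a log(3/2) x^{3/2}) → 0`: superpolynomial decay in `exp x`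
(`Asymptotics.SuperpolynomialDecay`). Hence `u = 0` on `Re W ≤ -|c|-1`, and then on the connected open half plane `Re W < -c` by the identity theorem
(`AnalyticOnNhd.eqOn_zero_of_preconnected_of_eventuallyEq_zero`). -/

open scoped ContDiff Topology ComplexConjugate
open Set Filter

noncomputable section

namespace Pool.Agent.KH

theorem rh2_decay {a L C : ℝ} (ha : 0 < a) (hL : 0 < L) (k : ℕ) :
    Tendsto (fun x : ℝ => C * Real.exp (k * x - L * (a * x ^ ((3 : ℝ) / 2) - 1))) atTop (𝓝 0) := by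
  have h1 : Tendsto (fun x : ℝ => k * x - L * (a * x ^ ((3 : ℝ) / 2) - 1)) atTop atBot := by
    have h2 : Tendsto (fun x : ℝ => L - x) atTop atBot := by
      have := tendsto_id (α := ℝ) (x := atTop)
      have h3 := tendsto_neg_atTop_atBot.comp this
      have h4 := tendsto_atBot_add_const_left atTop L h3
      refine h4.congr (fun x => ?_)
      simp [sub_eq_add_neg]
    refine tendsto_atBot_mono' atTop ?_ h2
    filter_upwards [eventually_ge_atTop (1 : ℝ),
      eventually_ge_atTop ((((k : ℝ) + 1) / (a * L)) ^ 2)] with x hx1 hx2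
    have haL : 0 < a * L := mul_pos ha hL
    have hx0 : 0 < x := by linarith
    have h5 : ((k : ℝ) + 1) / (a * L) ≤ Real.sqrt x := by
      apply Real.le_sqrt_of_sq_le
      exact hx2
    have h6 : (k : ℝ) + 1 ≤ a * L * Real.sqrt x := by
      rw [div_le_iff₀ haL] at h5
      linarith
    have h7 : x ^ ((3 : ℝ) / 2) = x * Real.sqrt x := by
      rw [Real.sqrt_eq_rpow]
      nth_rewrite 2 [← Real.rpow_one x]
      rw [← Real.rpow_add hx0]
      norm_num
    rw [h7]
    have h8 : x * ((k : ℝ) + 1) ≤ x * (a * L * Real.sqrt x) :=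
      mul_le_mul_of_nonneg_left h6 hx0.le
    nlinarith
  have h9 := Real.tendsto_exp_atBot.comp h1
  have h10 := h9.const_mul C
  simpa using h10

theorem eq_zero_of_decay {u : ℂ → ℂ} {c C a : ℝ} (ha : 0 < a)
    (hu : DifferentiableOn ℂ u {W | W.re < -c}) (hC : ∀ W : ℂ, W.re < -c → ‖u W‖ ≤ C)
    (hdec : ∀ᶠ X : ℝ in atTop, ∃ n : ℕ, a * X ^ ((3 : ℝ) / 2) - 1 ≤ n ∧ ‖u (((-X : ℝ)) : ℂ)‖ ≤ C * (2 / 3) ^ n) :
    ∀ W : ℂ, W.re < -c → u W = 0 := by
  set s : ℝ := |c| + 1 with hs
  have hs1 : 1 ≤ s := by rw [hs]; have := abs_nonneg c; linarith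
  have hre : ∀ ζ : ℂ, (-ζ - (s : ℂ)).re = -ζ.re - s := by
    intro ζ; simp
  have hmap : ∀ ζ : ℂ, 0 ≤ ζ.re → (-ζ - (s : ℂ)).re < -c := by
    intro ζ hζ
    rw [hre, hs]
    have := le_abs_self c
    linarith
  have hC0 : 0 ≤ C := le_trans (norm_nonneg _) (hC _ (hmap 0 (by simp)))
  have hopen : IsOpen {W : ℂ | W.re < -c} := isOpen_lt Complex.continuous_re continuous_const
  set f : ℂ → ℂ := fun ζ => u (-ζ - (s : ℂ)) with hf
  have hclos : closure {z : ℂ | 0 < z.re} ⊆ {z : ℂ | 0 ≤ z.re} := by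
    apply closure_minimal
    · intro z hz
      have hz' : 0 < z.re := hz
      exact hz'.le
    · exact isClosed_le continuous_const Complex.continuous_re
  have hfd : DifferentiableOn ℂ f {z : ℂ | 0 ≤ z.re} := by
    have h1 : DifferentiableOn ℂ (fun ζ : ℂ => -ζ - (s : ℂ)) {z : ℂ | 0 ≤ z.re} := by
      fun_prop
    exact hu.comp h1 (fun ζ hζ => hmap ζ hζ)
  have hdc : DiffContOnCl ℂ f {z : ℂ | 0 < z.re} := (hfd.mono hclos).diffContOnCl
  have hb : ∀ ζ : ℂ, 0 ≤ ζ.re → ‖f ζ‖ ≤ C := fun ζ hζ => hC _ (hmap ζ hζ)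
  have hL : 0 < Real.log (3 / 2) := Real.log_pos (by norm_num)
  have hfz : EqOn f 0 {z : ℂ | 0 ≤ z.re} := by
    refine PhragmenLindelof.eq_zero_on_right_half_plane_of_superexponential_decay hdc ?_ ?_ ?_
    · refine ⟨1, by norm_num, 0, ?_⟩
      apply Asymptotics.IsBigO.of_bound C
      have : ∀ᶠ z : ℂ in Bornology.cobounded ℂ ⊓ 𝓟 {z | 0 < z.re}, z ∈ {z : ℂ | 0 < z.re} :=
        (eventually_principal.2 (fun z hz => hz)).filter_mono inf_le_right
      filter_upwards [this] with z hz
      have := hb z (le_of_lt hz)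
      simpa using this
    · intro k
      have h1 := rh2_decay (C := C) ha hL k
      refine squeeze_zero' (Eventually.of_forall (fun x => by positivity)) ?_ h1
      have h2 : Tendsto (fun x : ℝ => x + s) atTop atTop := tendsto_atTop_add_const_right _ _ tendsto_id
      filter_upwards [h2.eventually hdec, eventually_ge_atTop (1 : ℝ)] with x hx hx1
      obtain ⟨n, hn, hun⟩ := hx
      have hfx : f (x : ℂ) = u (((-(x + s) : ℝ)) : ℂ) := by
        simp only [hf]
        congr 1
        push_cast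
        ring
      have h3 : x ^ ((3 : ℝ) / 2) ≤ (x + s) ^ ((3 : ℝ) / 2) :=
        Real.rpow_le_rpow (by linarith) (by linarith) (by norm_num)
      have h4 : a * x ^ ((3 : ℝ) / 2) - 1 ≤ n := by
        have := mul_le_mul_of_nonneg_left h3 ha.le
        linarith
      have h5 : ((2 : ℝ) / 3) ^ n = Real.exp (-(Real.log (3 / 2) * n)) := by
        have h6 : ((2 : ℝ) / 3) = Real.exp (-Real.log (3 / 2)) := by
          rw [Real.exp_neg, Real.exp_log (by norm_num)]
          norm_num
        rw [h6, ← Real.exp_nat_mul]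
        congr 1
        ring
      rw [hfx, ← Real.exp_nat_mul]
      calc Real.exp (k * x) * ‖u (((-(x + s) : ℝ)) : ℂ)‖
          ≤ Real.exp (k * x) * (C * (2 / 3) ^ n) := by gcongr
        _ = C * (Real.exp (k * x) * Real.exp (-(Real.log (3 / 2) * n))) := by rw [h5]; ring
        _ = C * Real.exp (k * x + -(Real.log (3 / 2) * n)) := by rw [Real.exp_add]
        _ ≤ C * Real.exp (k * x - Real.log (3 / 2) * (a * x ^ ((3 : ℝ) / 2) - 1)) := by
            apply mul_le_mul_of_nonneg_left _ hC0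
            apply Real.exp_le_exp.2
            have := mul_le_mul_of_nonneg_left h4 hL.le
            linarith
    · refine ⟨C, fun x => hb _ (by simp)⟩
  have han : AnalyticOnNhd ℂ u {W : ℂ | W.re < -c} := hu.analyticOnNhd hopen
  have hpre : IsPreconnected {W : ℂ | W.re < -c} := (convex_halfSpace_re_lt (-c)).isPreconnected
  have hz0 : (-(s + 1 : ℝ) : ℂ) ∈ {W : ℂ | W.re < -c} := by
    have := le_abs_self c
    simp only [mem_ofPred_eq, Complex.neg_re, Complex.ofReal_re]
    rw [hs]; linarith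
  have hev : u =ᶠ[𝓝 (-(s + 1 : ℝ) : ℂ)] 0 := by
    have hop : IsOpen {W : ℂ | W.re < -s} := isOpen_lt Complex.continuous_re continuous_const
    have hmem : (-(s + 1 : ℝ) : ℂ) ∈ {W : ℂ | W.re < -s} := by
      simp only [mem_ofPred_eq, Complex.neg_re, Complex.ofReal_re]
      linarith
    filter_upwards [hop.mem_nhds hmem] with W hW
    have h1 : f (-W - (s : ℂ)) = 0 := by
      have : (-W - (s : ℂ)) ∈ {z : ℂ | 0 ≤ z.re} := by
        have hW' : W.re < -s := hW
        simp only [mem_ofPred_eq, hre]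
        linarith
      exact hfz this
    have h2 : f (-W - (s : ℂ)) = u W := by
      simp only [hf]
      congr 1
      ring
    rw [← h2, h1]; rfl
  intro W hW
  exact han.eqOn_zero_of_preconnected_of_eventuallyEq_zero hpre hz0 hev hW

end Pool.Agent.KH
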