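import Pool.Agent.Lib.MP_93b649_gt.BHolo
import Pool.Agent.Lib.MP_93b649_gt.RH1
import Pool.Agent.Lib.MP_93b649_gt.RH2

/-! # ROW RH3: `f(z,W) = f(z,W-s)` on `{1/2 < Y}`

* `const_on_line`: `W ↦ f(p_k, W)` is entire (composition with the affine map `W ↦ (p_k, W)`, `h.line`) and bounded: Liouville (`Differentiable.apply_eq_apply_of_bounded`).
* `shift_eq`: fix `s` with `0 ≤ Re s` and `z_0`; `U(W) = f(z_0,W) - f(z_0,W-s)` is holomorphic and bounded by `2C` on `Re W < -c`, `c = |z_0|²/2 + 1/4` (there `1/2 < Y` for both points: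
  `h.big`). For `X` large put `R = √(2X - 1/2) ≥ √X`: `φ(z) = f(z,-X) - f(z,-X-s)` is holomorphic on `|z| < R` (`1/2 < 2X - |z|²`), bounded by `2C`, `φ(p_k) = 0`
  (`const_on_line`); `S` = the image of `{k : k+1 ≤ (R/4)³}` (as a `Finset.range ⌊(R/4)³⌋₊`) under `k ↦ (p k : ℂ)` (injective): `S.card ≥ (R/4)³ - 1 ≥ X^{3/2}/64 - 1`, `|p_k| ≤ R/4` (`h.count`), `|z_0| ≤ R/4` for
  `X` large. `bound_of_zeros` gives `‖U(-X)‖ ≤ 2C (2/3)^{S.card}`; `eq_zero_of_decay` with `a = 1/64`. -/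

open scoped ContDiff Topology ComplexConjugate
open Set Filter

noncomputable section

namespace Pool.Agent.KH

variable {M : Set (ℂ × ℂ)} {p : ℕ → ℝ} {f : ℂ × ℂ → ℂ} {C : ℝ}

theorem const_on_line (h : HoloHyp M p) (hf : DifferentiableOn ℂ f M) (hC : ∀ x ∈ M, ‖f x‖ ≤ C) (k : ℕ) (W W' : ℂ) :
    f ((p k : ℂ), W) = f ((p k : ℂ), W') := by
  have hd : Differentiable ℂ (fun W : ℂ => f ((p k : ℂ), W)) := by
    intro W
    have h1 : DifferentiableAt ℂ f ((p k : ℂ), W) :=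
      hf.differentiableAt (h.isOpen.mem_nhds (h.line k W))
    have h2 : DifferentiableAt ℂ (fun W : ℂ => ((p k : ℂ), W)) W :=
      (differentiableAt_const _).prodMk differentiableAt_id
    exact DifferentiableAt.comp (g := f) W h1 h2
  have hb : Bornology.IsBounded (range (fun W : ℂ => f ((p k : ℂ), W))) := by
    rw [isBounded_iff_forall_norm_le]
    refine ⟨C, ?_⟩
    rintro _ ⟨W, rfl⟩
    exact hC _ (h.line k W)
  exact hd.apply_eq_apply_of_bounded hb W W'

lemma rh3_mem (h : HoloHyp M p) {s : ℂ} (hs : 0 ≤ s.re) {z W : ℂ}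
    (hW : 1 / 2 < -2 * W.re - Complex.normSq z) : (z, W) ∈ M ∧ (z, W - s) ∈ M := by
  refine ⟨h.big _ hW, h.big _ ?_⟩
  simp only [Complex.sub_re]
  linarith

lemma rh3_diff (h : HoloHyp M p) (hf : DifferentiableOn ℂ f M) {s : ℂ} (hs : 0 ≤ s.re) {z W : ℂ}
    (hW : 1 / 2 < -2 * W.re - Complex.normSq z) :
    DifferentiableAt ℂ f (z, W) ∧ DifferentiableAt ℂ f (z, W - s) :=
  ⟨hf.differentiableAt (h.isOpen.mem_nhds (rh3_mem h hs hW).1),
    hf.differentiableAt (h.isOpen.mem_nhds (rh3_mem h hs hW).2)⟩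

lemma rh3_norm (h : HoloHyp M p) (hC : ∀ x ∈ M, ‖f x‖ ≤ C) {s : ℂ} (hs : 0 ≤ s.re) {z W : ℂ}
    (hW : 1 / 2 < -2 * W.re - Complex.normSq z) : ‖f (z, W) - f (z, W - s)‖ ≤ 2 * C := by
  have h1 := hC _ (rh3_mem h hs hW).1
  have h2 := hC _ (rh3_mem h hs hW).2
  exact (norm_sub_le _ _).trans (by linarith)

/-- the estimate at one point -/
lemma rh3_est (h : HoloHyp M p) (hf : DifferentiableOn ℂ f M) (hC : ∀ x ∈ M, ‖f x‖ ≤ C) {s : ℂ} (hs : 0 ≤ s.re)
    (z : ℂ) (X : ℝ) (hX1 : 1 ≤ X) (hX2 : (4 * ‖z‖) ^ 2 ≤ X) :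
    ∃ n : ℕ, 1 / 64 * X ^ ((3 : ℝ) / 2) - 1 ≤ n ∧
      ‖f (z, ((-X : ℝ) : ℂ)) - f (z, ((-X : ℝ) : ℂ) - s)‖ ≤ 2 * C * (2 / 3) ^ n := by
  set R : ℝ := Real.sqrt (2 * X - 1 / 2) with hRdef
  have hR2 : R ^ 2 = 2 * X - 1 / 2 := Real.sq_sqrt (by linarith)
  have hRX : Real.sqrt X ≤ R := Real.sqrt_le_sqrt (by linarith)
  have hX0 : 0 < Real.sqrt X := Real.sqrt_pos.2 (by linarith)
  have hR : 0 < R := hX0.trans_le hRX
  have hz : ‖z‖ ≤ R / 4 := by
    have h1 : 4 * ‖z‖ ≤ Real.sqrt X := Real.le_sqrt_of_sq_le hX2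
    linarith
  have hin : ∀ z' ∈ Metric.ball (0 : ℂ) R, 1 / 2 < -2 * ((-X : ℝ) : ℂ).re - Complex.normSq z' := by
    intro z' hz'
    rw [mem_ball_zero_iff] at hz'
    have h1 : Complex.normSq z' = ‖z'‖ ^ 2 := Complex.normSq_eq_norm_sq z'
    have h2 : ‖z'‖ ^ 2 < R ^ 2 := pow_lt_pow_left₀ hz' (norm_nonneg _) (by norm_num)
    rw [hR2] at h2
    rw [h1, Complex.ofReal_re]
    linarith
  set N : ℕ := ⌊(R / 4) ^ 3⌋₊ with hN
  have hinj : Function.Injective (fun k : ℕ => (p k : ℂ)) := fun a b hab =>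
    h.inj (Complex.ofReal_injective hab)
  have hcard : ((Finset.range N).image (fun k : ℕ => (p k : ℂ))).card = N := by
    rw [Finset.card_image_of_injective _ hinj, Finset.card_range]
  refine ⟨N, ?_, ?_⟩
  · have h1 : (R / 4) ^ 3 < (N : ℝ) + 1 := Nat.lt_floor_add_one _
    have h2 : X ^ ((3 : ℝ) / 2) = Real.sqrt X ^ 3 := by
      rw [Real.sqrt_eq_rpow, ← Real.rpow_natCast, ← Real.rpow_mul (by linarith)]
      norm_num
    have h3 : Real.sqrt X ^ 3 ≤ R ^ 3 := pow_le_pow_left₀ hX0.le hRX 3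
    have h4 : (R / 4) ^ 3 = 1 / 64 * R ^ 3 := by ring
    rw [h2]
    linarith
  · have hφ : DifferentiableOn ℂ
        (fun z' : ℂ => f (z', ((-X : ℝ) : ℂ)) - f (z', ((-X : ℝ) : ℂ) - s)) (Metric.ball 0 R) := by
      intro z' hz'
      obtain ⟨h1, h2⟩ := rh3_diff h hf hs (hin z' hz')
      have h3 : DifferentiableAt ℂ (fun z' : ℂ => (z', ((-X : ℝ) : ℂ))) z' :=
        differentiableAt_id.prodMk (differentiableAt_const _)
      have h4 : DifferentiableAt ℂ (fun z' : ℂ => (z', ((-X : ℝ) : ℂ) - s)) z' :=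
        differentiableAt_id.prodMk (differentiableAt_const _)
      have h5 := DifferentiableAt.comp (g := f) z' h1 h3
      have h6 := DifferentiableAt.comp (g := f) z' h2 h4
      exact (h5.sub h6).differentiableWithinAt
    have hb := bound_of_zeros hR hφ (fun z' hz' => rh3_norm h hC hs (hin z' hz'))
      ((Finset.range N).image (fun k : ℕ => (p k : ℂ))) (by
        intro q hq
        rw [Finset.mem_image] at hq
        obtain ⟨k, hk, rfl⟩ := hq
        rw [Finset.mem_range] at hk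
        have h1 : ((k : ℝ) + 1) ≤ (R / 4) ^ 3 := by
          have h2 : ((k + 1 : ℕ) : ℝ) ≤ N := by exact_mod_cast hk
          have h3 : (N : ℝ) ≤ (R / 4) ^ 3 := Nat.floor_le (by positivity)
          push_cast at h2
          linarith
        obtain ⟨h4, h5⟩ := h.count (R / 4) (by positivity) k h1
        refine ⟨?_, ?_⟩
        · rw [Complex.norm_real, Real.norm_eq_abs, abs_of_nonneg h4]
          exact h5
        · exact sub_eq_zero.2 (const_on_line h hf hC k _ _)) hz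
    rw [hcard] at hb
    exact hb

theorem shift_eq (h : HoloHyp M p) (hf : DifferentiableOn ℂ f M) (hC : ∀ x ∈ M, ‖f x‖ ≤ C) {s : ℂ} (hs : 0 ≤ s.re)
    (z W : ℂ) (hW : 1 / 2 < -2 * W.re - Complex.normSq z) : f (z, W) = f (z, W - s) := by
  have hc : ∀ W : ℂ, W.re < -(Complex.normSq z / 2 + 1 / 4) → 1 / 2 < -2 * W.re - Complex.normSq z := by
    intro W hW
    linarith
  have hu : DifferentiableOn ℂ (fun W : ℂ => f (z, W) - f (z, W - s))
      {W | W.re < -(Complex.normSq z / 2 + 1 / 4)} := by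
    intro W hW
    obtain ⟨h1, h2⟩ := rh3_diff h hf hs (hc W hW)
    have h3 : DifferentiableAt ℂ (fun W : ℂ => (z, W)) W :=
      (differentiableAt_const _).prodMk differentiableAt_id
    have h4 : DifferentiableAt ℂ (fun W : ℂ => (z, W - s)) W :=
      (differentiableAt_const _).prodMk (differentiableAt_id.sub (differentiableAt_const _))
    have h5 := DifferentiableAt.comp (g := f) W h1 h3
    have h6 := DifferentiableAt.comp (g := f) W h2 h4
    exact (h5.sub h6).differentiableWithinAt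
  have key := eq_zero_of_decay (u := fun W : ℂ => f (z, W) - f (z, W - s))
    (c := Complex.normSq z / 2 + 1 / 4) (C := 2 * C) (a := 1 / 64) (by norm_num) hu
    (fun W hW => rh3_norm h hC hs (hc W hW)) (by
      filter_upwards [eventually_ge_atTop (1 : ℝ), eventually_ge_atTop ((4 * ‖z‖) ^ 2)] with X h1 h2
      exact rh3_est h hf hC hs z X h1 h2) W (by linarith)
  exact sub_eq_zero.1 key

end Pool.Agent.KH
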