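import Pool.Agent.Lib.MP_93b649_gt.RH3

/-! # ROW RH4: bounded holomorphic functions are constant

* `indep_W`: fix `z`; `Ω = {W : (z,W) ∈ M}` is open and convex (`h.down`: if `W1, W2 ∈ Ω`, a point of the segment has real part `≤ max`), so preconnected;
  `W ↦ f(z,W)` is analytic on `Ω` and on the half plane `1/2 < -2Re W - |z|²` it is constant (`shift_eq`: for two points compare with `s = W - W'` if `Re ≥ 0`, or the other way round). Identity
  theorem (`AnalyticOnNhd.eqOn_of_preconnected_of_eventuallyEq`).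
* `holo_const`: `f_0(z) = f(z, -(|z|²/2+1))`; near `z_0` it equals `z ↦ f(z, -X)` with `X = (|z_0|+1)²/2 + 1` (`indep_W`), so it is entire; bounded; Liouville. `f(z,W) = f_0(z)`. -/

open scoped ContDiff Topology ComplexConjugate
open Set Filter

noncomputable section

namespace Pool.Agent.KH

variable {M : Set (ℂ × ℂ)} {p : ℕ → ℝ} {f : ℂ × ℂ → ℂ} {C : ℝ}

theorem rh4_half (h : HoloHyp M p) (hf : DifferentiableOn ℂ f M) (hC : ∀ x ∈ M, ‖f x‖ ≤ C)
    {z V V' : ℂ} (hV : 1 / 2 < -2 * V.re - Complex.normSq z)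
    (hV' : 1 / 2 < -2 * V'.re - Complex.normSq z) : f (z, V) = f (z, V') := by
  rcases le_total V'.re V.re with hle | hle
  · have h1 := shift_eq h hf hC (s := V - V') (by rw [Complex.sub_re]; linarith only [hle]) z V hV
    rwa [sub_sub_cancel] at h1
  · have h1 := shift_eq h hf hC (s := V' - V) (by rw [Complex.sub_re]; linarith only [hle]) z V' hV'
    rw [sub_sub_cancel] at h1
    exact h1.symm

theorem rh4_slice (h : HoloHyp M p) (z : ℂ) :
    IsOpen {V : ℂ | (z, V) ∈ M} ∧ Convex ℝ {V : ℂ | (z, V) ∈ M} := by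
  constructor
  · exact h.isOpen.preimage (by fun_prop : Continuous fun V : ℂ => (z, V))
  · intro V hV V' hV' a b ha hb hab
    have key : (a • V + b • V').re = a * V.re + b * V'.re := by simp
    rcases le_total V'.re V.re with hle | hle
    · refine h.down z V _ hV ?_
      rw [key]
      have h1 : b * V'.re ≤ b * V.re := mul_le_mul_of_nonneg_left hle hb
      have h2 : a * V.re + b * V.re = V.re := by rw [← add_mul, hab, one_mul]
      linarith only [h1, h2]
    · refine h.down z V' _ hV' ?_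
      rw [key]
      have h1 : a * V.re ≤ a * V'.re := mul_le_mul_of_nonneg_left hle ha
      have h2 : a * V'.re + b * V'.re = V'.re := by rw [← add_mul, hab, one_mul]
      linarith only [h1, h2]

theorem indep_W (h : HoloHyp M p) (hf : DifferentiableOn ℂ f M) (hC : ∀ x ∈ M, ‖f x‖ ≤ C) {z W W' : ℂ}
    (hW : (z, W) ∈ M) (hW' : (z, W') ∈ M) : f (z, W) = f (z, W') := by
  obtain ⟨hopen, hconv⟩ := rh4_slice h z
  obtain ⟨V₀, hV₀def⟩ : ∃ V₀ : ℂ, V₀ = ((-(Complex.normSq z / 2 + 1) : ℝ) : ℂ) := ⟨_, rfl⟩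
  have hV₀re : V₀.re = -(Complex.normSq z / 2 + 1) := by rw [hV₀def, Complex.ofReal_re]
  have hV₀ : 1 / 2 < -2 * V₀.re - Complex.normSq z := by
    rw [hV₀re]
    linarith
  have hmem : (z, V₀) ∈ M := h.big (z, V₀) hV₀
  have hdiff : DifferentiableOn ℂ (fun V : ℂ => f (z, V)) {V : ℂ | (z, V) ∈ M} :=
    hf.comp (by fun_prop : Differentiable ℂ fun V : ℂ => (z, V)).differentiableOn fun V hV => hV
  have han : AnalyticOnNhd ℂ (fun V : ℂ => f (z, V)) {V : ℂ | (z, V) ∈ M} :=
    hdiff.analyticOnNhd hopen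
  have hloc : (fun V : ℂ => f (z, V)) =ᶠ[𝓝 V₀] fun _ => f (z, V₀) := by
    have ho : IsOpen {V : ℂ | 1 / 2 < -2 * V.re - Complex.normSq z} :=
      isOpen_lt continuous_const
        ((continuous_const.mul Complex.continuous_re).sub continuous_const)
    filter_upwards [ho.mem_nhds hV₀] with V hV
    exact rh4_half h hf hC hV hV₀
  have heq := han.eqOn_of_preconnected_of_eventuallyEq
    (analyticOnNhd_const (v := f (z, V₀))) hconv.isPreconnected (z₀ := V₀) hmem hloc
  exact (heq hW).trans (heq hW').symm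

theorem holo_const (h : HoloHyp M p) : BoundedHolomorphicConstant M := by
  rintro f hf ⟨C, hC⟩
  obtain ⟨V, hV⟩ : ∃ V : ℂ → ℂ, V = fun z => ((-(Complex.normSq z / 2 + 1) : ℝ) : ℂ) := ⟨_, rfl⟩
  have hVre : ∀ z, (V z).re = -(Complex.normSq z / 2 + 1) := fun z => by
    rw [hV]
    exact Complex.ofReal_re _
  have hmem : ∀ z, (z, V z) ∈ M := fun z => h.big (z, V z) (by
    show 1 / 2 < -2 * (V z).re - Complex.normSq z
    rw [hVre]
    linarith)
  have hd : Differentiable ℂ fun z => f (z, V z) := by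
    intro z₀
    obtain ⟨X, hX⟩ : ∃ X : ℂ, X = ((-((‖z₀‖ + 1) ^ 2 / 2 + 1) : ℝ) : ℂ) := ⟨_, rfl⟩
    have hXre : X.re = -((‖z₀‖ + 1) ^ 2 / 2 + 1) := by rw [hX, Complex.ofReal_re]
    have hXm : ∀ z ∈ Metric.ball z₀ 1, (z, X) ∈ M := by
      intro z hz
      refine h.big (z, X) ?_
      show 1 / 2 < -2 * X.re - Complex.normSq z
      have h1 : ‖z‖ ≤ ‖z₀‖ + 1 := by
        have h2 : ‖z - z₀‖ < 1 := by rwa [Metric.mem_ball, dist_eq_norm] at hz
        have h3 : ‖z‖ ≤ ‖z₀‖ + ‖z - z₀‖ := by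
          have h4 := norm_add_le z₀ (z - z₀)
          rwa [add_sub_cancel] at h4
        linarith only [h2, h3]
      have h5 : ‖z‖ ^ 2 ≤ (‖z₀‖ + 1) ^ 2 := pow_le_pow_left₀ (norm_nonneg z) h1 2
      rw [hXre, Complex.normSq_eq_norm_sq]
      linarith only [h5]
    have h1 : DifferentiableAt ℂ (fun z : ℂ => f (z, X)) z₀ := by
      have h2 : DifferentiableAt ℂ f (z₀, X) :=
        hf.differentiableAt (h.isOpen.mem_nhds (hXm z₀ (Metric.mem_ball_self one_pos)))
      exact h2.comp z₀ (by fun_prop : DifferentiableAt ℂ (fun z : ℂ => (z, X)) z₀)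
    refine h1.congr_of_eventuallyEq ?_
    filter_upwards [Metric.ball_mem_nhds z₀ one_pos] with z hz
    exact indep_W h hf hC (hmem z) (hXm z hz)
  have hb : Bornology.IsBounded (range fun z => f (z, V z)) := by
    refine (isBounded_iff_forall_norm_le).2 ⟨C, ?_⟩
    rintro _ ⟨z, rfl⟩
    exact hC _ (hmem z)
  refine ⟨f (0, V 0), ?_⟩
  rintro ⟨z, W⟩ hx
  exact (indep_W h hf hC hx (hmem z)).trans (hd.apply_eq_apply_of_bounded hb z 0)

end Pool.Agent.KH
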