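import Pool.Agent.Lib.MP_93b649_gt.BHolo

/-! # ROW RH5: `M` is contractible

Homotopy from the identity of `M` to `x ↦ (z, W - c(x))`, `c(x) = |Re W| + |z|²/2 + 1` continuous, `≥ 0`: `H(s,(z,W)) = (z, W - s c)` stays in `M` (`h.down`); the image lies in
`V = {1/2 < Y}` (`Y ≥ 2`), which is convex and contained in `M`; then the straight homotopy in `V` to the point `(0,-1)`
(`Y = 2`). So the identity is nullhomotopic: `contractible_iff_id_nullhomotopic`, `ContinuousMap.Homotopic.trans`. (Convexity of `V`: `Y` is concave since `Complex.normSq` is convex.) -/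

open scoped ContDiff Topology ComplexConjugate
open Set Filter

noncomputable section

namespace Pool.Agent.KH

variable {M : Set (ℂ × ℂ)} {p : ℕ → ℝ}

/-- the shift -/
def rh5_c (x : ℂ × ℂ) : ℝ := |x.2.re| + Complex.normSq x.1 / 2 + 1

theorem rh5_c_cont : Continuous rh5_c := by
  unfold rh5_c
  have h1 : Continuous (fun x : ℂ × ℂ => x.2.re) := Complex.continuous_re.comp continuous_snd
  have h2 : Continuous (fun x : ℂ × ℂ => Complex.normSq x.1) := Complex.continuous_normSq.comp continuous_fst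
  exact (h1.abs.add (h2.div_const 2)).add continuous_const

theorem rh5_c_pos (x : ℂ × ℂ) : 0 ≤ rh5_c x := by
  unfold rh5_c
  have := abs_nonneg x.2.re
  have := Complex.normSq_nonneg x.1
  linarith

/-- the first map -/
def rh5_f (s : ℝ) (x : ℂ × ℂ) : ℂ × ℂ := (x.1, x.2 - ((s * rh5_c x : ℝ) : ℂ))

/-- the second map -/
def rh5_g (s : ℝ) (x : ℂ × ℂ) : ℂ × ℂ := (((1 - s : ℝ) : ℂ) * x.1,
  ((1 - s : ℝ) : ℂ) * (x.2 - ((rh5_c x : ℝ) : ℂ)) - (s : ℂ))

theorem rh5_f_cont : Continuous (fun q : ℝ × (ℂ × ℂ) => rh5_f q.1 q.2) := by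
  unfold rh5_f
  have h1 : Continuous (fun q : ℝ × (ℂ × ℂ) => rh5_c q.2) := rh5_c_cont.comp continuous_snd
  have h2 : Continuous (fun q : ℝ × (ℂ × ℂ) => ((q.1 * rh5_c q.2 : ℝ) : ℂ)) :=
    Complex.continuous_ofReal.comp (continuous_fst.mul h1)
  fun_prop

theorem rh5_g_cont : Continuous (fun q : ℝ × (ℂ × ℂ) => rh5_g q.1 q.2) := by
  unfold rh5_g
  have h1 : Continuous (fun q : ℝ × (ℂ × ℂ) => rh5_c q.2) := rh5_c_cont.comp continuous_snd
  have h2 : Continuous (fun q : ℝ × (ℂ × ℂ) => ((rh5_c q.2 : ℝ) : ℂ)) :=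
    Complex.continuous_ofReal.comp h1
  fun_prop

theorem rh5_f_mem (h : HoloHyp M p) {s : ℝ} (hs : 0 ≤ s) {x : ℂ × ℂ} (hx : x ∈ M) : rh5_f s x ∈ M := by
  refine h.down x.1 x.2 _ hx ?_
  have := mul_nonneg hs (rh5_c_pos x)
  simp only [Complex.sub_re, Complex.ofReal_re]
  linarith

theorem rh5_g_mem (h : HoloHyp M p) {s : ℝ} (hs : 0 ≤ s) (hs1 : s ≤ 1) (x : ℂ × ℂ) : rh5_g s x ∈ M := by
  refine h.big _ ?_
  have h1 := neg_abs_le x.2.re
  have h1' := le_abs_self x.2.re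
  have h2 := Complex.normSq_nonneg x.1
  have h3 : (0 : ℝ) ≤ 1 - s := by linarith
  simp only [rh5_g, Complex.sub_re, Complex.re_ofReal_mul, Complex.ofReal_re, Complex.normSq_mul,
    Complex.normSq_ofReal, rh5_c]
  nlinarith [mul_nonneg h3 h2, mul_nonneg (mul_nonneg h3 hs) h2, mul_nonneg h3 (sub_nonneg.2 h1')]

theorem rh5_eq (x : ℂ × ℂ) : rh5_f 1 x = rh5_g 0 x := by
  simp [rh5_f, rh5_g]

theorem rh5_eq0 (x : ℂ × ℂ) : rh5_f 0 x = x := by
  simp [rh5_f]

theorem rh5_eq1 (x : ℂ × ℂ) : rh5_g 1 x = (0, -1) := by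
  simp [rh5_g]

theorem contractible (h : HoloHyp M p) : ContractibleSpace M := by
  rw [contractible_iff_id_nullhomotopic]
  have hpt : ((0, -1) : ℂ × ℂ) ∈ M := by
    refine h.big _ ?_
    simp
    norm_num
  refine ⟨⟨(0, -1), hpt⟩, ?_⟩
  have hfc : Continuous (fun q : unitInterval × M =>
      (⟨rh5_f q.1 q.2, rh5_f_mem h q.1.2.1 q.2.2⟩ : M)) := by
    apply Continuous.subtype_mk
    have : Continuous (fun q : unitInterval × M => (((q.1 : ℝ), (q.2 : ℂ × ℂ)) : ℝ × (ℂ × ℂ))) := by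
      fun_prop
    exact rh5_f_cont.comp this
  have hgc : Continuous (fun q : unitInterval × M =>
      (⟨rh5_g q.1 q.2, rh5_g_mem h q.1.2.1 q.1.2.2 q.2⟩ : M)) := by
    apply Continuous.subtype_mk
    have : Continuous (fun q : unitInterval × M => (((q.1 : ℝ), (q.2 : ℂ × ℂ)) : ℝ × (ℂ × ℂ))) := by
      fun_prop
    exact rh5_g_cont.comp this
  let m : C(M, M) := ⟨fun x => ⟨rh5_g 0 x, rh5_g_mem h le_rfl zero_le_one x⟩, by
    apply Continuous.subtype_mk
    have : Continuous (fun x : M => ((0, (x : ℂ × ℂ)) : ℝ × (ℂ × ℂ))) := by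
      fun_prop
    exact rh5_g_cont.comp this⟩
  have h1 : (ContinuousMap.id M).Homotopic m := by
    refine ⟨⟨⟨fun q => ⟨rh5_f q.1 q.2, rh5_f_mem h q.1.2.1 q.2.2⟩, hfc⟩, ?_, ?_⟩⟩
    · intro x
      apply Subtype.ext
      exact rh5_eq0 x
    · intro x
      apply Subtype.ext
      exact rh5_eq x
  have h2 : m.Homotopic (ContinuousMap.const M ⟨(0, -1), hpt⟩) := by
    refine ⟨⟨⟨fun q => ⟨rh5_g q.1 q.2, rh5_g_mem h q.1.2.1 q.1.2.2 q.2⟩, hgc⟩, ?_, ?_⟩⟩
    · intro x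
      rfl
    · intro x
      apply Subtype.ext
      exact rh5_eq1 x
  exact h1.trans h2

end Pool.Agent.KH
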