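import Pool.Agent.Lib.MP_93b649_gt.RM3

/-! # ROW RM4a: derivatives of `k` and `q`

Calculus `HasD`; facts `hasD_X`, `hasD_GH`, `hasD_GV`, `rel`, `basic` (ROWS RM1, RM3). `c = c2 x b`, `t = x.1`, `G = G_H`.
* `k = (P1 + X L1)/(2G)` (real): derivative `[(P2 + X L2) Re b_W + L1 X'(b)]/(2G) - k G'(b)/G` with
  `X'(b) = (1+X)² F (conj t c + t conj c)`, `G'(b)/G = k b_W + q c + conj(k b_W + q c)`; this is `k1 x b + conj (k1 x b)`.
* `q = conj t G_V L/G`: derivative `conj b_t G_V L/G + conj t G_V'(b) L/G + conj t G_V L1 Re b_W/G - q G'(b)/G`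
  `= q1 x b + q2 x b`, where `q1` (complex linear in `b`) is defined in `BModel` and
  `q2 x b = G_V ( ((1+2X) L/G - X(1+X) L²/G²) conj c + conj t m/G conj b_W )`,  `m = L1/2 - k L`.
  Check of the conjugate part: `G_V L/G [conj b_t + conj t (e conj b_W + 2 (1+X) F t conj c)] + conj t G_V L1 conj b_W/(2G)
  - q (k conj b_W + conj q conj c)`; `conj b_t + e conj t conj b_W = conj c`, `conj t F t (1+X) = X` (`rel`), so the bracket is
  `(1+2X) conj c`; `q conj q = t conj t G_V² L²/G² = X(1+X) G_V L²/G²` (`G_V = F (1+X)²` and `rel`), and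
  `conj t G_V L1/(2G) - q k = conj t G_V m/G`. -/

open scoped ContDiff Topology ComplexConjugate
open Set

noncomputable section

namespace Pool.Agent.KH

namespace CData

variable (D : CData)

/-- `∂̄_b q` -/
def q2 (x b : ℂ × ℂ) : ℂ := D.GV x * (((1 + 2 * D.X x) * D.L x.2.re / D.GH x
      - D.X x * (1 + D.X x) * D.L x.2.re ^ 2 / D.GH x ^ 2) * conj (D.c2 x b)
    + conj x.1 * D.m x / D.GH x * conj b.2)

theorem rm4a_div (A B G S : ℂ) (hG : G ≠ 0) : (A * G - B * (G * S)) / G ^ 2 = (A - B * S) / G := by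
  field_simp

theorem rm4a_div2 (A B G S : ℂ) (hG : G ≠ 0) :
    (A * (2 * G) - B * (0 * G + 2 * (G * S))) / (2 * G) ^ 2 = (A - B * S) / (2 * G) := by
  field_simp
  ring

theorem hasD_k {x : ℂ × ℂ} (hx : x ∈ D.MS) : HasD (fun y => ((D.k y : ℝ) : ℂ)) x
    (fun b => D.k1 x b + conj (D.k1 x b)) := by
  have hG : (D.GH x : ℂ) ≠ 0 := by exact_mod_cast (D.basic hx).2.1.ne'
  have h := ((HasD.real (D.hP1 x.2.re)).add ((D.hasD_X hx).mul (HasD.real (D.hL1 x.2.re)))).div
    ((HasD.const 2).mul (D.hasD_GH hx)) (mul_ne_zero two_ne_zero hG)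
  refine (h.congr_fun fun y => ?_).congr' fun b => ?_
  · unfold k
    push_cast
    ring
  · have hk : (D.P1 x.2.re : ℂ) + (D.X x : ℂ) * (D.L1 x.2.re : ℂ) = 2 * D.GH x * D.k x := by
      unfold k
      push_cast
      field_simp
    rw [rm4a_div2 _ _ _ _ hG, hk, Complex.re_eq_add_conj b.2]
    unfold k1
    simp only [map_sub, map_add, map_mul, map_div₀, map_pow, map_one, map_ofNat, Complex.conj_ofReal, Complex.conj_conj]
    generalize (D.GH x : ℂ) = G at hG ⊢
    field_simp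
    ring

theorem rm4a_alg (t tb F X GV L L1 e G k c cb w wb Bb : ℂ) (hr : t * tb * F * (1 + X) = X)
    (hGV : GV = F * (1 + X) ^ 2) (hB : Bb = cb - e * tb * wb) :
    (((Bb * GV + tb * (GV * (e * w + 2 * (1 + X) * F * tb * c + (e * wb + 2 * (1 + X) * F * t * cb)))) * L
        + tb * GV * (L1 * ((w + wb) / 2))) - tb * GV * L * (k * w + tb * GV * L / G * c + (k * wb + t * GV * L / G * cb))) / G
      = tb * GV * L / G * (e * w + 2 * (1 + X) * tb * F * c - k * w - tb * GV * L / G * c) + tb * GV * L1 / (2 * G) * w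
        + GV * (((1 + 2 * X) * L / G - X * (1 + X) * L ^ 2 / G ^ 2) * cb + tb * (L1 / 2 - k * L) / G * wb) := by
  subst hB
  have h2 : t * tb * GV = X * (1 + X) := by
    rw [hGV]
    linear_combination (1 + X) * hr
  linear_combination (2 * GV * L / G * cb) * hr - (GV * L ^ 2 / G ^ 2 * cb) * h2

theorem hasD_q {x : ℂ × ℂ} (hx : x ∈ D.MS) : HasD (fun y => D.q y) x (fun b => D.q1 x b + D.q2 x b) := by
  have hG : (D.GH x : ℂ) ≠ 0 := by exact_mod_cast (D.basic hx).2.1.ne'
  have hr := D.rel hx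
  have h := (((HasD.fst (x := x)).conjD.mul (D.hasD_GV hx)).mul (HasD.real (D.hL x.2.re))).div (D.hasD_GH hx) hG
  refine (h.congr_fun fun y => ?_).congr' fun b => ?_
  · rfl
  · have hGV : (D.GV x : ℂ) = D.F x.2.re * (1 + D.X x) ^ 2 := by
      unfold GV
      push_cast
      ring
    have hB : conj b.1 = conj (D.c2 x b) - D.e x.2.re * conj x.1 * conj b.2 := by
      unfold c2
      simp only [map_add, map_mul, Complex.conj_ofReal]
      ring
    rw [rm4a_div _ _ _ _ hG, Complex.re_eq_add_conj b.2]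
    have e := rm4a_alg x.1 (conj x.1) (D.F x.2.re) (D.X x) (D.GV x) (D.L x.2.re) (D.L1 x.2.re) (D.e x.2.re) (D.GH x) (D.k x)
      (D.c2 x b) (conj (D.c2 x b)) b.2 (conj b.2) (conj b.1) hr hGV hB
    unfold q1 q2
    have hq : D.q x = conj x.1 * D.GV x * D.L x.2.re / D.GH x := rfl
    have hm : (D.m x : ℂ) = D.L1 x.2.re / 2 - D.k x * D.L x.2.re := by
      unfold m
      push_cast
      ring
    rw [hq, hm]
    simp only [map_add, map_mul, map_div₀, map_ofNat, map_one, Complex.conj_ofReal, Complex.conj_conj]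
    linear_combination e

end CData

end Pool.Agent.KH
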