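import Pool.Agent.Lib.MP_93b649_gt.RP1

/-! # ROW RP2: `(1+y(Re W))^m` is `4`-Lipschitz for the model: its derivative in the direction `v` is `m (1+y)^{m-1} y1 Re v_W`
(chain rule, `T.hy`), of absolute value `≤ m (1+y)^{m-1} y1 · 2g |v| ≤ 4|v|` (`model_norms`, `T.y1_bound`). -/

open scoped ContDiff Topology ComplexConjugate
open Set Filter

noncomputable section

namespace Pool.Agent.KH

variable {m : ℕ} (T : Template m)

private theorem rp2_re (x : ℂ × ℂ) : HasFDerivAt (fun y : ℂ × ℂ => y.2.re)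
    (Complex.reCLM.comp (ContinuousLinearMap.snd ℝ ℂ ℂ)) x :=
  Complex.reCLM.hasFDerivAt.comp x (hasFDerivAt_snd)

theorem model_lip_R : IsLip T.MS T.metric 4 (fun x => (1 + T.y x.2.re) ^ m) := by
  intro x hx
  have h1 : HasDerivAt (fun l => (1 + T.y l) ^ m)
      ((m : ℝ) * (1 + T.y x.2.re) ^ (m - 1) * T.y1 x.2.re) x.2.re :=
    ((T.hy x.2.re).const_add 1).pow m
  have h2 := h1.comp_hasFDerivAt x (rp2_re x)
  have h3 : HasFDerivAt (fun x : ℂ × ℂ => (1 + T.y x.2.re) ^ m)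
      (((m : ℝ) * (1 + T.y x.2.re) ^ (m - 1) * T.y1 x.2.re) •
        (Complex.reCLM.comp (ContinuousLinearMap.snd ℝ ℂ ℂ))) x := h2
  refine ⟨h3.differentiableAt, fun v => ?_⟩
  rw [h3.fderiv]
  have h4 : ((((m : ℝ) * (1 + T.y x.2.re) ^ (m - 1) * T.y1 x.2.re) •
        (Complex.reCLM.comp (ContinuousLinearMap.snd ℝ ℂ ℂ))) : ℂ × ℂ →L[ℝ] ℝ) v =
      ((m : ℝ) * (1 + T.y x.2.re) ^ (m - 1) * T.y1 x.2.re) * v.2.re := rfl
  rw [h4]
  obtain ⟨hy0, hy1⟩ := T.y1_bound x.2.re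
  have hy := T.y_nonneg x.2.re
  have hg := T.g_pos x.2.re
  have hv := (model_norms T hx v).1
  have hA : 0 ≤ (m : ℝ) * (1 + T.y x.2.re) ^ (m - 1) * T.y1 x.2.re := by positivity
  have hS := Real.sqrt_nonneg (T.metric x v v)
  rw [abs_mul, abs_of_nonneg hA]
  calc (m : ℝ) * (1 + T.y x.2.re) ^ (m - 1) * T.y1 x.2.re * |v.2.re|
      ≤ (m : ℝ) * (1 + T.y x.2.re) ^ (m - 1) * T.y1 x.2.re *
        (2 * T.g x.2.re * Real.sqrt (T.metric x v v)) :=
        mul_le_mul_of_nonneg_left ((Complex.abs_re_le_norm _).trans hv) hA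
    _ = 2 * (m * T.g x.2.re * (1 + T.y x.2.re) ^ (m - 1) * T.y1 x.2.re) *
        Real.sqrt (T.metric x v v) := by ring
    _ ≤ 2 * 2 * Real.sqrt (T.metric x v v) :=
        mul_le_mul_of_nonneg_right (mul_le_mul_of_nonneg_left hy1 (by norm_num)) hS
    _ = 4 * Real.sqrt (T.metric x v v) := by ring

end Pool.Agent.KH
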