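import Pool.Agent.Lib.MP_93b649_gt.BTemp

/-! # ROW RT1: elementary facts about `yv m c v = c S(v) e^{v/m}`, `S = Real.smoothTransition`

Smooth (`Real.smoothTransition.contDiff`), so it has derivatives `yv1`, `yv2` (`ContDiff.differentiable`, `contDiff_infty_iff_deriv`
or `ContDiff.iterate_deriv`). `S = 0` on `v ≤ 0`: there `yv = 0`; for `v < 0` the derivatives vanish (locally constant), at `v = 0` by
continuity of `yv1`, `yv2` (or: the closed set `{yv1 = 0}` contains `v < 0`). For `v ≥ 1`: `yv = c e^{v/m}`; for `v > 1` the derivatives are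
`yv/m`, `yv/m²` (local equality with `c e^{v/m}`), at `v = 1` by continuity. `yv1 ≥ 0`: `yv` is monotone (product of nonnegative
monotone functions, `Real.smoothTransition.monotone`), `Monotone.derivWithin_nonneg` / `Monotone.deriv_nonneg`. -/

open scoped ContDiff Topology
open Set Filter

noncomputable section

namespace Pool.Agent.KH

theorem rt1_Iic (f g : ℝ → ℝ) (hf : Continuous f) (hg : Continuous g) (a : ℝ) (h : ∀ v < a, f v = g v) :
    ∀ v ≤ a, f v = g v := by
  have h1 : Set.EqOn f g (Set.Iio a) := fun v hv => h v hv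
  have h2 := h1.closure hf hg
  rw [closure_Iio] at h2
  exact fun v hv => h2 hv

theorem rt1_Ici (f g : ℝ → ℝ) (hf : Continuous f) (hg : Continuous g) (a : ℝ) (h : ∀ v, a < v → f v = g v) :
    ∀ v, a ≤ v → f v = g v := by
  have h1 : Set.EqOn f g (Set.Ioi a) := fun v hv => h v hv
  have h2 := h1.closure hf hg
  rw [closure_Ioi] at h2
  exact fun v hv => h2 hv

theorem rt1_contDiff (m : ℕ) (c : ℝ) : ContDiff ℝ ∞ (yv m c) := by
  unfold yv
  have h1 : ContDiff ℝ ∞ (fun v : ℝ => Real.exp (v / m)) :=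
    Real.contDiff_exp.comp (contDiff_id.div_const _)
  have h2 : ContDiff ℝ ∞ Real.smoothTransition := Real.smoothTransition.contDiff
  exact (contDiff_const.mul h2).mul h1

theorem rt1_exp_deriv (m : ℕ) (c v : ℝ) :
    HasDerivAt (fun v : ℝ => c * Real.exp (v / m)) (c * Real.exp (v / m) / m) v := by
  have h1 : HasDerivAt (fun v : ℝ => v / (m : ℝ)) (1 / m) v := (hasDerivAt_id v).div_const _
  have h2 := (h1.exp).const_mul c
  refine h2.congr_deriv ?_
  ring

theorem yv_facts (m : ℕ) (hm : 3 ≤ m) (c : ℝ) (hc : 0 < c) :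
    ContDiff ℝ ∞ (yv m c) ∧ (∀ v, HasDerivAt (yv m c) (yv1 m c v) v) ∧ (∀ v, HasDerivAt (yv1 m c) (yv2 m c v) v) ∧
    (∀ v, 0 ≤ yv m c v) ∧ (∀ v ≤ 0, yv m c v = 0) ∧ (∀ v ≤ 0, yv1 m c v = 0) ∧ (∀ v ≤ 0, yv2 m c v = 0) ∧
    (∀ v, 1 ≤ v → yv m c v = c * Real.exp (v / m)) ∧
    (∀ v, 1 ≤ v → yv1 m c v = yv m c v / m) ∧ (∀ v, 1 ≤ v → yv2 m c v = yv m c v / m ^ 2) ∧ (∀ v, 0 ≤ yv1 m c v) := by
  have hs := rt1_contDiff m c
  have h01 : yv1 m c = deriv (yv m c) := rfl
  have h02 : yv2 m c = deriv (yv1 m c) := rfl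
  have hs1 : ContDiff ℝ ∞ (yv1 m c) := by
    rw [h01]
    exact (contDiff_infty_iff_deriv.1 hs).2
  have hs2 : ContDiff ℝ ∞ (yv2 m c) := by
    rw [h02]
    exact (contDiff_infty_iff_deriv.1 hs1).2
  have hd0 : ∀ v, HasDerivAt (yv m c) (yv1 m c v) v := fun v =>
    ((contDiff_infty_iff_deriv.1 hs).1 v).hasDerivAt
  have hd1 : ∀ v, HasDerivAt (yv1 m c) (yv2 m c v) v := fun v =>
    ((contDiff_infty_iff_deriv.1 hs1).1 v).hasDerivAt
  have hz0 : ∀ v ≤ 0, yv m c v = 0 := by
    intro v hv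
    unfold yv
    rw [Real.smoothTransition.zero_of_nonpos hv, mul_zero, zero_mul]
  have hz1' : ∀ v < 0, yv1 m c v = 0 := by
    intro v hv
    have h1 : yv m c =ᶠ[𝓝 v] fun _ => (0 : ℝ) := by
      filter_upwards [Iio_mem_nhds hv] with w hw
      exact hz0 w (le_of_lt hw)
    rw [h01, h1.deriv_eq, deriv_const]
  have hz2' : ∀ v < 0, yv2 m c v = 0 := by
    intro v hv
    have h1 : yv1 m c =ᶠ[𝓝 v] fun _ => (0 : ℝ) := by
      filter_upwards [Iio_mem_nhds hv] with w hw
      exact hz1' w hw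
    rw [h02, h1.deriv_eq, deriv_const]
  have he0 : ∀ v, 1 ≤ v → yv m c v = c * Real.exp (v / m) := by
    intro v hv
    unfold yv
    rw [Real.smoothTransition.one_of_one_le hv, mul_one]
  have he1' : ∀ v, 1 < v → yv1 m c v = yv m c v / m := by
    intro v hv
    have h1 : yv m c =ᶠ[𝓝 v] fun v : ℝ => c * Real.exp (v / m) := by
      filter_upwards [Ioi_mem_nhds hv] with w hw
      exact he0 w (le_of_lt hw)
    rw [h01, h1.deriv_eq, (rt1_exp_deriv m c v).deriv, he0 v hv.le]
  have he2' : ∀ v, 1 < v → yv2 m c v = yv m c v / m ^ 2 := by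
    intro v hv
    have h1 : yv1 m c =ᶠ[𝓝 v] fun v : ℝ => c / m * Real.exp (v / m) := by
      filter_upwards [Ioi_mem_nhds hv] with w hw
      rw [he1' w hw, he0 w (le_of_lt hw)]
      ring
    rw [h02, h1.deriv_eq, (rt1_exp_deriv m (c / m) v).deriv, he0 v hv.le]
    ring
  refine ⟨hs, hd0, hd1, ?_, hz0, ?_, ?_, he0, ?_, ?_, ?_⟩
  · intro v
    unfold yv
    exact mul_nonneg (mul_nonneg hc.le (Real.smoothTransition.nonneg v)) (Real.exp_pos _).le
  · exact rt1_Iic _ _ hs1.continuous continuous_const 0 hz1'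
  · exact rt1_Iic _ _ hs2.continuous continuous_const 0 hz2'
  · exact rt1_Ici _ _ hs1.continuous (hs.continuous.div_const _) 1 he1'
  · exact rt1_Ici _ _ hs2.continuous (hs.continuous.div_const _) 1 he2'
  · intro v
    have hmono : Monotone (yv m c) := by
      have h1 : Monotone (fun v : ℝ => c * Real.smoothTransition v) :=
        Real.smoothTransition.monotone.const_mul hc.le
      have h2 : Monotone (fun v : ℝ => Real.exp (v / m)) := by
        intro a b hab
        exact Real.exp_le_exp.2 (div_le_div_of_nonneg_right hab (Nat.cast_nonneg m))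
      exact h1.mul h2 (fun v => mul_nonneg hc.le (Real.smoothTransition.nonneg v)) (fun v => (Real.exp_pos _).le)
    rw [h01]
    exact hmono.deriv_nonneg

end Pool.Agent.KH
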