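import Pool.Agent.Lib.MP_93b649_gt.RT1

/-! # ROW RT2: for small `c` the curvature conditions hold for all `v`

* `v ≤ 0`: `yv = yv1 = yv2 = 0`: `λ = κ = 2`, `e_h = 0`, `1/2 < 2`.
* `v ≥ 1`, `y := yv`, `y1 = y/m`, `y2 = y/m²`: `κ = 2/(1+y)^{2m+1}`, and
  `λ = (1+y)^{-2m-2} (2 + y (2 - (1+1/m)²)) ≥ 0` since `(1+1/m)² ≤ 16/9`; `e_h = (1+1/m)² y²/(1+y)^{2m+2} ≤ (16/9)/(1+y)^{2m}`, so
  `1/(2(1+y)^{2m+2}) + e_h/(2(1+y)^{m+1}) ≤ (1/2 + 8/9)/(1+y)^{2m+1} < κ` (`m ≥ 3`, `1+y ≥ 1`); `m y1/(1+y) = y/(1+y) ≤ 1`.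
* `0 ≤ v ≤ 1`: `yv m c v = c φ(v)`, `yv1 = c φ'(v)`, `yv2 = c φ''(v)` with `φ = yv m 1` (`yv m c = fun v => c * yv m 1 v`); `φ, φ', φ''`
  are bounded by some `B` on `[0,1]` (continuity). The three expressions are continuous functions of `(y, y1, y2)` near `(0,0,0)`
  with values `λ = 2`, `κ - (…) = 2 - 1/2`, `0` at `(0,0,0)`; so they are `> 0`, `> 0`, `< 2` for `|y|,|y1|,|y2| ≤ δ` (`y ≥ 0`); take
  `c = min 1 (δ/(B+1))`. -/

open scoped ContDiff Topology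
open Set Filter

noncomputable section

namespace Pool.Agent.KH

/-- the three conditions -/
def rt2_P (m : ℕ) (y y1 y2 : ℝ) : Prop :=
  0 ≤ lamv m y y1 y2 ∧
    (1 / (1 + y) ^ (m + 1)) ^ 2 / 2 + 1 / (1 + y) ^ (m + 1) * ehv m y y1 / 2 < kapv m y y1 ∧
    m * y1 / (1 + y) ≤ 2

theorem rt2_zero (m : ℕ) : 0 < lamv m 0 0 0 ∧
    (1 / (1 + (0 : ℝ)) ^ (m + 1)) ^ 2 / 2 + 1 / (1 + (0 : ℝ)) ^ (m + 1) * ehv m 0 0 / 2 < kapv m 0 0 ∧
    m * (0 : ℝ) / (1 + 0) < 2 := by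
  unfold lamv kapv ehv
  refine ⟨?_, ?_, ?_⟩ <;> norm_num

theorem rt2_near (m : ℕ) : ∃ δ : ℝ, 0 < δ ∧ ∀ y y1 y2 : ℝ, |y| < δ → |y1| < δ → |y2| < δ → rt2_P m y y1 y2 := by
  have hk : ContinuousAt (fun p : ℝ × ℝ × ℝ => kapv m p.1 p.2.1) (0, 0, 0) := by
    unfold kapv
    refine ContinuousAt.div (by fun_prop) (by fun_prop) ?_
    norm_num
  have hl : ContinuousAt (fun p : ℝ × ℝ × ℝ => lamv m p.1 p.2.1 p.2.2) (0, 0, 0) := by
    unfold lamv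
    refine hk.sub (ContinuousAt.div (ContinuousAt.add ?_ ?_) (by fun_prop) (by norm_num))
    · refine ContinuousAt.mul (by fun_prop) (ContinuousAt.sub ?_ ?_)
      · exact ContinuousAt.div (by fun_prop) (by fun_prop) (by norm_num)
      · exact ContinuousAt.div (by fun_prop) (by fun_prop) (by norm_num)
    · exact ContinuousAt.div (by fun_prop) (by fun_prop) (by norm_num)
  have he : ContinuousAt (fun p : ℝ × ℝ × ℝ => ehv m p.1 p.2.1) (0, 0, 0) := by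
    unfold ehv
    exact ContinuousAt.div (by fun_prop) (by fun_prop) (by norm_num)
  have hi : ContinuousAt (fun p : ℝ × ℝ × ℝ => 1 / (1 + p.1) ^ (m + 1)) (0, 0, 0) :=
    ContinuousAt.div (by fun_prop) (by fun_prop) (by norm_num)
  have h2 : ContinuousAt (fun p : ℝ × ℝ × ℝ => (1 / (1 + p.1) ^ (m + 1)) ^ 2 / 2 +
      1 / (1 + p.1) ^ (m + 1) * ehv m p.1 p.2.1 / 2) (0, 0, 0) :=
    ((hi.pow 2).div_const 2).add ((hi.mul he).div_const 2)
  have h3 : ContinuousAt (fun p : ℝ × ℝ × ℝ => m * p.2.1 / (1 + p.1)) (0, 0, 0) :=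
    ContinuousAt.div (by fun_prop) (by fun_prop) (by norm_num)
  obtain ⟨z1, z2, z3⟩ := rt2_zero m
  have e1 := hl.eventually (lt_mem_nhds z1)
  have e2 := (h2.prodMk hk).eventually ((isOpen_lt continuous_fst continuous_snd).mem_nhds z2)
  have e3 := h3.eventually (gt_mem_nhds z3)
  have e := (e1.and (e2.and e3))
  obtain ⟨δ, hδ, h⟩ := Metric.eventually_nhds_iff.1 e
  refine ⟨δ, hδ, fun y y1 y2 ha hb hc => ?_⟩
  have hd : dist (y, y1, y2) ((0 : ℝ), (0 : ℝ), (0 : ℝ)) < δ := by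
    rw [Prod.dist_eq, Prod.dist_eq, max_lt_iff, max_lt_iff, Real.dist_eq, Real.dist_eq, Real.dist_eq, sub_zero,
      sub_zero, sub_zero]
    exact ⟨ha, hb, hc⟩
  obtain ⟨a1, a2, a3⟩ := h hd
  exact ⟨a1.le, a2, a3.le⟩

theorem rt2_m (m : ℕ) (hm : 3 ≤ m) : (1 + 1 / (m : ℝ)) ^ 2 ≤ 16 / 9 := by
  have h3 : (3 : ℝ) ≤ m := by exact_mod_cast hm
  have h1 : 1 / (m : ℝ) ≤ 1 / 3 := one_div_le_one_div_of_le (by norm_num) h3
  have h0 : 0 ≤ 1 / (m : ℝ) := by positivity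
  have h2 : (1 + 1 / (m : ℝ)) ^ 2 ≤ (4 / 3) ^ 2 := pow_le_pow_left₀ (by linarith only [h0]) (by linarith only [h1]) 2
  linarith only [h2]

/-- the case `v ≥ 1` -/
theorem rt2_big (m : ℕ) (hm : 3 ≤ m) (y : ℝ) (hy : 0 ≤ y) : rt2_P m y (y / m) (y / m ^ 2) := by
  have hm0 : (m : ℝ) ≠ 0 := by
    have : m ≠ 0 := by omega
    exact_mod_cast this
  have hA : 0 < 1 + y := by linarith only [hy]
  have hA0 : 1 + y ≠ 0 := hA.ne'
  have hb := rt2_m m hm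
  have hmy : (m : ℝ) * (y / m) = y := mul_div_cancel₀ y hm0
  have hkap : kapv m y (y / m) = 2 / (1 + y) ^ (2 * m + 1) := by
    unfold kapv
    rw [hmy]
    congr 1
    ring
  have hlam : lamv m y (y / m) (y / m ^ 2) = (2 + y * (2 - (1 + 1 / (m : ℝ)) ^ 2)) / (1 + y) ^ (2 * m + 2) := by
    unfold lamv
    rw [hkap, hmy, pow_add (1 + y) (2 * m) 1, pow_add (1 + y) (2 * m) 2, pow_one]
    generalize (1 + y) ^ (2 * m) = Z at *
    by_cases hZ : Z = 0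
    · rw [hZ]
      simp
    · field_simp
      ring
  have heh : ehv m y (y / m) = (1 + 1 / (m : ℝ)) ^ 2 * y ^ 2 / (1 + y) ^ (2 * m + 2) := by
    unfold ehv
    congr 1
    field_simp
  refine ⟨?_, ?_, ?_⟩
  · rw [hlam]
    refine div_nonneg ?_ (pow_pos hA _).le
    have : 0 ≤ y * (2 - (1 + 1 / (m : ℝ)) ^ 2) := mul_nonneg hy (by linarith only [hb])
    linarith only [this]
  · rw [hkap, heh, lt_div_iff₀ (pow_pos hA _)]
    have hq0 : 0 ≤ 1 / (1 + y) := by positivity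
    have hq1 : 1 / (1 + y) ≤ 1 := by
      rw [div_le_one hA]
      linarith only [hy]
    have hr1 : y / (1 + y) ≤ 1 := by
      rw [div_le_one hA]
      linarith only
    have hr0 : 0 ≤ y / (1 + y) := by positivity
    have e : ((1 / (1 + y) ^ (m + 1)) ^ 2 / 2 + 1 / (1 + y) ^ (m + 1) *
        ((1 + 1 / (m : ℝ)) ^ 2 * y ^ 2 / (1 + y) ^ (2 * m + 2)) / 2) * (1 + y) ^ (2 * m + 1) =
        1 / (1 + y) / 2 + (1 + 1 / (m : ℝ)) ^ 2 * ((y / (1 + y)) ^ 2 * (1 / (1 + y)) ^ m) / 2 := by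
      rw [pow_add (1 + y) (2 * m) 1, pow_add (1 + y) (2 * m) 2, pow_add (1 + y) m 1, pow_one, mul_comm 2 m, pow_mul,
        one_div_pow (1 + y) m]
      have hZ : (1 + y) ^ m ≠ 0 := pow_ne_zero _ hA0
      generalize (1 + y) ^ m = Z at *
      field_simp
    rw [e]
    have h5 : (y / (1 + y)) ^ 2 * (1 / (1 + y)) ^ m ≤ 1 :=
      mul_le_one₀ (pow_le_one₀ hr0 hr1) (pow_nonneg hq0 _) (pow_le_one₀ hq0 hq1)
    have h6 : 0 ≤ (y / (1 + y)) ^ 2 * (1 / (1 + y)) ^ m := by positivity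
    have h7 : (1 + 1 / (m : ℝ)) ^ 2 * ((y / (1 + y)) ^ 2 * (1 / (1 + y)) ^ m) ≤ 16 / 9 * 1 :=
      mul_le_mul hb h5 h6 (by norm_num)
    linarith only [h7, hq1]
  · rw [hmy, div_le_iff₀ hA]
    linarith only [hy]

theorem exists_c (m : ℕ) (hm : 3 ≤ m) : ∃ c : ℝ, 0 < c ∧ c ≤ 1 ∧ ∀ v,
    0 ≤ lamv m (yv m c v) (yv1 m c v) (yv2 m c v) ∧
    (1 / (1 + yv m c v) ^ (m + 1)) ^ 2 / 2 + 1 / (1 + yv m c v) ^ (m + 1) * ehv m (yv m c v) (yv1 m c v) / 2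
      < kapv m (yv m c v) (yv1 m c v) ∧
    m * yv1 m c v / (1 + yv m c v) ≤ 2 := by
  obtain ⟨δ, hδ, hnear⟩ := rt2_near m
  obtain ⟨f1, f2, f3, -⟩ := yv_facts m hm 1 one_pos
  have c0 : Continuous (yv m 1) := f1.continuous
  have c1 : Continuous (yv1 m 1) := continuous_iff_continuousAt.2 fun v => (f3 v).continuousAt
  have c2 : Continuous (yv2 m 1) := by
    have h1 : ContDiff ℝ ∞ (yv1 m 1) := (contDiff_infty_iff_deriv.1 f1).2
    have h2 : ContDiff ℝ ∞ (yv2 m 1) := (contDiff_infty_iff_deriv.1 h1).2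
    exact h2.continuous
  have hcpt : IsCompact (Icc (0 : ℝ) 1) := isCompact_Icc
  obtain ⟨B0, hB0⟩ := hcpt.exists_bound_of_continuousOn c0.continuousOn
  obtain ⟨B1, hB1⟩ := hcpt.exists_bound_of_continuousOn c1.continuousOn
  obtain ⟨B2, hB2⟩ := hcpt.exists_bound_of_continuousOn c2.continuousOn
  obtain ⟨B, hB⟩ : ∃ B : ℝ, B = |B0| + |B1| + |B2| := ⟨_, rfl⟩
  have a0 := abs_nonneg B0
  have a1 := abs_nonneg B1
  have a2 := abs_nonneg B2
  have b0 := le_abs_self B0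
  have b1 := le_abs_self B1
  have b2 := le_abs_self B2
  have hBp : 0 < B + 1 := by linarith only [hB, a0, a1, a2]
  obtain ⟨c, hc⟩ : ∃ c : ℝ, c = min 1 (δ / 2 / (B + 1)) := ⟨_, rfl⟩
  have hc0 : 0 < c := by
    rw [hc]
    exact lt_min one_pos (by positivity)
  have hc1 : c ≤ 1 := by
    rw [hc]
    exact min_le_left _ _
  have hcB : c * (B + 1) ≤ δ / 2 := by
    have h : c ≤ δ / 2 / (B + 1) := by
      rw [hc]
      exact min_le_right _ _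
    rwa [le_div_iff₀ hBp] at h
  refine ⟨c, hc0, hc1, fun v => ?_⟩
  change rt2_P m (yv m c v) (yv1 m c v) (yv2 m c v)
  obtain ⟨-, -, -, g0, g1, g2, g3, -, g5, g6, -⟩ := yv_facts m hm c hc0
  rcases le_total v 0 with hv | hv
  · rw [g1 v hv, g2 v hv, g3 v hv]
    obtain ⟨z1, z2, z3⟩ := rt2_zero m
    exact ⟨z1.le, z2, z3.le⟩
  rcases le_total 1 v with hv1 | hv1
  · rw [g5 v hv1, g6 v hv1]
    exact rt2_big m hm _ (g0 v)
  have s0 : yv m c = fun v => c * yv m 1 v := by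
    funext w
    unfold yv
    ring
  have s1 : yv1 m c = fun v => c * yv1 m 1 v := by
    funext w
    unfold yv1
    rw [s0]
    exact deriv_const_mul_field c
  have s2 : yv2 m c = fun v => c * yv2 m 1 v := by
    funext w
    unfold yv2
    rw [s1]
    exact deriv_const_mul_field c
  have key : ∀ x : ℝ, |x| ≤ B → |c * x| < δ := by
    intro x hx
    rw [abs_mul, abs_of_pos hc0]
    have h1 : c * |x| ≤ c * (B + 1) := mul_le_mul_of_nonneg_left (by linarith only [hx]) hc0.le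
    linarith only [h1, hcB, hδ]
  have k0 := hB0 v ⟨hv, hv1⟩
  have k1 := hB1 v ⟨hv, hv1⟩
  have k2 := hB2 v ⟨hv, hv1⟩
  rw [Real.norm_eq_abs] at k0 k1 k2
  have t0 : yv m c v = c * yv m 1 v := congrFun s0 v
  have t1 : yv1 m c v = c * yv1 m 1 v := congrFun s1 v
  have t2 : yv2 m c v = c * yv2 m 1 v := congrFun s2 v
  rw [t0, t1, t2]
  refine hnear _ _ _ (key _ ?_) (key _ ?_) (key _ ?_)
  · linarith only [k0, hB, a1, a2, b0]
  · linarith only [k1, hB, a0, a2, b1]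
  · linarith only [k2, hB, a0, a1, b2]

end Pool.Agent.KH
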