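import Pool.Agent.Lib.MP_93b649_gt.RT1

/-! # ROW RT3: the primitives are smooth, with the expected derivatives

General fact: for `f : ℝ → ℝ` with `ContDiff ℝ ∞ f`, `F v = a + ∫ σ in 0..v, f σ` has `HasDerivAt F (f v) v`
(`intervalIntegral.integral_hasDerivAt_right` / `Continuous.deriv_integral`), hence `ContDiff ℝ ∞ F` (`contDiff_infty_iff_deriv`).
`1 + yv > 0` (`yv_facts`) gives smoothness of `e^σ/(1+yv)`. -/

open scoped ContDiff Topology
open Set Filter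

noncomputable section

namespace Pool.Agent.KH

theorem rt3_prim (a : ℝ) {f : ℝ → ℝ} (hf : ContDiff ℝ ∞ f) :
    ContDiff ℝ ∞ (fun v => a + ∫ σ in (0 : ℝ)..v, f σ) ∧
      ∀ v, HasDerivAt (fun v => a + ∫ σ in (0 : ℝ)..v, f σ) (f v) v := by
  have hd : ∀ v, HasDerivAt (fun v => a + ∫ σ in (0 : ℝ)..v, f σ) (f v) v := fun v =>
    (intervalIntegral.integral_hasDerivAt_right (hf.continuous.intervalIntegrable _ _)
      (hf.continuous.stronglyMeasurableAtFilter _ _) hf.continuous.continuousAt).const_add a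
  refine ⟨?_, hd⟩
  rw [contDiff_infty_iff_deriv]
  refine ⟨fun v => (hd v).differentiableAt, ?_⟩
  have h : deriv (fun v => a + ∫ σ in (0 : ℝ)..v, f σ) = f := funext fun v => (hd v).deriv
  rw [h]
  exact hf

theorem prim_facts (m : ℕ) (hm : 3 ≤ m) (c : ℝ) (hc : 0 < c) :
    (ContDiff ℝ ∞ (Tv m c) ∧ ∀ v, HasDerivAt (Tv m c) ((1 + yv m c v) ^ m * Real.exp (-v)) v) ∧
    (ContDiff ℝ ∞ (nuv m c) ∧ ∀ v, HasDerivAt (nuv m c) (Real.exp v / (1 + yv m c v)) v) ∧
    (ContDiff ℝ ∞ (epv m c) ∧ ∀ v, HasDerivAt (epv m c) (nuv m c v * ((1 + yv m c v) ^ m * Real.exp (-v))) v) := by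
  obtain ⟨hy, -, -, hy0, -⟩ := yv_facts m hm c hc
  have h1 : ContDiff ℝ ∞ (fun v => 1 + yv m c v) := contDiff_const.add hy
  have h2 : ContDiff ℝ ∞ (fun v => (1 + yv m c v) ^ m * Real.exp (-v)) :=
    (h1.pow m).mul (Real.contDiff_exp.comp contDiff_neg)
  have h3 : ContDiff ℝ ∞ (fun v => Real.exp v / (1 + yv m c v)) :=
    Real.contDiff_exp.div h1 (fun v => by have := hy0 v; positivity)
  have h4 := rt3_prim (-1) h2
  have h5 := rt3_prim 1 h3
  have h6 : ContDiff ℝ ∞ (nuv m c) := h5.1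
  have h7 := rt3_prim (-Real.log 2) (h6.mul h2)
  exact ⟨h4, h5, h7⟩

end Pool.Agent.KH
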