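import Pool.Agent.Lib.MP_93b649_gt.RT3

/-! # ROW RT4: values for `v ≤ 0` and estimates

* `v ≤ 0`: there `yv = 0`, so `Tv' = e^{-v}`, `nuv' = e^v`, and `epv' = nuv e^{-v} = 1`; compare values at `0`: `Tv 0 = -1`, `nuv 0 = 1`,
  `epv 0 = -log 2` (e.g. the derivative of `Tv + e^{-v}` vanishes on `(-∞,0]`: `is_const_of_deriv_eq_zero` on an interval, or
  evaluate the integrals: `intervalIntegral.integral_congr`, `integral_exp`).
* `nuv ≤ e^v`: `e^v - nuv` has derivative `e^v yv/(1+yv) ≥ 0` and vanishes for `v ≤ 0`; so it is monotone.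
* `nuv > 0`: monotone (`nuv' > 0`) and `= e^v > 0` for `v ≤ 0`; `nuv ≥ nuv 0 = 1` for `v ≥ 0`.
* `v - log 2 ≤ epv`: equality for `v ≤ 0`; `epv' = nuv (1+y)^m e^{-v} ≥ nuv (1+y) e^{-v}`, and `w = nuv (1+y) - e^v` has derivative
  `e^v + nuv yv1 - e^v = nuv yv1 ≥ 0`, `w = 0` for `v ≤ 0`, so `w ≥ 0` and `epv' ≥ 1`. -/

open scoped ContDiff Topology
open Set Filter

noncomputable section

namespace Pool.Agent.KH

/-- comparison of two primitives on an interval -/
theorem rt4_le {F G F' G' : ℝ → ℝ} (hF : ∀ v, HasDerivAt F (F' v) v) (hG : ∀ v, HasDerivAt G (G' v) v)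
    {a b : ℝ} (hab : a ≤ b) (h : ∀ v, a ≤ v → v ≤ b → F' v ≤ G' v) : F b - F a ≤ G b - G a := by
  have hd : ∀ v, HasDerivAt (fun v => G v - F v) (G' v - F' v) v := fun v => (hG v).sub (hF v)
  have hm : MonotoneOn (fun v => G v - F v) (Icc a b) := by
    refine monotoneOn_of_deriv_nonneg (convex_Icc a b)
      (fun v _ => (hd v).continuousAt.continuousWithinAt)
      (fun v _ => (hd v).differentiableAt.differentiableWithinAt) (fun v hv => ?_)
    rw [interior_Icc] at hv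
    rw [(hd v).deriv]
    exact sub_nonneg.2 (h v hv.1.le hv.2.le)
  have h1 : G a - F a ≤ G b - F b := hm (left_mem_Icc.2 hab) (right_mem_Icc.2 hab) hab
  linarith

theorem rt4_Tv0 (m : ℕ) (c : ℝ) : Tv m c 0 = -1 := by
  simp [Tv]

theorem rt4_nuv0 (m : ℕ) (c : ℝ) : nuv m c 0 = 1 := by
  simp [nuv]

theorem rt4_epv0 (m : ℕ) (c : ℝ) : epv m c 0 = - Real.log 2 := by
  simp [epv]

theorem rt4_exp_neg (v : ℝ) : HasDerivAt (fun v : ℝ => - Real.exp (-v)) (Real.exp (-v)) v := by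
  have h : HasDerivAt (fun v : ℝ => - Real.exp (-v)) (-(Real.exp (-v) * (-1))) v :=
    ((Real.hasDerivAt_exp (-v)).comp v (hasDerivAt_neg v)).neg
  rw [mul_neg_one, neg_neg] at h
  exact h

theorem rt4_lin (a v : ℝ) : HasDerivAt (fun v : ℝ => v - a) 1 v := (hasDerivAt_id v).sub_const a

theorem prim_est (m : ℕ) (hm : 3 ≤ m) (c : ℝ) (hc : 0 < c) :
    (∀ v ≤ 0, Tv m c v = - Real.exp (-v) ∧ nuv m c v = Real.exp v ∧ epv m c v = v - Real.log 2) ∧
    (∀ v, nuv m c v ≤ Real.exp v) ∧ (∀ v, 0 < nuv m c v) ∧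
    (∀ v, v - Real.log 2 ≤ epv m c v) ∧ (∀ v, 0 ≤ v → 1 ≤ nuv m c v) := by
  obtain ⟨-, hy1, -, hy0, hyz, -, -, -, -, -, hy1n⟩ := yv_facts m hm c hc
  obtain ⟨⟨-, hT⟩, ⟨-, hN⟩, ⟨-, hE⟩⟩ := prim_facts m hm c hc
  have hNneg : ∀ v ≤ 0, nuv m c v = Real.exp v := by
    intro v hv
    have e : ∀ u ≤ (0 : ℝ), Real.exp u / (1 + yv m c u) = Real.exp u := by
      intro u hu
      rw [hyz u hu, add_zero, div_one]
    have h1 := rt4_le hN Real.hasDerivAt_exp hv (fun u _ hu => (e u hu).le)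
    have h2 := rt4_le Real.hasDerivAt_exp hN hv (fun u _ hu => (e u hu).ge)
    rw [rt4_nuv0, Real.exp_zero] at h1 h2
    linarith
  have hTneg : ∀ v ≤ 0, Tv m c v = - Real.exp (-v) := by
    intro v hv
    have e : ∀ u ≤ (0 : ℝ), (1 + yv m c u) ^ m * Real.exp (-u) = Real.exp (-u) := by
      intro u hu
      rw [hyz u hu, add_zero, one_pow, one_mul]
    have h1 := rt4_le hT rt4_exp_neg hv (fun u _ hu => (e u hu).le)
    have h2 := rt4_le rt4_exp_neg hT hv (fun u _ hu => (e u hu).ge)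
    rw [rt4_Tv0] at h1 h2
    rw [neg_zero, Real.exp_zero] at h1 h2
    linarith
  have hEneg : ∀ v ≤ 0, epv m c v = v - Real.log 2 := by
    intro v hv
    have e : ∀ u ≤ (0 : ℝ), nuv m c u * ((1 + yv m c u) ^ m * Real.exp (-u)) = 1 := by
      intro u hu
      rw [hyz u hu, add_zero, one_pow, one_mul, hNneg u hu, ← Real.exp_add, add_neg_cancel, Real.exp_zero]
    have h1 := rt4_le hE (rt4_lin (Real.log 2)) hv (fun u _ hu => (e u hu).le)
    have h2 := rt4_le (rt4_lin (Real.log 2)) hE hv (fun u _ hu => (e u hu).ge)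
    rw [rt4_epv0] at h1 h2
    linarith
  have hNle : ∀ v, nuv m c v ≤ Real.exp v := by
    intro v
    rcases le_total v 0 with hv | hv
    · exact (hNneg v hv).le
    · have h1 := rt4_le hN Real.hasDerivAt_exp hv
        (fun u _ _ => div_le_self (Real.exp_pos u).le (by linarith [hy0 u]))
      rw [rt4_nuv0, Real.exp_zero] at h1
      linarith
  have hN1 : ∀ v, 0 ≤ v → 1 ≤ nuv m c v := by
    intro v hv
    have h1 := rt4_le (fun u => hasDerivAt_const u (0 : ℝ)) hN hv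
      (fun u _ _ => div_nonneg (Real.exp_pos u).le (by linarith [hy0 u]))
    rw [rt4_nuv0] at h1
    linarith
  have hNpos : ∀ v, 0 < nuv m c v := by
    intro v
    rcases le_total v 0 with hv | hv
    · rw [hNneg v hv]
      exact Real.exp_pos v
    · linarith [hN1 v hv]
  have hw : ∀ v, 0 ≤ v → Real.exp v ≤ nuv m c v * (1 + yv m c v) := by
    intro v hv
    have hd : ∀ u, HasDerivAt (fun u => nuv m c u * (1 + yv m c u))
        (Real.exp u / (1 + yv m c u) * (1 + yv m c u) + nuv m c u * yv1 m c u) u :=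
      fun u => (hN u).mul ((hy1 u).const_add 1)
    have h1 := rt4_le Real.hasDerivAt_exp hd hv (fun u _ _ => by
      have h2 : 1 + yv m c u ≠ 0 := by linarith [hy0 u]
      rw [div_mul_cancel₀ _ h2]
      exact le_add_of_nonneg_right (mul_nonneg (hNpos u).le (hy1n u)))
    have h3 : nuv m c 0 * (1 + yv m c 0) = 1 := by
      rw [rt4_nuv0, hyz 0 le_rfl, add_zero, mul_one]
    rw [h3, Real.exp_zero] at h1
    linarith
  refine ⟨fun v hv => ⟨hTneg v hv, hNneg v hv, hEneg v hv⟩, hNle, hNpos, ?_, hN1⟩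
  intro v
  rcases le_total v 0 with hv | hv
  · exact (hEneg v hv).ge
  · have h1 := rt4_le (rt4_lin (Real.log 2)) hE hv (fun u hu _ => by
      have h2 : 1 + yv m c u ≤ (1 + yv m c u) ^ m :=
        le_self_pow₀ (by linarith [hy0 u]) (by omega)
      have h3 : Real.exp u ≤ nuv m c u * (1 + yv m c u) ^ m :=
        (hw u hu).trans (mul_le_mul_of_nonneg_left h2 (hNpos u).le)
      have h4 := mul_le_mul_of_nonneg_right h3 (Real.exp_pos (-u)).le
      rw [← Real.exp_add, add_neg_cancel, Real.exp_zero, mul_assoc] at h4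
      exact h4)
    rw [rt4_epv0] at h1
    linarith

end Pool.Agent.KH
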