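import Pool.Agent.Lib.MP_93b649_gt.RT4

/-! # ROW RT5: the inverse function of `T`

`T = Tv m c` is smooth with `T' = (1+y)^m e^{-v} > 0`, so strictly increasing. `T v → -∞` as `v → -∞` (`T v = -e^{-v}`, `prim_est`);
for `v ≥ 1`: `T' = (e^{-v/m} + c)^m ≥ c^m`, so `T v → +∞`. Hence `T` is a homeomorphism of `ℝ` (`StrictMono.orderIsoOfSurjective`,
`Continuous.surjective`), and the inverse is smooth (`OpenPartialHomeomorph.contDiffAt_symm_deriv` or
`HasDerivAt.of_local_left_inverse` and induction: `V' = 1/(T'∘V)`, `contDiff_infty_iff_deriv`; there may be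
`Homeomorph.contDiff_symm_deriv` in Mathlib, which does all of it). -/

open scoped ContDiff Topology
open Set Filter

noncomputable section

namespace Pool.Agent.KH

theorem exists_inverse (m : ℕ) (hm : 3 ≤ m) (c : ℝ) (hc : 0 < c) : ∃ V : ℝ → ℝ, ContDiff ℝ ∞ V ∧
    (∀ l, Tv m c (V l) = l) ∧ (∀ v, V (Tv m c v) = v) ∧ StrictMono V ∧ Tendsto V atTop atTop ∧
    ∀ l, HasDerivAt V (1 / ((1 + yv m c (V l)) ^ m * Real.exp (-(V l)))) l := by
  obtain ⟨-, -, -, hy0, -, -, -, hy1, -, -, -⟩ := yv_facts m hm c hc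
  obtain ⟨⟨hT, hTd⟩, -, -⟩ := prim_facts m hm c hc
  obtain ⟨hneg, -, -, -, -⟩ := prim_est m hm c hc
  have hpos : ∀ v, 0 < (1 + yv m c v) ^ m * Real.exp (-v) := fun v =>
    mul_pos (pow_pos (add_pos_of_pos_of_nonneg one_pos (hy0 v)) m) (Real.exp_pos _)
  have hmono : StrictMono (Tv m c) := strictMono_of_deriv_pos fun v => by
    rw [(hTd v).deriv]; exact hpos v
  -- limits
  have hbot : Tendsto (Tv m c) atBot atBot := by
    have h1 : Tendsto (fun v : ℝ => -Real.exp (-v)) atBot atBot :=
      tendsto_neg_atTop_atBot.comp (Real.tendsto_exp_atTop.comp tendsto_neg_atBot_atTop)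
    refine h1.congr' ?_
    filter_upwards [eventually_le_atBot (0 : ℝ)] with v hv
    exact (hneg v hv).1.symm
  have hder : ∀ v, 1 ≤ v → c ^ m ≤ (1 + yv m c v) ^ m * Real.exp (-v) := by
    intro v hv
    have hm0 : (m : ℝ) ≠ 0 := Nat.cast_ne_zero.mpr (by omega)
    have h1 : c ^ m * Real.exp v ≤ (1 + yv m c v) ^ m := by
      have h2 : (c * Real.exp (v / m)) ^ m = c ^ m * Real.exp v := by
        rw [mul_pow, ← Real.exp_nat_mul, mul_div_cancel₀ _ hm0]
      rw [← h2, ← hy1 v hv]
      exact pow_le_pow_left₀ (hy0 v) (le_add_of_nonneg_left zero_le_one) m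
    have h3 := mul_le_mul_of_nonneg_right h1 (Real.exp_pos (-v)).le
    rwa [mul_assoc, ← Real.exp_add, add_neg_cancel, Real.exp_zero, mul_one] at h3
  have hlow : ∀ v, 1 ≤ v → Tv m c 1 + c ^ m * (v - 1) ≤ Tv m c v := by
    have hmo : MonotoneOn (fun v => Tv m c v - c ^ m * v) (Ici (1 : ℝ)) := by
      have hd : ∀ v, HasDerivAt (fun v => Tv m c v - c ^ m * v) ((1 + yv m c v) ^ m * Real.exp (-v) - c ^ m) v := by
        intro v
        have := (hTd v).sub ((hasDerivAt_id v).const_mul (c ^ m))
        rwa [mul_one] at this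
      refine monotoneOn_of_deriv_nonneg (convex_Ici 1) (fun v _ => (hd v).continuousAt.continuousWithinAt)
        (fun v _ => (hd v).differentiableAt.differentiableWithinAt) ?_
      intro v hv
      rw [(hd v).deriv]
      rw [interior_Ici] at hv
      exact sub_nonneg.mpr (hder v (le_of_lt hv))
    intro v hv
    have := hmo (mem_Ici.mpr le_rfl) (mem_Ici.mpr hv) hv
    simp only at this
    linarith
  have htop : Tendsto (Tv m c) atTop atTop := by
    have h1 : Tendsto (fun v : ℝ => Tv m c 1 + c ^ m * (v - 1)) atTop atTop := by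
      apply tendsto_atTop_add_const_left
      apply Tendsto.const_mul_atTop (pow_pos hc m)
      exact tendsto_atTop_add_const_right _ _ tendsto_id
    refine tendsto_atTop_mono' _ ?_ h1
    filter_upwards [eventually_ge_atTop (1 : ℝ)] with v hv
    exact hlow v hv
  have hsurj : Function.Surjective (Tv m c) := hT.continuous.surjective htop hbot
  obtain ⟨e, he⟩ : ∃ e : ℝ ≃ₜ ℝ, (e : ℝ → ℝ) = Tv m c :=
    ⟨(StrictMono.orderIsoOfSurjective (Tv m c) hmono hsurj).toHomeomorph, rfl⟩
  have h1 : ∀ l, Tv m c (e.symm l) = l := fun l => by rw [← he]; exact e.apply_symm_apply l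
  have h2 : ∀ v, e.symm (Tv m c v) = v := fun v => by rw [← he]; exact e.symm_apply_apply v
  have hVmono : StrictMono e.symm := by
    intro a b hab
    by_contra hcon
    have := hmono.monotone (not_lt.mp hcon)
    rw [h1, h1] at this
    exact absurd hab (not_lt.mpr this)
  refine ⟨e.symm, ?_, h1, h2, hVmono, ?_, ?_⟩
  · refine Homeomorph.contDiff_symm_deriv (f := e) (f' := fun v => (1 + yv m c v) ^ m * Real.exp (-v)) (fun v => (hpos v).ne')
      (fun v => ?_) ?_
    · rw [he]; exact hTd v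
    · rw [he]; exact hT
  · refine tendsto_atTop_atTop.mpr fun b => ⟨Tv m c b, fun l hl => ?_⟩
    have := hVmono.monotone hl
    rwa [h2] at this
  · intro l
    rw [one_div]
    refine HasDerivAt.of_local_left_inverse e.symm.continuous.continuousAt (hTd _) (hpos _).ne' ?_
    exact Eventually.of_forall h1

end Pool.Agent.KH
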