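import Pool.Agent.Lib.MP_93b649_gt.RT2
import Pool.Agent.Lib.MP_93b649_gt.RT5

/-! # ROW RT6: the template exists

Take `c` from `exists_c`, `V` from `exists_inverse`; all functions are functions of `v = V l`, `y = yv m c v`, `y1v = yv1 m c v`, `y2v = yv2 m c v`:
  `g = e^{-v}`, `y = yv`, `y1 = yv1 e^v/(1+y)^m`, `e = nuv/2`, `F = exp(epv)`, `P = e^{2v}/4`, `L = e^{2v}/(4(1+y)^{m+1})`,
  `P1 = e^{3v}/(2(1+y)^m)`, `P2 = e^{4v}(3(1+y) - m y1v)/(2(1+y)^{2m+1})`, `L1 = e^{3v}(2(1+y) - (m+1)y1v)/(4(1+y)^{2m+2})`,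
  `L2 = e^{4v}/(4(1+y)^{3m+2}) · {3(2(1+y)-(m+1)y1v) + (2y1v-(m+1)y2v) - (2m+2) y1v (2(1+y)-(m+1)y1v)/(1+y)}`.
Each is `φ(V l)`, with derivative `φ'(v) e^v/(1+y)^m` (chain rule). E.g. `e' = (1/2) e^v/(1+y) · e^v/(1+y)^m = 2L`,
`F' = F · nuv (1+y)^m e^{-v} · e^v/(1+y)^m = F nuv = 2eF`, `g' = -e^{-v} e^v/(1+y)^m = -1/(1+y)^m`.
`neg`: for `l ≤ -1`, `v = V l ≤ 0` (`V(-1) = V(T 0) = 0`, `V` monotone) and `l = T v = -e^{-v}`, `y = 0`, `nuv = e^v = -1/l`,
`F = e^{v - log 2} = e^v/2`. `ge_le`: `2 g e = e^{-v} nuv ≤ 1`. `gF_le`: `2 g F = 2 e^{-v} e^{epv} ≥ 1`. `F_mono`: `F' > 0`. `F_top`: for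
`l ≥ -1`: `v ≥ 0`, `nuv ≥ 1`, so `F' ≥ F`, `F l ≥ F(-1) e^{l+1}` (or `epv v ≥ v - log 2` and `V → ∞`). `y1_bound`:
`m g (1+y)^{m-1} y1 = m y1v/(1+y) ≤ 2`. `good`: `L ≤ P`; `L2/L - (L1/L)² = 4P · lamv = e^{2v} lamv ≥ 0`;
`(P2/P - (P1/P)²)/(4P) = kapv`, `(L1/L - P1/P)²/(4P) = ehv`, `L/P = 1/(1+y)^{m+1}` (`field_simp; ring`; all checked by hand).
Split off lemmas: one for the derivatives in `v`, one for the three curvature identities (pure algebra in `v,y,y1v,y2v`). -/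

open scoped ContDiff Topology
open Set Filter

noncomputable section

namespace Pool.Agent.KH

/-- derivatives in `v` of `e^{av}/(1+y)^b` -/
theorem rt6_dv {Y : ℝ → ℝ} {d v : ℝ} (hY : HasDerivAt Y d v) (h0 : 1 + Y v ≠ 0) (a b : ℕ) :
    HasDerivAt (fun v => Real.exp v ^ a / (1 + Y v) ^ b)
      (Real.exp v ^ a / (1 + Y v) ^ (b + 1) * (a * (1 + Y v) - b * d)) v := by
  have h1 : HasDerivAt (fun v => Real.exp v ^ a) (a * Real.exp v ^ a) v := by
    have h := (Real.hasDerivAt_exp v).pow a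
    refine h.congr_deriv ?_
    rcases a with _ | a
    · simp
    · rw [Nat.add_sub_cancel]
      ring
  have h2 : HasDerivAt (fun v => (1 + Y v) ^ b) (b * (1 + Y v) ^ (b - 1) * d) v := by
    have h := (hY.const_add 1).pow b
    exact h
  refine (h1.div h2 (pow_ne_zero _ h0)).congr_deriv ?_
  rcases b with _ | b
  · simp only [pow_zero, Nat.cast_zero, zero_add, pow_one]
    field_simp
    ring
  · rw [Nat.add_sub_cancel, div_mul_eq_mul_div, div_eq_div_iff (pow_ne_zero _ (pow_ne_zero _ h0)) (pow_ne_zero _ h0)]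
    ring

/-- chain rule for `φ(V l)` -/
theorem rt6_chain {m : ℕ} {c : ℝ} {V : ℝ → ℝ}
    (hV : ∀ l, HasDerivAt V (1 / ((1 + yv m c (V l)) ^ m * Real.exp (-(V l)))) l)
    {φ : ℝ → ℝ} {d d' l : ℝ} (h : HasDerivAt φ d (V l)) (hd : d * (Real.exp (V l) / (1 + yv m c (V l)) ^ m) = d') :
    HasDerivAt (fun l => φ (V l)) d' l := by
  refine (h.comp l (hV l)).congr_deriv ?_
  rw [← hd, Real.exp_neg]
  congr 1
  rw [one_div, mul_inv, inv_inv]
  ring

/-- the curvature identities -/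
theorem rt6_lam (m : ℕ) (E A y1 y2 : ℝ) (hE : E ≠ 0) (hA : A ≠ 0) :
    (E ^ 4 / A ^ (3 * m + 3) * ((3 * A - (2 * m + 2) * y1) * (2 * A - (m + 1) * y1) + A * (2 * y1 - (m + 1) * y2)) / 4) /
        (E ^ 2 / A ^ (m + 1) / 4) -
      ((E ^ 3 / A ^ (2 * m + 2) * (2 * A - (m + 1) * y1) / 4) / (E ^ 2 / A ^ (m + 1) / 4)) ^ 2 =
    E ^ 2 * (2 * (A - m * y1) / A ^ (2 * m + 1) - ((m + 1) * (y2 / A - y1 ^ 2 / A ^ 2)
      + (m + 1) * y1 * (A - m * y1) / A ^ 2) / A ^ (2 * m)) := by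
  have e1 : A ^ (3 * m + 3) = (A ^ m) ^ 3 * A ^ 3 := by ring
  have e2 : A ^ (2 * m + 2) = (A ^ m) ^ 2 * A ^ 2 := by ring
  have e3 : A ^ (m + 1) = A ^ m * A := by ring
  have e4 : A ^ (2 * m + 1) = (A ^ m) ^ 2 * A := by ring
  have e5 : A ^ (2 * m) = (A ^ m) ^ 2 := by ring
  rw [e1, e2, e3, e4, e5]
  have hB : A ^ m ≠ 0 := pow_ne_zero _ hA
  generalize A ^ m = B at hB ⊢
  field_simp
  ring

theorem rt6_kap (m : ℕ) (E A y1 : ℝ) (hE : E ≠ 0) (hA : A ≠ 0) :
    (E ^ 2 / A ^ (m + 1) / 4) / (E ^ 2 / 4) = 1 / A ^ (m + 1) ∧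
    (E ^ 3 / A ^ (2 * m + 2) * (2 * A - (m + 1) * y1) / 4 / (E ^ 2 / A ^ (m + 1) / 4) - E ^ 3 / A ^ m / 2 / (E ^ 2 / 4)) ^ 2 /
      (4 * (E ^ 2 / 4)) = (m + 1) ^ 2 * y1 ^ 2 / A ^ (2 * m + 2) ∧
    (E ^ 4 / A ^ (2 * m + 1) * (3 * A - m * y1) / 2 / (E ^ 2 / 4) - (E ^ 3 / A ^ m / 2 / (E ^ 2 / 4)) ^ 2) / (4 * (E ^ 2 / 4)) =
      2 * (A - m * y1) / A ^ (2 * m + 1) := by
  have e2 : A ^ (2 * m + 2) = (A ^ m) ^ 2 * A ^ 2 := by ring
  have e3 : A ^ (m + 1) = A ^ m * A := by ring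
  have e4 : A ^ (2 * m + 1) = (A ^ m) ^ 2 * A := by ring
  rw [e2, e3, e4]
  have hB : A ^ m ≠ 0 := pow_ne_zero _ hA
  generalize A ^ m = B at hB ⊢
  refine ⟨?_, ?_, ?_⟩
  · field_simp
  · field_simp
    ring
  · field_simp
    ring

theorem exists_template (m : ℕ) (hm : 3 ≤ m) : Nonempty (Template m) := by
  obtain ⟨c, hc, -, hcurv⟩ := exists_c m hm
  obtain ⟨V, sV, hTV, hVT, hVmono, hVtop, hV⟩ := exists_inverse m hm c hc
  obtain ⟨sY, hY, hY1, hY0, hYn, -, -, -, -, -, hY1n⟩ := yv_facts m hm c hc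
  obtain ⟨⟨-, -⟩, ⟨snu, hnu⟩, ⟨sep, hep⟩⟩ := prim_facts m hm c hc
  obtain ⟨hneg, hnule, hnupos, heple, -⟩ := prim_est m hm c hc
  have hA : ∀ v, 0 < 1 + yv m c v := fun v => by linarith only [hY0 v]
  have hm1 : m - 1 + 1 = m := by omega
  have hV0 : V (-1) = 0 := by
    have h1 := hVT 0
    rw [(hneg 0 le_rfl).1, neg_zero, Real.exp_zero] at h1
    exact h1
  let D : CData :=
    { P := fun l => Real.exp (V l) ^ 2 / 4
      P1 := fun l => Real.exp (V l) ^ 3 / (1 + yv m c (V l)) ^ m / 2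
      P2 := fun l => Real.exp (V l) ^ 4 / (1 + yv m c (V l)) ^ (2 * m + 1) * (3 * (1 + yv m c (V l)) - m * yv1 m c (V l)) / 2
      L := fun l => Real.exp (V l) ^ 2 / (1 + yv m c (V l)) ^ (m + 1) / 4
      L1 := fun l => Real.exp (V l) ^ 3 / (1 + yv m c (V l)) ^ (2 * m + 2) * (2 * (1 + yv m c (V l)) - (m + 1) * yv1 m c (V l)) / 4
      L2 := fun l => Real.exp (V l) ^ 4 / (1 + yv m c (V l)) ^ (3 * m + 3) *
        ((3 * (1 + yv m c (V l)) - (2 * m + 2) * yv1 m c (V l)) * (2 * (1 + yv m c (V l)) - (m + 1) * yv1 m c (V l)) +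
          (1 + yv m c (V l)) * (2 * yv1 m c (V l) - (m + 1) * yv2 m c (V l))) / 4
      e := fun l => nuv m c (V l) / 2
      F := fun l => Real.exp (epv m c (V l))
      P_pos := fun l => by positivity
      L_pos := fun l => by
        have := hA (V l)
        positivity
      F_pos := fun l => Real.exp_pos _
      hP := fun l => by
        refine rt6_chain (φ := fun v => Real.exp v ^ 2 / 4) hV
          (((rt6_dv (hY (V l)) (hA _).ne' 2 0).div_const 4).congr_of_eventuallyEq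
            (Eventually.of_forall fun v => by simp)) ?_
        have h := (hA (V l)).ne'
        simp only [Nat.cast_ofNat, zero_add, pow_one, Nat.cast_zero, zero_mul, sub_zero]
        field_simp
        ring
      hP1 := fun l => by
        refine rt6_chain (φ := fun v => Real.exp v ^ 3 / (1 + yv m c v) ^ m / 2) hV
          ((rt6_dv (hY (V l)) (hA _).ne' 3 m).div_const 2) ?_
        have h := (hA (V l)).ne'
        have e1 : (1 + yv m c (V l)) ^ (2 * m + 1) = (1 + yv m c (V l)) ^ (m + 1) * (1 + yv m c (V l)) ^ m := by ring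
        rw [e1]
        push_cast
        field_simp
      hL := fun l => by
        refine rt6_chain (φ := fun v => Real.exp v ^ 2 / (1 + yv m c v) ^ (m + 1) / 4) hV
          ((rt6_dv (hY (V l)) (hA _).ne' 2 (m + 1)).div_const 4) ?_
        have h := (hA (V l)).ne'
        have e1 : (1 + yv m c (V l)) ^ (2 * m + 2) = (1 + yv m c (V l)) ^ (m + 1 + 1) * (1 + yv m c (V l)) ^ m := by ring
        rw [e1]
        push_cast
        field_simp
      hL1 := fun l => by
        refine rt6_chain (φ := fun v => Real.exp v ^ 3 / (1 + yv m c v) ^ (2 * m + 2) *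
          (2 * (1 + yv m c v) - (m + 1) * yv1 m c v) / 4) hV
          (((rt6_dv (hY (V l)) (hA _).ne' 3 (2 * m + 2)).mul
            ((((hY (V l)).const_add 1).const_mul 2).sub ((hY1 (V l)).const_mul ((m : ℝ) + 1)))).div_const 4) ?_
        have h := (hA (V l)).ne'
        have e1 : (1 + yv m c (V l)) ^ (3 * m + 3) = (1 + yv m c (V l)) ^ (2 * m + 2) * (1 + yv m c (V l)) ^ m * (1 + yv m c (V l)) := by ring
        have e2 : (1 + yv m c (V l)) ^ (2 * m + 2 + 1) = (1 + yv m c (V l)) ^ (2 * m + 2) * (1 + yv m c (V l)) := by ring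
        rw [e1, e2]
        simp only [Pi.sub_apply]
        push_cast
        field_simp
      he := fun l => by
        refine rt6_chain (φ := fun v => nuv m c v / 2) hV ((hnu (V l)).div_const 2) ?_
        have h := (hA (V l)).ne'
        have e1 : (1 + yv m c (V l)) ^ (m + 1) = (1 + yv m c (V l)) * (1 + yv m c (V l)) ^ m := by ring
        rw [e1]
        field_simp
        ring
      hF := fun l => by
        refine rt6_chain (φ := fun v => Real.exp (epv m c v)) hV (hep (V l)).exp ?_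
        have h := (hA (V l)).ne'
        rw [Real.exp_neg]
        have h2 := (Real.exp_pos (V l)).ne'
        field_simp
      sP := ((Real.contDiff_exp.comp sV).pow 2).div_const 4
      sL := (((Real.contDiff_exp.comp sV).pow 2).div ((contDiff_const.add (sY.comp sV)).pow (m + 1))
        fun l => pow_ne_zero _ (hA (V l)).ne').div_const 4
      se := (snu.comp sV).div_const 2
      sF := Real.contDiff_exp.comp (sep.comp sV) }
  have hFmono : StrictMono D.F := strictMono_of_hasDerivAt_pos D.hF fun l => by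
    show 0 < 2 * (nuv m c (V l) / 2) * Real.exp (epv m c (V l))
    have := hnupos (V l)
    positivity
  have hFge : ∀ l, Real.exp (V l) / 2 ≤ D.F l := by
    intro l
    show Real.exp (V l) / 2 ≤ Real.exp (epv m c (V l))
    have h1 := Real.exp_le_exp.2 (heple (V l))
    rwa [Real.exp_sub, Real.exp_log (by norm_num : (0 : ℝ) < 2)] at h1
  refine ⟨{ toCData := D, g := fun l => Real.exp (-(V l)), y := fun l => yv m c (V l)
            y1 := fun l => yv1 m c (V l) * (Real.exp (V l) / (1 + yv m c (V l)) ^ m)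
            g_pos := fun l => Real.exp_pos _
            y_nonneg := fun l => hY0 _
            sg := Real.contDiff_exp.comp sV.neg
            sy := sY.comp sV
            hg := ?_, hy := ?_, P_eq := ?_, L_eq := ?_, neg := ?_, e_pos := ?_, ge_le := ?_, gF_le := ?_
            F_mono := hFmono, F_top := ?_, y1_bound := ?_, good := ⟨?_, ?_, ?_⟩ }⟩
  · intro l
    refine rt6_chain (φ := fun v => Real.exp (-v)) hV (hasDerivAt_neg (V l)).exp ?_
    rw [Real.exp_neg]
    have h2 := (Real.exp_pos (V l)).ne'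
    field_simp
  · intro l
    exact rt6_chain (φ := yv m c) hV (hY (V l)) rfl
  · intro l
    show Real.exp (V l) ^ 2 / 4 = 1 / (4 * Real.exp (-(V l)) ^ 2)
    rw [Real.exp_neg]
    have h2 := (Real.exp_pos (V l)).ne'
    field_simp
  · intro l
    show Real.exp (V l) ^ 2 / (1 + yv m c (V l)) ^ (m + 1) / 4 = 1 / (4 * Real.exp (-(V l)) ^ 2 * (1 + yv m c (V l)) ^ (m + 1))
    rw [Real.exp_neg]
    have h2 := (Real.exp_pos (V l)).ne'
    have h := (hA (V l)).ne'
    field_simp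
  · intro l hl
    have hv : V l ≤ 0 := by
      rw [← hV0]
      exact hVmono.monotone hl
    obtain ⟨h1, h2, h3⟩ := hneg (V l) hv
    rw [hTV] at h1
    have h4 : Real.exp (-(V l)) = -l := by linarith only [h1]
    have h5 : Real.exp (V l) = -1 / l := by
      have h6 : Real.exp (V l) = (Real.exp (-(V l)))⁻¹ := by rw [Real.exp_neg, inv_inv]
      rw [h6, h4, inv_neg, neg_div, one_div]
    have hl0 : l ≠ 0 := by linarith only [hl]
    refine ⟨h4, hYn _ hv, ?_, ?_⟩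
    · show nuv m c (V l) / 2 = -1 / (2 * l)
      rw [h2, h5]
      field_simp
    · show Real.exp (epv m c (V l)) = -1 / (2 * l)
      rw [h3, Real.exp_sub, Real.exp_log (by norm_num : (0 : ℝ) < 2), h5]
      field_simp
  · intro l
    show 0 < nuv m c (V l) / 2
    have := hnupos (V l)
    positivity
  · intro l
    show 2 * Real.exp (-(V l)) * (nuv m c (V l) / 2) ≤ 1
    have h1 := mul_le_mul_of_nonneg_left (hnule (V l)) (Real.exp_pos (-(V l))).le
    rw [← Real.exp_add, neg_add_cancel, Real.exp_zero] at h1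
    linarith only [h1]
  · intro l
    show 1 ≤ 2 * Real.exp (-(V l)) * D.F l
    have h1 := mul_le_mul_of_nonneg_left (hFge l) (Real.exp_pos (-(V l))).le
    have h2 : Real.exp (-(V l)) * (Real.exp (V l) / 2) = 1 / 2 := by
      rw [mul_div_assoc', ← Real.exp_add, neg_add_cancel, Real.exp_zero]
    rw [h2] at h1
    linarith only [h1]
  · refine tendsto_atTop_mono hFge ?_
    exact (Real.tendsto_exp_atTop.comp hVtop).atTop_div_const (by norm_num)
  · intro l
    have h1 := hY1n (V l)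
    have h2 := hA (V l)
    refine ⟨by positivity, ?_⟩
    refine le_trans (le_of_eq ?_) (hcurv (V l)).2.2
    rw [Real.exp_neg]
    have h3 := (Real.exp_pos (V l)).ne'
    have e1 : (1 + yv m c (V l)) ^ m = (1 + yv m c (V l)) ^ (m - 1) * (1 + yv m c (V l)) := by
      rw [← pow_succ, hm1]
    rw [e1]
    field_simp
  · intro l
    show Real.exp (V l) ^ 2 / (1 + yv m c (V l)) ^ (m + 1) / 4 ≤ Real.exp (V l) ^ 2 / 4
    refine div_le_div_of_nonneg_right (div_le_self (by positivity) (one_le_pow₀ ?_)) (by norm_num)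
    linarith only [hY0 (V l)]
  · intro l
    have h1 := rt6_lam m (Real.exp (V l)) (1 + yv m c (V l)) (yv1 m c (V l)) (yv2 m c (V l)) (Real.exp_pos _).ne' (hA _).ne'
    refine le_trans ?_ (le_of_eq h1.symm)
    exact mul_nonneg (by positivity) (hcurv (V l)).1
  · intro l
    obtain ⟨h1, h2, h3⟩ := rt6_kap m (Real.exp (V l)) (1 + yv m c (V l)) (yv1 m c (V l)) (Real.exp_pos _).ne' (hA _).ne'
    have h4 := (hcurv (V l)).2.1
    show (Real.exp (V l) ^ 2 / (1 + yv m c (V l)) ^ (m + 1) / 4 / (Real.exp (V l) ^ 2 / 4)) ^ 2 / 2 +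
      Real.exp (V l) ^ 2 / (1 + yv m c (V l)) ^ (m + 1) / 4 / (Real.exp (V l) ^ 2 / 4) *
        ((Real.exp (V l) ^ 3 / (1 + yv m c (V l)) ^ (2 * m + 2) * (2 * (1 + yv m c (V l)) - (m + 1) * yv1 m c (V l)) / 4 /
          (Real.exp (V l) ^ 2 / (1 + yv m c (V l)) ^ (m + 1) / 4) - Real.exp (V l) ^ 3 / (1 + yv m c (V l)) ^ m / 2 /
          (Real.exp (V l) ^ 2 / 4)) ^ 2 / (4 * (Real.exp (V l) ^ 2 / 4))) / 2 <
      (Real.exp (V l) ^ 4 / (1 + yv m c (V l)) ^ (2 * m + 1) * (3 * (1 + yv m c (V l)) - m * yv1 m c (V l)) / 2 /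
        (Real.exp (V l) ^ 2 / 4) - (Real.exp (V l) ^ 3 / (1 + yv m c (V l)) ^ m / 2 / (Real.exp (V l) ^ 2 / 4)) ^ 2) /
        (4 * (Real.exp (V l) ^ 2 / 4))
    rw [h1, h2, h3]
    exact h4

end Pool.Agent.KH
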