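import Pool.Agent.Lib.MP_93b649_gt.BComplete
import Pool.Agent.Lib.MP_93b649_gt.RH4
import Pool.Agent.Lib.MP_93b649_gt.RD7
import Pool.Agent.Lib.MP_93b649_gt.RH5

/-! # ROW RZ1: base point and the bound `h ≥ 1/(1+4ρ)^{1+1/m}`

* `holoHyp_M`: `isOpen_M`, `line_mem`, `mem_of_Y_M`, `down_mem`, `pt_injective`, `pt_count` and `one_le_pt`.
* `bp = (0,-1)`: `Y = 2`; `|0 - p_k| ≥ 1 > 2λ_k`: `out_disc`/`vals_out`: in `M`, `RR = 1`.
* `HH_ge`: `lip_RR` and `IsLip.dist`: `RR x ≤ 1 + 4ρ`; `HH x = 1/(1+y)^{m+1}`, `RR x = (1+y)^m`, so `(1+y)^{m+1} = RR^{1+1/m} ≤ (1+4ρ)^{1+1/m}` (`Real.rpow`, `m ≠ 0`).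
* `exists_tau`: `√τ ≤ 4`: `1 + 4r ≤ (4/√τ)(1 + √τ r)`, so `A τ (1+4r)^{1+δ} ≤ A τ (4/√τ)^{1+δ}(1+√τ r)^{1+δ}`, and `A 4^{1+δ} τ^{(1-δ)/2} ≤ 1` for small `τ`
  (take `τ = min 1 (A 4^{1+δ})^{-2/(1-δ)}`). -/

open scoped ContDiff Topology ComplexConjugate
open Set Filter

noncomputable section

namespace Pool.Agent.KH

variable {m : ℕ} (T : Template m)

theorem holoHyp_M : HoloHyp (M T) pt where
  isOpen := isOpen_M T
  line := line_mem T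
  big := fun _ hx => mem_of_Y_M T hx
  down := fun _ _ _ h hW => down_mem T h hW
  inj := pt_injective
  count := fun R hR k hk => ⟨zero_le_one.trans (one_le_pt k), pt_count R hR k hk⟩

/-- the base point `(0,-1)` -/
def bp : ℂ × ℂ := (0, -1)

theorem bp_mem : bp ∈ M T ∧ RR T bp = 1 := by
  have h : ∀ k, Real.sqrt 2 * sc k ≤ ‖bp.1 - (pt k : ℂ)‖ := by
    intro k
    have h1 : ‖bp.1 - (pt k : ℂ)‖ = pt k := by
      have h2 := one_le_pt k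
      simp only [bp, zero_sub, norm_neg, Complex.norm_real, Real.norm_eq_abs]
      exact abs_of_nonneg (by linarith)
    rw [h1]
    have h3 : Real.sqrt 2 ≤ 2 := Real.sqrt_le_iff.2 ⟨by norm_num, by norm_num⟩
    have h4 := sc_le k
    have h5 := sc_pos k
    have h6 := one_le_pt k
    calc Real.sqrt 2 * sc k ≤ 2 * (1 / 200) := mul_le_mul h3 h4 h5.le (by norm_num)
      _ ≤ 1 := by norm_num
      _ ≤ pt k := h6
  have hY : 0 < Y bp := by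
    simp only [Y, bp, Complex.neg_re, Complex.one_re, map_zero]
    norm_num
  exact ⟨(out_disc T h).1.2 hY, (vals_out T h hY).2.2⟩

theorem HH_ge (hm : 3 ≤ m) {x : ℂ × ℂ} (hx : x ∈ M T) :
    1 / (1 + 4 * riemannianDist (M T) (G T) bp x) ^ (1 + 1 / (m : ℝ)) ≤ HH T x := by
  obtain ⟨hb, hb1⟩ := bp_mem T
  have h1 := (lip_RR T).dist (isMetric_M T) (isJoined_M T) (by norm_num) hb hx
  rw [hb1] at h1
  have h2 : RR T x ≤ 1 + 4 * riemannianDist (M T) (G T) bp x := by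
    have := (abs_le.1 h1).2
    linarith
  have hy := T.y_nonneg (lev x)
  have hs : 0 < 1 + T.y (lev x) := by linarith
  have hm0 : (m : ℝ) ≠ 0 := by
    have : m ≠ 0 := by omega
    exact_mod_cast this
  have h3 : (1 + T.y (lev x)) ^ (m + 1) = ((1 + T.y (lev x)) ^ m) ^ (1 + 1 / (m : ℝ)) := by
    rw [← Real.rpow_natCast (1 + T.y (lev x)) m, ← Real.rpow_mul hs.le, ← Real.rpow_natCast]
    congr 1
    push_cast
    field_simp
  have h4 : 0 < (1 + T.y (lev x)) ^ (m + 1) := pow_pos hs _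
  unfold HH
  refine one_div_le_one_div_of_le h4 ?_
  rw [h3]
  refine Real.rpow_le_rpow (pow_nonneg hs.le _) h2 ?_
  have : 0 ≤ 1 / (m : ℝ) := by positivity
  linarith

theorem exists_tau {A δ : ℝ} (hA : 0 < A) (hδ : 0 < δ) (hδ1 : δ < 1) : ∃ τ : ℝ, 0 < τ ∧ ∀ r : ℝ, 0 ≤ r →
    A / (1 + Real.sqrt τ * r) ^ (1 + δ) ≤ 1 / (1 + 4 * r) ^ (1 + δ) / τ := by
  have h4 : 0 < (4 : ℝ) ^ (1 + δ) := Real.rpow_pos_of_pos (by norm_num) _
  have h1δ : 0 < 1 - δ := by linarith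
  obtain ⟨c, hc, hcA⟩ : ∃ c : ℝ, 0 < c ∧ A * 4 ^ (1 + δ) * c = 1 :=
    ⟨1 / (A * 4 ^ (1 + δ)), by positivity, by field_simp⟩
  obtain ⟨s, hs, hs1, hsc⟩ : ∃ s : ℝ, 0 < s ∧ s ≤ 1 ∧ s ^ (1 - δ) ≤ c := by
    have hs : 0 < min 1 (c ^ (1 / (1 - δ))) := lt_min one_pos (Real.rpow_pos_of_pos hc _)
    refine ⟨min 1 (c ^ (1 / (1 - δ))), hs, min_le_left _ _, ?_⟩
    calc (min 1 (c ^ (1 / (1 - δ)))) ^ (1 - δ) ≤ (c ^ (1 / (1 - δ))) ^ (1 - δ) :=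
          Real.rpow_le_rpow hs.le (min_le_right _ _) h1δ.le
      _ = c := by rw [← Real.rpow_mul hc.le, one_div_mul_cancel h1δ.ne', Real.rpow_one]
  refine ⟨s ^ 2, pow_pos hs 2, fun r hr => ?_⟩
  rw [Real.sqrt_sq hs.le, div_div]
  have hsr : 0 ≤ s * r := mul_nonneg hs.le hr
  have hp1 : 0 < (1 + s * r) ^ (1 + δ) := Real.rpow_pos_of_pos (by linarith) _
  have hp2 : 0 < (1 + 4 * r) ^ (1 + δ) := Real.rpow_pos_of_pos (by linarith) _
  have hp3 : 0 < s ^ (1 + δ) := Real.rpow_pos_of_pos hs _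
  rw [div_le_div_iff₀ hp1 (mul_pos hp2 (pow_pos hs 2)), one_mul]
  have e1 : (1 + 4 * r) ^ (1 + δ) ≤ 4 ^ (1 + δ) / s ^ (1 + δ) * (1 + s * r) ^ (1 + δ) := by
    rw [← Real.div_rpow (by norm_num) hs.le, ← Real.mul_rpow (by positivity) (by linarith)]
    refine Real.rpow_le_rpow (by linarith) ?_ (by linarith)
    rw [div_mul_eq_mul_div, le_div_iff₀ hs]
    nlinarith
  have e2 : s ^ 2 = s ^ (1 + δ) * s ^ (1 - δ) := by
    rw [← Real.rpow_add hs, show 1 + δ + (1 - δ) = ((2 : ℕ) : ℝ) by push_cast; ring, Real.rpow_natCast]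
  calc A * ((1 + 4 * r) ^ (1 + δ) * s ^ 2)
      ≤ A * (4 ^ (1 + δ) / s ^ (1 + δ) * (1 + s * r) ^ (1 + δ) * s ^ 2) :=
        mul_le_mul_of_nonneg_left (mul_le_mul_of_nonneg_right e1 (sq_nonneg s)) hA.le
    _ = A * 4 ^ (1 + δ) * s ^ (1 - δ) * (1 + s * r) ^ (1 + δ) := by
        rw [e2]
        field_simp
    _ ≤ A * 4 ^ (1 + δ) * c * (1 + s * r) ^ (1 + δ) :=
        mul_le_mul_of_nonneg_right (mul_le_mul_of_nonneg_left hsc (mul_pos hA h4).le) hp1.le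
    _ = (1 + s * r) ^ (1 + δ) := by rw [hcA, one_mul]

end Pool.Agent.KH
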