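import Pool.Agent.Lib.MP_93b649_gt.RZ1
import Pool.Agent.Lib.MP_93b649_gt.RT6

/-! # ROW RZ2: assembly

Choose `m ≥ 3` with `1/m ≤ ε`, `T : Template m` (`exists_template`), `δ = 1/m`, `τ` from `exists_tau A δ`, metric `scale τ (G T)`, base point `bp`. `isOpen_M`, `bp_mem`,
`contractible (holoHyp_M T)` (simply connected: instance `SimplyConnectedSpace.ofContractible`), `isKahler_scale (isKahler_M T)`, `complete_scale (complete_M T)`,
`negCurved_scale (negCurved_M T)`, `holo_const (holoHyp_M T)`. Ricci: `ricci_scale` (`isMetric_M`, `riemann_linear_M`) of `ricci_M` gives `c = -HH/τ`; by `HH_ge`, `exists_tau` with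
`r = riemannianDist (M T) (G T) bp x`, `dist_scale`, and `(1+ρ)^{1+δ} ≤ (1+ρ)^{1+ε}` (`Real.rpow_le_rpow_of_exponent_le`):
`-HH/τ ≤ -A/(1+ρ)^{1+δ} ≤ -A/(1+ρ)^{1+ε}`; multiply by `scale τ g x v v ≥ 0`. -/

open scoped ContDiff Topology ComplexConjugate
open Set Filter

noncomputable section

namespace Pool.Agent.KH

/-- The answer to Q1 with constants `ε, A`: a simply connected complete Kähler manifold (an open subset of `ℂ²`) of negative
sectional curvature with `Ric ≤ -A/(1+ρ)^(1+ε)` without nonconstant bounded holomorphic functions. -/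
def CounterExample (ε A : ℝ) : Prop :=
  ∃ (M : Set (ℂ × ℂ)) (g : ℂ × ℂ → ℂ × ℂ → ℂ × ℂ → ℝ) (p : ℂ × ℂ),
    IsOpen M ∧ p ∈ M ∧ ContractibleSpace M ∧ SimplyConnectedSpace M ∧ IsKahler M g ∧ IsCompleteMetric M g ∧
      NegativelyCurved M g ∧
      RicciLE M g (fun x => - (A / (1 + riemannianDist M g p x) ^ (1 + ε))) ∧
      BoundedHolomorphicConstant M

theorem rz2_nonneg {M : Set (ℂ × ℂ)} {g : Form} (h : IsMetric M g) {x : ℂ × ℂ} (hx : x ∈ M)
    (v : ℂ × ℂ) : 0 ≤ g x v v := by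
  by_cases hv : v = 0
  · have h1 := h.smul x hx 0 v v
    rw [zero_smul, zero_mul] at h1
    rw [hv] at h1 ⊢
    exact h1.ge
  · exact (h.pos x hx v hv).le

theorem main (ε A : ℝ) (hε : 0 < ε) (hA : 0 < A) : CounterExample ε A := by
  obtain ⟨n, hn⟩ := exists_nat_ge (1 / ε)
  obtain ⟨m, hm3, hmn⟩ : ∃ m : ℕ, 3 ≤ m ∧ n ≤ m := ⟨max 3 n, le_max_left _ _, le_max_right _ _⟩
  have hm0 : (0 : ℝ) < m := by
    have : (3 : ℝ) ≤ m := by exact_mod_cast hm3
    linarith
  have hmε : 1 / (m : ℝ) ≤ ε := by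
    have h1 : (n : ℝ) ≤ m := by exact_mod_cast hmn
    have h2 : 1 / ε ≤ m := hn.trans h1
    rw [div_le_iff₀ hε] at h2
    rw [div_le_iff₀ hm0]
    linarith
  have hδ : 0 < 1 / (m : ℝ) := by positivity
  have hδ1 : 1 / (m : ℝ) < 1 := by
    rw [div_lt_one hm0]
    have : (3 : ℝ) ≤ m := by exact_mod_cast hm3
    linarith
  obtain ⟨T⟩ := exists_template m hm3
  obtain ⟨τ, hτ, hτr⟩ := exists_tau hA hδ hδ1
  have hc : ContractibleSpace (M T) := contractible (holoHyp_M T)
  refine ⟨M T, scale τ (G T), bp, isOpen_M T, (bp_mem T).1, hc, inferInstance,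
    isKahler_scale hτ (isKahler_M T), complete_scale hτ (complete_M T),
    negCurved_scale hτ (negCurved_M T), ?_, holo_const (holoHyp_M T)⟩
  intro x hx e he v
  have h1 := ricci_scale hτ (isMetric_M T) (fun x hx v w => riemann_linear_M T hx v w)
    (ricci_M T) x hx e he v
  refine h1.trans (mul_le_mul_of_nonneg_right ?_ (mul_nonneg hτ.le (rz2_nonneg (isMetric_M T) hx v)))
  beta_reduce
  rw [dist_scale hτ]
  have hr : 0 ≤ riemannianDist (M T) (G T) bp x := riemannianDist_nonneg _ _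
  have h2 := hτr _ hr
  have h3 := HH_ge T hm3 hx
  have h4 : 1 / (1 + 4 * riemannianDist (M T) (G T) bp x) ^ (1 + 1 / (m : ℝ)) / τ ≤ HH T x / τ :=
    div_le_div_of_nonneg_right h3 hτ.le
  have hb : 1 ≤ 1 + Real.sqrt τ * riemannianDist (M T) (G T) bp x := by
    have := mul_nonneg (Real.sqrt_nonneg τ) hr
    linarith
  have h5 : A / (1 + Real.sqrt τ * riemannianDist (M T) (G T) bp x) ^ (1 + ε) ≤
      A / (1 + Real.sqrt τ * riemannianDist (M T) (G T) bp x) ^ (1 + 1 / (m : ℝ)) := by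
    refine div_le_div_of_nonneg_left hA.le (Real.rpow_pos_of_pos (by linarith) _) ?_
    exact Real.rpow_le_rpow_of_exponent_le hb (by linarith)
  have h6 : A / (1 + Real.sqrt τ * riemannianDist (M T) (G T) bp x) ^ (1 + ε) ≤ HH T x / τ :=
    h5.trans (h2.trans h4)
  have h7 : -HH T x / τ = -(HH T x / τ) := neg_div _ _
  change -HH T x / τ ≤ _
  rw [h7]
  linarith

end Pool.Agent.KH
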